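import Mathlib

set_option autoImplicit false

/-!
# Noncrossing graphs on a labelled planar configuration, in terms of orientations only

`P : ι → ℝ × ℝ` is a configuration, `L P i j k` says that the triangle `P i, P j, P k` is counterclockwise.
All notions (crossing, pointed, maximal pointed noncrossing graph) are defined for an abstract orientation
predicate `o : ι → ι → ι → Prop`; it is applied to `o = L P`.
-/

namespace Pool.Agent.Work.MP_02cc39_co.PT

open Classical

variable {ι : Type*}

/-- twice the signed area of the triangle `P i, P j, P k` -/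
def det (P : ι → ℝ × ℝ) (i j k : ι) : ℝ :=
  ((P j).1 - (P i).1) * ((P k).2 - (P i).2) - ((P j).2 - (P i).2) * ((P k).1 - (P i).1)

/-- the triangle `P i, P j, P k` is counterclockwise (`k` is to the left of the line from `i` to `j`) -/
def L (P : ι → ℝ × ℝ) (i j k : ι) : Prop := 0 < det P i j k

/-- general position: the points are distinct and no three are on a line -/
def Gen (P : ι → ℝ × ℝ) : Prop :=
  Function.Injective P ∧ ∀ i j k : ι, i ≠ j → i ≠ k → j ≠ k → det P i j k ≠ 0

/-- the segments `ab` and `cd` cross (used for four distinct indices) -/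
def Cross (o : ι → ι → ι → Prop) (a b c d : ι) : Prop := (o a b c ↔ ¬ o a b d) ∧ (o c d a ↔ ¬ o c d b)

/-- no two edges without a common end cross -/
def NonCr (o : ι → ι → ι → Prop) (E : Finset (Sym2 ι)) : Prop :=
  ∀ a b c d : ι, s(a, b) ∈ E → s(c, d) ∈ E → a ≠ c → a ≠ d → b ≠ c → b ≠ d → ¬ Cross o a b c d

/-- `v` is pointed: it has no neighbour, or there is a neighbour `a` such that all other neighbours are
to the left of the line from `v` to `a` -/
def Ptd (o : ι → ι → ι → Prop) (E : Finset (Sym2 ι)) (v : ι) : Prop :=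
  (∀ b, s(v, b) ∉ E) ∨ ∃ a, s(v, a) ∈ E ∧ ∀ b, s(v, b) ∈ E → b ≠ a → o v a b

/-- the noncrossing graphs which are pointed at all vertices of `V` -/
structure Fam (o : ι → ι → ι → Prop) (V : Finset ι) (E : Finset (Sym2 ι)) : Prop where
  nd : ∀ e ∈ E, ¬ e.IsDiag
  nc : NonCr o E
  pt : ∀ v ∈ V, Ptd o E v

/-- the maximal ones -/
def Max (o : ι → ι → ι → Prop) (V : Finset ι) (E : Finset (Sym2 ι)) : Prop :=
  Fam o V E ∧ ∀ e : Sym2 ι, ¬ e.IsDiag → e ∉ E → ¬ Fam o V (insert e E)

/-- `w` is not a vertex of the convex hull: there is another point, and for every other point `a` some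
further point is not to the left of the line from `w` to `a` -/
def Inner (o : ι → ι → ι → Prop) (w : ι) : Prop :=
  (∃ a, a ≠ w) ∧ ∀ a, a ≠ w → ∃ b, b ≠ w ∧ b ≠ a ∧ ¬ o w a b

/-- the finite set of the maximal noncrossing graphs pointed on `V` -/
noncomputable def MaxSet [Fintype ι] (o : ι → ι → ι → Prop) (V : Finset ι) : Finset (Finset (Sym2 ι)) :=
  Finset.univ.filter fun E => Max o V E

/-- the number `a_V` -/
noncomputable def cnt [Fintype ι] (o : ι → ι → ι → Prop) (V : Finset ι) : ℕ := (MaxSet o V).card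

/-- the Moebius inverse `b_W` of `V ↦ a_V` -/
noncomputable def bb [Fintype ι] (o : ι → ι → ι → Prop) (W : Finset ι) : ℤ :=
  ∑ V ∈ W.powerset, (-1 : ℤ) ^ (W.card - V.card) * (cnt o V : ℤ)

/-- the rules for orientations which are needed (they hold for `L P` with `P` in general position) -/
structure CC (o : ι → ι → ι → Prop) : Prop where
  /-- cyclic symmetry -/
  cyc : ∀ i j k, o i j k → o j k i
  /-- the three points are distinct -/
  ne : ∀ i j k, o i j k → i ≠ j ∧ i ≠ k ∧ j ≠ k
  /-- antisymmetry -/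
  anti : ∀ i j k, o i j k → ¬ o i k j
  /-- totality -/
  tot : ∀ i j k, i ≠ j → i ≠ k → j ≠ k → ¬ o i j k → o i k j
  /-- three-term Grassmann-Pluecker relation for the four points `a, b, c, d` seen from `x` -/
  gp : ∀ x a b c d, [x, a, b, c, d].Nodup → (o x a b ↔ o x c d) → (o x a d ↔ o x b c) → (o x a c ↔ o x b d)

/-- Mutation: `o` and `o'` differ only in the triple `p, m, q`; the point `m` is close to the segment `pq`
(every other point is on the same side of the three lines `pm`, `mq`, `pq`), to the left of `pq` in `o` and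
to the right of `pq` in `o'`. -/
structure Mut (o o' : ι → ι → ι → Prop) (p m q : ι) : Prop where
  pm : p ≠ m
  mq : m ≠ q
  pq : p ≠ q
  same : ∀ i j k, ¬ ((i = p ∨ i = m ∨ i = q) ∧ (j = p ∨ j = m ∨ j = q) ∧ (k = p ∨ k = m ∨ k = q)) →
    (o i j k ↔ o' i j k)
  mid1 : ∀ x, x ≠ p → x ≠ m → x ≠ q → (o p m x ↔ o p q x)
  mid2 : ∀ x, x ≠ p → x ≠ m → x ≠ q → (o m q x ↔ o p q x)
  up : o p q m
  dn : o' q p m

/-- first type: the edge `pq` and an edge at `m` which does not end in `p` or `q` -/
def T1 (p m q : ι) (E : Finset (Sym2 ι)) : Prop := s(p, q) ∈ E ∧ ∃ x, x ≠ p ∧ x ≠ q ∧ s(m, x) ∈ E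

/-- second type: the edges `pm`, `mq`, another edge at `m`, and not the edge `pq` -/
def T2 (p m q : ι) (E : Finset (Sym2 ι)) : Prop :=
  s(p, m) ∈ E ∧ s(m, q) ∈ E ∧ s(p, q) ∉ E ∧ ∃ x, x ≠ p ∧ x ≠ q ∧ s(m, x) ∈ E

end Pool.Agent.Work.MP_02cc39_co.PT
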