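import Pool.Agent.Work.MP_02cc39_co.PT.Base

set_option autoImplicit false

/-!
# Triangles of a graph (abstract, size S-M)

`Face o T a b c`: the triangle a b c is counterclockwise, its sides are in T and no point is strictly inside.

PROOFS (cyc; for distinct points o i k j ↔ ¬ o i j k).
`face_rot`: cyc, `Sym2.eq_swap`.
`face_unique`: suppose c ≠ c'. Case o a c c': by `emp` of (a, b, c') for g = c: o a b c is true, o c' a c is true (cyc), so o b c' c is false, hence o b c c'. Then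
Cross o a c b c': o a c b is false (o a b c), o a c c' is true; o b c' a is true (cyc), o b c' c is false. The edges ac, bc' are in T: contradiction. Case o a c' c: exchange c, c'.
`face_cone`: suppose o a b g and o a g c. g is not strictly inside, o c a g is true (cyc), so o b c g is false. Cross o a g b c: o a g b is false, o a g c is true;
o b c a is true, o b c g is false. g ≠ b, c by `ne`. Contradiction to NonCr (s(a,g), s(b,c) ∈ T).
-/

namespace Pool.Agent.Work.MP_02cc39_co.PT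

open Classical

variable {ι : Type*} {o : ι → ι → ι → Prop}

/-- a counterclockwise triangle of `T` without points inside -/
structure Face (o : ι → ι → ι → Prop) (T : Finset (Sym2 ι)) (a b c : ι) : Prop where
  l : o a b c
  ab : s(a, b) ∈ T
  bc : s(b, c) ∈ T
  ca : s(c, a) ∈ T
  emp : ∀ g, ¬ (o a b g ∧ o b c g ∧ o c a g)

theorem face_rot (hC : CC o) {T : Finset (Sym2 ι)} {a b c : ι} (h : Face o T a b c) : Face o T b c a := by
  refine ⟨hC.cyc _ _ _ h.l, h.bc, h.ca, h.ab, ?_⟩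
  rintro g ⟨h1, h2, h3⟩
  exact h.emp g ⟨h3, h1, h2⟩

private theorem face_unique_aux (hC : CC o) {T : Finset (Sym2 ι)} (hnc : NonCr o T) {a b c c' : ι}
    (h : Face o T a b c) (h' : Face o T a b c') (hcc : c ≠ c') (h1 : o a c c') : False := by
  obtain ⟨n1, n2, n3⟩ := hC.ne _ _ _ h.l
  obtain ⟨m1, m2, m3⟩ := hC.ne _ _ _ h'.l
  have h2 : o c' a c := hC.cyc _ _ _ (hC.cyc _ _ _ h1)
  have h3 : ¬ o b c' c := fun h4 => h'.emp c ⟨h.l, h4, h2⟩
  have h5 : s(a, c) ∈ T := by rw [Sym2.eq_swap]; exact h.ca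
  refine hnc a c b c' h5 h'.bc n1 m2 n3.symm hcc ⟨?_, ?_⟩
  · have h6 := hC.anti _ _ _ h.l
    tauto
  · have h6 := hC.cyc _ _ _ h'.l
    tauto

theorem face_unique (hC : CC o) {T : Finset (Sym2 ι)} (hnc : NonCr o T) {a b c c' : ι} (h : Face o T a b c)
    (h' : Face o T a b c') : c = c' := by
  by_contra hcc
  obtain ⟨n1, n2, n3⟩ := hC.ne _ _ _ h.l
  obtain ⟨m1, m2, m3⟩ := hC.ne _ _ _ h'.l
  by_cases h1 : o a c c'
  · exact face_unique_aux hC hnc h h' hcc h1
  · exact face_unique_aux hC hnc h' h (Ne.symm hcc) (hC.tot _ _ _ n2 m2 hcc h1)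

/-- no edge of `T` at `a` enters the triangle -/
theorem face_cone (hC : CC o) {T : Finset (Sym2 ι)} (hnc : NonCr o T) {a b c g : ι} (h : Face o T a b c)
    (hg : s(a, g) ∈ T) : ¬ (o a b g ∧ o a g c) := by
  rintro ⟨h1, h2⟩
  obtain ⟨n1, n2, n3⟩ := hC.ne _ _ _ h.l
  obtain ⟨m1, m2, m3⟩ := hC.ne _ _ _ h1
  obtain ⟨k1, k2, k3⟩ := hC.ne _ _ _ h2
  have h3 : o c a g := hC.cyc _ _ _ (hC.cyc _ _ _ h2)
  have h4 : ¬ o b c g := fun h5 => h.emp g ⟨h1, h5, h3⟩
  refine hnc a g b c hg h.bc n1 n2 m3.symm k3 ⟨?_, ?_⟩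
  · have h6 := hC.anti _ _ _ h1
    tauto
  · have h6 := hC.cyc _ _ _ h.l
    tauto

end Pool.Agent.Work.MP_02cc39_co.PT
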