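import Pool.Agent.Work.MP_02cc39_co.PT.Defs

set_option autoImplicit false

/-!
# Neighbours in a half plane: pointedness

Abstract orientation predicate `o` with the rules `CC o`.

PROOF of `trans_left`: `gp v s a b c` (the list is Nodup by `ne`): (o v s a iff o v b c) holds (both true),
(o v s c iff o v a b) holds (both true), hence (o v s b iff o v a c), so `o v a c`.
`trans_right`: `gp v a b c s`: (o v a b iff o v c s), (o v a s iff o v b c) hold, so (o v a c iff o v b s), hence `o v a c`.
(if two of the points coincide, e.g. a = c, use `anti`/`ne` to get a contradiction from the hypotheses: o v a b and o v b a.)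
`ptd_of_half`: if v = s there is no neighbour b of v with b <> s (`ne`), so either no edge at v or a = s works (vacuous).
If s is a neighbour take a = s. Otherwise the set N of the neighbours of v (a finite set: the image of E; for instance
the b with s(v,b) in E, which injects into E by b -> s(v,b)) is contained in { b | o v s b }; on this set the relation
b < c :iff o v b c is transitive (`trans_left`) and total on distinct elements (`tot`), so if N is nonempty it has a
smallest element a (induction on finite subsets of N: a nonempty finite subset has an element a with o v a b for all other b).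
`ptd_of_half_last`: the same with `trans_right`: N without s has a smallest element a (if it is nonempty), and o v a s holds
if s is a neighbour; if N without s is empty take a = s or no neighbour at all.
`ptd_mono`: from `ptd_of_half` with s = a (a the first neighbour in E).
`ptd_last`: by `ptd_of_half`-type argument: all neighbours other than a satisfy o v a b; take the largest one (or a itself if
there is no other).
-/

namespace Pool.Agent.Work.MP_02cc39_co.PT

open Classical

variable {ι : Type*} {o : ι → ι → ι → Prop}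

private theorem fin_min {N : Finset ι} {r : ι → ι → Prop}
    (htot : ∀ x ∈ N, ∀ y ∈ N, x ≠ y → r x y ∨ r y x)
    (htr : ∀ x ∈ N, ∀ y ∈ N, ∀ z ∈ N, r x y → r y z → r x z) (hne : N.Nonempty) :
    ∃ a ∈ N, ∀ b ∈ N, b ≠ a → r a b := by
  induction N using Finset.induction_on with
  | empty => exact absurd rfl hne.ne_empty
  | insert x N hx ih =>
    by_cases hN : N.Nonempty
    · obtain ⟨a, ha, hmin⟩ := ih
        (fun u hu w hw => htot u (Finset.mem_insert_of_mem hu) w (Finset.mem_insert_of_mem hw))
        (fun u hu w hw z hz => htr u (Finset.mem_insert_of_mem hu) w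
          (Finset.mem_insert_of_mem hw) z (Finset.mem_insert_of_mem hz)) hN
      have hax : a ≠ x := fun h => hx (h ▸ ha)
      rcases htot a (Finset.mem_insert_of_mem ha) x (Finset.mem_insert_self x N) hax with h | h
      · refine ⟨a, Finset.mem_insert_of_mem ha, fun b hb hba => ?_⟩
        rcases Finset.mem_insert.1 hb with h1 | h1
        · rw [h1]; exact h
        · exact hmin b h1 hba
      · refine ⟨x, Finset.mem_insert_self x N, fun b hb hbx => ?_⟩
        have h1 := (Finset.mem_insert.1 hb).resolve_left hbx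
        by_cases hba : b = a
        · rw [hba]; exact h
        · exact htr x (Finset.mem_insert_self x N) a (Finset.mem_insert_of_mem ha) b hb h
            (hmin b h1 hba)
    · rw [Finset.not_nonempty_iff_eq_empty] at hN
      refine ⟨x, Finset.mem_insert_self x N, fun b hb hbx => ?_⟩
      rw [hN] at hb
      simp at hb
      exact absurd hb hbx

/-- the neighbours of `v` -/
private theorem nb_exists (E : Finset (Sym2 ι)) (v : ι) :
    ∃ N : Finset ι, ∀ b, b ∈ N ↔ s(v, b) ∈ E := by
  have hinj : Function.Injective (fun b : ι => s(v, b)) := by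
    intro b c h
    exact (Sym2.congr_right).1 h
  have hfin : ((fun b : ι => s(v, b)) ⁻¹' (E : Set (Sym2 ι))).Finite :=
    Set.Finite.preimage hinj.injOn E.finite_toSet
  exact ⟨hfin.toFinset, fun b => by rw [Set.Finite.mem_toFinset]; exact Iff.rfl⟩

theorem trans_left (hC : CC o) {v s a b c : ι} (h1 : o v s a) (h2 : o v s b) (h3 : o v s c)
    (hab : o v a b) (hbc : o v b c) : o v a c := by
  have n1 := hC.ne _ _ _ h1
  have n2 := hC.ne _ _ _ h2
  have n3 := hC.ne _ _ _ h3
  have n4 := hC.ne _ _ _ hab
  have n5 := hC.ne _ _ _ hbc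
  have hac : a ≠ c := by
    rintro rfl
    exact hC.anti _ _ _ hab hbc
  have hnd : [v, s, a, b, c].Nodup := by
    simp only [List.nodup_cons, List.mem_cons, List.not_mem_nil, or_false, not_or,
      not_false_eq_true, List.nodup_nil, and_true]
    exact ⟨⟨n1.1, n1.2.1, n2.2.1, n3.2.1⟩, ⟨n1.2.2, n2.2.2, n3.2.2⟩, ⟨n4.2.2, hac⟩, n5.2.2⟩
  exact (hC.gp v s a b c hnd ⟨fun _ => hbc, fun _ => h1⟩ ⟨fun _ => hab, fun _ => h3⟩).1 h2

theorem trans_right (hC : CC o) {v s a b c : ι} (h1 : o v a s) (h2 : o v b s) (h3 : o v c s)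
    (hab : o v a b) (hbc : o v b c) : o v a c := by
  have n1 := hC.ne _ _ _ h1
  have n2 := hC.ne _ _ _ h2
  have n3 := hC.ne _ _ _ h3
  have n4 := hC.ne _ _ _ hab
  have n5 := hC.ne _ _ _ hbc
  have hac : a ≠ c := by
    rintro rfl
    exact hC.anti _ _ _ hab hbc
  have hnd : [v, a, b, c, s].Nodup := by
    simp only [List.nodup_cons, List.mem_cons, List.not_mem_nil, or_false, not_or,
      not_false_eq_true, List.nodup_nil, and_true]
    exact ⟨⟨n1.1, n2.1, n3.1, n1.2.1⟩, ⟨n4.2.2, hac, n1.2.2⟩, ⟨n5.2.2, n2.2.2⟩, n3.2.2⟩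
  exact (hC.gp v a b c s hnd ⟨fun _ => h3, fun _ => hab⟩ ⟨fun _ => hbc, fun _ => h1⟩).2 h2

/-- all neighbours of `v` other than `s` are to the left of `v → s` (`s` need not be a neighbour) -/
theorem ptd_of_half (hC : CC o) {E : Finset (Sym2 ι)} {v s : ι}
    (h : ∀ b, s(v, b) ∈ E → b ≠ s → o v s b) : Ptd o E v := by
  obtain ⟨N, hN⟩ := nb_exists E v
  by_cases hs : s(v, s) ∈ E
  · exact Or.inr ⟨s, hs, h⟩
  have hNs : ∀ b ∈ N, o v s b := by
    intro b hb
    rw [hN] at hb
    exact h b hb (fun hbs => hs (hbs ▸ hb))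
  by_cases hne : N.Nonempty
  · right
    obtain ⟨a, ha, hmin⟩ := fin_min (N := N) (r := fun x y => o v x y)
      (fun x hx y hy hxy => by
        by_cases h1 : o v x y
        · exact Or.inl h1
        · exact Or.inr (hC.tot v x y (hC.ne _ _ _ (hNs x hx)).2.1 (hC.ne _ _ _ (hNs y hy)).2.1
            hxy h1))
      (fun x hx y hy z hz h1 h2 => trans_left hC (hNs x hx) (hNs y hy) (hNs z hz) h1 h2) hne
    exact ⟨a, (hN a).1 ha, fun b hb hba => hmin b ((hN b).2 hb) hba⟩
  · left
    intro b hb
    exact hne ⟨b, (hN b).2 hb⟩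

/-- all neighbours of `v` other than `s` are to the right of `v → s` (`s` need not be a neighbour) -/
theorem ptd_of_half_last (hC : CC o) {E : Finset (Sym2 ι)} {v s : ι}
    (h : ∀ b, s(v, b) ∈ E → b ≠ s → o v b s) : Ptd o E v := by
  obtain ⟨N, hN⟩ := nb_exists E v
  have hNs : ∀ b ∈ N.erase s, o v b s := by
    intro b hb
    rw [Finset.mem_erase, hN] at hb
    exact h b hb.2 hb.1
  by_cases hne : (N.erase s).Nonempty
  · right
    obtain ⟨a, ha, hmin⟩ := fin_min (N := N.erase s) (r := fun x y => o v x y)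
      (fun x hx y hy hxy => by
        by_cases h1 : o v x y
        · exact Or.inl h1
        · exact Or.inr (hC.tot v x y (hC.ne _ _ _ (hNs x hx)).1 (hC.ne _ _ _ (hNs y hy)).1
            hxy h1))
      (fun x hx y hy z hz h1 h2 => trans_right hC (hNs x hx) (hNs y hy) (hNs z hz) h1 h2) hne
    refine ⟨a, (hN a).1 (Finset.mem_of_mem_erase ha), fun b hb hba => ?_⟩
    by_cases hbs : b = s
    · rw [hbs]
      exact hNs a ha
    · exact hmin b (Finset.mem_erase.2 ⟨hbs, (hN b).2 hb⟩) hba
  · have hno : ∀ b, s(v, b) ∈ E → b = s := by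
      intro b hb
      by_contra hbs
      exact hne ⟨b, Finset.mem_erase.2 ⟨hbs, (hN b).2 hb⟩⟩
    by_cases hs : s(v, s) ∈ E
    · exact Or.inr ⟨s, hs, fun b hb hbs => absurd (hno b hb) hbs⟩
    · left
      intro b hb
      have := hno b hb
      rw [this] at hb
      exact hs hb

theorem ptd_mono (hC : CC o) {E F : Finset (Sym2 ι)} (hFE : F ⊆ E) {v : ι} (h : Ptd o E v) : Ptd o F v := by
  rcases h with h | ⟨a, ha, h⟩
  · exact Or.inl fun b hb => h b (hFE hb)
  · exact ptd_of_half hC (s := a) fun b hb hba => h b (hFE hb) hba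

/-- a pointed vertex with a neighbour has a last neighbour -/
theorem ptd_last (hC : CC o) {E : Finset (Sym2 ι)} (hnd : ∀ e ∈ E, ¬ e.IsDiag) {v : ι} (h : Ptd o E v) :
    (∀ b, s(v, b) ∉ E) ∨ ∃ a, s(v, a) ∈ E ∧ ∀ b, s(v, b) ∈ E → b ≠ a → o v b a := by
  rcases h with h | ⟨s, hs, h⟩
  · exact Or.inl h
  right
  obtain ⟨N, hN⟩ := nb_exists E v
  have hNs : ∀ b ∈ N.erase s, o v s b := by
    intro b hb
    rw [Finset.mem_erase, hN] at hb
    exact h b hb.2 hb.1
  by_cases hne : (N.erase s).Nonempty
  · obtain ⟨a, ha, hmin⟩ := fin_min (N := N.erase s) (r := fun x y => o v y x)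
      (fun x hx y hy hxy => by
        by_cases h1 : o v y x
        · exact Or.inl h1
        · exact Or.inr (hC.tot v y x (hC.ne _ _ _ (hNs y hy)).2.1 (hC.ne _ _ _ (hNs x hx)).2.1
            hxy.symm h1))
      (fun x hx y hy z hz h1 h2 => trans_left hC (hNs z hz) (hNs y hy) (hNs x hx) h2 h1) hne
    refine ⟨a, (hN a).1 (Finset.mem_of_mem_erase ha), fun b hb hba => ?_⟩
    by_cases hbs : b = s
    · rw [hbs]
      exact hNs a ha
    · exact hmin b (Finset.mem_erase.2 ⟨hbs, (hN b).2 hb⟩) hba
  · refine ⟨s, hs, fun b hb hbs => ?_⟩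
    exact absurd ⟨b, Finset.mem_erase.2 ⟨hbs, (hN b).2 hb⟩⟩ hne

end Pool.Agent.Work.MP_02cc39_co.PT
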