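import Pool.Agent.Work.MP_02cc39_co.PT.Geo

set_option autoImplicit false

/-!
# Subtriangles (size S)

PROOFS. All with the real numbers det P i j k.
`tri_sub`: z inside (a,b,c), d inside (a,b,z): with D := det a b z > 0: D * det(b,c,d) = det(b,z,d) * det(b,c,a) + det(a,b,d) * det(b,c,z)
(P d is the convex combination of P a, P b, P z with weights det(b,z,d)/D, det(z,a,d)/D, det(a,b,d)/D; det(b,c,.) is affine and vanishes at b), all factors on the
right are > 0. D * det(c,a,d) = det(z,a,d) * det(c,a,b) + det(a,b,d) * det(c,a,z). Check with `ring` (det(x,y,z) written out); use cyclic symmetry of det.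
`four_pt`: det(a,b,c) - det(a,b,d) = det(b,c,d) - det(a,c,d) (ring), so det(b,c,d) > det(a,c,d) when L a b c and L b a d; if one of det(c,d,a), det(c,d,b) is positive and the other one
is not positive then det(c,d,b) > 0 is the positive one.
-/

namespace Pool.Agent.Work.MP_02cc39_co.PT

open Classical

variable {ι : Type*} {P : ι → ℝ × ℝ}

theorem tri_sub {a b c z d : ι} (hz : Tri P a b c z) (hd : Tri P a b z d) : Tri P a b c d := by
  obtain ⟨h1, h2, h3⟩ := hz
  obtain ⟨k1, k2, k3⟩ := hd
  unfold L at h1 h2 h3 k1 k2 k3
  have habc : 0 < det P a b c := by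
    have e : det P a b c = det P a b z + det P b c z + det P c a z := by
      unfold det
      ring
    rw [e]
    positivity
  refine ⟨k1, ?_, ?_⟩
  · have e : det P a b z * det P b c d = det P b z d * det P a b c + det P a b d * det P b c z := by
      unfold det
      ring
    unfold L
    refine (pos_iff_pos_of_mul_pos ?_).1 h1
    rw [e]
    positivity
  · have e : det P a b z * det P c a d = det P z a d * det P a b c + det P a b d * det P c a z := by
      unfold det
      ring
    unfold L
    refine (pos_iff_pos_of_mul_pos ?_).1 h1
    rw [e]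
    positivity

/-- a convex quadrilateral -/
theorem four_pt (hP : Gen P) {a b c d : ι} (h1 : L P a b c) (h2 : L P b a d) (hX : Cross (L P) a b c d) :
    L P c d b ∧ L P d c a := by
  unfold L at h1 h2
  have hac : a ≠ c := by
    rintro rfl
    unfold det at h1
    nlinarith
  have had : a ≠ d := by
    rintro rfl
    unfold det at h2
    nlinarith
  have hcd : c ≠ d := by
    rintro rfl
    unfold det at h1 h2
    nlinarith
  have e : det P c d b - det P c d a = det P a b c + det P b a d := by
    unfold det
    ring
  have hna : ¬ L P c d a := by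
    intro h
    have h3 : ¬ L P c d b := hX.2.1 h
    unfold L at h h3
    linarith
  have hb : L P c d b := by
    by_contra h
    exact hna (hX.2.2 h)
  refine ⟨hb, ?_⟩
  have hne := hP.2 c d a hcd hac.symm had.symm
  unfold L at hna ⊢
  have e2 : det P d c a = - det P c d a := by
    unfold det
    ring
  rw [e2]
  have h4 : det P c d a < 0 := lt_of_le_of_ne (not_lt.1 hna) hne
  linarith

end Pool.Agent.Work.MP_02cc39_co.PT
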