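import Pool.Agent.Work.MP_02cc39_co.PT.Bridge
import Pool.Agent.Work.MP_02cc39_co.Visible

set_option autoImplicit false

/-!
# A visible point above w (size M)

PROOF. Use the theorem `visible` of Pool.Agent.Work.MP_02cc39_co.Visible with S := Finset.univ.image P, the edge set
E' := E.image (Sym2.map P), p := P w, s := P s, v := u. `GenPos S` from Gen P: three different points P a, P b, P c (a, b, c are different) with a
collinear triple would have dt = 0 (collinear_iff_of_mem, or: Collinear gives a vector v and numbers with P b - P a = r v, P c - P a = t v,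
so the determinant is 0). NonCrossing E': edges of E' are s(P a, P b) with s(a,b) ∈ E (P is injective); if the four ends are
different use `cross_iff` and hnc (a ≠ b, c ≠ d by hnd). The result x is P y for some y; the edges: `cross_iff` backwards.
-/

namespace Pool.Agent.Work.MP_02cc39_co.PT

open Classical

variable {ι : Type*} [Fintype ι] {P : ι → ℝ × ℝ}

theorem genPos_image (hP : Gen P) : Pool.Agent.Work.MP_02cc39_co.GenPos (Finset.univ.image P) := by
  intro a ha b hb c hc hab hac hbc hcol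
  obtain ⟨i, -, rfl⟩ := Finset.mem_image.1 ha
  obtain ⟨j, -, rfl⟩ := Finset.mem_image.1 hb
  obtain ⟨k, -, rfl⟩ := Finset.mem_image.1 hc
  have hij : i ≠ j := fun h => hab (by rw [h])
  have hik : i ≠ k := fun h => hac (by rw [h])
  have hjk : j ≠ k := fun h => hbc (by rw [h])
  apply hP.2 i j k hij hik hjk
  rw [collinear_iff_of_mem (p₀ := P i) (by simp)] at hcol
  obtain ⟨v, hv⟩ := hcol
  obtain ⟨r, hr⟩ := hv (P j) (by simp)
  obtain ⟨t, ht⟩ := hv (P k) (by simp)
  unfold det
  rw [hr, ht]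
  simp only [vadd_eq_add, Prod.fst_add, Prod.snd_add, Prod.smul_fst, Prod.smul_snd, smul_eq_mul]
  ring

omit [Fintype ι] in
private theorem mem_img {E : Finset (Sym2 ι)} {a b : ℝ × ℝ} :
    s(a, b) ∈ E.image (Sym2.map P) ↔ ∃ i j, s(i, j) ∈ E ∧ P i = a ∧ P j = b := by
  constructor
  · intro h
    obtain ⟨e, he, hab⟩ := Finset.mem_image.1 h
    induction e using Sym2.ind with
    | _ i j =>
      rw [Sym2.map_mk, Sym2.eq_iff] at hab
      rcases hab with ⟨h1, h2⟩ | ⟨h1, h2⟩
      · exact ⟨i, j, he, h1, h2⟩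
      · exact ⟨j, i, by rwa [Sym2.eq_swap], h2, h1⟩
  · rintro ⟨i, j, h, rfl, rfl⟩
    exact Finset.mem_image.2 ⟨s(i, j), h, rfl⟩

theorem vis_up (hP : Gen P) {E : Finset (Sym2 ι)} (hnd : ∀ e ∈ E, ¬ e.IsDiag) (hnc : NonCr (L P) E) {w s : ι} (u : ℝ × ℝ)
    (hs : 0 < ht u (P w) (P s)) : ∃ y, 0 < ht u (P w) (P y) ∧ Vis (L P) E w y := by
  have hne : ∀ {i j : ι}, s(i, j) ∈ E → i ≠ j := fun h hij => hnd _ h (Sym2.mk_isDiag_iff.2 hij)
  have hE : E.image (Sym2.map P) ⊆ (Finset.univ.image P).sym2 := by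
    intro e he
    induction e using Sym2.ind with
    | _ a b =>
      obtain ⟨i, j, -, rfl, rfl⟩ := mem_img.1 he
      rw [Finset.mk_mem_sym2_iff]
      exact ⟨Finset.mem_image_of_mem _ (Finset.mem_univ _), Finset.mem_image_of_mem _ (Finset.mem_univ _)⟩
  have hd : ∀ e ∈ E.image (Sym2.map P), ¬ e.IsDiag := by
    intro e he
    induction e using Sym2.ind with
    | _ a b =>
      obtain ⟨i, j, hij, rfl, rfl⟩ := mem_img.1 he
      rw [Sym2.mk_isDiag_iff]
      exact fun h => hne hij (hP.1 h)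
  have hN : Pool.Agent.Work.MP_02cc39_co.NonCrossing (E.image (Sym2.map P)) := by
    intro a b c d hab hcd hac had hbc hbd
    obtain ⟨i, j, hij, rfl, rfl⟩ := mem_img.1 hab
    obtain ⟨k, l, hkl, rfl, rfl⟩ := mem_img.1 hcd
    have h1 : i ≠ k := fun h => hac (by rw [h])
    have h2 : i ≠ l := fun h => had (by rw [h])
    have h3 : j ≠ k := fun h => hbc (by rw [h])
    have h4 : j ≠ l := fun h => hbd (by rw [h])
    rw [cross_iff hP (hne hij) h1 h2 h3 h4 (hne hkl)]
    exact hnc i j k l hij hkl h1 h2 h3 h4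
  obtain ⟨x, hx, hux, hvis⟩ := Pool.Agent.Work.MP_02cc39_co.visible (genPos_image hP) hE hd hN
    (Finset.mem_image_of_mem P (Finset.mem_univ w)) (Finset.mem_image_of_mem P (Finset.mem_univ s)) u hs
  obtain ⟨y, -, rfl⟩ := Finset.mem_image.1 hx
  refine ⟨y, hux, fun c d hcd hwc hwd hyc hyd => ?_⟩
  have hwy : w ≠ y := by
    rintro rfl
    simp at hux
  rw [← cross_iff hP hwy hwc hwd hyc hyd (hne hcd)]
  exact hvis (P c) (P d) (mem_img.2 ⟨c, d, hcd, rfl, rfl⟩) (fun h => hwc (hP.1 h)) (fun h => hwd (hP.1 h))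
    (fun h => hyc (hP.1 h)) (fun h => hyd (hP.1 h))

end Pool.Agent.Work.MP_02cc39_co.PT
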