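import Pool.Agent.Work.MP_02cc39_co.PT.ExtCore
import Pool.Agent.Work.MP_02cc39_co.PT.VisUp
import Pool.Agent.Work.MP_02cc39_co.PT.Face
import Pool.Agent.Work.MP_02cc39_co.PT.TriSub
import Pool.Agent.Work.MP_02cc39_co.PT.Half

set_option autoImplicit false

/-!
# Every edge of a maximal noncrossing graph is the side of a triangle, on each side where there are points (size M-L)

T is Max (L P) ∅, s(a,b) ∈ T, some point is to the left of ab. (Max for V = ∅: an edge xy (x ≠ y) with Vis (L P) T x y is in T, `max_mem`.) CC rules by `ccL hP`.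

PROOF. (1) `vis_up` for w = a and u := (-(P b - P a).2, (P b - P a).1), for which ht u (P a) (P x) = det P a b x: there is x0 with L P a b x0 and s(a,x0) ∈ T.
(2) T' := T.filter of the edges s(a,g) with L P a b g (T' := T.filter fun e => ∃ g, e = s(a,g) ∧ L P a b g). `ptd_of_half` (v = a, s = b) for T' gives a first neighbour c0: L P a b c0,
s(a,c0) ∈ T, and L P a c0 g for all other neighbours g of a (in T) with L P a b g. hcone: no neighbour g of a has L P a b g and L P a g c0.
(3) `ext_core` with y := a, w := b, a := c0 (Vis b a because s(b,a) ∈ T and T is noncrossing): z with z = c0 or Tri P a b c0 z, the minimality (*): no d ∈ {c0} ∪ inside has L P b z d,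
and Vis b z, so s(b,z) ∈ T.
(4) If z = c0: Face a b c0: emp: g inside would be Tri P a b c0 g with L P b c0 g, contradiction to (*). Done.
(5) If z ≠ c0, z is strictly inside. CLAIM Vis a z. Then s(a,z) ∈ T, but L P a b z and L P a z c0 (from L P c0 a z): contradiction to hcone.
 Proof of the claim: let s(c,d) ∈ T, a, z different from c, d, c ≠ d, Cross a z c d. Exchanging c and d: L P z a d, not L P z a c (d on the side of b: L P z a b by cyc from L P a b z), so c ≠ b.
 (5a) d ≠ b and d not in Tri P b z a: `exit_tri` with (y, w, a, z, c, d) := (b, z, a, a, c, d) gives Cross z b c d or Cross b a c d: contradiction to NonCr (s(z,b), s(b,a) ∈ T).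
 (5b) Tri P b z a d: then Tri P a b z d (cyc), `tri_sub`: Tri P a b c0 d, and L P b z d: contradiction to (*).
 (5c) d = b. `cross_point` for a, z, c, b: X = (1-l) P a + l P z = (1-m) P c + m P b. det(b,z,X) = (1-l) det(b,z,a) > 0 and = (1-m) det(b,z,c), so L P b z c. det(b,X,a) = l det(b,z,a) > 0
  and = (1-m) det(b,c,a), so L P b c a. c ≠ c0 and c not inside Tri P a b c0 by (*). L P b c0 z (inside), `trans_right` (v = b, s = a; c0, z, c; L P b c0 a, L P b z a, L P b c a, L P b c0 z, L P b z c)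
  gives L P b c0 c. As c is not inside and L P a b c, L P b c0 c: not L P c0 a c, so L P a c0 c (c ≠ a, c0). Cross a c0 b c: L P a c0 b is false, L P a c0 c is true; L P b c a is true,
  L P b c c0 is false. Contradiction to NonCr (s(a,c0), s(b,c) ∈ T).
-/

namespace Pool.Agent.Work.MP_02cc39_co.PT

open Classical

variable {ι : Type*} [Fintype ι] {P : ι → ℝ × ℝ}

private theorem dt_aff_ax (A B C D : ℝ × ℝ) (t : ℝ) :
    dt A B ((1 - t) * C.1 + t * D.1, (1 - t) * C.2 + t * D.2) =
      (1 - t) * dt A B C + t * dt A B D := by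
  unfold dt; ring

private theorem dt_z2_ax (A B : ℝ × ℝ) : dt A B A = 0 := by unfold dt; ring

private theorem dt_z3_ax (A B : ℝ × ℝ) : dt A B B = 0 := by unfold dt; ring

theorem apex_exists (hP : Gen P) {T : Finset (Sym2 ι)} (hT : Max (L P) ∅ T) {a b : ι} (hab : s(a, b) ∈ T)
    (h : ∃ c, L P a b c) : ∃ c, Face (L P) T a b c := by
  have hC : CC (L P) := ccL hP
  have hnd := hT.1.nd
  have hnc := hT.1.nc
  have hmv : ∀ x y : ι, x ≠ y → Vis (L P) T x y → s(x, y) ∈ T := fun x y hxy hv =>
    max_mem hC hT hxy hv (fun h => absurd h (Finset.notMem_empty _))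
      (fun h => absurd h (Finset.notMem_empty _))
  have hndne : ∀ x y : ι, s(x, y) ∈ T → x ≠ y := by
    intro x y hxy he
    exact hnd _ hxy (by rw [he]; exact Sym2.mk_isDiag_iff.2 rfl)
  have hba : s(b, a) ∈ T := by rw [Sym2.eq_swap]; exact hab
  obtain ⟨c1, hc1⟩ := h
  -- (1)
  have hht : ∀ x : ι, ht (-((P b).2 - (P a).2), (P b).1 - (P a).1) (P a) (P x) = det P a b x := by
    intro x; unfold ht det; ring
  obtain ⟨x0, hx0, hvx0⟩ := vis_up hP hnd hnc (w := a) (s := c1)
    (-((P b).2 - (P a).2), (P b).1 - (P a).1) (by rw [hht]; exact hc1)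
  rw [hht] at hx0
  have hx0' : L P a b x0 := hx0
  have hax0 : s(a, x0) ∈ T := hmv a x0 (hC.ne _ _ _ hx0').2.1 hvx0
  -- (2)
  obtain ⟨c0, hac0, hLc0, hfirst⟩ : ∃ c0, s(a, c0) ∈ T ∧ L P a b c0 ∧
      ∀ g, s(a, g) ∈ T → L P a b g → g ≠ c0 → L P a c0 g := by
    have hmem : ∀ g, s(a, g) ∈ T.filter (fun e => ∃ g, e = s(a, g) ∧ L P a b g) ↔
        s(a, g) ∈ T ∧ L P a b g := by
      intro g
      rw [Finset.mem_filter]
      constructor
      · rintro ⟨h1, g', h2, h3⟩
        rw [Sym2.congr_right] at h2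
        rw [h2]
        exact ⟨by rw [← h2]; exact h1, h3⟩
      · rintro ⟨h1, h2⟩
        exact ⟨h1, g, rfl, h2⟩
    have hp : Ptd (L P) (T.filter (fun e => ∃ g, e = s(a, g) ∧ L P a b g)) a := by
      apply ptd_of_half hC (s := b)
      intro g hg _
      exact ((hmem g).1 hg).2
    rcases hp with h1 | ⟨c0, h1, h2⟩
    · exact absurd ((hmem x0).2 ⟨hax0, hx0'⟩) (h1 x0)
    · exact ⟨c0, ((hmem c0).1 h1).1, ((hmem c0).1 h1).2,
        fun g h3 h4 h5 => h2 g ((hmem g).2 ⟨h3, h4⟩) h5⟩
  have hcone : ∀ g, s(a, g) ∈ T → ¬ (L P a b g ∧ L P a g c0) := by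
    rintro g hg ⟨h1, h2⟩
    have h3 := hfirst g hg h1 (hC.ne _ _ _ h2).2.2
    exact hC.anti _ _ _ h2 h3
  -- (3)
  obtain ⟨z, hz, hmin, hvis, _⟩ := ext_core hP hnd hnc (w := b) (y := a) (a := c0)
    (fun c d hcd h1 h2 h3 h4 => hnc b a c d hba hcd h1 h2 h3 h4) hLc0 hac0 hcone
  have hbz : b ≠ z := by
    rcases hz with rfl | hz
    · exact (hC.ne _ _ _ hLc0).2.2
    · exact (hC.ne _ _ _ hz.1).2.2
  have hbzT : s(b, z) ∈ T := hmv b z hbz hvis
  by_cases hzc0 : z = c0
  · subst hzc0
    refine ⟨z, hLc0, hab, hbzT, by rw [Sym2.eq_swap]; exact hac0, ?_⟩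
    rintro g ⟨h1, h2, h3⟩
    exact hmin g (Or.inr ⟨h1, h2, h3⟩) h2
  · exfalso
    have hzT : Tri P a b c0 z := hz.resolve_left hzc0
    obtain ⟨z1, z2, z3⟩ := hzT
    have haz : a ≠ z := (hC.ne _ _ _ z1).2.1
    have hab' : a ≠ b := (hC.ne _ _ _ z1).1
    have hbza : L P b z a := hC.cyc _ _ _ z1
    have hzab : L P z a b := hC.cyc _ _ _ hbza
    -- the core
    have core : ∀ c d, s(c, d) ∈ T → a ≠ c → a ≠ d → z ≠ c → z ≠ d → L P z a d →
        Cross (L P) a z c d → False := by
      intro c d hcd hac had hzc hzd hzad hcross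
      have hne := hndne c d hcd
      have k1 : ¬ L P a z d := hC.anti _ _ _ (hC.cyc _ _ _ hzad)
      have k2 : L P a z c := hcross.1.2 k1
      have k3 : ¬ L P z a c := fun h3 => hC.anti _ _ _ k2 (hC.cyc _ _ _ h3)
      have hcb : b ≠ c := by
        rintro rfl; exact k3 hzab
      by_cases hdb : d = b
      · subst hdb
        obtain ⟨l, mu, hl0, hl1, hm0, hm1, e1, e2⟩ := cross_point hP haz hac had hzc hzd hne hcross
        have hpt : (((1 - l) * (P a).1 + l * (P z).1, (1 - l) * (P a).2 + l * (P z).2) : ℝ × ℝ) =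
            ((1 - mu) * (P c).1 + mu * (P d).1, (1 - mu) * (P c).2 + mu * (P d).2) := by
          rw [e1, e2]
        have q1 : L P d z c := by
          have h1 := dt_aff_ax (P d) (P z) (P a) (P z) l
          have h2 := dt_aff_ax (P d) (P z) (P c) (P d) mu
          rw [hpt, h2, dt_z3_ax, dt_z2_ax, mul_zero, add_zero, mul_zero, add_zero] at h1
          have h3 : 0 < dt (P d) (P z) (P a) := hbza
          have h4 : 0 < (1 - mu) * dt (P d) (P z) (P c) := by
            rw [h1]; exact mul_pos (by linarith) h3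
          exact (mul_pos_iff_of_pos_left (by linarith)).1 h4
        have q2 : L P a d c := by
          have h1 := dt_aff_ax (P a) (P d) (P a) (P z) l
          have h2 := dt_aff_ax (P a) (P d) (P c) (P d) mu
          rw [hpt, h2, dt_z2_ax, dt_z3_ax, mul_zero, add_zero, mul_zero, zero_add] at h1
          have h3 : 0 < dt (P a) (P d) (P z) := z1
          have h4 : 0 < (1 - mu) * dt (P a) (P d) (P c) := by
            rw [h1]; exact mul_pos hl0 h3
          exact (mul_pos_iff_of_pos_left (by linarith)).1 h4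
        have q3 : c ≠ c0 := fun h3 => hmin c (Or.inl h3) q1
        have q4 : ¬ Tri P a d c0 c := fun h3 => hmin c (Or.inr h3) q1
        have q5 : L P d c0 c := trans_right hC (v := d) (s := a) (a := c0) (b := z) (c := c)
          (hC.cyc _ _ _ hLc0) hbza (hC.cyc _ _ _ q2) z2 q1
        have q6 : ¬ L P c0 a c := fun h3 => q4 ⟨q2, q5, h3⟩
        have hac0' : a ≠ c0 := hndne _ _ hac0
        have q7 : L P c0 c a := hC.tot c0 a c hac0'.symm q3.symm hac q6
        have q8 : L P a c0 c := hC.cyc _ _ _ (hC.cyc _ _ _ q7)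
        refine hnc a c0 d c hac0 (by rw [Sym2.eq_swap]; exact hcd) hab' hac
          (hC.ne _ _ _ hLc0).2.2.symm q3.symm ⟨?_, ?_⟩
        · exact ⟨fun h3 => absurd h3 (hC.anti _ _ _ hLc0), fun h3 => absurd q8 h3⟩
        · exact ⟨fun _ => hC.anti _ _ _ q5, fun _ => hC.cyc _ _ _ q2⟩
      · by_cases hTri : Tri P b z a d
        · obtain ⟨t1, t2, t3⟩ := hTri
          have h1 : Tri P a b c0 d := tri_sub ⟨z1, z2, z3⟩ ⟨t3, t1, t2⟩
          exact hmin d (Or.inr h1) t1
        · have hx : Cross (L P) z a c d :=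
            (cross_swap hC haz hac had hzc hzd).1 hcross
          rcases exit_tri hP (y := b) (w := z) (a := a) (z := a) (c := c) (d := d) hbza
            (Or.inl rfl) hzad hdb hTri hzd.symm hzc.symm hne
            (Or.inr ⟨hac.symm, had.symm, hx⟩) with h1 | ⟨_, h1⟩
          · exact hnc z b c d (by rw [Sym2.eq_swap]; exact hbzT) hcd hzc hzd hcb
              (Ne.symm hdb) h1
          · exact hnc b a c d hba hcd hcb (Ne.symm hdb) hac had h1
    have hvaz : Vis (L P) T a z := by
      intro c d hcd hac had hzc hzd hcross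
      have hne := hndne c d hcd
      by_cases h1 : L P z a d
      · exact core c d hcd hac had hzc hzd h1 hcross
      · have h2 : L P z d a := hC.tot z a d haz.symm hzd had h1
        have h3 : L P a z d := hC.cyc _ _ _ (hC.cyc _ _ _ h2)
        have h4 : ¬ L P a z c := fun h5 => (hcross.1.1 h5) h3
        have h5 : L P a c z := hC.tot a z c haz hac hzc h4
        have h6 : L P z a c := hC.cyc _ _ _ (hC.cyc _ _ _ h5)
        exact core d c (by rw [Sym2.eq_swap]; exact hcd) had hac hzd hzc h6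
          ((cross_swap' hC hne hac had hzc hzd).1 hcross)
    exact hcone z (hmv a z haz hvaz) ⟨z1, hC.cyc _ _ _ z3⟩

end Pool.Agent.Work.MP_02cc39_co.PT
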