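import Pool.Agent.Work.MP_02cc39_co.PT.Geo

set_option autoImplicit false

/-!
# A nonempty open set is not covered by finitely many lines (size S)

PROOF. Induction over the Finset s: U minus the line { α Z.1 + β Z.2 = γ } is open (preimage of an open set under a continuous map) and nonempty: let Z ∈ U; if Z is on the line then
Z + ε (α, β) ∈ U for small ε > 0 and α (Z.1 + ε α) + β (Z.2 + ε β) = γ + ε (α^2 + β^2) ≠ γ.
-/

namespace Pool.Agent.Work.MP_02cc39_co.PT

open Classical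

theorem avoid_lines {κ : Type*} (s : Finset κ) (B : κ → Set (ℝ × ℝ))
    (hB : ∀ k ∈ s, ∃ α β γ : ℝ, (α ≠ 0 ∨ β ≠ 0) ∧ ∀ Z ∈ B k, α * Z.1 + β * Z.2 = γ) {U : Set (ℝ × ℝ)} (hU : IsOpen U)
    (hne : U.Nonempty) : ∃ Z ∈ U, ∀ k ∈ s, Z ∉ B k := by
  induction s using Finset.induction_on generalizing U with
  | empty =>
    obtain ⟨Z, hZ⟩ := hne
    exact ⟨Z, hZ, by simp⟩
  | insert k s hk ih =>
    obtain ⟨α, β, γ, hab, hline⟩ := hB k (Finset.mem_insert_self _ _)
    have hcont : Continuous (fun Z : ℝ × ℝ => α * Z.1 + β * Z.2) := by fun_prop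
    have hU' : IsOpen (U ∩ {Z : ℝ × ℝ | α * Z.1 + β * Z.2 ≠ γ}) :=
      hU.inter (isOpen_ne_fun hcont continuous_const)
    have hne' : (U ∩ {Z : ℝ × ℝ | α * Z.1 + β * Z.2 ≠ γ}).Nonempty := by
      obtain ⟨Z, hZ⟩ := hne
      by_cases h : α * Z.1 + β * Z.2 = γ
      · have hc : Continuous (fun e : ℝ => ((Z.1 + e * α, Z.2 + e * β) : ℝ × ℝ)) := by fun_prop
        have h1 : ∀ᶠ e in nhds (0 : ℝ), ((Z.1 + e * α, Z.2 + e * β) : ℝ × ℝ) ∈ U := by
          apply hc.continuousAt.eventually_mem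
          apply hU.mem_nhds
          simpa using hZ
        have h2 : ∀ᶠ e in nhdsWithin (0 : ℝ) (Set.Ioi 0), ((Z.1 + e * α, Z.2 + e * β) : ℝ × ℝ) ∈ U :=
          h1.filter_mono nhdsWithin_le_nhds
        obtain ⟨e, he, hpos⟩ := (h2.and self_mem_nhdsWithin).exists
        refine ⟨_, he, ?_⟩
        have hpos' : 0 < e := hpos
        have hsq : 0 < α ^ 2 + β ^ 2 := by
          rcases hab with h3 | h3
          · have := sq_pos_of_ne_zero h3
            positivity
          · have := sq_pos_of_ne_zero h3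
            positivity
        have h4 : 0 < e * (α ^ 2 + β ^ 2) := mul_pos hpos' hsq
        intro h5
        have h6 : α * (Z.1 + e * α) + β * (Z.2 + e * β) = γ := h5
        nlinarith
      · exact ⟨Z, hZ, h⟩
    obtain ⟨Z, hZ, hs⟩ := ih (fun j hj => hB j (Finset.mem_insert_of_mem hj)) hU' hne'
    refine ⟨Z, hZ.1, fun j hj => ?_⟩
    rcases Finset.mem_insert.1 hj with rfl | hj
    · exact fun h => hZ.2 (hline Z h)
    · exact hs j hj

end Pool.Agent.Work.MP_02cc39_co.PT
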