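import Pool.Agent.Work.MP_02cc39_co.PT.Half

set_option autoImplicit false

/-!
# Basic lemmas on crossings, insertion of an edge, maximality

`cross_comm`: `and_comm`. `cross_swap`: for distinct points `o b a c` iff not `o a b c` (from `cyc`, `anti`, `tot`:
o b a c -> o a c b -> not o a b c; conversely not o a b c -> o a c b -> o c b a -> o b a c), the rest is propositional.
`ptd_congr`: the two conditions only mention the neighbours of v.
`ptd_insert_other`: the neighbours of v do not change (s(v,c) = s(a,b) is impossible for v distinct from a, b).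
`nonCr_insert`: let s(a1,b1), s(c1,d1) be two edges of insert s(a,b) E without a common end. Both in E: hnc. The first is
s(a,b): a1,b1 is a,b or b,a, use h and `cross_swap`; the second is s(a,b): `cross_comm`. Both are s(a,b): they have a
common end, excluded. (If c = d in `h`, `Cross o a b c c` is false anyway.)
`fam_insert`, `max_mem`, `fam_mono`: immediate from these.
-/

namespace Pool.Agent.Work.MP_02cc39_co.PT

open Classical

variable {ι : Type*} {o : ι → ι → ι → Prop}

theorem cross_comm {a b c d : ι} : Cross o a b c d ↔ Cross o c d a b := by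
  unfold Cross
  exact and_comm

theorem o_swap (hC : CC o) {a b c : ι} (hab : a ≠ b) (hac : a ≠ c) (hbc : b ≠ c) : o b a c ↔ ¬ o a b c := by
  constructor
  · intro h h'
    exact hC.anti a c b (hC.cyc _ _ _ h) h'
  · intro h
    exact hC.cyc _ _ _ (hC.cyc _ _ _ (hC.tot a b c hab hac hbc h))

theorem cross_swap (hC : CC o) {a b c d : ι} (hab : a ≠ b) (hac : a ≠ c) (had : a ≠ d) (hbc : b ≠ c) (hbd : b ≠ d) :
    Cross o a b c d ↔ Cross o b a c d := by
  unfold Cross
  rw [o_swap hC hab hac hbc, o_swap hC hab had hbd]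
  tauto

theorem cross_swap' (hC : CC o) {a b c d : ι} (hcd : c ≠ d) (hac : a ≠ c) (had : a ≠ d) (hbc : b ≠ c) (hbd : b ≠ d) :
    Cross o a b c d ↔ Cross o a b d c := by
  rw [cross_comm (a := a), cross_comm (a := a) (b := b) (c := d)]
  exact cross_swap hC hcd hac.symm hbc.symm had.symm hbd.symm

theorem ptd_congr {E F : Finset (Sym2 ι)} {v : ι} (h : ∀ b, s(v, b) ∈ E ↔ s(v, b) ∈ F) : Ptd o E v ↔ Ptd o F v := by
  unfold Ptd
  simp only [h]

theorem ptd_insert_other {E : Finset (Sym2 ι)} {a b v : ι} (hva : v ≠ a) (hvb : v ≠ b) :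
    Ptd o (insert s(a, b) E) v ↔ Ptd o E v := by
  apply ptd_congr
  intro x
  rw [Finset.mem_insert]
  constructor
  · rintro (h | h)
    · rcases Sym2.eq_iff.1 h with ⟨h1, -⟩ | ⟨h1, -⟩
      · exact absurd h1 hva
      · exact absurd h1 hvb
    · exact h
  · exact Or.inr

theorem nonCr_mono {E F : Finset (Sym2 ι)} (hFE : F ⊆ E) (h : NonCr o E) : NonCr o F := by
  intro a b c d hab hcd
  exact h a b c d (hFE hab) (hFE hcd)

theorem nonCr_insert (hC : CC o) {E : Finset (Sym2 ι)} (hnc : NonCr o E) {a b : ι} (hab : a ≠ b)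
    (h : ∀ c d, s(c, d) ∈ E → a ≠ c → a ≠ d → b ≠ c → b ≠ d → ¬ Cross o a b c d) : NonCr o (insert s(a, b) E) := by
  have key : ∀ a1 b1 c d, s(a1, b1) = s(a, b) → s(c, d) ∈ E → a1 ≠ c → a1 ≠ d → b1 ≠ c → b1 ≠ d →
      ¬ Cross o a1 b1 c d := by
    intro a1 b1 c d h1 hcd n1 n2 n3 n4
    rcases Sym2.eq_iff.1 h1 with ⟨rfl, rfl⟩ | ⟨rfl, rfl⟩
    · exact h c d hcd n1 n2 n3 n4
    · rw [cross_swap hC hab.symm n1 n2 n3 n4]
      exact h c d hcd n3 n4 n1 n2
  intro a1 b1 c1 d1 h1 h2 n1 n2 n3 n4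
  rw [Finset.mem_insert] at h1 h2
  rcases h1 with h1 | h1 <;> rcases h2 with h2 | h2
  · exfalso
    rcases Sym2.eq_iff.1 (h1.trans h2.symm) with ⟨h3, -⟩ | ⟨h3, -⟩
    · exact n1 h3
    · exact n2 h3
  · exact key a1 b1 c1 d1 h1 h2 n1 n2 n3 n4
  · rw [cross_comm]
    exact key c1 d1 a1 b1 h2 h1 n1.symm n3.symm n2.symm n4.symm
  · exact hnc a1 b1 c1 d1 h1 h2 n1 n2 n3 n4

theorem fam_mono (hC : CC o) {V : Finset ι} {E F : Finset (Sym2 ι)} (hFE : F ⊆ E) (h : Fam o V E) : Fam o V F := by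
  exact ⟨fun e he => h.nd e (hFE he), nonCr_mono hFE h.nc, fun v hv => ptd_mono hC hFE (h.pt v hv)⟩

theorem fam_insert (hC : CC o) {V : Finset ι} {E : Finset (Sym2 ι)} (hE : Fam o V E) {a b : ι} (hab : a ≠ b)
    (h : ∀ c d, s(c, d) ∈ E → a ≠ c → a ≠ d → b ≠ c → b ≠ d → ¬ Cross o a b c d)
    (ha : a ∈ V → Ptd o (insert s(a, b) E) a) (hb : b ∈ V → Ptd o (insert s(a, b) E) b) :
    Fam o V (insert s(a, b) E) := by
  refine ⟨?_, nonCr_insert hC hE.nc hab h, ?_⟩
  · intro e he
    rcases Finset.mem_insert.1 he with rfl | he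
    · rw [Sym2.mk_isDiag_iff]
      exact hab
    · exact hE.nd e he
  · intro v hv
    by_cases hva : v = a
    · subst hva
      exact ha hv
    by_cases hvb : v = b
    · subst hvb
      exact hb hv
    rw [ptd_insert_other hva hvb]
    exact hE.pt v hv

/-- an edge which can be added is in a maximal graph -/
theorem max_mem (hC : CC o) {V : Finset ι} {E : Finset (Sym2 ι)} (hE : Max o V E) {a b : ι} (hab : a ≠ b)
    (h : ∀ c d, s(c, d) ∈ E → a ≠ c → a ≠ d → b ≠ c → b ≠ d → ¬ Cross o a b c d)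
    (ha : a ∈ V → Ptd o (insert s(a, b) E) a) (hb : b ∈ V → Ptd o (insert s(a, b) E) b) : s(a, b) ∈ E := by
  by_contra hn
  refine hE.2 s(a, b) ?_ hn (fam_insert hC hE.1 hab h ha hb)
  rw [Sym2.mk_isDiag_iff]
  exact hab

end Pool.Agent.Work.MP_02cc39_co.PT
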