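import Pool.Agent.Work.MP_02cc39_co.PT.LawA

set_option autoImplicit false

/-!
# The two-to-one map for the graphs of type T1 (size M)

`Mut o o' p m q`, m ∉ V. Write `x` for a point different from p, m, q.

PROOFS.
`one_erase`: E is Max o V with T1, G := E.erase f where f is s(p,m) or s(m,q) (both are in E by `t1_edges`). All neighbours x of m in E
satisfy o p q x (`nbr_above`). Fam o (insert m V) G: `fam_mono`, and at m `pt_above` (f ∉ G). Maximal: let e ∉ G, not diagonal, with
Fam o (insert m V) (insert e G). If e = f then insert e G = E is pointed at m and contains pm, mq: `pt_both` contradicts o p q x for the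
x of T1. If e ≠ f then e ∉ E, and Fam o V (insert e E), contradiction to Max o V E: insert e E = insert f (insert e G), and
Fam o V (insert e G) by restriction from insert m V; use `fam_insert` with `add_ok_pm` (or `add_ok_mq`; s(p,q) ∈ insert e G),
`pt_add_p` (or `pt_add_q`) and `ptd_mono`. T1 for G: s(p,q), s(m,x) are not f.
`one_back`: G is Max o (insert m V) with T1. All neighbours x of m satisfy o p q x (`nbr_above`). Not both pm, mq are in G by
`pt_both`. If none is in G, then s(p,m) can be added (`max_mem` with `add_ok_pm`, `pt_add_p`, at m `pt_above` because s(m,q) ∉ insert s(p,m) G),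
contradiction. So exactly one of them is in G; let f be the missing one, E := insert f G. Fam o V E by `fam_insert` as above
(m ∉ V, so there is no condition at m). Maximal: e ∉ E with Fam o V (insert e E). Then Fam o (insert m V) (insert e G), contradiction (e ∉ G):
`fam_mono` (insert e G ⊆ insert e E) for V, and at m `pt_above`: f ∉ insert e G (e ≠ f because f ∈ E), the neighbours x of m in
insert e G satisfy o p q x by `nbr_above`.
-/

namespace Pool.Agent.Work.MP_02cc39_co.PT

open Classical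

variable {ι : Type*} {o o' : ι → ι → ι → Prop} {p m q : ι}

private theorem restr {V : Finset ι} {G : Finset (Sym2 ι)} (hG : Fam o (insert m V) G) : Fam o V G :=
  ⟨hG.nd, hG.nc, fun v hv => hG.pt v (Finset.mem_insert_of_mem hv)⟩

private theorem no_loop {V : Finset ι} {G : Finset (Sym2 ι)} (hG : Fam o V G) (a : ι) : s(a, a) ∉ G :=
  fun h => hG.nd _ h (by simp)

private theorem pq_ne_pm (h : Mut o o' p m q) : s(p, q) ≠ s(p, m) := by
  intro e
  rcases Sym2.eq_iff.1 e with ⟨_, e2⟩ | ⟨e1, _⟩
  · exact h.mq e2.symm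
  · exact h.pm e1

private theorem pq_ne_mq (h : Mut o o' p m q) : s(p, q) ≠ s(m, q) := by
  intro e
  rcases Sym2.eq_iff.1 e with ⟨e1, _⟩ | ⟨e1, _⟩
  · exact h.pm e1
  · exact h.pq e1

private theorem mx_ne_pm (h : Mut o o' p m q) {x : ι} (hxp : x ≠ p) : s(m, x) ≠ s(p, m) := by
  intro e
  rcases Sym2.eq_iff.1 e with ⟨e1, _⟩ | ⟨_, e2⟩
  · exact h.pm e1.symm
  · exact hxp e2

private theorem mx_ne_mq (h : Mut o o' p m q) {x : ι} (hxq : x ≠ q) : s(m, x) ≠ s(m, q) := by
  intro e
  rcases Sym2.eq_iff.1 e with ⟨_, e2⟩ | ⟨e1, _⟩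
  · exact hxq e2
  · exact h.mq e1

/-- one of the edges `pm`, `mq` can be added to a graph with the edge `pq` -/
private theorem add_f (hC : CC o) (hC' : CC o') (h : Mut o o' p m q) {V : Finset ι} (hm : m ∉ V)
    {H : Finset (Sym2 ι)} (hH : Fam o V H) (hpq : s(p, q) ∈ H) {f : Sym2 ι} (hf : f = s(p, m) ∨ f = s(m, q)) :
    Fam o V (insert f H) := by
  rcases hf with rfl | rfl
  · refine fam_insert hC hH h.pm (add_ok_pm hC h hH hpq) ?_ (fun hmV => absurd hmV hm)
    intro hpV
    have h1 := pt_add_p hC hC' h (Or.inl hpq) (hH.pt p hpV)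
    exact ptd_mono hC (Finset.insert_subset_insert _ (Finset.subset_insert _ _)) h1
  · refine fam_insert hC hH h.mq (add_ok_mq hC h hH hpq) (fun hmV => absurd hmV hm) ?_
    intro hqV
    have h1 := pt_add_q hC hC' h (Or.inl hpq) (hH.pt q hqV)
    exact ptd_mono hC (Finset.insert_subset_insert _ (Finset.subset_insert _ _)) h1

theorem one_erase (hC : CC o) (hC' : CC o') (h : Mut o o' p m q) {V : Finset ι} (hm : m ∉ V)
    {E : Finset (Sym2 ι)} (hE : Max o V E) (hT : T1 p m q E) {f : Sym2 ι} (hf : f = s(p, m) ∨ f = s(m, q)) :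
    Max o (insert m V) (E.erase f) ∧ T1 p m q (E.erase f) := by
  obtain ⟨hpq, x, hxp, hxq, hx⟩ := hT
  obtain ⟨hpm, hmq⟩ := t1_edges hC hC' h hm hE hpq
  have hfE : f ∈ E := by
    rcases hf with rfl | rfl
    · exact hpm
    · exact hmq
  have hpqf : s(p, q) ≠ f := by
    rcases hf with rfl | rfl
    · exact pq_ne_pm h
    · exact pq_ne_mq h
  have hmxf : s(m, x) ≠ f := by
    rcases hf with rfl | rfl
    · exact mx_ne_pm h hxp
    · exact mx_ne_mq h hxq
  have hab : ∀ y, y ≠ p → y ≠ q → s(m, y) ∈ E → o p q y := fun y h1 h2 h3 => nbr_above hC h hE.1 hpq h1 h2 h3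
  have hpqG : s(p, q) ∈ E.erase f := Finset.mem_erase.2 ⟨hpqf, hpq⟩
  have hmxG : s(m, x) ∈ E.erase f := Finset.mem_erase.2 ⟨hmxf, hx⟩
  have hG : Fam o V (E.erase f) := fam_mono hC (Finset.erase_subset _ _) hE.1
  refine ⟨⟨⟨hG.nd, hG.nc, ?_⟩, ?_⟩, hpqG, x, hxp, hxq, hmxG⟩
  · intro v hv
    rcases Finset.mem_insert.1 hv with rfl | hv
    · refine pt_above hC h (no_loop hG v) ?_ (fun y h1 h2 h3 => hab y h1 h2 (Finset.mem_of_mem_erase h3))
      rcases hf with rfl | rfl
      · exact Or.inl (Finset.notMem_erase _ _)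
      · exact Or.inr (Finset.notMem_erase _ _)
    · exact hG.pt v hv
  · intro e hd he hF
    by_cases hef : e = f
    · subst hef
      rw [Finset.insert_erase hfE] at hF
      exact pt_both hC h (no_loop hE.1 m) hpm hmq (hF.pt m (Finset.mem_insert_self _ _)) hxp hxq hx (hab x hxp hxq hx)
    · have heE : e ∉ E := fun h1 => he (Finset.mem_erase.2 ⟨hef, h1⟩)
      refine hE.2 e hd heE ?_
      have h1 := add_f hC hC' h hm (restr hF) (Finset.mem_insert_of_mem hpqG) hf
      rw [Finset.insert_comm, Finset.insert_erase hfE] at h1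
      exact h1

private theorem back_aux (hC : CC o) (hC' : CC o') (h : Mut o o' p m q) {V : Finset ι} (hm : m ∉ V)
    {G : Finset (Sym2 ι)} (hG : Max o (insert m V) G) (hpq : s(p, q) ∈ G) {f : Sym2 ι}
    (hf : f = s(p, m) ∨ f = s(m, q)) (hfG : f ∉ G) : Max o V (insert f G) := by
  refine ⟨add_f hC hC' h hm (restr hG.1) hpq hf, ?_⟩
  intro e hd he hF
  have heG : e ∉ G := fun h1 => he (Finset.mem_insert_of_mem h1)
  have hef : f ≠ e := fun h1 => he (by rw [← h1]; exact Finset.mem_insert_self _ _)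
  refine hG.2 e hd heG ?_
  have h1 : Fam o V (insert e G) :=
    fam_mono hC (Finset.insert_subset_insert _ (Finset.subset_insert _ _)) hF
  have hfe : f ∉ insert e G := by
    intro h2
    rcases Finset.mem_insert.1 h2 with h2 | h2
    · exact hef h2
    · exact hfG h2
  refine ⟨h1.nd, h1.nc, ?_⟩
  intro v hv
  rcases Finset.mem_insert.1 hv with rfl | hv
  · refine pt_above hC h (no_loop h1 v) ?_ (fun y h2 h3 h4 =>
      nbr_above hC h h1 (Finset.mem_insert_of_mem hpq) h2 h3 h4)
    rcases hf with rfl | rfl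
    · exact Or.inl hfe
    · exact Or.inr hfe
  · exact h1.pt v hv

theorem one_back (hC : CC o) (hC' : CC o') (h : Mut o o' p m q) {V : Finset ι} (hm : m ∉ V)
    {G : Finset (Sym2 ι)} (hG : Max o (insert m V) G) (hT : T1 p m q G) :
    (s(p, m) ∉ G ∧ s(m, q) ∈ G ∧ Max o V (insert s(p, m) G)) ∨
      (s(m, q) ∉ G ∧ s(p, m) ∈ G ∧ Max o V (insert s(m, q) G)) := by
  obtain ⟨hpq, x, hxp, hxq, hx⟩ := hT
  have hab : ∀ y, y ≠ p → y ≠ q → s(m, y) ∈ G → o p q y := fun y h1 h2 h3 => nbr_above hC h hG.1 hpq h1 h2 h3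
  by_cases h1 : s(p, m) ∈ G
  · by_cases h2 : s(m, q) ∈ G
    · exact absurd (hab x hxp hxq hx)
        (pt_both hC h (no_loop hG.1 m) h1 h2 (hG.1.pt m (Finset.mem_insert_self _ _)) hxp hxq hx)
    · exact Or.inr ⟨h2, h1, back_aux hC hC' h hm hG hpq (Or.inr rfl) h2⟩
  · by_cases h2 : s(m, q) ∈ G
    · exact Or.inl ⟨h1, h2, back_aux hC hC' h hm hG hpq (Or.inl rfl) h1⟩
    · exfalso
      apply h1
      refine max_mem hC hG h.pm (add_ok_pm hC h hG.1 hpq) ?_ ?_
      · intro hpV
        have h3 := pt_add_p hC hC' h (Or.inl hpq) (hG.1.pt p hpV)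
        exact ptd_mono hC (Finset.insert_subset_insert _ (Finset.subset_insert _ _)) h3
      · intro _
        refine pt_above hC h ?_ (Or.inr ?_) ?_
        · intro h3
          rcases Finset.mem_insert.1 h3 with h3 | h3
          · rcases Sym2.eq_iff.1 h3 with ⟨e1, _⟩ | ⟨_, e2⟩
            · exact h.pm e1.symm
            · exact h.pm e2.symm
          · exact no_loop hG.1 m h3
        · intro h3
          rcases Finset.mem_insert.1 h3 with h3 | h3
          · rcases Sym2.eq_iff.1 h3 with ⟨e1, _⟩ | ⟨_, e2⟩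
            · exact h.pm e1.symm
            · exact h.pq e2.symm
          · exact h2 h3
        · intro y h3 h4 h5
          rcases Finset.mem_insert.1 h5 with h5 | h5
          · exact absurd h5 (mx_ne_pm h h3)
          · exact hab y h3 h4 h5

end Pool.Agent.Work.MP_02cc39_co.PT
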