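import Pool.Agent.Work.MP_02cc39_co.PT.LawA

set_option autoImplicit false

/-!
# The bijection between the graphs of type T2 before and the graphs of type T1 after (size M)

`Mut o o' p m q`, m ∉ V, E ↦ insert s(p,q) E. Write `x` for a point different from p, m, q.

PROOFS.
`add_pq'` (a graph G in Fam o (insert m V) with pm, mq ∈ G, s(p,q) ∉ G): by `pt_both` all neighbours x of m in G satisfy ¬ o p q x.
Fam o' V G by `fam_transfer` (after restriction to V). Adding s(p,q) in o' (`fam_insert`): crossings: s(c,d) ∈ G, c, d different from p, q: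
if c = m then Cross o' p q m d ↔ o p q d (`cross_pqmx'`) is false, d = m: `cross_swap'`, otherwise `cross_pq_or'` and `nc` for pm, mq.
At p: Ptd o' G p, equivalently Ptd o G p (`pt_agree`), `pt_add_p`, `pt_agree`, `ptd_mono`; at q similarly. So Fam o' V (insert s(p,q) G).
`two_fwd`: E is Max o (insert m V) with T2. Fam o' V (insert s(p,q) E) by `add_pq'`. Maximal: e ∉ insert s(p,q) E, not diagonal, with
Fam o' V (insert e (insert s(p,q) E)). Then Fam o (insert m V) (insert e E), contradiction: s(p,q) ∉ insert e E, so `fam_transfer'` (and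
`fam_mono`) for V; at m `pt_below`: the neighbours x of m in insert e E satisfy ¬ o p q x by `nbr_below`. T1 holds.
`two_back`: F is Max o' V with T1. pm, mq ∈ F by `t1_edges'`, the neighbours x of m satisfy ¬ o p q x (`nbr_below`). G := F.erase s(p,q).
Fam o (insert m V) G: `fam_transfer'` and `pt_below`. Maximal: e ∉ G, not diagonal, Fam o (insert m V) (insert e G). If e = s(p,q) then
Cross o p q m x for the x of T1 (`cross_pqmx`): contradiction to `nc`. If e ≠ s(p,q) then `add_pq'` for insert e G (it contains pm, mq, not pq)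
gives Fam o' V (insert s(p,q) (insert e G)) = Fam o' V (insert e F), contradiction to Max o' V F. T2 holds.
-/

namespace Pool.Agent.Work.MP_02cc39_co.PT

open Classical

variable {ι : Type*} {o o' : ι → ι → ι → Prop} {p m q : ι}

private theorem restr2 {V : Finset ι} {G : Finset (Sym2 ι)} (hG : Fam o (insert m V) G) : Fam o V G :=
  ⟨hG.nd, hG.nc, fun v hv => hG.pt v (Finset.mem_insert_of_mem hv)⟩

private theorem no_loop2 {V : Finset ι} {G : Finset (Sym2 ι)} (hG : Fam o V G) (a : ι) : s(a, a) ∉ G :=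
  fun h => hG.nd _ h (by simp)

private theorem mx_ne_pq (h : Mut o o' p m q) (x : ι) : s(m, x) ≠ s(p, q) := by
  intro e
  rcases Sym2.eq_iff.1 e with ⟨e1, _⟩ | ⟨e1, _⟩
  · exact h.pm e1.symm
  · exact h.mq e1

private theorem pm_ne_pq (h : Mut o o' p m q) : s(p, m) ≠ s(p, q) := by
  rw [Sym2.eq_swap]
  exact mx_ne_pq h p

theorem add_pq' (hC : CC o) (hC' : CC o') (h : Mut o o' p m q) {V : Finset ι} (hm : m ∉ V)
    {G : Finset (Sym2 ι)} (hG : Fam o (insert m V) G) (h1 : s(p, m) ∈ G) (h2 : s(m, q) ∈ G) (h3 : s(p, q) ∉ G) :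
    Fam o' V (insert s(p, q) G) := by
  have hbel : ∀ x, x ≠ p → x ≠ q → s(m, x) ∈ G → ¬ o p q x := fun x hxp hxq hx =>
    pt_both hC h (no_loop2 hG m) h1 h2 (hG.pt m (Finset.mem_insert_self _ _)) hxp hxq hx
  have hV' : Fam o' V G := fam_transfer hC hC' h hm h3 (restr2 hG)
  refine fam_insert hC' hV' h.pq ?_ ?_ ?_
  · intro c d hcd hpc hpd hqc hqd hX
    have hne : c ≠ d := by
      rintro rfl
      exact no_loop2 hG c hcd
    by_cases hcm : c = m
    · subst hcm
      exact hbel d hpd.symm hqd.symm hcd ((cross_pqmx' hC hC' h hpd.symm hne.symm hqd.symm).1 hX)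
    · by_cases hdm : d = m
      · subst hdm
        have hcd' : s(d, c) ∈ G := by rw [Sym2.eq_swap]; exact hcd
        refine hbel c hpc.symm hqc.symm hcd' ((cross_pqmx' hC hC' h hpc.symm hne hqc.symm).1 ?_)
        exact (cross_swap' hC' hne hpc hpd hqc hqd).1 hX
      · rcases cross_pq_or' hC hC' h hne hpc.symm hcm hqc.symm hpd.symm hdm hqd.symm hX with hX | hX
        · exact hV'.nc p m c d h1 hcd hpc hpd (Ne.symm hcm) (Ne.symm hdm) hX
        · exact hV'.nc m q c d h2 hcd (Ne.symm hcm) (Ne.symm hdm) hqc hqd hX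
  · intro hpV
    have h4 := pt_add_p hC hC' h (Or.inr h1) (hG.pt p (Finset.mem_insert_of_mem hpV))
    exact (pt_agree hC hC' h h.pm).1 (ptd_mono hC (Finset.subset_insert _ _) h4)
  · intro hqV
    have h4 := pt_add_q hC hC' h (Or.inr h2) (hG.pt q (Finset.mem_insert_of_mem hqV))
    exact (pt_agree hC hC' h h.mq.symm).1 (ptd_mono hC (Finset.subset_insert _ _) h4)

theorem two_fwd (hC : CC o) (hC' : CC o') (h : Mut o o' p m q) {V : Finset ι} (hm : m ∉ V)
    {E : Finset (Sym2 ι)} (hE : Max o (insert m V) E) (hT : T2 p m q E) :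
    Max o' V (insert s(p, q) E) ∧ T1 p m q (insert s(p, q) E) := by
  obtain ⟨h1, h2, h3, x, hxp, hxq, hx⟩ := hT
  refine ⟨⟨add_pq' hC hC' h hm hE.1 h1 h2 h3, ?_⟩, Finset.mem_insert_self _ _, x, hxp, hxq,
    Finset.mem_insert_of_mem hx⟩
  intro e hd he hF
  have heE : e ∉ E := fun h4 => he (Finset.mem_insert_of_mem h4)
  have hepq : s(p, q) ≠ e := fun h4 => he (by rw [← h4]; exact Finset.mem_insert_self _ _)
  refine hE.2 e hd heE ?_
  have hpqe : s(p, q) ∉ insert e E := by
    intro h4
    rcases Finset.mem_insert.1 h4 with h4 | h4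
    · exact hepq h4
    · exact h3 h4
  have h5 : Fam o' V (insert e E) :=
    fam_mono hC' (Finset.insert_subset_insert _ (Finset.subset_insert _ _)) hF
  have h6 : Fam o V (insert e E) := fam_transfer' hC hC' h hm hpqe h5
  refine ⟨h6.nd, h6.nc, ?_⟩
  intro v hv
  rcases Finset.mem_insert.1 hv with rfl | hv
  · refine pt_below hC h (no_loop2 h6 v) (fun y hyp hyq hy => ?_)
    exact nbr_below hC hC' h hF (Finset.mem_insert_of_mem (Finset.mem_insert_self _ _)) hyp hyq
      (Finset.insert_subset_insert _ (Finset.subset_insert _ _) hy)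
  · exact h6.pt v hv

theorem two_back (hC : CC o) (hC' : CC o') (h : Mut o o' p m q) {V : Finset ι} (hm : m ∉ V)
    {F : Finset (Sym2 ι)} (hF : Max o' V F) (hT : T1 p m q F) :
    Max o (insert m V) (F.erase s(p, q)) ∧ T2 p m q (F.erase s(p, q)) := by
  obtain ⟨hpq, x, hxp, hxq, hx⟩ := hT
  obtain ⟨hpm, hmq⟩ := t1_edges' hC hC' h hm hF hpq
  have hpmG : s(p, m) ∈ F.erase s(p, q) := Finset.mem_erase.2 ⟨pm_ne_pq h, hpm⟩
  have hmqG : s(m, q) ∈ F.erase s(p, q) := Finset.mem_erase.2 ⟨mx_ne_pq h q, hmq⟩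
  have hmxG : s(m, x) ∈ F.erase s(p, q) := Finset.mem_erase.2 ⟨mx_ne_pq h x, hx⟩
  have hpqG : s(p, q) ∉ F.erase s(p, q) := Finset.notMem_erase _ _
  have hG : Fam o V (F.erase s(p, q)) :=
    fam_transfer' hC hC' h hm hpqG (fam_mono hC' (Finset.erase_subset _ _) hF.1)
  refine ⟨⟨⟨hG.nd, hG.nc, ?_⟩, ?_⟩, hpmG, hmqG, hpqG, x, hxp, hxq, hmxG⟩
  · intro v hv
    rcases Finset.mem_insert.1 hv with rfl | hv
    · exact pt_below hC h (no_loop2 hG v) (fun y hyp hyq hy =>
        nbr_below hC hC' h hF.1 hpq hyp hyq (Finset.mem_of_mem_erase hy))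
    · exact hG.pt v hv
  · intro e hd he hFe
    by_cases hepq : e = s(p, q)
    · subst hepq
      have hxm : x ≠ m := by
        rintro rfl
        exact no_loop2 hG x hmxG
      have hX : Cross o p q m x :=
        (cross_pqmx hC h hxp hxm hxq).2 (nbr_below hC hC' h hF.1 hpq hxp hxq hx)
      exact hFe.nc p q m x (Finset.mem_insert_self _ _) (Finset.mem_insert_of_mem hmxG) h.pm hxp.symm
        h.mq.symm hxq.symm hX
    · have heF : e ∉ F := fun h4 => he (Finset.mem_erase.2 ⟨hepq, h4⟩)
      refine hF.2 e hd heF ?_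
      have hpqe : s(p, q) ∉ insert e (F.erase s(p, q)) := by
        intro h4
        rcases Finset.mem_insert.1 h4 with h4 | h4
        · exact hepq h4.symm
        · exact hpqG h4
      have h5 := add_pq' hC hC' h hm hFe (Finset.mem_insert_of_mem hpmG) (Finset.mem_insert_of_mem hmqG) hpqe
      rw [Finset.insert_comm, Finset.insert_erase hpq] at h5
      exact h5

end Pool.Agent.Work.MP_02cc39_co.PT
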