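import Pool.Agent.Work.MP_02cc39_co.PT.Geo

set_option autoImplicit false

/-!
# Crossing of segments and the predicate Cross (size M)

Let a, b, c, d be four different indices, P in general position.

PROOFS. For affine functions f(x) := dt (P a) (P b) x and g(x) := dt (P c) (P d) x.
`cross_point`: Cross: f has different signs at P c and P d (both nonzero by Gen), so there is mu in (0,1) with f = 0 at
X := (1-mu) P c + mu P d; explicitly mu = f(c) / (f(c) - f(d)). In the same way lam := g(a) / (g(a) - g(b)) in (0,1), Y := (1-lam) P a + lam P b,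
g(Y) = 0. X = Y: f(X) = 0, g(X) = 0 (X on the line cd), f(Y) = 0, g(Y) = 0; the linear parts of f and g are independent (f(c) ≠ f(d) while
g is constant on cd). Or directly by `field_simp; ring` from the identity f(c) - f(d) = g(b) - g(a) (up to sign: f(d) - f(c) and g(b) - g(a)
are both the determinant of (P b - P a, P d - P c) up to sign).
`cross_of_point`: X is on both closed segments, X = (1-lam) P a + lam P b = (1-mu) P c + mu P d with lam, mu in [0,1]. f(X) = 0, so
(1-mu) f(c) + mu f(d) = 0 with f(c), f(d) ≠ 0: the signs are different (if mu = 0 then f(c) = 0, impossible, if mu = 1 then f(d) = 0).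
The same for g. L P a b c ↔ 0 < f(c) etc.
`cross_iff`: from the two.
-/

namespace Pool.Agent.Work.MP_02cc39_co.PT

open Classical

variable {ι : Type*} {P : ι → ℝ × ℝ}

private theorem br_comb {x y m : ℝ} (hx : x ≠ 0) (hy : y ≠ 0) (hm0 : 0 ≤ m) (hm1 : m ≤ 1)
    (h : (1 - m) * x + m * y = 0) : (0 < x ↔ ¬ 0 < y) := by
  constructor
  · intro h0 h1
    have h2 : 0 ≤ (1 - m) * x := mul_nonneg (by linarith) h0.le
    have h3 : 0 ≤ m * y := mul_nonneg hm0 h1.le
    have h4 : m * y = 0 := by linarith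
    have h5 : (1 - m) * x = 0 := by linarith
    rcases mul_eq_zero.mp h4 with h6 | h6
    · rcases mul_eq_zero.mp h5 with h7 | h7
      · linarith
      · exact hx h7
    · exact hy h6
  · intro h0
    have hy' : y < 0 := lt_of_le_of_ne (not_lt.mp h0) hy
    by_contra h1
    have hx' : x < 0 := lt_of_le_of_ne (not_lt.mp h1) hx
    have h2 : 0 ≤ (1 - m) * (-x) := mul_nonneg (by linarith) (by linarith)
    have h3 : 0 ≤ m * (-y) := mul_nonneg hm0 (by linarith)
    have h4 : m * (-y) = 0 := by linarith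
    have h5 : (1 - m) * (-x) = 0 := by linarith
    rcases mul_eq_zero.mp h4 with h6 | h6
    · rcases mul_eq_zero.mp h5 with h7 | h7
      · linarith
      · exact hx (by linarith)
    · exact hy (by linarith)

private theorem br_opp {x y : ℝ} (hx : x ≠ 0) (hy : y ≠ 0) (h : (0 < x ↔ ¬ 0 < y)) :
    (0 < x ∧ y < 0) ∨ (x < 0 ∧ 0 < y) := by
  by_cases h0 : 0 < x
  · exact Or.inl ⟨h0, lt_of_le_of_ne (not_lt.mp (h.mp h0)) hy⟩
  · right
    refine ⟨lt_of_le_of_ne (not_lt.mp h0) hx, ?_⟩
    by_contra h1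
    exact h0 (h.mpr h1)

theorem cross_point (hP : Gen P) {a b c d : ι} (hab : a ≠ b) (hac : a ≠ c) (had : a ≠ d) (hbc : b ≠ c) (hbd : b ≠ d)
    (hcd : c ≠ d) (h : Cross (L P) a b c d) : ∃ l m : ℝ, 0 < l ∧ l < 1 ∧ 0 < m ∧ m < 1 ∧
      (1 - l) * (P a).1 + l * (P b).1 = (1 - m) * (P c).1 + m * (P d).1 ∧
      (1 - l) * (P a).2 + l * (P b).2 = (1 - m) * (P c).2 + m * (P d).2 := by
  have hfc : det P a b c ≠ 0 := hP.2 a b c hab hac hbc
  have hfd : det P a b d ≠ 0 := hP.2 a b d hab had hbd
  have hga : det P c d a ≠ 0 := hP.2 c d a hcd (Ne.symm hac) (Ne.symm had)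
  have hgb : det P c d b ≠ 0 := hP.2 c d b hcd (Ne.symm hbc) (Ne.symm hbd)
  have h1 := br_opp hfc hfd h.1
  have h2 := br_opp hga hgb h.2
  have hid : det P a b c - det P a b d = det P c d b - det P c d a := by
    unfold det; ring
  have hD : det P a b c - det P a b d ≠ 0 := by
    rcases h1 with ⟨h3, h4⟩ | ⟨h3, h4⟩
    · exact ne_of_gt (by linarith)
    · exact ne_of_lt (by linarith)
  have hD' : det P c d a - det P c d b ≠ 0 := by
    intro h3; exact hD (by linarith)
  have hl : ∀ x y : ℝ, ((0 < x ∧ y < 0) ∨ (x < 0 ∧ 0 < y)) → 0 < x / (x - y) ∧ x / (x - y) < 1 := by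
    intro x y hxy
    rcases hxy with ⟨hx, hy⟩ | ⟨hx, hy⟩
    · have h3 : 0 < x - y := by linarith
      exact ⟨div_pos hx h3, by rw [div_lt_one h3]; linarith⟩
    · have h3 : x - y < 0 := by linarith
      refine ⟨div_pos_of_neg_of_neg hx h3, ?_⟩
      rw [div_lt_one_of_neg h3]; linarith
  have hl1 := hl _ _ h2
  have hm1 := hl _ _ h1
  have e1 : ∀ u v : ℝ, (det P c d a - det P c d b) * ((1 - det P c d a / (det P c d a - det P c d b)) * u +
      det P c d a / (det P c d a - det P c d b) * v) = - det P c d b * u + det P c d a * v := by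
    intro u v
    field_simp
    ring
  have e2 : ∀ u v : ℝ, (det P a b c - det P a b d) * ((1 - det P a b c / (det P a b c - det P a b d)) * u +
      det P a b c / (det P a b c - det P a b d) * v) = - det P a b d * u + det P a b c * v := by
    intro u v
    field_simp
    ring
  refine ⟨det P c d a / (det P c d a - det P c d b), det P a b c / (det P a b c - det P a b d), hl1.1, hl1.2,
    hm1.1, hm1.2, ?_, ?_⟩
  · apply mul_left_cancel₀ hD'
    rw [e1]
    have h3 : det P c d a - det P c d b = - (det P a b c - det P a b d) := by linarith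
    have h4 : ∀ z : ℝ, (det P c d a - det P c d b) * z = - ((det P a b c - det P a b d) * z) := by
      intro z; rw [h3]; ring
    rw [h4, e2]
    unfold det
    ring
  · apply mul_left_cancel₀ hD'
    rw [e1]
    have h3 : det P c d a - det P c d b = - (det P a b c - det P a b d) := by linarith
    have h4 : ∀ z : ℝ, (det P c d a - det P c d b) * z = - ((det P a b c - det P a b d) * z) := by
      intro z; rw [h3]; ring
    rw [h4, e2]
    unfold det
    ring

theorem cross_of_point (hP : Gen P) {a b c d : ι} (hab : a ≠ b) (hac : a ≠ c) (had : a ≠ d) (hbc : b ≠ c) (hbd : b ≠ d)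
    (hcd : c ≠ d) {l m : ℝ} (hl0 : 0 ≤ l) (hl1 : l ≤ 1) (hm0 : 0 ≤ m) (hm1 : m ≤ 1)
    (h1 : (1 - l) * (P a).1 + l * (P b).1 = (1 - m) * (P c).1 + m * (P d).1)
    (h2 : (1 - l) * (P a).2 + l * (P b).2 = (1 - m) * (P c).2 + m * (P d).2) : Cross (L P) a b c d := by
  have hfc : det P a b c ≠ 0 := hP.2 a b c hab hac hbc
  have hfd : det P a b d ≠ 0 := hP.2 a b d hab had hbd
  have hga : det P c d a ≠ 0 := hP.2 c d a hcd (Ne.symm hac) (Ne.symm had)
  have hgb : det P c d b ≠ 0 := hP.2 c d b hcd (Ne.symm hbc) (Ne.symm hbd)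
  have e1 : (1 - m) * det P a b c + m * det P a b d = 0 := by
    unfold det
    linear_combination (((P b).1 - (P a).1)) * (-h2) + (((P b).2 - (P a).2)) * h1
  have e2 : (1 - l) * det P c d a + l * det P c d b = 0 := by
    unfold det
    linear_combination (((P d).1 - (P c).1)) * h2 - (((P d).2 - (P c).2)) * h1
  exact ⟨br_comb hfc hfd hm0 hm1 e1, br_comb hga hgb hl0 hl1 e2⟩

theorem cross_iff (hP : Gen P) {a b c d : ι} (hab : a ≠ b) (hac : a ≠ c) (had : a ≠ d) (hbc : b ≠ c) (hbd : b ≠ d)
    (hcd : c ≠ d) : Disjoint (segment ℝ (P a) (P b)) (segment ℝ (P c) (P d)) ↔ ¬ Cross (L P) a b c d := by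
  constructor
  · intro hdis hcr
    obtain ⟨l, m, hl0, hl1, hm0, hm1, h1, h2⟩ := cross_point hP hab hac had hbc hbd hcd hcr
    have hX1 : (1 - l) • P a + l • P b ∈ segment ℝ (P a) (P b) := by
      rw [segment_eq_image]
      exact ⟨l, ⟨hl0.le, hl1.le⟩, rfl⟩
    have hX2 : (1 - m) • P c + m • P d ∈ segment ℝ (P c) (P d) := by
      rw [segment_eq_image]
      exact ⟨m, ⟨hm0.le, hm1.le⟩, rfl⟩
    have hXY : (1 - l) • P a + l • P b = (1 - m) • P c + m • P d := by
      apply Prod.ext
      · simpa using h1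
      · simpa using h2
    rw [hXY] at hX1
    exact Set.disjoint_left.mp hdis hX1 hX2
  · intro hcr
    rw [Set.disjoint_left]
    intro X hX1 hX2
    rw [segment_eq_image] at hX1 hX2
    obtain ⟨l, ⟨hl0, hl1⟩, hl⟩ := hX1
    obtain ⟨m, ⟨hm0, hm1⟩, hm⟩ := hX2
    have h0 : (1 - l) • P a + l • P b = (1 - m) • P c + m • P d := by
      have hl' : (1 - l) • P a + l • P b = X := hl
      have hm' : (1 - m) • P c + m • P d = X := hm
      rw [hl', hm']
    apply hcr
    refine cross_of_point hP hab hac had hbc hbd hcd hl0 hl1 hm0 hm1 ?_ ?_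
    · have := congrArg Prod.fst h0
      simpa using this
    · have := congrArg Prod.snd h0
      simpa using this

end Pool.Agent.Work.MP_02cc39_co.PT
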