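import Pool.Agent.Work.MP_02cc39_co.PT.Defs

set_option autoImplicit false

/-!
# The rules `CC` hold for `L P`

PROOF. `det P i j k` is cyclically symmetric, changes its sign when `j, k` are exchanged and is `0` if two of the
indices are equal (all by `ring`). `cyc`, `ne`, `anti` follow. `tot`: `det P i j k` is not `0` by `Gen` and not
positive, so it is negative and `det P i k j = - det P i j k > 0`.
`gp`: identity (ring)  det x a b * det x c d - det x a c * det x b d + det x a d * det x b c = 0.
All six numbers are nonzero (the list is `Nodup`, `Gen`). If (0 < det x a b iff 0 < det x c d) the first product is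
positive, if (0 < det x a d iff 0 < det x b c) the third one is positive, so det x a c * det x b d > 0 and the two
factors have the same sign.
-/

namespace Pool.Agent.Work.MP_02cc39_co.PT

open Classical

private theorem det_cyc {ι : Type*} (P : ι → ℝ × ℝ) (i j k : ι) : det P j k i = det P i j k := by
  unfold det
  ring

private theorem det_swap {ι : Type*} (P : ι → ℝ × ℝ) (i j k : ι) : det P i k j = - det P i j k := by
  unfold det
  ring

private theorem det_gp {ι : Type*} (P : ι → ℝ × ℝ) (x a b c d : ι) :
    det P x a b * det P x c d - det P x a c * det P x b d + det P x a d * det P x b c = 0 := by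
  unfold det
  ring

private theorem sign_gp {A B C D E F : ℝ} (hA : A ≠ 0) (hB : B ≠ 0) (hC : C ≠ 0) (hD : D ≠ 0)
    (h : A * B - E * F + C * D = 0) (h1 : 0 < A ↔ 0 < B) (h2 : 0 < C ↔ 0 < D) :
    0 < E ↔ 0 < F := by
  have k1 : 0 < A * B := by
    rcases lt_or_gt_of_ne hA with h3 | h3
    · have h4 : B < 0 := by
        rcases lt_or_gt_of_ne hB with h5 | h5
        · exact h5
        · exact absurd (h1.2 h5) (not_lt.2 h3.le)
      exact mul_pos_of_neg_of_neg h3 h4
    · exact mul_pos h3 (h1.1 h3)
  have k2 : 0 < C * D := by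
    rcases lt_or_gt_of_ne hC with h3 | h3
    · have h4 : D < 0 := by
        rcases lt_or_gt_of_ne hD with h5 | h5
        · exact h5
        · exact absurd (h2.2 h5) (not_lt.2 h3.le)
      exact mul_pos_of_neg_of_neg h3 h4
    · exact mul_pos h3 (h2.1 h3)
  have k3 : 0 < E * F := by linarith
  constructor
  · intro h3
    exact (pos_iff_pos_of_mul_pos k3).1 h3
  · intro h3
    exact (pos_iff_pos_of_mul_pos k3).2 h3

theorem ccL {ι : Type*} {P : ι → ℝ × ℝ} (hP : Gen P) : CC (L P) := by
  refine ⟨?_, ?_, ?_, ?_, ?_⟩
  · intro i j k h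
    unfold L at h ⊢
    rw [det_cyc]
    exact h
  · intro i j k h
    unfold L at h
    refine ⟨?_, ?_, ?_⟩
    · rintro rfl
      apply h.ne
      unfold det
      ring
    · rintro rfl
      apply h.ne
      unfold det
      ring
    · rintro rfl
      apply h.ne
      unfold det
      ring
  · intro i j k h h'
    unfold L at h h'
    rw [det_swap] at h'
    linarith
  · intro i j k h1 h2 h3 h
    unfold L at h ⊢
    rw [det_swap]
    have h4 := hP.2 i j k h1 h2 h3
    have h5 := lt_of_le_of_ne (not_lt.1 h) h4
    linarith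
  · intro x a b c d hn h1 h2
    simp only [List.nodup_cons, List.mem_cons, List.not_mem_nil, or_false, not_or,
      not_false_eq_true, List.nodup_nil, and_true] at hn
    obtain ⟨⟨hxa, hxb, hxc, hxd⟩, ⟨hab, hac, had⟩, ⟨hbc, hbd⟩, hcd⟩ := hn
    exact sign_gp (hP.2 x a b hxa hxb hab) (hP.2 x c d hxc hxd hcd) (hP.2 x a d hxa hxd had)
      (hP.2 x b c hxb hxc hbc) (det_gp P x a b c d) h1 h2

end Pool.Agent.Work.MP_02cc39_co.PT
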