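import Pool.Agent.Work.MP_02cc39_co.PT.Defs

set_option autoImplicit false

/-!
# Moebius inversion (pure, size S)

`cnt o V = ∑ W ⊆ V, bb o W`.
-/

namespace Pool.Agent.Work.MP_02cc39_co.PT

open Classical

variable {ι : Type*} [Fintype ι]

private lemma sum_pow_between {α : Type*} (U V : Finset α) (hUV : U ⊆ V) :
    ∑ W ∈ V.powerset.filter (fun W => U ⊆ W), (-1 : ℤ) ^ (W.card - U.card) = if U = V then 1 else 0 := by
  have h1 : ∑ W ∈ V.powerset.filter (fun W => U ⊆ W), (-1 : ℤ) ^ (W.card - U.card)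
      = ∑ W ∈ (V \ U).powerset, (-1 : ℤ) ^ W.card := by
    refine Finset.sum_bij' (fun W _ => W \ U) (fun W _ => W ∪ U) ?_ ?_ ?_ ?_ ?_
    · intro W hW
      rw [Finset.mem_filter, Finset.mem_powerset] at hW
      rw [Finset.mem_powerset]
      exact Finset.sdiff_subset_sdiff hW.1 (Finset.Subset.refl _)
    · intro W hW
      rw [Finset.mem_powerset] at hW
      rw [Finset.mem_filter, Finset.mem_powerset]
      exact ⟨Finset.union_subset (hW.trans Finset.sdiff_subset) hUV, Finset.subset_union_right⟩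
    · intro W hW
      rw [Finset.mem_filter, Finset.mem_powerset] at hW
      exact Finset.sdiff_union_of_subset hW.2
    · intro W hW
      rw [Finset.mem_powerset] at hW
      ext x
      simp only [Finset.mem_sdiff, Finset.mem_union]
      constructor
      · rintro ⟨h | h, h'⟩
        · exact h
        · exact absurd h h'
      · intro h
        exact ⟨Or.inl h, (Finset.mem_sdiff.1 (hW h)).2⟩
    · intro W hW
      rw [Finset.mem_filter, Finset.mem_powerset] at hW
      rw [Finset.card_sdiff_of_subset hW.2]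
  rw [h1, Finset.sum_powerset_neg_one_pow_card]
  have h2 : (V \ U = ∅) ↔ U = V := by
    rw [Finset.sdiff_eq_empty_iff_subset]
    constructor
    · intro h
      exact Finset.Subset.antisymm hUV h
    · intro h
      rw [h]
  simp only [h2]

theorem sum_bb (o : ι → ι → ι → Prop) (V : Finset ι) : (cnt o V : ℤ) = ∑ W ∈ V.powerset, bb o W := by
  have h1 : ∑ W ∈ V.powerset, bb o W
      = ∑ W ∈ V.powerset, ∑ U ∈ V.powerset, if U ⊆ W then (-1 : ℤ) ^ (W.card - U.card) * (cnt o U : ℤ) else 0 := by
    refine Finset.sum_congr rfl ?_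
    intro W hW
    rw [Finset.mem_powerset] at hW
    rw [bb, ← Finset.sum_filter]
    refine Finset.sum_congr ?_ (fun _ _ => rfl)
    ext U
    simp only [Finset.mem_powerset, Finset.mem_filter]
    exact ⟨fun h => ⟨h.trans hW, h⟩, fun h => h.2⟩
  rw [h1, Finset.sum_comm]
  have h2 : ∀ U ∈ V.powerset, (∑ W ∈ V.powerset, if U ⊆ W then (-1 : ℤ) ^ (W.card - U.card) * (cnt o U : ℤ) else 0)
      = if U = V then (cnt o U : ℤ) else 0 := by
    intro U hU
    rw [Finset.mem_powerset] at hU
    rw [← Finset.sum_filter, ← Finset.sum_mul, sum_pow_between U V hU]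
    split_ifs <;> simp
  rw [Finset.sum_congr rfl h2]
  rw [Finset.sum_ite_eq' V.powerset V (fun U => (cnt o U : ℤ))]
  simp

theorem bb_empty (o : ι → ι → ι → Prop) : bb o ∅ = cnt o ∅ := by
  simp [bb]

theorem bb_congr {o o' : ι → ι → ι → Prop} (W : Finset ι) (h : ∀ V ⊆ W, cnt o V = cnt o' V) : bb o W = bb o' W := by
  rw [bb, bb]
  refine Finset.sum_congr rfl ?_
  intro V hV
  rw [h V (Finset.mem_powerset.1 hV)]

end Pool.Agent.Work.MP_02cc39_co.PT
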