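import Pool.Agent.Work.MP_02cc39_co.PT.Pull
import Pool.Agent.Work.MP_02cc39_co.PT.SumBB

set_option autoImplicit false

/-!
# Pulling all inner points out of the hull (size S-M)

`innS P` is the set of the inner points.
PROOFS.
`cnt_pos`: the empty graph is in Fam (nothing to cross; no neighbours); a maximal element of the finite nonempty set of the E in Fam (e.g. of largest card, or `Finset.exists_maximal`) is Max.
`pull_full`: induction on the number of inner points. None: Q = P, `bb_empty`. Otherwise let y be inner, x ≠ y any other point (Inner gives one): `pull` with W = innS P: bb (L P) (innS P) = bb (L Q) ((innS P).erase y), and (innS P).erase y = innS Q.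
`pull_but`: induction on the number of inner points different from x. None: (innS P).erase x = ∅: Q = P. Otherwise let y ≠ x be inner: `pull` with W = (innS P).erase x; W.erase y = (innS Q).erase x. Inner (L Q) x ↔ Inner (L P) x because x ≠ y.
-/

namespace Pool.Agent.Work.MP_02cc39_co.PT

open Classical

variable {ι : Type*} [Fintype ι]

/-- the inner points -/
noncomputable def innS (P : ι → ℝ × ℝ) : Finset ι := Finset.univ.filter fun w => Inner (L P) w

private lemma mem_innS {P : ι → ℝ × ℝ} {w : ι} : w ∈ innS P ↔ Inner (L P) w := by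
  simp [innS]

theorem cnt_pos (o : ι → ι → ι → Prop) (V : Finset ι) : 0 < cnt o V := by
  have h0 : Fam o V (∅ : Finset (Sym2 ι)) := by
    refine ⟨fun e he => absurd he (Finset.notMem_empty e), ?_, ?_⟩
    · intro a b c d h
      exact absurd h (Finset.notMem_empty _)
    · intro v _
      exact Or.inl fun b => Finset.notMem_empty _
  have hne : ((Finset.univ : Finset (Finset (Sym2 ι))).filter fun E => Fam o V E).Nonempty :=
    ⟨∅, by simp [h0]⟩
  obtain ⟨E, hE, hmax⟩ := Finset.exists_max_image _ (fun E : Finset (Sym2 ι) => E.card) hne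
  rw [Finset.mem_filter] at hE
  unfold cnt
  rw [Finset.card_pos]
  refine ⟨E, ?_⟩
  unfold MaxSet
  rw [Finset.mem_filter]
  refine ⟨Finset.mem_univ _, hE.2, ?_⟩
  intro e _ he hF
  have h1 := hmax (insert e E) (by
    rw [Finset.mem_filter]
    exact ⟨Finset.mem_univ _, hF⟩)
  rw [Finset.card_insert_of_notMem he] at h1
  omega

theorem pull_full {P : ι → ℝ × ℝ} (hP : Gen P) :
    ∃ Q : ι → ℝ × ℝ, Gen Q ∧ (∀ w, ¬ Inner (L Q) w) ∧ bb (L P) (innS P) = cnt (L Q) ∅ := by
  have key : ∀ n : ℕ, ∀ P : ι → ℝ × ℝ, Gen P → (innS P).card = n →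
      ∃ Q : ι → ℝ × ℝ, Gen Q ∧ (∀ w, ¬ Inner (L Q) w) ∧ bb (L P) (innS P) = cnt (L Q) ∅ := by
    intro n
    induction n with
    | zero =>
      intro P hP hn
      rw [Finset.card_eq_zero] at hn
      refine ⟨P, hP, ?_, ?_⟩
      · intro w hw
        have h1 : w ∈ innS P := mem_innS.2 hw
        rw [hn] at h1
        exact absurd h1 (Finset.notMem_empty w)
      · rw [hn, bb_empty]
    | succ n ih =>
      intro P hP hn
      have hne : (innS P).Nonempty := by
        rw [← Finset.card_pos]
        omega
      obtain ⟨y, hy⟩ := hne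
      have hy' : Inner (L P) y := mem_innS.1 hy
      obtain ⟨x, hx⟩ := hy'.1
      obtain ⟨Q, hQ, hQi, hQb⟩ := pull hP hx hy'
      have hS : innS Q = (innS P).erase y := by
        ext w
        rw [mem_innS, Finset.mem_erase, mem_innS, hQi]
        tauto
      have hc : (innS Q).card = n := by
        rw [hS, Finset.card_erase_of_mem hy]
        omega
      obtain ⟨R, hR, hRi, hRb⟩ := ih Q hQ hc
      refine ⟨R, hR, hRi, ?_⟩
      rw [hQb (innS P) hy (fun w hw _ => mem_innS.2 hw), ← hS]
      exact hRb
  exact key _ P hP rfl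

theorem pull_but {P : ι → ℝ × ℝ} (hP : Gen P) (x : ι) :
    ∃ Q : ι → ℝ × ℝ, Gen Q ∧ (∀ w, Inner (L Q) w ↔ Inner (L P) w ∧ w = x) ∧
      bb (L P) ((innS P).erase x) = cnt (L Q) ∅ := by
  have key : ∀ n : ℕ, ∀ P : ι → ℝ × ℝ, Gen P → ((innS P).erase x).card = n →
      ∃ Q : ι → ℝ × ℝ, Gen Q ∧ (∀ w, Inner (L Q) w ↔ Inner (L P) w ∧ w = x) ∧
        bb (L P) ((innS P).erase x) = cnt (L Q) ∅ := by
    intro n
    induction n with
    | zero =>
      intro P hP hn
      rw [Finset.card_eq_zero] at hn
      refine ⟨P, hP, ?_, ?_⟩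
      · intro w
        constructor
        · intro hw
          refine ⟨hw, ?_⟩
          by_contra hwx
          have h1 : w ∈ (innS P).erase x := Finset.mem_erase.2 ⟨hwx, mem_innS.2 hw⟩
          rw [hn] at h1
          exact absurd h1 (Finset.notMem_empty w)
        · intro hw
          exact hw.1
      · rw [hn, bb_empty]
    | succ n ih =>
      intro P hP hn
      have hne : ((innS P).erase x).Nonempty := by
        rw [← Finset.card_pos]
        omega
      obtain ⟨y, hy⟩ := hne
      have hyx : y ≠ x := (Finset.mem_erase.1 hy).1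
      have hy' : Inner (L P) y := mem_innS.1 (Finset.mem_erase.1 hy).2
      obtain ⟨Q, hQ, hQi, hQb⟩ := pull hP hyx.symm hy'
      have hS : (innS Q).erase x = ((innS P).erase x).erase y := by
        ext w
        rw [Finset.mem_erase, mem_innS, Finset.mem_erase, Finset.mem_erase, mem_innS, hQi]
        tauto
      have hc : ((innS Q).erase x).card = n := by
        rw [hS, Finset.card_erase_of_mem hy]
        omega
      obtain ⟨R, hR, hRi, hRb⟩ := ih Q hQ hc
      refine ⟨R, hR, ?_, ?_⟩
      · intro w
        rw [hRi w, hQi w]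
        constructor
        · rintro ⟨⟨h1, -⟩, h2⟩
          exact ⟨h1, h2⟩
        · rintro ⟨h1, h2⟩
          refine ⟨⟨h1, ?_⟩, h2⟩
          rw [h2]
          exact hyx.symm
      · rw [hQb ((innS P).erase x) hy (fun w hw hwx => Finset.mem_erase.2 ⟨hwx, mem_innS.2 hw⟩), ← hS]
        exact hRb
  exact key _ P hP rfl

end Pool.Agent.Work.MP_02cc39_co.PT
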