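import Pool.Agent.Work.MP_02cc39_co.PT.ConvLabel
import Pool.Agent.Work.MP_02cc39_co.PT.PullAll
import Pool.Agent.Work.MP_02cc39_co.Mut.CatF
import Pool.Agent.Work.MP_02cc39_co.Mut.CatAdapt

set_option autoImplicit false

/-!
# The number of triangulations of a convex configuration (size M)

PROOF of `cnt_conv`: `conv_label` (CC by `ccL hQ`) gives σ : Fin n ≃ V (n = card V) with L Q (σ i) (σ j) (σ k) for i < j < k. Let e := σ.symm and R := PT39.par e (points k, k^2). For different a, b, c: L Q a b c ↔ L R a b c: both sides are determined by the order of the numbers e a, e b, e c: for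
e a < e b < e c both are true (`PT39.par_ori`: the product of the differences is positive; PT39.ori is PT.det after unfolding), the other orders follow from cyc, anti/tot for both (or from the sign of the product for R). For equal entries both are false. So L Q = L R (funext, propext).
cnt (L R) ∅ is the number of the E with Max (L R) ∅ E; Max (L R) ∅ E ↔ PT39.MaxFam (PT39.chi R) ∅ E: PT39.Cross χ a b c d ↔ Cross χ a b c d (¬ (x ↔ y) is (x ↔ ¬ y)); PT39.NC and NonCr agree for loopless E; the pointedness conditions are void; maximal with respect to adding one edge is the same as maximal because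
subsets of noncrossing sets are noncrossing (`fam_mono`). Then `PT39.par_card` (n ≥ 2).
`alt_sum`: `pull_full` and `cnt_conv`.
-/

namespace Pool.Agent.Work.MP_02cc39_co.PT

open Classical

variable {V : Type} [Fintype V]

theorem cnt_conv {Q : V → ℝ × ℝ} (hQ : Gen Q) (hn : ∀ w, ¬ Inner (L Q) w) (hc : 2 ≤ Fintype.card V) :
    cnt (L Q) ∅ = catalan (Fintype.card V - 2) := by
  have hC : CC (L Q) := ccL hQ
  obtain ⟨σ, hσ⟩ := conv_label hC hn
  exact PT39.cnt_convex hC hc σ hσ

theorem alt_sum {P : V → ℝ × ℝ} (hP : Gen P) (hc : 2 ≤ Fintype.card V) :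
    bb (L P) (innS P) = (catalan (Fintype.card V - 2) : ℤ) := by
  obtain ⟨Q, hQ, hn, h⟩ := pull_full hP
  rw [h, cnt_conv hQ hn hc]

end Pool.Agent.Work.MP_02cc39_co.PT
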