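import Pool.Agent.Work.MP_02cc39_co.PT.Path
import Pool.Agent.Work.MP_02cc39_co.PT.AvoidLines

set_option autoImplicit false

/-!
# Generic targets exist in every nonempty open set (size M-L)

PROOF. `avoid_lines` for the union of three finite families of sets (index types: use it for a sum type, or three times in a row with open complements, or for the index set ι × ι × ι × ι with B τ the union ... each B must lie in ONE line, so a
sum type is best):
 A(j,k) := { Z | dt Z (P j) (P k) = 0 } for j ≠ k;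
 B(i) := { Z | dt (P y) (P i) Z = 0 } for i ≠ y;
 C(j,k,j',k') := { Z | ∃ X, dt X (P j) (P k) = 0 ∧ dt X (P j') (P k') = 0 ∧ dt (P y) X Z = 0 } for j, k, j', k' ≠ y, j ≠ k, j' ≠ k', s(j,k) ≠ s(j',k').
Each is contained in a line: A, B: P is injective, dt is affine in one argument: dt Z B C = 0 is (C - B)^perp . (Z - B) = 0. C: if there is no X take any line. Let X0 be one. X0 ≠ P y (dt (P y) (P j) (P k) ≠ 0 by Gen). X0 is the only one: if X1 ≠ X0 is another
one then P j, P k, P j', P k' are all on the line X0 X1 (P j, P k and X0, X1 are on one line, P j ≠ P k), so dt (P j) (P k) (P j') = 0 = dt (P j) (P k) (P k'); one of j', k' is not in {j,k}: contradiction to Gen. So C is contained in { Z | dt (P y) X0 Z = 0 }.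
Let Z ∈ U be outside all of them. `gen`: triples with y: A; injective: Z = P i would be in B(i). `ne`: X := pth t y = P i means P i = (1-t) P y + t Z, so dt (P y) (P i) Z = 0 (ring). `one`: X := pth t y; t ≠ 0 because det P y j k ≠ 0 and
pth 0 = P; X = (1-t) P y + t Z so dt (P y) X Z = 0, so Z ∈ C(j,k,j',k') if s(j,k) ≠ s(j',k').
-/

namespace Pool.Agent.Work.MP_02cc39_co.PT

open Classical

variable {ι : Type*} [Fintype ι]

private theorem gx_line_a {B C : ℝ × ℝ} (h : B ≠ C) : ∃ α β γ : ℝ, (α ≠ 0 ∨ β ≠ 0) ∧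
    ∀ Z ∈ {Z : ℝ × ℝ | dt Z B C = 0}, α * Z.1 + β * Z.2 = γ := by
  refine ⟨B.2 - C.2, C.1 - B.1, B.2 * C.1 - B.1 * C.2, ?_, ?_⟩
  · by_contra hcon
    push Not at hcon
    apply h
    ext
    · linarith [hcon.2]
    · linarith [hcon.1]
  · intro Z hZ
    have hZ' : dt Z B C = 0 := hZ
    unfold dt at hZ'
    linear_combination hZ'

private theorem gx_line_b {A B : ℝ × ℝ} (h : A ≠ B) : ∃ α β γ : ℝ, (α ≠ 0 ∨ β ≠ 0) ∧
    ∀ Z : ℝ × ℝ, dt A B Z = 0 → α * Z.1 + β * Z.2 = γ := by
  refine ⟨A.2 - B.2, B.1 - A.1, (B.1 - A.1) * A.2 - (B.2 - A.2) * A.1, ?_, ?_⟩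
  · by_contra hcon
    push Not at hcon
    apply h
    ext
    · linarith [hcon.2]
    · linarith [hcon.1]
  · intro Z hZ
    unfold dt at hZ
    linear_combination hZ

/-- three vectors of the plane -/
private theorem gx_perp {n1 n2 m1 m2 d1 d2 u1 u2 : ℝ} (hm : m1 ≠ 0 ∨ m2 ≠ 0) (hd : d1 ≠ 0 ∨ d2 ≠ 0)
    (hnd : n1 * d1 + n2 * d2 = 0) (hmd : m1 * d1 + m2 * d2 = 0) (hmu : m1 * u1 + m2 * u2 = 0) :
    n1 * u1 + n2 * u2 = 0 := by
  have h1 : u1 * d2 - u2 * d1 = 0 := by
    rcases hm with hm | hm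
    · have : m1 * (u1 * d2 - u2 * d1) = 0 := by linear_combination d2 * hmu - u2 * hmd
      exact (mul_eq_zero.1 this).resolve_left hm
    · have : m2 * (u1 * d2 - u2 * d1) = 0 := by linear_combination u1 * hmd - d1 * hmu
      exact (mul_eq_zero.1 this).resolve_left hm
  rcases hd with hd | hd
  · have : d1 * (n1 * u1 + n2 * u2) = 0 := by linear_combination u1 * hnd - n2 * h1
    exact (mul_eq_zero.1 this).resolve_left hd
  · have : d2 * (n1 * u1 + n2 * u2) = 0 := by linear_combination u2 * hnd + n1 * h1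
    exact (mul_eq_zero.1 this).resolve_left hd

private theorem gx_two_lines {B C B' C' X0 X1 : ℝ × ℝ} (hB' : B' ≠ C') (h00 : dt X0 B C = 0)
    (h01 : dt X0 B' C' = 0) (h10 : dt X1 B C = 0) (h11 : dt X1 B' C' = 0) (hX : X0 ≠ X1) :
    dt B C B' = 0 ∧ dt B C C' = 0 := by
  unfold dt at *
  have hm : B'.2 - C'.2 ≠ 0 ∨ C'.1 - B'.1 ≠ 0 := by
    by_contra hcon
    push Not at hcon
    apply hB'
    ext
    · linarith [hcon.2]
    · linarith [hcon.1]
  have hd : X1.1 - X0.1 ≠ 0 ∨ X1.2 - X0.2 ≠ 0 := by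
    by_contra hcon
    push Not at hcon
    apply hX
    ext
    · linarith [hcon.1]
    · linarith [hcon.2]
  have e1 : (B.2 - C.2) * (X1.1 - X0.1) + (C.1 - B.1) * (X1.2 - X0.2) = 0 := by
    linear_combination h10 - h00
  have e2 : (B'.2 - C'.2) * (X1.1 - X0.1) + (C'.1 - B'.1) * (X1.2 - X0.2) = 0 := by
    linear_combination h11 - h01
  have e3 : (B'.2 - C'.2) * (B'.1 - X0.1) + (C'.1 - B'.1) * (B'.2 - X0.2) = 0 := by
    linear_combination -h01
  have e4 : (B'.2 - C'.2) * (C'.1 - X0.1) + (C'.1 - B'.1) * (C'.2 - X0.2) = 0 := by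
    linear_combination -h01
  have f1 := gx_perp hm hd e1 e2 e3
  have f2 := gx_perp hm hd e1 e2 e4
  constructor
  · linear_combination f1 + h00
  · linear_combination f2 + h00

private def gxB (P : ι → ℝ × ℝ) (y : ι) : (ι × ι) ⊕ ι ⊕ (ι × ι × ι × ι) → Set (ℝ × ℝ)
  | Sum.inl (j, k) => {Z | dt Z (P j) (P k) = 0}
  | Sum.inr (Sum.inl i) => {Z | dt (P y) (P i) Z = 0}
  | Sum.inr (Sum.inr (j, k, j', k')) =>
    {Z | ∃ X, dt X (P j) (P k) = 0 ∧ dt X (P j') (P k') = 0 ∧ dt (P y) X Z = 0}

private def gxQ (y : ι) : (ι × ι) ⊕ ι ⊕ (ι × ι × ι × ι) → Prop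
  | Sum.inl (j, k) => j ≠ k
  | Sum.inr (Sum.inl i) => i ≠ y
  | Sum.inr (Sum.inr (j, k, j', k')) => j ≠ y ∧ k ≠ y ∧ j' ≠ y ∧ k' ≠ y ∧ j ≠ k ∧ j' ≠ k' ∧ s(j, k) ≠ s(j', k')

theorem good_exists {P : ι → ℝ × ℝ} (hP : Gen P) (y : ι) {U : Set (ℝ × ℝ)} (hU : IsOpen U) (hne : U.Nonempty) :
    ∃ Z ∈ U, Good P y Z := by
  have hinj := hP.1
  obtain ⟨Z, hZU, hZ⟩ := avoid_lines (Finset.univ.filter (gxQ y)) (gxB P y) (by
    intro κ hκ
    rw [Finset.mem_filter] at hκ
    have hQ := hκ.2
    rcases κ with ⟨j, k⟩ | i | ⟨j, k, j', k'⟩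
    · have hjk : j ≠ k := hQ
      exact gx_line_a (fun h => hjk (hinj h))
    · have hi : i ≠ y := hQ
      obtain ⟨α, β, γ, h1, h2⟩ := gx_line_b (A := P y) (B := P i) (fun h => hi (hinj h).symm)
      exact ⟨α, β, γ, h1, fun Z hZ => h2 Z hZ⟩
    · obtain ⟨hj, hk, hj', hk', hjk, hjk', hs⟩ : j ≠ y ∧ k ≠ y ∧ j' ≠ y ∧ k' ≠ y ∧ j ≠ k ∧ j' ≠ k' ∧
        s(j, k) ≠ s(j', k') := hQ
      by_cases hX : ∃ X0, dt X0 (P j) (P k) = 0 ∧ dt X0 (P j') (P k') = 0
      · obtain ⟨X0, h00, h01⟩ := hX
        have hX0 : P y ≠ X0 := by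
          intro h
          rw [← h] at h00
          exact hP.2 y j k (Ne.symm hj) (Ne.symm hk) hjk h00
        obtain ⟨α, β, γ, h1, h2⟩ := gx_line_b hX0
        refine ⟨α, β, γ, h1, ?_⟩
        rintro Z ⟨X1, h10, h11, hZ⟩
        have huniq : X1 = X0 := by
          by_contra hne1
          obtain ⟨g1, g2⟩ := gx_two_lines (fun h => hjk' (hinj h)) h00 h01 h10 h11 (Ne.symm hne1)
          by_cases c1 : j' = j ∨ j' = k
          · by_cases c2 : k' = j ∨ k' = k
            · apply hs
              rcases c1 with c1 | c1 <;> rcases c2 with c2 | c2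
              · exact absurd (c1.trans c2.symm) hjk'
              · rw [c1, c2]
              · rw [c1, c2, Sym2.eq_swap]
              · exact absurd (c1.trans c2.symm) hjk'
            · push Not at c2
              exact hP.2 j k k' hjk (Ne.symm c2.1) (Ne.symm c2.2) g2
          · push Not at c1
            exact hP.2 j k j' hjk (Ne.symm c1.1) (Ne.symm c1.2) g1
        rw [huniq] at hZ
        exact h2 Z hZ
      · refine ⟨1, 0, 0, Or.inl one_ne_zero, ?_⟩
        rintro Z ⟨X1, h10, h11, -⟩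
        exact absurd ⟨X1, h10, h11⟩ hX) hU hne
  have hA : ∀ j k, j ≠ k → dt Z (P j) (P k) ≠ 0 := by
    intro j k hjk h
    exact hZ (Sum.inl (j, k)) (Finset.mem_filter.2 ⟨Finset.mem_univ _, hjk⟩) h
  have hB : ∀ i, i ≠ y → dt (P y) (P i) Z ≠ 0 := by
    intro i hi h
    exact hZ (Sum.inr (Sum.inl i)) (Finset.mem_filter.2 ⟨Finset.mem_univ _, hi⟩) h
  have hC : ∀ j k j' k', j ≠ y → k ≠ y → j' ≠ y → k' ≠ y → j ≠ k → j' ≠ k' → s(j, k) ≠ s(j', k') →
      ∀ X, dt X (P j) (P k) = 0 → dt X (P j') (P k') = 0 → dt (P y) X Z ≠ 0 := by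
    intro j k j' k' h1 h2 h3 h4 h5 h6 h7 X hX1 hX2 hX3
    exact hZ (Sum.inr (Sum.inr (j, k, j', k'))) (Finset.mem_filter.2 ⟨Finset.mem_univ _,
      ⟨h1, h2, h3, h4, h5, h6, h7⟩⟩) ⟨X, hX1, hX2, hX3⟩
  refine ⟨Z, hZU, ?_, ?_, ?_⟩
  · constructor
    · intro i j hij
      by_cases hi : i = y
      · by_cases hj : j = y
        · rw [hi, hj]
        · exfalso
          rw [hi, Function.update_self, Function.update_of_ne hj] at hij
          apply hB j hj
          rw [hij]
          unfold dt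
          ring
      · by_cases hj : j = y
        · exfalso
          rw [hj, Function.update_self, Function.update_of_ne hi] at hij
          apply hB i hi
          rw [hij]
          unfold dt
          ring
        · rw [Function.update_of_ne hi, Function.update_of_ne hj] at hij
          exact hinj hij
    · intro i j k hij hik hjk
      rw [det_eq]
      by_cases hi : i = y
      · rw [hi, Function.update_self, Function.update_of_ne (fun h => hij (hi.trans h.symm)),
          Function.update_of_ne (fun h => hik (hi.trans h.symm))]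
        exact hA j k hjk
      by_cases hj : j = y
      · rw [hj, Function.update_self, Function.update_of_ne hi, Function.update_of_ne (fun h => hjk (hj.trans h.symm))]
        have h1 := hA k i (Ne.symm hik)
        intro h2
        apply h1
        rw [← h2]
        unfold dt
        ring
      by_cases hk : k = y
      · rw [hk, Function.update_self, Function.update_of_ne hi, Function.update_of_ne hj]
        have h1 := hA i j hij
        intro h2
        apply h1
        rw [← h2]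
        unfold dt
        ring
      rw [Function.update_of_ne hi, Function.update_of_ne hj, Function.update_of_ne hk]
      exact hP.2 i j k hij hik hjk
  · intro t _ _ i hi h
    apply hB i hi
    rw [← h]
    unfold pth
    rw [Function.update_self]
    unfold dt
    ring
  · intro t _ _ j k j' k' hj hk hjk hj' hk' hjk' h1 h2
    by_contra hs
    rw [det_eq, pth_same P y Z t hj, pth_same P y Z t hk] at h1
    rw [det_eq, pth_same P y Z t hj', pth_same P y Z t hk'] at h2
    refine hC j k j' k' hj hk hj' hk' hjk hjk' hs _ h1 h2 ?_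
    unfold pth
    rw [Function.update_self]
    unfold dt
    ring

end Pool.Agent.Work.MP_02cc39_co.PT
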