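import Pool.Agent.Work.MP_02cc39_co.PT.MotionInd
import Pool.Agent.Work.MP_02cc39_co.PT.GoodEx

set_option autoImplicit false

/-!
# Any two configurations are connected by mutations (size M)

PROOF. (1) There is ε > 0 such that every Q with |(Q i).1 - (P' i).1| < ε and |(Q i).2 - (P' i).2| < ε for all i has L Q = L P' (det Q i j k is a continuous function of Q and det P' i j k ≠ 0 for different i, j, k; finitely many triples; for equal entries both are false. E.g. the set
{Q | ∀ i j k, 0 < det P' i j k * det Q i j k for distinct i, j, k} is open in ι → ℝ × ℝ, `Metric.isOpen_iff`, `isOpen_iInter_of_finite`).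
(2) Induction over a Finset s of indices: there is Q in general position with g (L Q) = g (L P), Q i within ε of P' i for i ∈ s. Insert y: `good_exists` with U := the open ball (square) around P' y gives Z; `motion` with R Q' := (g (L Q') = g (L P)): equal L or a mutation do not change g.
 The new configuration is update Q y Z, Gen by Good.gen. (3) s = univ: L Q = L P'.
-/

namespace Pool.Agent.Work.MP_02cc39_co.PT

open Classical

variable {ι : Type*} [Fintype ι]

omit [Fintype ι] in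
private theorem eq_of_close {P' Q : ι → ℝ × ℝ}
    (h : ∀ i j k : ι, i ≠ j → i ≠ k → j ≠ k → 0 < det P' i j k * det Q i j k) : L Q = L P' := by
  funext i j k
  by_cases h1 : i = j
  · subst h1
    simp [L, det]
  by_cases h2 : i = k
  · subst h2
    simp [L, det]
  by_cases h3 : j = k
  · subst h3
    simp only [L, det]
    have e1 : ((Q j).1 - (Q i).1) * ((Q j).2 - (Q i).2) - ((Q j).2 - (Q i).2) * ((Q j).1 - (Q i).1) = 0 := by ring
    have e2 : ((P' j).1 - (P' i).1) * ((P' j).2 - (P' i).2) - ((P' j).2 - (P' i).2) * ((P' j).1 - (P' i).1) = 0 := by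
      ring
    rw [e1, e2]
  have h4 := h i j k h1 h2 h3
  simp only [L, eq_iff_iff]
  constructor
  · intro h5
    exact (pos_iff_pos_of_mul_pos h4).2 h5
  · intro h5
    exact (pos_iff_pos_of_mul_pos h4).1 h5

private theorem exists_eps {P' : ι → ℝ × ℝ} (hP' : Gen P') :
    ∃ ε : ℝ, 0 < ε ∧ ∀ Q : ι → ℝ × ℝ, (∀ i, dist (Q i) (P' i) < ε) → L Q = L P' := by
  have hopen : IsOpen {Q : ι → ℝ × ℝ | ∀ τ : ι × ι × ι, τ.1 ≠ τ.2.1 ∧ τ.1 ≠ τ.2.2 ∧ τ.2.1 ≠ τ.2.2 →
      0 < det P' τ.1 τ.2.1 τ.2.2 * det Q τ.1 τ.2.1 τ.2.2} := by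
    simp only [Set.ofPred_forall]
    refine isOpen_iInter_of_finite fun τ => isOpen_iInter_of_finite fun _ => ?_
    refine isOpen_lt continuous_const ?_
    unfold det
    fun_prop
  have hmem : P' ∈ {Q : ι → ℝ × ℝ | ∀ τ : ι × ι × ι, τ.1 ≠ τ.2.1 ∧ τ.1 ≠ τ.2.2 ∧ τ.2.1 ≠ τ.2.2 →
      0 < det P' τ.1 τ.2.1 τ.2.2 * det Q τ.1 τ.2.1 τ.2.2} := by
    rintro ⟨i, j, k⟩ ⟨h1, h2, h3⟩
    exact mul_self_pos.2 (hP'.2 i j k h1 h2 h3)
  obtain ⟨ε, hε, hsub⟩ := Metric.isOpen_iff.1 hopen P' hmem
  refine ⟨ε, hε, fun Q hQ => eq_of_close fun i j k h1 h2 h3 => ?_⟩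
  exact hsub ((dist_pi_lt_iff hε).2 hQ) (i, j, k) ⟨h1, h2, h3⟩

theorem connect {α : Type*} (g : (ι → ι → ι → Prop) → α)
    (hg : ∀ Q Q' : ι → ℝ × ℝ, Gen Q → Gen Q' → (∃ p m q, Mut (L Q) (L Q') p m q) → g (L Q) = g (L Q'))
    {P P' : ι → ℝ × ℝ} (hP : Gen P) (hP' : Gen P') : g (L P) = g (L P') := by
  obtain ⟨ε, hε, hclose⟩ := exists_eps hP'
  have key : ∀ s : Finset ι, ∃ Q : ι → ℝ × ℝ, Gen Q ∧ g (L Q) = g (L P) ∧
      ∀ i ∈ s, dist (Q i) (P' i) < ε := by
    intro s
    induction s using Finset.induction_on with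
    | empty => exact ⟨P, hP, rfl, fun i hi => absurd hi (Finset.notMem_empty i)⟩
    | insert y s hy ih =>
      obtain ⟨Q, hQ, hgQ, hd⟩ := ih
      obtain ⟨Z, hZ, hG⟩ := good_exists hQ y (U := Metric.ball (P' y) ε) Metric.isOpen_ball
        ⟨P' y, Metric.mem_ball_self hε⟩
      refine ⟨Function.update Q y Z, hG.gen, ?_, ?_⟩
      · refine motion hQ hG (fun Q' => g (L Q') = g (L P)) hgQ ?_
        intro t t' _ _ _ h1 h2 h3 h4
        rcases h3 with h3 | h3
        · rw [← h3]
          exact h4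
        · rw [← hg _ _ h1 h2 h3]
          exact h4
      · intro i hi
        rcases Finset.mem_insert.1 hi with h1 | h1
        · subst h1
          rw [Function.update_self]
          exact hZ
        · have h2 : i ≠ y := by
            rintro rfl
            exact hy h1
          rw [Function.update_of_ne h2]
          exact hd i h1
  obtain ⟨Q, _, hgQ, hd⟩ := key Finset.univ
  rw [← hgQ, hclose Q fun i => hd i (Finset.mem_univ i)]

end Pool.Agent.Work.MP_02cc39_co.PT
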