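import Pool.Agent.Work.MP_02cc39_co.PT.HullPt

set_option autoImplicit false

/-!
# A configuration without inner points is in convex position: cyclic labelling (size M)

PROOF. Let v0 be any point. The other points are totally ordered by a < b :iff o v0 a b: v0 is not inner, so there is a first point a0 (o v0 a0 b for all other b) and all b ≠ a0 are to the left of v0 a0; transitive by `trans_left` (s = a0; if one of the points is a0 use that
nothing is before a0), total by `tot`. So (e.g. by `Finset.sort`/a linear order on the subtype of the points ≠ v0, `Fintype.orderIsoFinOfCardEq`, or monoEquivOfFin) there is a bijection σ : Fin n ≃ ι with σ 0 = v0 and o v0 (σ i) (σ j) for 0 < i < j. (n = card ι ≥ 1.)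
For 0 < i < j < k: suppose not o (σ i) (σ j) (σ k), so o (σ i) (σ k) (σ j) (tot). Seen from c := σ j with a := v0, b := σ i, d := σ k: o a b c (v0 σi σj), o a c d (v0 σj σk), o b d c. So by cyc: o c a b, o c d a, o c b d: the three points a, b, d are cyclically around c: then c is inner:
for every x ≠ c not all other points are to the left of c → x: x = a: o c a d is false (o c d a); x = b: o c b a is false; x = d: o c d b is false; x another one with o c x a, o c x b, o c x d: `trans_left` (v = c, s = x; a, b, d) gives o c a d, false. Contradiction to hn.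
For i = 0: o v0 (σ j) (σ k) by construction. (Suggestion: n = m + 1, σ from Fin.cons and a bijection Fin m ≃ {a // a ≠ v0}.)
-/

namespace Pool.Agent.Work.MP_02cc39_co.PT

open Classical

variable {ι : Type*} [Fintype ι] {o : ι → ι → ι → Prop}

omit [Fintype ι] in
/-- seen from a hull point the other points are totally ordered -/
private theorem sto (hC : CC o) {v0 : ι} (hv : ¬ Inner o v0) :
    IsStrictTotalOrder {a // a ≠ v0} (fun a b => o v0 a b) where
  trichotomous := by
    rintro ⟨a, ha⟩ ⟨b, hb⟩ h1 h2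
    by_contra hne
    have hab : a ≠ b := fun h => hne (Subtype.ext h)
    exact h2 (hC.tot _ _ _ (Ne.symm ha) (Ne.symm hb) hab h1)
  irrefl := by
    rintro ⟨a, ha⟩ h
    exact (hC.ne _ _ _ h).2.2 rfl
  trans := by
    rintro ⟨a, ha⟩ ⟨b, hb⟩ ⟨c, hc⟩ h1 h2
    have hx : ∃ a0, a0 ≠ v0 ∧ ∀ x, x ≠ v0 → x ≠ a0 → o v0 a0 x := by
      by_contra hcon
      push Not at hcon
      exact hv ⟨⟨a, ha⟩, fun z hz => by
        obtain ⟨x, h1, h2, h3⟩ := hcon z hz
        exact ⟨x, h1, h2, h3⟩⟩
    obtain ⟨a0, ha0, hall⟩ := hx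
    simp only at h1 h2 ⊢
    have n1 := hC.ne _ _ _ h1
    have n2 := hC.ne _ _ _ h2
    by_cases hb0 : b = a0
    · subst hb0
      exact absurd (hall a ha n1.2.2) (hC.anti _ _ _ h1)
    by_cases hc0 : c = a0
    · subst hc0
      exact absurd (hall b hb n2.2.2) (hC.anti _ _ _ h2)
    by_cases ha00 : a = a0
    · subst ha00
      exact hall c hc hc0
    exact trans_left hC (hall a ha ha00) (hall b hb hb0) (hall c hc hc0) h1 h2

omit [Fintype ι] in
private theorem inner_of_three (hC : CC o) {c a b d : ι} (h1 : o c a b) (h2 : o c b d) (h3 : o c d a) :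
    Inner o c := by
  refine ⟨⟨a, (hC.ne _ _ _ h1).1.symm⟩, fun x hx => ?_⟩
  by_contra hcon
  push Not at hcon
  have n1 := hC.ne _ _ _ h1
  have n2 := hC.ne _ _ _ h2
  have n3 := hC.ne _ _ _ h3
  by_cases hxa : x = a
  · subst hxa
    exact hC.anti _ _ _ h3 (hcon d n2.2.1.symm n3.2.2)
  by_cases hxb : x = b
  · subst hxb
    exact hC.anti _ _ _ h1 (hcon a n1.1.symm n1.2.2)
  by_cases hxd : x = d
  · subst hxd
    exact hC.anti _ _ _ h2 (hcon b n1.2.1.symm n2.2.2)
  have := trans_left hC (hcon a n1.1.symm (Ne.symm hxa)) (hcon b n1.2.1.symm (Ne.symm hxb))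
    (hcon d n2.2.1.symm (Ne.symm hxd)) h1 h2
  exact hC.anti _ _ _ h3 this

theorem conv_label (hC : CC o) (hn : ∀ w, ¬ Inner o w) :
    ∃ σ : Fin (Fintype.card ι) ≃ ι, ∀ i j k, i < j → j < k → o (σ i) (σ j) (σ k) := by
  rcases isEmpty_or_nonempty ι with hE | ⟨⟨v0⟩⟩
  · exact ⟨(Fintype.equivFin ι).symm, fun i => isEmptyElim ((Fintype.equivFin ι).symm i)⟩
  have hS := sto hC (hn v0)
  let _ : LinearOrder {a // a ≠ v0} := linearOrderOfSTO (fun a b => o v0 a b)
  obtain ⟨m, hm⟩ : ∃ m, Fintype.card {a // a ≠ v0} = m := ⟨_, rfl⟩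
  have hcard : Fintype.card ι = m + 1 := by
    rw [← hm, ← Fintype.card_option]
    exact (Fintype.card_congr (Equiv.optionSubtypeNe v0)).symm
  have e := monoEquivOfFin {a // a ≠ v0} hm
  have he : ∀ i j, i < j → o v0 (e i) (e j) := fun i j hij => e.strictMono hij
  rw [hcard]
  set σ : Fin (m + 1) ≃ ι :=
    (finSuccEquiv m).trans ((e.toEquiv.optionCongr).trans (Equiv.optionSubtypeNe v0)) with hσ
  have s0 : σ 0 = v0 := by simp [hσ]
  have s1 : ∀ i, σ (Fin.succ i) = e i := by
    intro i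
    simp [hσ]
  have base : ∀ j k : Fin (m + 1), 0 < j → j < k → o v0 (σ j) (σ k) := by
    intro j k hj hjk
    obtain ⟨j', rfl⟩ := Fin.exists_succ_eq.2 hj.ne'
    obtain ⟨k', rfl⟩ := Fin.exists_succ_eq.2 (hj.trans hjk).ne'
    rw [s1, s1]
    exact he _ _ (Fin.succ_lt_succ_iff.1 hjk)
  refine ⟨σ, fun i j k hij hjk => ?_⟩
  rcases Fin.eq_zero_or_eq_succ i with h0 | ⟨i', hi'⟩
  · rw [h0, s0]
    exact base j k (h0 ▸ hij) hjk
  have hi : 0 < i := hi' ▸ Fin.succ_pos i'
  have b1 := base i j hi hij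
  have b2 := base j k (hi.trans hij) hjk
  by_contra hno
  have n1 := hC.ne _ _ _ b1
  have n2 := hC.ne _ _ _ b2
  have hik : σ i ≠ σ k := fun h => (hij.trans hjk).ne (σ.injective h)
  have h3 := hC.tot _ _ _ n1.2.2 hik n2.2.2 hno
  refine hn (σ j) (inner_of_three hC (a := v0) (b := σ i) (d := σ k) ?_ ?_ ?_)
  · exact hC.cyc _ _ _ (hC.cyc _ _ _ b1)
  · exact hC.cyc _ _ _ (hC.cyc _ _ _ h3)
  · exact hC.cyc _ _ _ b2

end Pool.Agent.Work.MP_02cc39_co.PT
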