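import Pool.Agent.Work.MP_02cc39_co.PT.LawA

set_option autoImplicit false

/-!
# Non-exceptional maximal graphs are the same before and after, m marked (size M-L)

`Mut o o' p m q`, m ∈ V. Write `x` for a point different from p, m, q.

PROOFS.
`fam_transfer_m`: let G be in Fam o V with (i) not T1 p m q G, i.e. not (s(p,q) ∈ G and m has a neighbour x), (ii) not
(s(p,m), s(m,q) ∈ G and m has a neighbour x). Then Fam o' V G: `nc`: a pair of edges of G without a common end is not {pq, mx}
by (i), so `cross_same`. `pt` at v ≠ m: `pt_agree`. At m: if not both of pm, mq are in G: `pt_agree_m`. If both are in G there is no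
neighbour x by (ii), so `pt_below'`.
`fam_transfer_m'`: the same for `mut_symm`.
`lawB`: E is Max o V, not T1, not T2.
 E satisfies (i), and (ii): if s(p,m), s(m,q) ∈ E and m has a neighbour x then s(p,q) ∉ E by (i), which is T2, contradiction.
 So Fam o' V E. Let e ∉ E, not diagonal, F := insert e E with Fam o' V F; we look for a contradiction. If F satisfies (i) and (ii)
 then Fam o V F by `fam_transfer_m'`: contradiction to Max o V E. So F violates (i) or (ii).
 CASE 1: F violates (i): s(p,q) ∈ F and m has a neighbour x in F. All such x satisfy ¬ o p q x by `nbr_below`.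
  CLAIM 1: s(p,m) and s(m,q) are in E. Let e1 be s(p,m) (the other one is similar).  Use `max_mem`.
  Crossings: let s(c,d) ∈ E, c, d different from p, m. If c or d is q: `no_cross1`. Otherwise Cross o p m c d gives Cross o p q c d
  (`cross_pm_pq`), which is Cross o' p q c d (`cross_same`), impossible in F by `nc` (s(p,q) ∈ F). At p: p ∈ V, so Ptd o' F p, hence
  Ptd o F p (`pt_agree`), `pt_add_p` gives Ptd o (insert s(p,m) (insert s(p,q) F)) p, and `ptd_mono`. At m: `pt_below` for
  insert s(p,m) E: all neighbours x of m in E (x ≠ p, q) satisfy ¬ o p q x (they are in F).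
  So s(p,m), s(m,q) ∈ E ⊆ F, and `pt_both'` in F (Ptd o' F m because m ∈ V) says o p q x for the neighbour x of m in F. Contradiction.
 CASE 2: F satisfies (i) and violates (ii): s(p,m), s(m,q) ∈ F, m has a neighbour x in F, hence s(p,q) ∉ F. By `pt_both'` all neighbours
  x of m in F satisfy o p q x. CLAIM 2: s(p,q) ∈ E (contradiction to E ⊆ F, s(p,q) ∉ F). Use `max_mem`. Crossings: let s(c,d) ∈ E, c, d different
  from p, q. If c = m: d is an x, Cross o p q m d ↔ ¬ o p q d is false. If d = m: `cross_swap'`. Otherwise `cross_pq_or` gives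
  Cross o p m c d or Cross o m q c d, which is (`cross_same`) Cross o' p m c d or Cross o' m q c d, impossible in F.
  At p: Ptd o' F p, so Ptd o F p, `pt_add_p` (s(p,m) ∈ F) and `ptd_mono`. At q: `pt_add_q`.
-/

namespace Pool.Agent.Work.MP_02cc39_co.PT

open Classical

variable {ι : Type*} {o o' : ι → ι → ι → Prop} {p m q : ι}

private theorem t1_of_lb {G : Finset (Sym2 ι)} {a b c : ι} (hab : s(a, b) ∈ G)
    (he : s(a, b) = s(p, q)) (hca : a ≠ c) (hcb : b ≠ c) (hmc : s(m, c) ∈ G) : T1 p m q G := by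
  refine ⟨by rw [← he]; exact hab, c, ?_, ?_, hmc⟩
  · rcases Sym2.eq_iff.1 he with ⟨h1, h2⟩ | ⟨h1, h2⟩
    · rw [← h1]; exact hca.symm
    · rw [← h2]; exact hcb.symm
  · rcases Sym2.eq_iff.1 he with ⟨h1, h2⟩ | ⟨h1, h2⟩
    · rw [← h2]; exact hcb.symm
    · rw [← h1]; exact hca.symm

private theorem nd_ne_lb {V : Finset ι} {G : Finset (Sym2 ι)} (hG : Fam o V G) {a b : ι}
    (h : s(a, b) ∈ G) : a ≠ b := by
  intro he
  exact hG.nd _ h (by rw [he]; exact Sym2.mk_isDiag_iff.2 rfl)

private theorem mm_lb {V : Finset ι} {G : Finset (Sym2 ι)} (hG : Fam o V G) (a : ι) :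
    s(a, a) ∉ G := fun h => nd_ne_lb hG h rfl

theorem fam_transfer_m (hC : CC o) (hC' : CC o') (h : Mut o o' p m q) {V : Finset ι}
    {G : Finset (Sym2 ι)} (h1 : ¬ T1 p m q G)
    (h2 : ¬ (s(p, m) ∈ G ∧ s(m, q) ∈ G ∧ ∃ x, x ≠ p ∧ x ≠ q ∧ s(m, x) ∈ G)) (hG : Fam o V G) : Fam o' V G := by
  refine ⟨hG.nd, ?_, ?_⟩
  · intro a b c d hab hcd hac had hbc hbd hcr
    refine hG.nc a b c d hab hcd hac had hbc hbd ?_
    refine (cross_same hC hC' h (nd_ne_lb hG hab) hac had hbc hbd (nd_ne_lb hG hcd) ?_ ?_).2 hcr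
    · intro he
      constructor
      · rintro rfl
        exact h1 (t1_of_lb hab he had hbd hcd)
      · rintro rfl
        exact h1 (t1_of_lb hab he hac hbc (by rw [Sym2.eq_swap]; exact hcd))
    · intro he
      constructor
      · rintro rfl
        exact h1 (t1_of_lb hcd he hbc.symm hbd.symm hab)
      · rintro rfl
        exact h1 (t1_of_lb hcd he hac.symm had.symm (by rw [Sym2.eq_swap]; exact hab))
  · intro v hv
    by_cases hvm : v = m
    · subst hvm
      by_cases hb : s(p, v) ∈ G ∧ s(v, q) ∈ G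
      · refine pt_below' hC hC' h (mm_lb hG _) ?_
        intro x hxp hxq hx
        exact absurd ⟨hb.1, hb.2, x, hxp, hxq, hx⟩ h2
      · exact (pt_agree_m hC hC' h hb).1 (hG.pt v hv)
    · exact (pt_agree hC hC' h hvm).1 (hG.pt v hv)

theorem fam_transfer_m' (hC : CC o) (hC' : CC o') (h : Mut o o' p m q) {V : Finset ι}
    {G : Finset (Sym2 ι)} (h1 : ¬ T1 p m q G)
    (h2 : ¬ (s(p, m) ∈ G ∧ s(m, q) ∈ G ∧ ∃ x, x ≠ p ∧ x ≠ q ∧ s(m, x) ∈ G)) (hG : Fam o' V G) : Fam o V G := by
  refine fam_transfer_m hC' hC (mut_symm hC hC' h) (fun ht => h1 (t1_symm.1 ht)) ?_ hG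
  rintro ⟨a1, a2, x, a3, a4, a5⟩
  exact h2 ⟨by rw [Sym2.eq_swap]; exact a2, by rw [Sym2.eq_swap]; exact a1, x, a4, a3, a5⟩

theorem lawB (hC : CC o) (hC' : CC o') (h : Mut o o' p m q) {V : Finset ι} (hm : m ∈ V)
    {E : Finset (Sym2 ι)} (hE : Max o V E) (hT1 : ¬ T1 p m q E) (hT2 : ¬ T2 p m q E) : Max o' V E := by
  have hii : ¬ (s(p, m) ∈ E ∧ s(m, q) ∈ E ∧ ∃ x, x ≠ p ∧ x ≠ q ∧ s(m, x) ∈ E) := by
    rintro ⟨a1, a2, a3⟩
    exact hT2 ⟨a1, a2, fun a4 => hT1 ⟨a4, a3⟩, a3⟩
  refine ⟨fam_transfer_m hC hC' h hT1 hii hE.1, ?_⟩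
  intro e hed heE hF
  have hsub : E ⊆ insert e E := Finset.subset_insert _ _
  have hmmF : s(m, m) ∉ insert e E := mm_lb hF m
  by_cases hF1 : T1 p m q (insert e E)
  · obtain ⟨hpqF, x0, hx0p, hx0q, hx0⟩ := hF1
    have hbel : ∀ x, x ≠ p → x ≠ q → s(m, x) ∈ insert e E → ¬ o p q x :=
      fun x hxp hxq hx => nbr_below hC hC' h hF hpqF hxp hxq hx
    have hcr : ∀ c d, s(c, d) ∈ E → c ≠ d → p ≠ c → p ≠ d → q ≠ c → q ≠ d → m ≠ c → m ≠ d →
        ¬ Cross o p q c d := by
      intro c d hcd hne h1 h2 h3 h4 h5 h6 hcross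
      refine hF.nc p q c d hpqF (hsub hcd) h1 h2 h3 h4 ?_
      refine (cross_same hC hC' h h.pq h1 h2 h3 h4 hne (fun _ => ⟨h5.symm, h6.symm⟩)
        (fun _ => ⟨h.pm, h.mq.symm⟩)).1 hcross
    have hpm : s(p, m) ∈ E := by
      refine max_mem hC hE h.pm ?_ ?_ ?_
      · intro c d hcd hpc hpd hmc hmd hcross
        have hne := nd_ne_lb hE.1 hcd
        by_cases hcq : c = q
        · subst hcq
          exact no_cross1 hC h hpd.symm hmd.symm hne.symm hcross
        · by_cases hdq : d = q
          · subst hdq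
            rw [cross_swap' hC hne hpc hpd hmc hmd] at hcross
            exact no_cross1 hC h hpc.symm hmc.symm hne hcross
          · exact hcr c d hcd hne hpc hpd (Ne.symm hcq) (Ne.symm hdq) hmc hmd
              (cross_pm_pq hC h hne hpc.symm hmc.symm hcq hpd.symm hmd.symm hdq hcross)
      · intro hpV
        have h1 := (pt_agree hC hC' h h.pm).2 (hF.pt p hpV)
        refine ptd_mono hC ?_ (pt_add_p hC hC' h (Or.inl hpqF) h1)
        exact Finset.insert_subset_insert _ (hsub.trans (Finset.subset_insert _ _))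
      · intro _
        refine pt_below hC h ?_ ?_
        · rw [Finset.mem_insert, not_or]
          refine ⟨fun he => ?_, mm_lb hE.1 m⟩
          rcases Sym2.eq_iff.1 he with ⟨h1, _⟩ | ⟨_, h1⟩
          · exact h.pm h1.symm
          · exact h.pm h1.symm
        · intro x hxp hxq hx
          rw [Finset.mem_insert] at hx
          rcases hx with hx | hx
          · rcases Sym2.eq_iff.1 hx with ⟨h1, _⟩ | ⟨_, h1⟩
            · exact absurd h1.symm h.pm
            · exact absurd h1 hxp
          · exact hbel x hxp hxq (hsub hx)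
    have hmq : s(m, q) ∈ E := by
      refine max_mem hC hE h.mq ?_ ?_ ?_
      · intro c d hcd hmc hmd hqc hqd hcross
        have hne := nd_ne_lb hE.1 hcd
        by_cases hcp : c = p
        · subst hcp
          exact no_cross2 hC h hne.symm hmd.symm hqd.symm hcross
        · by_cases hdp : d = p
          · subst hdp
            rw [cross_swap' hC hne hmc hmd hqc hqd] at hcross
            exact no_cross2 hC h hne hmc.symm hqc.symm hcross
          · exact hcr c d hcd hne (Ne.symm hcp) (Ne.symm hdp) hqc hqd hmc hmd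
              (cross_mq_pq hC h hne hcp hmc.symm hqc.symm hdp hmd.symm hqd.symm hcross)
      · intro _
        refine pt_below hC h ?_ ?_
        · rw [Finset.mem_insert, not_or]
          refine ⟨fun he => ?_, mm_lb hE.1 m⟩
          rcases Sym2.eq_iff.1 he with ⟨_, h1⟩ | ⟨h1, _⟩
          · exact h.mq h1
          · exact h.mq h1
        · intro x hxp hxq hx
          rw [Finset.mem_insert] at hx
          rcases hx with hx | hx
          · rcases Sym2.eq_iff.1 hx with ⟨_, h1⟩ | ⟨h1, _⟩
            · exact absurd h1 hxq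
            · exact absurd h1 h.mq
          · exact hbel x hxp hxq (hsub hx)
      · intro hqV
        have h1 := (pt_agree hC hC' h h.mq.symm).2 (hF.pt q hqV)
        refine ptd_mono hC ?_ (pt_add_q hC hC' h (Or.inl hpqF) h1)
        exact Finset.insert_subset_insert _ (hsub.trans (Finset.subset_insert _ _))
    exact hbel x0 hx0p hx0q hx0
      (pt_both' hC hC' h hmmF (hsub hpm) (hsub hmq) (hF.pt m hm) hx0p hx0q hx0)
  · by_cases hF2 : s(p, m) ∈ insert e E ∧ s(m, q) ∈ insert e E ∧
        ∃ x, x ≠ p ∧ x ≠ q ∧ s(m, x) ∈ insert e E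
    · obtain ⟨hpm, hmq, hx⟩ := hF2
      have hpqF : s(p, q) ∉ insert e E := fun h3 => hF1 ⟨h3, hx⟩
      have habv : ∀ x, x ≠ p → x ≠ q → s(m, x) ∈ insert e E → o p q x :=
        fun x hxp hxq hx => pt_both' hC hC' h hmmF hpm hmq (hF.pt m hm) hxp hxq hx
      apply hpqF
      apply hsub
      refine max_mem hC hE h.pq ?_ ?_ ?_
      · intro c d hcd hpc hpd hqc hqd hcross
        have hne := nd_ne_lb hE.1 hcd
        by_cases hcm : c = m
        · subst hcm
          exact (cross_pqmx hC h hpd.symm hne.symm hqd.symm).1 hcross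
            (habv d hpd.symm hqd.symm (hsub hcd))
        · by_cases hdm : d = m
          · subst hdm
            rw [cross_swap' hC hne hpc hpd hqc hqd] at hcross
            exact (cross_pqmx hC h hpc.symm hne hqc.symm).1 hcross
              (habv c hpc.symm hqc.symm (hsub (by rw [Sym2.eq_swap]; exact hcd)))
          · have hnpq : s(c, d) ≠ s(p, q) := by
              intro he
              rcases Sym2.eq_iff.1 he with ⟨h1, _⟩ | ⟨h1, _⟩
              · exact hpc h1.symm
              · exact hqc h1.symm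
            rcases cross_pq_or hC h hne hpc.symm hcm hqc.symm hpd.symm hdm hqd.symm hcross with
              h3 | h3
            · refine hF.nc p m c d hpm (hsub hcd) hpc hpd (Ne.symm hcm) (Ne.symm hdm) ?_
              refine (cross_same hC hC' h h.pm hpc hpd (Ne.symm hcm) (Ne.symm hdm) hne ?_
                (fun he => absurd he hnpq)).1 h3
              intro _
              exact ⟨hcm, hdm⟩
            · refine hF.nc m q c d hmq (hsub hcd) (Ne.symm hcm) (Ne.symm hdm) hqc hqd ?_
              refine (cross_same hC hC' h h.mq (Ne.symm hcm) (Ne.symm hdm) hqc hqd hne ?_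
                (fun he => absurd he hnpq)).1 h3
              intro _
              exact ⟨hcm, hdm⟩
      · intro hpV
        have h1 := (pt_agree hC hC' h h.pm).2 (hF.pt p hpV)
        refine ptd_mono hC ?_ (pt_add_p hC hC' h (Or.inr hpm) h1)
        exact (Finset.insert_subset_insert _ hsub).trans (Finset.subset_insert _ _)
      · intro hqV
        have h1 := (pt_agree hC hC' h h.mq.symm).2 (hF.pt q hqV)
        refine ptd_mono hC ?_ (pt_add_q hC hC' h (Or.inr hmq) h1)
        exact (Finset.insert_subset_insert _ hsub).trans (Finset.subset_insert _ _)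
    · exact hE.2 e hed heE (fam_transfer_m' hC hC' h hF1 hF2 hF)

end Pool.Agent.Work.MP_02cc39_co.PT
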