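import Pool.Agent.Work.MP_02cc39_co.PT.BijOne
import Pool.Agent.Work.MP_02cc39_co.PT.BijTwo
import Pool.Agent.Work.MP_02cc39_co.PT.LawB

set_option autoImplicit false

/-!
# Counting (size S-M)

`t1n o V` = number of the maximal graphs of type T1, `t2n o V` = number of those of type T2.

PROOFS.
`t1n_insert` : the graphs G in Max o (insert m V) with T1 are, by `one_back`, of exactly two kinds: s(p,m) ∉ G, or s(m,q) ∉ G (and then
s(p,m) ∈ G); the first kind is in bijection with Max o V with T1 via G ↦ insert s(p,m) G, with the inverse E ↦ E.erase s(p,m)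
(`one_erase`, `t1_edges`: s(p,m), s(m,q) ∈ E); the second kind via insert s(m,q) G. (s(p,m) ≠ s(m,q); T1 for insert f G is clear.)
`t2n_insert` : bijection E ↦ insert s(p,q) E, F ↦ F.erase s(p,q), from `two_fwd`, `two_back` (`Finset.card_bij'` or card_nbij').
`rest_notMem`: by `lawA` for Mut o o' p m q and for `mut_symm` (with `t1_symm`) the two filtered sets are equal.
`rest_mem`: the same with `lawB`.
-/

namespace Pool.Agent.Work.MP_02cc39_co.PT

open Classical

variable {ι : Type*} [Fintype ι] {o o' : ι → ι → ι → Prop} {p m q : ι}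

/-- number of the maximal graphs of type T1 -/
noncomputable def t1n (o : ι → ι → ι → Prop) (p m q : ι) (V : Finset ι) : ℕ :=
  (Finset.univ.filter fun E : Finset (Sym2 ι) => Max o V E ∧ T1 p m q E).card

/-- number of the maximal graphs of type T2 -/
noncomputable def t2n (o : ι → ι → ι → Prop) (p m q : ι) (V : Finset ι) : ℕ :=
  (Finset.univ.filter fun E : Finset (Sym2 ι) => Max o V E ∧ T2 p m q E).card

/-- number of the other maximal graphs -/
noncomputable def resn (o : ι → ι → ι → Prop) (p m q : ι) (V : Finset ι) : ℕ :=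
  (Finset.univ.filter fun E : Finset (Sym2 ι) => Max o V E ∧ ¬ T1 p m q E ∧ ¬ T2 p m q E).card

theorem cnt_split (o : ι → ι → ι → Prop) (p m q : ι) (V : Finset ι) :
    cnt o V = t1n o p m q V + t2n o p m q V + resn o p m q V := by
  unfold cnt t1n t2n resn
  have h1 : MaxSet o V =
      ((Finset.univ.filter fun E : Finset (Sym2 ι) => Max o V E ∧ T1 p m q E) ∪
        (Finset.univ.filter fun E : Finset (Sym2 ι) => Max o V E ∧ T2 p m q E)) ∪
        (Finset.univ.filter fun E : Finset (Sym2 ι) => Max o V E ∧ ¬ T1 p m q E ∧ ¬ T2 p m q E) := by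
    ext E
    simp only [MaxSet, Finset.mem_filter, Finset.mem_univ, true_and, Finset.mem_union]
    tauto
  rw [h1, Finset.card_union_of_disjoint, Finset.card_union_of_disjoint]
  · rw [Finset.disjoint_left]
    intro E hE hE'
    simp only [Finset.mem_filter, Finset.mem_univ, true_and] at hE hE'
    exact hE'.2.2.2.1 hE.2.1
  · rw [Finset.disjoint_left]
    intro E hE hE'
    simp only [Finset.mem_filter, Finset.mem_univ, true_and, Finset.mem_union] at hE hE'
    tauto

private theorem pm_ne_mq (h : Mut o o' p m q) : s(p, m) ≠ s(m, q) := by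
  intro he
  rw [Sym2.eq_iff] at he
  rcases he with ⟨h1, -⟩ | ⟨h1, -⟩
  · exact h.pm h1
  · exact h.pq h1

theorem t1n_insert (hC : CC o) (hC' : CC o') (h : Mut o o' p m q) {V : Finset ι} (hm : m ∉ V) :
    t1n o p m q (insert m V) = 2 * t1n o p m q V := by
  unfold t1n
  set S := (Finset.univ.filter fun E : Finset (Sym2 ι) => Max o V E ∧ T1 p m q E) with hS
  have hmem : ∀ E, E ∈ S ↔ Max o V E ∧ T1 p m q E := by
    intro E
    rw [hS]
    simp
  have hne := pm_ne_mq h
  have hedge : ∀ E ∈ S, s(p, m) ∈ E ∧ s(m, q) ∈ E := by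
    intro E hE
    obtain ⟨h1, h2⟩ := (hmem E).1 hE
    exact t1_edges hC hC' h hm h1 h2.1
  have himg : (Finset.univ.filter fun E : Finset (Sym2 ι) => Max o (insert m V) E ∧ T1 p m q E) =
      S.image (fun E => E.erase s(p, m)) ∪ S.image (fun E => E.erase s(m, q)) := by
    ext G
    simp only [Finset.mem_filter, Finset.mem_univ, true_and, Finset.mem_union, Finset.mem_image]
    constructor
    · rintro ⟨hG, hT⟩
      rcases one_back hC hC' h hm hG hT with ⟨h1, -, h3⟩ | ⟨h1, -, h3⟩
      · left
        refine ⟨insert s(p, m) G, (hmem _).2 ⟨h3, ?_⟩, Finset.erase_insert h1⟩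
        obtain ⟨h4, x, hx1, hx2, hx3⟩ := hT
        exact ⟨Finset.mem_insert_of_mem h4, x, hx1, hx2, Finset.mem_insert_of_mem hx3⟩
      · right
        refine ⟨insert s(m, q) G, (hmem _).2 ⟨h3, ?_⟩, Finset.erase_insert h1⟩
        obtain ⟨h4, x, hx1, hx2, hx3⟩ := hT
        exact ⟨Finset.mem_insert_of_mem h4, x, hx1, hx2, Finset.mem_insert_of_mem hx3⟩
    · rintro (⟨E, hE, rfl⟩ | ⟨E, hE, rfl⟩)
      · obtain ⟨h1, h2⟩ := (hmem E).1 hE
        exact one_erase hC hC' h hm h1 h2 (Or.inl rfl)
      · obtain ⟨h1, h2⟩ := (hmem E).1 hE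
        exact one_erase hC hC' h hm h1 h2 (Or.inr rfl)
  rw [himg, Finset.card_union_of_disjoint, Finset.card_image_of_injOn, Finset.card_image_of_injOn,
    two_mul]
  · intro E hE E' hE' he
    have h1 := (hedge E hE).2
    have h2 := (hedge E' hE').2
    have he' : E.erase s(m, q) = E'.erase s(m, q) := he
    rw [← Finset.insert_erase h1, ← Finset.insert_erase h2, he']
  · intro E hE E' hE' he
    have h1 := (hedge E hE).1
    have h2 := (hedge E' hE').1
    have he' : E.erase s(p, m) = E'.erase s(p, m) := he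
    rw [← Finset.insert_erase h1, ← Finset.insert_erase h2, he']
  · rw [Finset.disjoint_left]
    intro G hG hG'
    obtain ⟨E, hE, rfl⟩ := Finset.mem_image.1 hG
    obtain ⟨E', hE', he⟩ := Finset.mem_image.1 hG'
    have h1 : s(m, q) ∈ E.erase s(p, m) := Finset.mem_erase.2 ⟨hne.symm, (hedge E hE).2⟩
    rw [← he] at h1
    exact (Finset.mem_erase.1 h1).1 rfl

private theorem t1n_symm (o : ι → ι → ι → Prop) (p m q : ι) (V : Finset ι) :
    t1n o q m p V = t1n o p m q V := by
  unfold t1n
  congr 1
  ext E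
  simp only [Finset.mem_filter, Finset.mem_univ, true_and, t1_symm (p := p) (m := m) (q := q)]

private theorem t2n_symm (o : ι → ι → ι → Prop) (p m q : ι) (V : Finset ι) :
    t2n o q m p V = t2n o p m q V := by
  unfold t2n
  congr 1
  ext E
  simp only [Finset.mem_filter, Finset.mem_univ, true_and, t2_symm (p := p) (m := m) (q := q)]

theorem t1n_insert' (hC : CC o) (hC' : CC o') (h : Mut o o' p m q) {V : Finset ι} (hm : m ∉ V) :
    t1n o' p m q (insert m V) = 2 * t1n o' p m q V := by
  have h1 := t1n_insert hC' hC (mut_symm hC hC' h) hm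
  rwa [t1n_symm o' p m q (insert m V), t1n_symm o' p m q V] at h1

theorem t2n_insert (hC : CC o) (hC' : CC o') (h : Mut o o' p m q) {V : Finset ι} (hm : m ∉ V) :
    t2n o p m q (insert m V) = t1n o' p m q V := by
  unfold t2n t1n
  refine Finset.card_bij' (fun E _ => insert s(p, q) E) (fun F _ => F.erase s(p, q)) ?_ ?_ ?_ ?_
  · intro E hE
    simp only [Finset.mem_filter, Finset.mem_univ, true_and] at hE ⊢
    exact two_fwd hC hC' h hm hE.1 hE.2
  · intro F hF
    simp only [Finset.mem_filter, Finset.mem_univ, true_and] at hF ⊢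
    exact two_back hC hC' h hm hF.1 hF.2
  · intro E hE
    simp only [Finset.mem_filter, Finset.mem_univ, true_and] at hE
    exact Finset.erase_insert hE.2.2.2.1
  · intro F hF
    simp only [Finset.mem_filter, Finset.mem_univ, true_and] at hF
    exact Finset.insert_erase hF.2.1

theorem t2n_insert' (hC : CC o) (hC' : CC o') (h : Mut o o' p m q) {V : Finset ι} (hm : m ∉ V) :
    t2n o' p m q (insert m V) = t1n o p m q V := by
  have h1 := t2n_insert hC' hC (mut_symm hC hC' h) hm
  rwa [t2n_symm o' p m q (insert m V), t1n_symm o p m q V] at h1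

/-- m not marked and not pointed in any maximal graph: the graphs which are not of type T1 are the same -/
theorem rest_notMem (hC : CC o) (hC' : CC o') (h : Mut o o' p m q) {V : Finset ι} (hm : m ∉ V)
    (hX : ∀ E, Max o V E → ¬ Ptd o E m) (hX' : ∀ E, Max o' V E → ¬ Ptd o' E m) :
    (Finset.univ.filter fun E : Finset (Sym2 ι) => Max o V E ∧ ¬ T1 p m q E) =
      Finset.univ.filter fun E : Finset (Sym2 ι) => Max o' V E ∧ ¬ T1 p m q E := by
  ext E
  simp only [Finset.mem_filter, Finset.mem_univ, true_and]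
  constructor
  · rintro ⟨hE, hT⟩
    exact ⟨lawA hC hC' h hm hE (hX E hE) hT, hT⟩
  · rintro ⟨hE, hT⟩
    exact ⟨lawA hC' hC (mut_symm hC hC' h) hm hE (hX' E hE) (fun hc => hT (t1_symm.1 hc)), hT⟩

theorem rest_mem (hC : CC o) (hC' : CC o') (h : Mut o o' p m q) {V : Finset ι} (hm : m ∈ V) :
    resn o p m q V = resn o' p m q V := by
  unfold resn
  congr 1
  ext E
  simp only [Finset.mem_filter, Finset.mem_univ, true_and]
  constructor
  · rintro ⟨hE, hT1, hT2⟩
    exact ⟨lawB hC hC' h hm hE hT1 hT2, hT1, hT2⟩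
  · rintro ⟨hE, hT1, hT2⟩
    exact ⟨lawB hC' hC (mut_symm hC hC' h) hm hE (fun hc => hT1 (t1_symm.1 hc))
      (fun hc => hT2 (t2_symm.1 hc)), hT1, hT2⟩

end Pool.Agent.Work.MP_02cc39_co.PT
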