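import Pool.Agent.Work.MP_02cc39_co.PT.MutPt

set_option autoImplicit false

/-!
# Inner points under a mutation (size S-M)

`star w` is the set of all edges at `w`. `Mut o o' p m q`. Write `x` for a point different from `p, m, q`.

PROOFS.
`inner_iff`: s(w, b) ∈ star w ↔ b ≠ w. Ptd o (star w) w says: there is no b ≠ w, or there is a ≠ w with o w a b for all b ≠ w, b ≠ a.
This is exactly the negation of `Inner o w`.
`inner_agree`: `inner_iff` and `pt_agree`.
`inner_m`: (→) `pt_below` for star m, (←) `pt_both` for star m. `inner_m'`: the same with `pt_below'`, `pt_both'`.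
`inner_mid_p`: suppose `Inner o m` fails, so ¬ o p q x for all x by `inner_m`. Then all points b other than p and m satisfy o p b m
(o p q m is `up`; o p x m ↔ ¬ o p m x ↔ ¬ o p q x), so `ptd_of_half_last` (v = p, s = m) gives Ptd o (star p) p, contradiction.
Suppose `Inner o' m` fails, so o p q x for all x by `inner_m'`. Then all points b other than p and q satisfy o p q b (b = m: `up`),
`ptd_of_half` (v = p, s = q), contradiction.
`inner_mid_q`: the same for `mut_symm` (and `inner_agree` at q).
`mut_dichotomy`: if `Inner o m` and `Inner o' m` fail... see the statement: from `inner_m` and `inner_m'`.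
-/

namespace Pool.Agent.Work.MP_02cc39_co.PT

open Classical

variable {ι : Type*} {o o' : ι → ι → ι → Prop} {p m q : ι}

/-- all edges at `w` -/
noncomputable def star [Fintype ι] (w : ι) : Finset (Sym2 ι) := Finset.univ.filter fun e => w ∈ e ∧ ¬ e.IsDiag

private theorem mem_star_im [Fintype ι] {w b : ι} : s(w, b) ∈ star w ↔ b ≠ w := by
  unfold star
  rw [Finset.mem_filter]
  constructor
  · rintro ⟨_, _, h⟩ hb
    apply h
    rw [hb]
    exact Sym2.mk_isDiag_iff.2 rfl
  · intro h
    refine ⟨Finset.mem_univ _, Sym2.mem_mk_left _ _, fun hd => h ?_⟩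
    exact (Sym2.mk_isDiag_iff.1 hd).symm

private theorem mem_star_im' [Fintype ι] {w b : ι} : s(b, w) ∈ star w ↔ b ≠ w := by
  rw [Sym2.eq_swap]
  exact mem_star_im

theorem inner_iff [Fintype ι] (w : ι) : Inner o w ↔ ¬ Ptd o (star w) w := by
  constructor
  · rintro ⟨⟨a, ha⟩, h⟩ hp
    rcases hp with hp | ⟨c, hc, hb⟩
    · exact hp a (mem_star_im.2 ha)
    · obtain ⟨b, hbw, hbc, hn⟩ := h c (mem_star_im.1 hc)
      exact hn (hb b (mem_star_im.2 hbw) hbc)
  · intro h
    constructor
    · by_contra hcon
      push Not at hcon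
      exact h (Or.inl (fun b hb => mem_star_im.1 hb (hcon b)))
    · intro a ha
      by_contra hcon
      push Not at hcon
      exact h (Or.inr ⟨a, mem_star_im.2 ha, fun b hb hba => hcon b (mem_star_im.1 hb) hba⟩)

theorem inner_agree [Fintype ι] (hC : CC o) (hC' : CC o') (h : Mut o o' p m q) {w : ι} (hw : w ≠ m) :
    Inner o w ↔ Inner o' w := by
  rw [inner_iff, inner_iff, pt_agree hC hC' h hw]

theorem inner_m [Fintype ι] (hC : CC o) (h : Mut o o' p m q) :
    (∀ x, x ≠ p → x ≠ m → x ≠ q → ¬ o p q x) ↔ ¬ Inner o m := by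
  rw [inner_iff, not_not]
  constructor
  · intro hx
    exact pt_below hC h (fun hmm => mem_star_im.1 hmm rfl)
      (fun x hxp hxq hxm => hx x hxp (mem_star_im.1 hxm) hxq)
  · intro hm x hxp hxm hxq
    exact pt_both hC h (fun hmm => mem_star_im.1 hmm rfl) (mem_star_im'.2 h.pm)
      (mem_star_im.2 h.mq.symm) hm hxp hxq (mem_star_im.2 hxm)

theorem inner_m' [Fintype ι] (hC : CC o) (hC' : CC o') (h : Mut o o' p m q) :
    (∀ x, x ≠ p → x ≠ m → x ≠ q → o p q x) ↔ ¬ Inner o' m := by
  rw [inner_iff, not_not]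
  constructor
  · intro hx
    exact pt_below' hC hC' h (fun hmm => mem_star_im.1 hmm rfl)
      (fun x hxp hxq hxm => hx x hxp (mem_star_im.1 hxm) hxq)
  · intro hm x hxp hxm hxq
    exact pt_both' hC hC' h (fun hmm => mem_star_im.1 hmm rfl) (mem_star_im'.2 h.pm)
      (mem_star_im.2 h.mq.symm) hm hxp hxq (mem_star_im.2 hxm)

theorem inner_mid_p [Fintype ι] (hC : CC o) (hC' : CC o') (h : Mut o o' p m q) (hp : Inner o p) :
    Inner o m ∧ Inner o' m := by
  have hp' := (inner_iff (o := o) p).1 hp
  constructor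
  · by_contra hcon
    have h1 := (inner_m hC h).2 hcon
    apply hp'
    apply ptd_of_half_last hC (s := m)
    intro b hb hbm
    have hbp := mem_star_im.1 hb
    by_cases hbq : b = q
    · rw [hbq]
      exact h.up
    · apply hC.tot p m b h.pm hbp.symm hbm.symm
      rw [h.mid1 b hbp hbm hbq]
      exact h1 b hbp hbm hbq
  · by_contra hcon
    have h1 := (inner_m' hC hC' h).2 hcon
    apply hp'
    apply ptd_of_half hC (s := q)
    intro b hb hbq
    have hbp := mem_star_im.1 hb
    by_cases hbm : b = m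
    · rw [hbm]
      exact h.up
    · exact h1 b hbp hbm hbq

theorem inner_mid_q [Fintype ι] (hC : CC o) (hC' : CC o') (h : Mut o o' p m q) (hq : Inner o q) :
    Inner o m ∧ Inner o' m := by
  have h' := mut_symm hC hC' h
  have h1 := inner_mid_p hC' hC h' ((inner_agree hC hC' h h.mq.symm).1 hq)
  exact ⟨h1.2, h1.1⟩

end Pool.Agent.Work.MP_02cc39_co.PT
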