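import Pool.Agent.Work.MP_02cc39_co.PT.CrossFace
import Pool.Agent.Work.MP_02cc39_co.PT.TriSub
import Pool.Agent.Work.MP_02cc39_co.PT.InnerMut

set_option autoImplicit false

/-!
# A non-flippable edge is critical at one end (size M)

T is Max (L P) ∅, a b c and b a d are faces, ab does not cross cd. CC rules by `ccL hP`.

PROOFS. c ≠ d (L a b c and L b a d).
`cyc3`: (abstract) if o a b c, o a c d, o a d b then there is no x with o a x b, o a x c, o a x d (and b, c, d are different from a): `trans_left` (v = a, s = x; b, c, d) gives o a b d, contradiction.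
`crit_left`: L c d a and L c d b. So L a b c, L a c d (cyc), L a d b (cyc of L b a d).
 (1) Every neighbour g of a in T with g ≠ b, c satisfies L a c g: g = d: clear. Otherwise suppose not, L a g c. `face_cone` (face a b c): not L a b g, so L a g b. `face_cone` for the face a d b (rotation of b a d): not
  (L a d g and L a g b), so not L a d g, so L a g d. Contradiction by `cyc3` (x = g).
 (2) Inner a: b ≠ a; if some x0 ≠ a had L a x0 y for all y ≠ a, x0: x0 is none of b, c, d (L a b d, L a c b, L a d c are false) and `cyc3` gives a contradiction.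
 (3) E := T.erase s(a,b). Fam {a} E: restriction; at a the first neighbour is c (s(a,c) ∈ E, (1); b is no neighbour in E).
 (4) Maximal: e0 ∉ E, not diagonal, Fam {a} (insert e0 E). If e0 = s(a,b): insert e0 E = T is pointed at a: the first neighbour x0 of a in T contradicts: b, c, d are neighbours; x0 is none of them and `cyc3`.
  Otherwise e0 = s(e,f) ∉ T, e ≠ f; by maximality of T (`fam_insert`) it crosses an edge of T, which must be ab (the others are in E). Exchanging e, f: L a b f, L b a e. `cross_face'` (G := insert e0 E) for the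
  triangles (a,b,c) and (b,a,d) gives f = c, e = d: so ab crosses cd (`Cross (L P) a b d c`, `cross_swap'`), but L c d a and L c d b: contradiction.
`crit`: ¬ Cross a b c d: L a b c is true, L a b d is false, so (L c d a ↔ L c d b). If both are true: `crit_left`. If both are false: L d c b and L d c a, `crit_left` for (b, a, d, c).
-/

namespace Pool.Agent.Work.MP_02cc39_co.PT

open Classical

variable {ι : Type*} [Fintype ι] {P : ι → ℝ × ℝ}

theorem cyc3 {o : ι → ι → ι → Prop} (hC : CC o) {a b c d x : ι} (h1 : o a b c) (h2 : o a c d) (h3 : o a d b)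
    (hx : o a x b ∧ o a x c ∧ o a x d) : False :=
  hC.anti a b d (trans_left hC hx.1 hx.2.1 hx.2.2 h1 h2) h3

private theorem crit_base (hP : Gen P) {T : Finset (Sym2 ι)} {a b c d : ι} (h1 : Face (L P) T a b c)
    (h2 : Face (L P) T b a d) (h3 : L P c d a) :
    c ≠ d ∧ L P a c d ∧ L P a d b := by
  have hC := ccL hP
  exact ⟨(hC.ne _ _ _ h3).1, hC.cyc _ _ _ (hC.cyc _ _ _ h3), hC.cyc _ _ _ h2.l⟩

/-- no vertex `x` such that `b, c, d` (those which are different from `x`) are all to the left of `ax` -/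
private theorem crit_first (hP : Gen P) {T : Finset (Sym2 ι)} {a b c d : ι} (h1 : Face (L P) T a b c)
    (h2 : Face (L P) T b a d) (h3 : L P c d a) {x : ι} (hb : b ≠ x → L P a x b) (hc : c ≠ x → L P a x c)
    (hd : d ≠ x → L P a x d) : False := by
  have hC := ccL hP
  obtain ⟨hcd, lacd, ladb⟩ := crit_base hP h1 h2 h3
  have labc := h1.l
  have n1 := hC.ne _ _ _ labc
  have n2 := hC.ne _ _ _ ladb
  by_cases hxb : b = x
  · rw [← hxb] at hd
    exact hC.anti a d b ladb (hd n2.2.2)
  by_cases hxc : c = x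
  · rw [← hxc] at hb
    exact hC.anti a b c labc (hb n1.2.2)
  by_cases hxd : d = x
  · rw [← hxd] at hc
    exact hC.anti a c d lacd (hc hcd)
  exact cyc3 hC labc lacd ladb ⟨hb hxb, hc hxc, hd hxd⟩

theorem crit_left (hP : Gen P) {T : Finset (Sym2 ι)} (hT : Max (L P) ∅ T) {a b c d : ι} (h1 : Face (L P) T a b c)
    (h2 : Face (L P) T b a d) (h3 : L P c d a) (h4 : L P c d b) :
    Inner (L P) a ∧ Max (L P) {a} (T.erase s(a, b)) := by
  have hC := ccL hP
  obtain ⟨hcd, lacd, ladb⟩ := crit_base hP h1 h2 h3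
  have labc := h1.l
  have n1 := hC.ne _ _ _ labc
  have n2 := hC.ne _ _ _ ladb
  have n3 := hC.ne _ _ _ h3
  have hac : s(a, c) ∈ T := by rw [Sym2.eq_swap]; exact h1.ca
  have had : s(a, d) ∈ T := h2.bc
  -- the neighbours of `a`
  have key : ∀ g, s(a, g) ∈ T → g ≠ b → g ≠ c → L P a c g := by
    intro g hg hgb hgc
    by_cases hgd : g = d
    · rw [hgd]; exact lacd
    by_contra hn
    have hag : a ≠ g := fun h => hT.1.nd _ hg (Sym2.mk_isDiag_iff.2 h)
    have l1 : L P a g c := hC.tot a c g n1.2.1 hag (Ne.symm hgc) hn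
    have l2 : L P a g b := by
      refine hC.tot a b g n1.1 hag (Ne.symm hgb) (fun hh => ?_)
      exact face_cone hC hT.1.nc h1 hg ⟨hh, l1⟩
    have l3 : L P a g d := by
      refine hC.tot a d g n2.1 hag (Ne.symm hgd) (fun hh => ?_)
      exact face_cone hC hT.1.nc (face_rot hC h2) hg ⟨hh, l2⟩
    exact cyc3 hC labc lacd ladb ⟨l2, l1, l3⟩
  refine ⟨⟨⟨b, n1.1.symm⟩, ?_⟩, ?_, ?_⟩
  · intro x hxa
    by_contra hcon
    push Not at hcon
    exact crit_first hP h1 h2 h3 (x := x) (fun h => hcon b n1.1.symm h) (fun h => hcon c n1.2.1.symm h)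
      (fun h => hcon d n2.1.symm h)
  · have hF := fam_mono hC (Finset.erase_subset s(a, b) T) hT.1
    refine ⟨hF.nd, hF.nc, ?_⟩
    intro v hv
    rw [Finset.mem_singleton] at hv
    rw [hv]
    refine Or.inr ⟨c, ?_, ?_⟩
    · rw [Finset.mem_erase]
      refine ⟨fun h => ?_, hac⟩
      exact n1.2.2 (Sym2.congr_right.1 h).symm
    · intro g hg hgc
      rw [Finset.mem_erase] at hg
      exact key g hg.2 (fun h => hg.1 (by rw [h])) hgc
  · -- the main lemma: an edge `e f` which crosses `a b`
    have main : ∀ e f, e ≠ f → Fam (L P) {a} (insert s(e, f) (T.erase s(a, b))) → a ≠ e → a ≠ f → b ≠ e → b ≠ f →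
        Cross (L P) a b e f → L P a b f → False := by
      intro e f hef hF hae haf hbe hbf hX hf
      have memG : ∀ u v, s(u, v) ∈ T → s(u, v) ≠ s(a, b) → s(u, v) ∈ insert s(e, f) (T.erase s(a, b)) := by
        intro u v huv hne
        exact Finset.mem_insert_of_mem (Finset.mem_erase.2 ⟨hne, huv⟩)
      have hsac : s(a, c) ≠ s(a, b) := fun h => n1.2.2 (Sym2.congr_right.1 h).symm
      have hsbc : s(b, c) ≠ s(a, b) := by
        intro h
        rcases Sym2.eq_iff.1 h with ⟨h5, -⟩ | ⟨-, h5⟩
        · exact n1.1 h5.symm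
        · exact n1.2.1 h5.symm
      have hsad : s(a, d) ≠ s(a, b) := fun h => n2.2.2 (Sym2.congr_right.1 h)
      have hsbd : s(b, d) ≠ s(a, b) := by
        intro h
        rcases Sym2.eq_iff.1 h with ⟨h5, -⟩ | ⟨-, h5⟩
        · exact n1.1 h5.symm
        · exact n2.1 h5.symm
      have hbd : s(b, d) ∈ T := by rw [Sym2.eq_swap]; exact h2.ca
      have hfc : f = c := cross_face' hP hF.nc labc h1.emp (memG a c hac hsac) (memG b c h1.bc hsbc)
        (Finset.mem_insert_self _ _) hae haf hbe hbf hef hX hf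
      have hnabe : ¬ L P a b e := fun h => (hX.1.1 h) hf
      have hbae : L P b a e := (o_swap hC n1.1 hae hbe).2 hnabe
      have hX2 : Cross (L P) b a f e := by
        rw [← cross_swap hC n1.1 haf hae hbf hbe, ← cross_swap' hC hef hae haf hbe hbf]
        exact hX
      have hed : e = d := by
        refine cross_face' hP hF.nc h2.l h2.emp (memG b d hbd hsbd) (memG a d had hsad) (e := f) (f := e) ?_
          hbf hbe haf hae hef.symm hX2 hbae
        rw [Sym2.eq_swap]
        exact Finset.mem_insert_self _ _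
      rw [hfc, hed] at hX
      have m1 : ¬ L P d c a := (not_iff_not.2 (o_swap hC hcd n3.2.1 n3.2.2)).2 (not_not.2 h3)
      have m2 : ¬ L P d c b := (not_iff_not.2 (o_swap hC hcd n1.2.2.symm n2.2.2)).2 (not_not.2 h4)
      exact m1 (hX.2.2 m2)
    intro e0 hd0 hn0 hF0
    induction e0 using Sym2.ind with
    | _ x y =>
      have hxy : x ≠ y := fun h => hd0 (Sym2.mk_isDiag_iff.2 h)
      by_cases hxyab : s(x, y) = s(a, b)
      · rw [hxyab, Finset.insert_erase h1.ab] at hF0
        rcases hF0.pt a (Finset.mem_singleton_self a) with hp | ⟨x0, hx0, hp⟩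
        · exact hp b h1.ab
        · exact crit_first hP h1 h2 h3 (x := x0) (fun h => hp b h1.ab h) (fun h => hp c hac h)
            (fun h => hp d had h)
      have hnT : s(x, y) ∉ T := fun h => hn0 (Finset.mem_erase.2 ⟨hxyab, h⟩)
      have hcr : ∃ u v, s(u, v) ∈ T ∧ x ≠ u ∧ x ≠ v ∧ y ≠ u ∧ y ≠ v ∧ Cross (L P) x y u v := by
        by_contra hcon
        push Not at hcon
        refine hT.2 s(x, y) hd0 hnT (fam_insert hC hT.1 hxy ?_ ?_ ?_)
        · intro u v huv n4 n5 n6 n7
          exact hcon u v huv n4 n5 n6 n7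
        · intro h; exact absurd h (Finset.notMem_empty _)
        · intro h; exact absurd h (Finset.notMem_empty _)
      obtain ⟨u, v, huv, n4, n5, n6, n7, hX⟩ := hcr
      have huvab : s(u, v) = s(a, b) := by
        by_contra hne
        exact hF0.nc x y u v (Finset.mem_insert_self _ _)
          (Finset.mem_insert_of_mem (Finset.mem_erase.2 ⟨hne, huv⟩)) n4 n5 n6 n7 hX
      have hX' : x ≠ a ∧ x ≠ b ∧ y ≠ a ∧ y ≠ b ∧ Cross (L P) a b x y := by
        rcases Sym2.eq_iff.1 huvab with ⟨h5, h6⟩ | ⟨h5, h6⟩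
        · rw [h5] at n4 n6 hX
          rw [h6] at n5 n7 hX
          exact ⟨n4, n5, n6, n7, cross_comm.1 hX⟩
        · rw [h5] at n4 n6 hX
          rw [h6] at n5 n7 hX
          refine ⟨n5, n4, n7, n6, ?_⟩
          rw [cross_swap' hC n1.1.symm n4 n5 n6 n7] at hX
          exact cross_comm.1 hX
      obtain ⟨m1, m2, m3, m4, hXX⟩ := hX'
      by_cases hy : L P a b y
      · exact main x y hxy hF0 m1.symm m3.symm m2.symm m4.symm hXX hy
      · have hx : L P a b x := by
          by_contra hx
          exact hx (hXX.1.2 hy)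
        refine main y x hxy.symm ?_ m3.symm m1.symm m4.symm m2.symm ?_ hx
        · rw [Sym2.eq_swap]; exact hF0
        · rw [← cross_swap' hC hxy m1.symm m3.symm m2.symm m4.symm]
          exact hXX

theorem crit (hP : Gen P) {T : Finset (Sym2 ι)} (hT : Max (L P) ∅ T) {a b c d : ι} (h1 : Face (L P) T a b c)
    (h2 : Face (L P) T b a d) (hX : ¬ Cross (L P) a b c d) :
    (Inner (L P) a ∧ Max (L P) {a} (T.erase s(a, b))) ∨ (Inner (L P) b ∧ Max (L P) {b} (T.erase s(a, b))) := by
  have hC := ccL hP
  have labc := h1.l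
  have ladb : L P a d b := hC.cyc _ _ _ h2.l
  have nabd : ¬ L P a b d := hC.anti a d b ladb
  have n1 := hC.ne _ _ _ labc
  have n2 := hC.ne _ _ _ ladb
  have hcd : c ≠ d := by
    intro h
    rw [h] at labc
    exact nabd labc
  have hiff : ¬ (L P c d a ↔ ¬ L P c d b) := fun h => hX ⟨⟨fun _ => nabd, fun _ => labc⟩, h⟩
  by_cases h3 : L P c d a
  · have h4 : L P c d b := by
      by_contra h4
      exact hiff ⟨fun _ => h4, fun _ => h3⟩
    exact Or.inl (crit_left hP hT h1 h2 h3 h4)
  · have h4 : ¬ L P c d b := by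
      intro h4
      exact hiff ⟨fun h => absurd h h3, fun h => absurd h4 h⟩
    have k3 : L P d c a := (o_swap hC hcd n1.2.1.symm n2.1.symm).2 h3
    have k4 : L P d c b := (o_swap hC hcd n1.2.2.symm n2.2.2).2 h4
    have h5 := crit_left hP hT h2 h1 k4 k3
    rw [Sym2.eq_swap] at h5
    exact Or.inr h5

end Pool.Agent.Work.MP_02cc39_co.PT
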