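import Pool.Agent.Work.MP_02cc39_co.PT.FlagCount
import Pool.Agent.Work.MP_02cc39_co.PT.Crit

set_option autoImplicit false

/-!
# The non-flippable flags inject into the graphs with one pointed inner point (size M)

PROOFS. (CC by `ccL hP`.)
`n1_crit`: (T,w,u,v) in N1. Some point is to the right of w → u (Inner w for a = u gives b ≠ w, u with ¬ L P w u b, so L P u w b by tot and cyc), `apex_exists` for s(u,w): z with Face T u w z. Not Cross w u v z (N1). `crit` with (a,b,c,d) := (w,u,v,z).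
`n2_crit`: the same for s(w,v): Face T v w u; a point to the left of w → v: if all points b ≠ w, v had L P w b v... then `ptd_of_half_last` (star w, s = v) contradicts Inner w (`inner_iff`); so Face T w v z by `apex_exists`; `crit` with (a,b,c,d) := (v,w,u,z)
(Cross v w u z ↔ Cross w v u z by `cross_swap`); s(v,w) = s(w,v).
`erase_unique`: e1, e2 are edges at x; T1, T2 maximal, e1 ∈ T1, e2 ∈ T2, T1.erase e1 = T2.erase e2 =: E. Then insert e2 T1 is noncrossing: an edge of E and e2 are both in T2; e1 and e2 have the common end x. So by maximality of T1 e2 ∈ T1; e2 ∉ E, so e2 = e1 and T1 = T2.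
`flag_det`: N1 flag with e = s(w,u): the left end is w, the right end is u, the third point v of the face on the left side of (w → u) has (P v).1 < (P w).1. N2 flag with e = s(w,v): the left end is v, the right end is w, the third point u of the face on the
 left side of (v → w) (Face v w u) has (P w).1 < (P u).1. So T and e determine the ends l, r (by the x-coordinates), the point c with Face T l r c (`face_unique`) and the type (c to the left of l: N1 with (w,u,v) = (l,r,c); c to the right of r: N2 with (w,u,v) = (r,c,l)).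
`card_crit`: choose for every flag of N1 (N2) an end x of e = s(w,u) (of e = s(w,v)) with Inner x and Max {x} (T.erase e). The map from the disjoint union of N1 and N2 to the pairs (x, T.erase e) (a subset of the sigma set of the inner x and MaxSet {x}) is injective by
`erase_unique` (x ∈ e) and `flag_det`. (`Finset.card_le_card_of_injOn` for the disjoint sum, e.g. `Finset.disjSum`, or for the set of the pairs (T, e).)
Suggestion: first inject N1 and N2 into the set of pairs (T,e) by (T,w,u,v) ↦ (T, s(w,u)) resp. (T, s(w,v)); both maps are injective and the images are disjoint (`flag_det`); then inject the union of the images into the set of pairs (x,E).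
-/

namespace Pool.Agent.Work.MP_02cc39_co.PT

open Classical

variable {ι : Type*} [Fintype ι] {P : ι → ℝ × ℝ}

private theorem mem_star_ci {w b : ι} (h : s(w, b) ∈ star w) : b ≠ w := by
  unfold star at h
  rw [Finset.mem_filter] at h
  intro hb
  apply h.2.2
  rw [hb]
  exact Sym2.mk_isDiag_iff.2 rfl

/-- the data of a flag -/
private theorem fl_of_n1 {T : Finset (Sym2 ι)} {w u v : ι} (h : (T, w, u, v) ∈ setN1 P) :
    Max (L P) ∅ T ∧ Inner (L P) w ∧ Up P T w u v ∧ ¬ ∃ z, Face (L P) T u w z ∧ Cross (L P) w u v z := by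
  obtain ⟨h1, h2⟩ := Finset.mem_filter.1 h
  obtain ⟨_, h3, h4, h5⟩ := Finset.mem_filter.1 h1
  exact ⟨h3, h4, h5, h2⟩

private theorem fl_of_n2 {T : Finset (Sym2 ι)} {w u v : ι} (h : (T, w, u, v) ∈ setN2 P) :
    Max (L P) ∅ T ∧ Inner (L P) w ∧ Up P T w u v ∧ ¬ ∃ z, Face (L P) T w v z ∧ Cross (L P) w v u z := by
  obtain ⟨h1, h2⟩ := Finset.mem_filter.1 h
  obtain ⟨_, h3, h4, h5⟩ := Finset.mem_filter.1 h1
  exact ⟨h3, h4, h5, h2⟩

theorem n1_crit (hP : Gen P) {T : Finset (Sym2 ι)} {w u v : ι} (h : (T, w, u, v) ∈ setN1 P) :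
    ∃ x, x ∈ s(w, u) ∧ Inner (L P) x ∧ Max (L P) {x} (T.erase s(w, u)) := by
  have hC := ccL hP
  obtain ⟨hT, hin, hup, hno⟩ := fl_of_n1 h
  obtain ⟨hwu, hwv, huv⟩ := hC.ne _ _ _ hup.face.l
  obtain ⟨b, hbw, hbu, hb⟩ := hin.2 u hwu.symm
  have h1 : L P w b u := hC.tot _ _ _ hwu hbw.symm hbu.symm hb
  have huw : s(u, w) ∈ T := by rw [Sym2.eq_swap]; exact hup.face.ab
  obtain ⟨z, hz⟩ := apex_exists hP hT huw ⟨b, hC.cyc _ _ _ (hC.cyc _ _ _ h1)⟩
  rcases crit hP hT hup.face hz (fun hX => hno ⟨z, hz, hX⟩) with h2 | h2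
  · exact ⟨w, Sym2.mem_mk_left _ _, h2.1, h2.2⟩
  · exact ⟨u, Sym2.mem_mk_right _ _, h2.1, h2.2⟩

theorem n2_crit (hP : Gen P) {T : Finset (Sym2 ι)} {w u v : ι} (h : (T, w, u, v) ∈ setN2 P) :
    ∃ x, x ∈ s(w, v) ∧ Inner (L P) x ∧ Max (L P) {x} (T.erase s(w, v)) := by
  have hC := ccL hP
  obtain ⟨hT, hin, hup, hno⟩ := fl_of_n2 h
  obtain ⟨hwu, hwv, huv⟩ := hC.ne _ _ _ hup.face.l
  have hex : ∃ b, L P w v b := by
    by_contra hcon
    push Not at hcon
    refine (inner_iff w).1 hin (ptd_of_half_last hC (s := v) (fun b hb hbv => ?_))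
    exact hC.tot _ _ _ hwv (mem_star_ci hb).symm hbv.symm (hcon b)
  have hwvT : s(w, v) ∈ T := by rw [Sym2.eq_swap]; exact hup.face.ca
  obtain ⟨z, hz⟩ := apex_exists hP hT hwvT hex
  obtain ⟨_, hwz, hvz⟩ := hC.ne _ _ _ hz.l
  have hX : ¬ Cross (L P) v w u z := fun hX =>
    hno ⟨z, hz, (cross_swap hC hwv.symm huv.symm hvz hwu hwz).1 hX⟩
  rcases crit hP hT (face_rot hC (face_rot hC hup.face)) hz hX with h2 | h2
  · refine ⟨v, Sym2.mem_mk_right _ _, h2.1, ?_⟩
    rw [Sym2.eq_swap]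
    exact h2.2
  · refine ⟨w, Sym2.mem_mk_left _ _, h2.1, ?_⟩
    rw [Sym2.eq_swap]
    exact h2.2

theorem erase_unique (hP : Gen P) {T1 T2 : Finset (Sym2 ι)} (h1 : Max (L P) ∅ T1) (h2 : Max (L P) ∅ T2) {e1 e2 : Sym2 ι} {x : ι}
    (he1 : e1 ∈ T1) (he2 : e2 ∈ T2) (hx1 : x ∈ e1) (hx2 : x ∈ e2) (hE : T1.erase e1 = T2.erase e2) : e1 = e2 ∧ T1 = T2 := by
  have hC := ccL hP
  have key : e1 = e2 := by
    by_contra hne
    have h3 : e2 ∉ T1 := by
      intro h4
      have h5 : e2 ∈ T1.erase e1 := Finset.mem_erase.2 ⟨fun h6 => hne h6.symm, h4⟩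
      rw [hE] at h5
      exact Finset.notMem_erase _ _ h5
    refine h1.2 e2 (h2.1.nd e2 he2) h3 ?_
    obtain ⟨y, rfl⟩ := hx2
    have hxy : x ≠ y := fun h4 => h2.1.nd _ he2 (Sym2.mk_isDiag_iff.2 h4)
    refine fam_insert hC h1.1 hxy ?_ (fun h4 => absurd h4 (Finset.notMem_empty _))
      (fun h4 => absurd h4 (Finset.notMem_empty _))
    intro c d hcd hxc hxd hyc hyd
    have h4 : s(c, d) ∈ T1.erase e1 := by
      refine Finset.mem_erase.2 ⟨?_, hcd⟩
      intro h5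
      rw [← h5] at hx1
      rcases Sym2.mem_iff.1 hx1 with h6 | h6
      · exact hxc h6
      · exact hxd h6
    rw [hE] at h4
    exact h2.1.nc x y c d he2 (Finset.mem_of_mem_erase h4) hxc hxd hyc hyd
  refine ⟨key, ?_⟩
  rw [← Finset.insert_erase he1, ← Finset.insert_erase he2, hE, key]

private theorem s_eq {a b c d : ι} (h : s(a, b) = s(c, d)) : (a = c ∧ b = d) ∨ (a = d ∧ b = c) :=
  Sym2.eq_iff.1 h

private theorem inj1 (hP : Gen P) :
    Set.InjOn (fun t : Finset (Sym2 ι) × ι × ι × ι => (t.1, s(t.2.1, t.2.2.1))) (setN1 P : Set _) := by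
  have hC := ccL hP
  rintro ⟨T, w, u, v⟩ h ⟨T', w', u', v'⟩ h' he
  simp only [Prod.mk.injEq] at he
  obtain ⟨rfl, he⟩ := he
  obtain ⟨hT, _, hup, _⟩ := fl_of_n1 (Finset.mem_coe.1 h)
  obtain ⟨_, _, hup', _⟩ := fl_of_n1 (Finset.mem_coe.1 h')
  rcases s_eq he with ⟨rfl, rfl⟩ | ⟨rfl, rfl⟩
  · rw [face_unique hC hT.1.nc hup.face hup'.face]
  · exact absurd (hup.xu.trans hup'.xu) (lt_irrefl _)

private theorem inj2 (hP : Gen P) :
    Set.InjOn (fun t : Finset (Sym2 ι) × ι × ι × ι => (t.1, s(t.2.1, t.2.2.2))) (setN2 P : Set _) := by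
  have hC := ccL hP
  rintro ⟨T, w, u, v⟩ h ⟨T', w', u', v'⟩ h' he
  simp only [Prod.mk.injEq] at he
  obtain ⟨rfl, he⟩ := he
  obtain ⟨hT, _, hup, _⟩ := fl_of_n2 (Finset.mem_coe.1 h)
  obtain ⟨_, _, hup', _⟩ := fl_of_n2 (Finset.mem_coe.1 h')
  rcases s_eq he with ⟨rfl, rfl⟩ | ⟨rfl, rfl⟩
  · rw [face_unique hC hT.1.nc (face_rot hC (face_rot hC hup.face)) (face_rot hC (face_rot hC hup'.face))]
  · exact absurd (hup.xv.trans hup'.xv) (lt_irrefl _)

private theorem disj12 (hP : Gen P) :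
    Disjoint ((setN1 P).image (fun t : Finset (Sym2 ι) × ι × ι × ι => (t.1, s(t.2.1, t.2.2.1))))
      ((setN2 P).image (fun t : Finset (Sym2 ι) × ι × ι × ι => (t.1, s(t.2.1, t.2.2.2)))) := by
  have hC := ccL hP
  rw [Finset.disjoint_left]
  intro y h1 h2
  obtain ⟨⟨T, w, u, v⟩, h, rfl⟩ := Finset.mem_image.1 h1
  obtain ⟨⟨T', w', u', v'⟩, h', he⟩ := Finset.mem_image.1 h2
  simp only [Prod.mk.injEq] at he
  obtain ⟨rfl, he⟩ := he
  obtain ⟨hT, _, hup, _⟩ := fl_of_n1 h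
  obtain ⟨_, _, hup', _⟩ := fl_of_n2 h'
  rcases s_eq he with ⟨rfl, rfl⟩ | ⟨rfl, rfl⟩
  · exact absurd (hup.xu.trans hup'.xv) (lt_irrefl _)
  · have h3 := face_unique hC hT.1.nc hup.face (face_rot hC (face_rot hC hup'.face))
    subst h3
    exact absurd ((hup.xv.trans hup.xu).trans hup'.xu) (lt_irrefl _)

theorem card_crit (hP : Gen P) :
    (setN1 P).card + (setN2 P).card ≤ ∑ x ∈ Finset.univ.filter (fun w => Inner (L P) w), cnt (L P) {x} := by
  rw [← Finset.card_image_of_injOn (inj1 hP), ← Finset.card_image_of_injOn (inj2 hP),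
    ← Finset.card_union_of_disjoint (disj12 hP)]
  have hsig : ∑ x ∈ Finset.univ.filter (fun w => Inner (L P) w), cnt (L P) {x} =
      ((Finset.univ.filter (fun w => Inner (L P) w)).sigma fun x => MaxSet (L P) {x}).card := by
    rw [Finset.card_sigma]
    rfl
  rw [hsig]
  have hS : ∀ t ∈ (setN1 P).image (fun t : Finset (Sym2 ι) × ι × ι × ι => (t.1, s(t.2.1, t.2.2.1))) ∪
      (setN2 P).image (fun t : Finset (Sym2 ι) × ι × ι × ι => (t.1, s(t.2.1, t.2.2.2))),
      Max (L P) ∅ t.1 ∧ t.2 ∈ t.1 ∧ ∃ x, x ∈ t.2 ∧ Inner (L P) x ∧ Max (L P) {x} (t.1.erase t.2) := by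
    intro y hy
    rcases Finset.mem_union.1 hy with hy | hy
    · obtain ⟨⟨T, w, u, v⟩, h, rfl⟩ := Finset.mem_image.1 hy
      obtain ⟨hT, _, hup, _⟩ := fl_of_n1 h
      exact ⟨hT, hup.face.ab, n1_crit hP h⟩
    · obtain ⟨⟨T, w, u, v⟩, h, rfl⟩ := Finset.mem_image.1 hy
      obtain ⟨hT, _, hup, _⟩ := fl_of_n2 h
      refine ⟨hT, ?_, n2_crit hP h⟩
      have h3 := hup.face.ca
      rw [Sym2.eq_swap] at h3
      exact h3
  refine Finset.card_le_card_of_forall_subsingleton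
    (fun (t : Finset (Sym2 ι) × Sym2 ι) (y : (_ : ι) × Finset (Sym2 ι)) => y.1 ∈ t.2 ∧ y.2 = t.1.erase t.2) ?_ ?_
  · intro t ht
    obtain ⟨_, _, x, hx, hin, hmax⟩ := hS t ht
    refine ⟨⟨x, t.1.erase t.2⟩, Finset.mem_sigma.2 ⟨Finset.mem_filter.2 ⟨Finset.mem_univ _, hin⟩, ?_⟩, hx, rfl⟩
    exact Finset.mem_filter.2 ⟨Finset.mem_univ _, hmax⟩
  · rintro ⟨x, E⟩ _ t ⟨ht, hx, hE⟩ t' ⟨ht', hx', hE'⟩
    obtain ⟨h1, h2, _⟩ := hS t ht
    obtain ⟨h1', h2', _⟩ := hS t' ht'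
    obtain ⟨h3, h4⟩ := erase_unique hP h1 h1' h2 h2' hx hx' (hE.symm.trans hE')
    exact Prod.ext h4 h3

end Pool.Agent.Work.MP_02cc39_co.PT
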