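import Pool.Agent.Work.MP_02cc39_co.PT.ExitTri
import Pool.Agent.Work.MP_02cc39_co.PT.CCL
import Pool.Agent.Work.MP_02cc39_co.PT.Face

set_option autoImplicit false

/-!
# An edge which crosses a side of an empty triangle (size S-M)

PROOFS. (cyc, cross_swap, cross_comm for L P by `ccL hP`.)
`cross_face`: suppose f ≠ c. `exit_tri` with (y, w, a, z, c, d) := (c, a, b, b, e, f): hT = L P c a b (cyc), hz : z = a is b = b, hd = L P a b f, hdy : f ≠ c,
hdT: Tri P c a b f is excluded by hemp, hc: second alternative (e ≠ b, f ≠ b, Cross a b e f). Result: Cross a c e f, or e ≠ b and Cross c b e f (= Cross b c e f by `cross_swap`).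
e ≠ c because L P a b c and not L P a b e (first part of Cross a b e f and L P a b f).
`cross_face'`: the two other cases contradict NonCr.
-/

namespace Pool.Agent.Work.MP_02cc39_co.PT

open Classical

variable {ι : Type*} {P : ι → ℝ × ℝ}

theorem cross_face (hP : Gen P) {a b c e f : ι} (hl : L P a b c) (hemp : ∀ g, ¬ (L P a b g ∧ L P b c g ∧ L P c a g))
    (hae : a ≠ e) (haf : a ≠ f) (hbe : b ≠ e) (hbf : b ≠ f) (hef : e ≠ f) (hX : Cross (L P) a b e f) (hf : L P a b f) :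
    f = c ∨ (e ≠ c ∧ f ≠ c ∧ (Cross (L P) a c e f ∨ Cross (L P) b c e f)) := by
  by_cases hfc : f = c
  · exact Or.inl hfc
  right
  have hC := ccL hP
  have hcab : L P c a b := hC.cyc _ _ _ (hC.cyc _ _ _ hl)
  have hec : e ≠ c := by
    rintro rfl
    exact (hX.1.1 hl) hf
  obtain ⟨hab, hac, hbc⟩ := hC.ne _ _ _ hl
  refine ⟨hec, hfc, ?_⟩
  have hT : ¬ Tri P c a b f := fun h => hemp f ⟨h.2.1, h.2.2, h.1⟩
  rcases exit_tri hP hcab (Or.inl rfl) hf hfc hT haf.symm hae.symm hef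
    (Or.inr ⟨hbe.symm, hbf.symm, hX⟩) with h | ⟨_, h⟩
  · exact Or.inl h
  · exact Or.inr ((cross_swap hC hbc.symm hec.symm (Ne.symm hfc) hbe hbf).1 h)

theorem cross_face' (hP : Gen P) {G : Finset (Sym2 ι)} (hG : NonCr (L P) G) {a b c e f : ι} (hl : L P a b c)
    (hemp : ∀ g, ¬ (L P a b g ∧ L P b c g ∧ L P c a g)) (hac : s(a, c) ∈ G) (hbc : s(b, c) ∈ G) (hefG : s(e, f) ∈ G)
    (hae : a ≠ e) (haf : a ≠ f) (hbe : b ≠ e) (hbf : b ≠ f) (hef : e ≠ f) (hX : Cross (L P) a b e f) (hf : L P a b f) :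
    f = c := by
  rcases cross_face hP hl hemp hae haf hbe hbf hef hX hf with h | ⟨h1, h2, h | h⟩
  · exact h
  · exact absurd h (hG a c e f hac hefG hae haf h1.symm h2.symm)
  · exact absurd h (hG b c e f hbc hefG hbe hbf h1.symm h2.symm)

end Pool.Agent.Work.MP_02cc39_co.PT
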