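import Pool.Agent.Work.MP_02cc39_co.PT.Geo
import Pool.Agent.Work.MP_02cc39_co.PT.InnerMut

set_option autoImplicit false

/-!
# Pointedness and directions (size M)

PROOFS.
`ptd_of_strict`: all neighbours b of w satisfy ht u (P w) (P b) < 0. If there is no neighbour: done. For such b put
g(b) := (- u.2 * (P b - P w).1 + u.1 * (P b - P w).2) / ht u (P w) (P b). Identity:
(u.1^2 + u.2^2) * det P w a b = ht(a) * N(b) - N(a) * ht(b), where N(b) is the numerator; ht(a) ht(b) > 0, so
det P w a b > 0 iff g(b) > g(a) (u ≠ 0 follows from ht < 0). Take the neighbour a with the smallest g (finite set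
Finset.univ.filter; Finset.exists_min_image). For b ≠ a: det P w a b ≠ 0 (Gen; b ≠ w because ht(w) = 0), g(b) ≥ g(a), hence > 0.
`ptd_dir`: if w has no neighbour take u = (1,0). Otherwise let a be the first neighbour, v := P a - P w ≠ 0 (Gen.1), det P w a b > 0 for the other
neighbours b. u := -(v^perp + eps v), v^perp = (-v.2, v.1): ht u (P w) (P b) = - det P w a b - eps * (v.1 * (P b - P w).1 + v.2 * (P b - P w).2),
ht u (P w) (P a) = - eps |v|^2. Choose eps > 0 so small that all finitely many are negative (Finset induction or a minimum; e.g.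
`Finset.exists_min_image`, or: a finite number of conditions eventually for eps → 0+, Filter.Eventually and Finset.eventually_all).
u ≠ 0 because ht u (P w) (P a) < 0.
`inner_half`: suppose all s satisfy ht u (P w) (P s) ≤ 0, u ≠ 0. At most one s ≠ w has ht = 0 (two such points and w would be collinear: the
determinant of two vectors orthogonal to u ≠ 0 is 0). If there is such an s1 replace u by u' := u - eps (P s1 - P w): ht u'(s1) = - eps |P s1 - P w|^2 < 0,
and the other ones stay < 0 for small eps > 0. So WLOG ht u' (P w) (P s) < 0 for all s ≠ w, `ptd_of_strict` for E = star w gives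
Ptd (L P) (star w) w, contradiction to `inner_iff`.
-/

namespace Pool.Agent.Work.MP_02cc39_co.PT

open Classical

variable {ι : Type*} [Fintype ι] {P : ι → ℝ × ℝ}

private theorem exists_eps (S : Finset ι) (D I : ι → ℝ) (h : ∀ b ∈ S, 0 < D b) :
    ∃ e : ℝ, 0 < e ∧ ∀ b ∈ S, 0 < D b + e * I b := by
  have h1 : ∀ᶠ e in nhdsWithin (0 : ℝ) (Set.Ioi 0), ∀ b ∈ S, 0 < D b + e * I b := by
    rw [Filter.eventually_all_finset]
    intro b hb
    have h2 : Filter.Tendsto (fun e : ℝ => D b + e * I b) (nhdsWithin (0 : ℝ) (Set.Ioi 0))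
        (nhds (D b + 0 * I b)) := by
      have h3 : Continuous (fun e : ℝ => D b + e * I b) := by fun_prop
      exact (h3.tendsto 0).mono_left nhdsWithin_le_nhds
    have h4 : 0 < D b + 0 * I b := by
      rw [zero_mul, add_zero]
      exact h b hb
    exact h2.eventually (lt_mem_nhds h4)
  obtain ⟨e, he1, he2⟩ := (h1.and self_mem_nhdsWithin).exists
  exact ⟨e, he2, he1⟩

private theorem det_id (P : ι → ℝ × ℝ) (u : ℝ × ℝ) (w a b : ι) :
    (u.1 ^ 2 + u.2 ^ 2) * det P w a b =
      ht u (P w) (P a) * (-u.2 * ((P b).1 - (P w).1) + u.1 * ((P b).2 - (P w).2)) -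
      (-u.2 * ((P a).1 - (P w).1) + u.1 * ((P a).2 - (P w).2)) * ht u (P w) (P b) := by
  unfold det ht
  ring

private theorem ht_self (u A : ℝ × ℝ) : ht u A A = 0 := by
  unfold ht
  ring

private theorem sq_pos_of_ne {u : ℝ × ℝ} (hu : u ≠ 0) : 0 < u.1 ^ 2 + u.2 ^ 2 := by
  by_contra hc
  apply hu
  have h1 := sq_nonneg u.1
  have h2 := sq_nonneg u.2
  have h3 : u.1 ^ 2 = 0 := by linarith
  have h4 : u.2 ^ 2 = 0 := by linarith
  exact Prod.ext (pow_eq_zero_iff two_ne_zero |>.1 h3) (pow_eq_zero_iff two_ne_zero |>.1 h4)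

theorem ptd_of_strict (hP : Gen P) {E : Finset (Sym2 ι)} {w : ι} (u : ℝ × ℝ)
    (h : ∀ b, s(w, b) ∈ E → ht u (P w) (P b) < 0) : Ptd (L P) E w := by
  by_cases hne : ∃ b, s(w, b) ∈ E
  swap
  · left
    intro b hb
    exact hne ⟨b, hb⟩
  right
  obtain ⟨b0, hb0⟩ := hne
  have hu : u ≠ 0 := by
    rintro rfl
    have h1 := h b0 hb0
    unfold ht at h1
    simp at h1
  have hu2 := sq_pos_of_ne hu
  have hw : ∀ b, s(w, b) ∈ E → b ≠ w := by
    rintro b hb rfl
    have h1 := h b hb
    rw [ht_self] at h1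
    exact lt_irrefl _ h1
  let N : ι → ℝ := fun b => -u.2 * ((P b).1 - (P w).1) + u.1 * ((P b).2 - (P w).2)
  obtain ⟨a, ha, hmin⟩ := Finset.exists_min_image (Finset.univ.filter fun b => s(w, b) ∈ E)
    (fun b => N b / ht u (P w) (P b)) ⟨b0, Finset.mem_filter.2 ⟨Finset.mem_univ _, hb0⟩⟩
  have haE : s(w, a) ∈ E := (Finset.mem_filter.1 ha).2
  refine ⟨a, haE, fun b hb hba => ?_⟩
  have h1 : N a / ht u (P w) (P a) ≤ N b / ht u (P w) (P b) :=
    hmin b (Finset.mem_filter.2 ⟨Finset.mem_univ _, hb⟩)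
  have ha1 := h a haE
  have hb1 := h b hb
  have h2 : 0 ≤ ht u (P w) (P a) * N b - N a * ht u (P w) (P b) := by
    have h3 : 0 < ht u (P w) (P a) * ht u (P w) (P b) := mul_pos_of_neg_of_neg ha1 hb1
    have h4 : (N b / ht u (P w) (P b) - N a / ht u (P w) (P a)) *
        (ht u (P w) (P a) * ht u (P w) (P b)) =
        ht u (P w) (P a) * N b - N a * ht u (P w) (P b) := by
      have h5 := ha1.ne
      have h6 := hb1.ne
      rw [div_sub_div _ _ h6 h5, div_mul_eq_mul_div, div_eq_iff (mul_ne_zero h6 h5)]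
      ring
    rw [← h4]
    exact mul_nonneg (sub_nonneg.2 h1) h3.le
  have h5 : det P w a b ≠ 0 := hP.2 w a b (hw a haE).symm (hw b hb).symm (fun hab => hba hab.symm)
  have h6 := det_id P u w a b
  show 0 < det P w a b
  rcases lt_trichotomy (det P w a b) 0 with h7 | h7 | h7
  · exfalso
    have h8 : (u.1 ^ 2 + u.2 ^ 2) * det P w a b < 0 := mul_neg_of_pos_of_neg hu2 h7
    rw [h6] at h8
    exact absurd h8 (not_lt.2 h2)
  · exact absurd h7 h5
  · exact h7

theorem ptd_dir (hP : Gen P) {E : Finset (Sym2 ι)} (hnd : ∀ e ∈ E, ¬ e.IsDiag) {w : ι} (h : Ptd (L P) E w) :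
    ∃ u : ℝ × ℝ, u ≠ 0 ∧ ∀ b, s(w, b) ∈ E → ht u (P w) (P b) < 0 := by
  rcases h with h | ⟨a, ha, hb⟩
  · refine ⟨(1, 0), ?_, fun b hb => absurd hb (h b)⟩
    intro h0
    have := congrArg Prod.fst h0
    simp at this
  have hwa : w ≠ a := by
    rintro rfl
    exact hnd _ ha (Sym2.mk_isDiag_iff.2 rfl)
  obtain ⟨e, he, hE⟩ := exists_eps (Finset.univ.filter fun b => s(w, b) ∈ E ∧ b ≠ a)
    (fun b => det P w a b)
    (fun b => ((P a).1 - (P w).1) * ((P b).1 - (P w).1) + ((P a).2 - (P w).2) * ((P b).2 - (P w).2))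
    (fun b hb' => by
      obtain ⟨-, h1, h2⟩ := Finset.mem_filter.1 hb'
      exact hb b h1 h2)
  have hsq : 0 < ((P a).1 - (P w).1) ^ 2 + ((P a).2 - (P w).2) ^ 2 := by
    have hv : ((P a).1 - (P w).1, (P a).2 - (P w).2) ≠ (0 : ℝ × ℝ) := by
      intro h0
      apply hwa
      apply hP.1
      have h1 := congrArg Prod.fst h0
      have h2 := congrArg Prod.snd h0
      simp only [Prod.fst_zero, Prod.snd_zero] at h1 h2
      exact Prod.ext (by linarith) (by linarith)
    exact sq_pos_of_ne hv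
  have hha : ht (((P a).2 - (P w).2) - e * ((P a).1 - (P w).1),
      -((P a).1 - (P w).1) - e * ((P a).2 - (P w).2)) (P w) (P a) < 0 := by
    have h1 : ht (((P a).2 - (P w).2) - e * ((P a).1 - (P w).1),
      -((P a).1 - (P w).1) - e * ((P a).2 - (P w).2)) (P w) (P a) =
        -(e * (((P a).1 - (P w).1) ^ 2 + ((P a).2 - (P w).2) ^ 2)) := by
      unfold ht
      ring
    rw [h1]
    exact neg_neg_of_pos (mul_pos he hsq)
  refine ⟨(((P a).2 - (P w).2) - e * ((P a).1 - (P w).1),
      -((P a).1 - (P w).1) - e * ((P a).2 - (P w).2)), ?_, ?_⟩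
  · intro h0
    rw [h0] at hha
    unfold ht at hha
    simp at hha
  · intro b hbE
    by_cases hba : b = a
    · rw [hba]
      exact hha
    · have h1 := hE b (Finset.mem_filter.2 ⟨Finset.mem_univ _, hbE, hba⟩)
      have h2 : ht (((P a).2 - (P w).2) - e * ((P a).1 - (P w).1),
        -((P a).1 - (P w).1) - e * ((P a).2 - (P w).2)) (P w) (P b) =
        -(det P w a b + e * (((P a).1 - (P w).1) * ((P b).1 - (P w).1) +
          ((P a).2 - (P w).2) * ((P b).2 - (P w).2))) := by
        unfold ht det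
        ring
      rw [h2]
      exact neg_neg_of_pos h1

private theorem not_strict (hP : Gen P) {w : ι} (hw : Inner (L P) w) (u : ℝ × ℝ)
    (h : ∀ b, b ≠ w → ht u (P w) (P b) < 0) : False := by
  apply (inner_iff (o := L P) w).1 hw
  refine ptd_of_strict hP u (fun b hb => h b ?_)
  rintro rfl
  have h1 := (Finset.mem_filter.1 hb).2.2
  exact h1 (Sym2.mk_isDiag_iff.2 rfl)

theorem inner_half (hP : Gen P) {w : ι} (hw : Inner (L P) w) {u : ℝ × ℝ} (hu : u ≠ 0) :
    ∃ s, 0 < ht u (P w) (P s) := by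
  by_contra hcon
  push Not at hcon
  have hu2 := sq_pos_of_ne hu
  by_cases h0 : ∃ s1, s1 ≠ w ∧ ht u (P w) (P s1) = 0
  swap
  · push Not at h0
    exact not_strict hP hw u (fun b hb => lt_of_le_of_ne (hcon b) (h0 b hb))
  obtain ⟨s1, hs1w, hs1⟩ := h0
  have hstrict : ∀ s, s ≠ w → s ≠ s1 → ht u (P w) (P s) < 0 := by
    intro s hsw hss
    refine lt_of_le_of_ne (hcon s) (fun hs => ?_)
    have h1 := det_id P u w s1 s
    rw [hs1, hs, zero_mul, mul_zero, sub_zero] at h1
    rcases mul_eq_zero.1 h1 with h2 | h2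
    · exact absurd h2 hu2.ne'
    · exact hP.2 w s1 s hs1w.symm hsw.symm (fun hh => hss hh.symm) h2
  obtain ⟨e, he, hE⟩ := exists_eps (Finset.univ.filter fun b => b ≠ w ∧ b ≠ s1)
    (fun b => -ht u (P w) (P b))
    (fun b => ((P s1).1 - (P w).1) * ((P b).1 - (P w).1) + ((P s1).2 - (P w).2) * ((P b).2 - (P w).2))
    (fun b hb => by
      obtain ⟨-, h1, h2⟩ := Finset.mem_filter.1 hb
      have := hstrict b h1 h2
      linarith)
  have hsq : 0 < ((P s1).1 - (P w).1) ^ 2 + ((P s1).2 - (P w).2) ^ 2 := by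
    have hv : ((P s1).1 - (P w).1, (P s1).2 - (P w).2) ≠ (0 : ℝ × ℝ) := by
      intro h0
      apply hs1w
      apply hP.1
      have h1 := congrArg Prod.fst h0
      have h2 := congrArg Prod.snd h0
      simp only [Prod.fst_zero, Prod.snd_zero] at h1 h2
      exact Prod.ext (by linarith) (by linarith)
    exact sq_pos_of_ne hv
  refine not_strict hP hw (u.1 - e * ((P s1).1 - (P w).1), u.2 - e * ((P s1).2 - (P w).2))
    (fun b hb => ?_)
  have h2 : ht (u.1 - e * ((P s1).1 - (P w).1), u.2 - e * ((P s1).2 - (P w).2)) (P w) (P b) =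
      -(-ht u (P w) (P b) + e * (((P s1).1 - (P w).1) * ((P b).1 - (P w).1) +
        ((P s1).2 - (P w).2) * ((P b).2 - (P w).2))) := by
    unfold ht
    ring
  rw [h2]
  by_cases hbs : b = s1
  · rw [hbs, hs1]
    have h3 := mul_pos he hsq
    nlinarith
  · exact neg_neg_of_pos (hE b (Finset.mem_filter.2 ⟨Finset.mem_univ _, hb, hbs⟩))

end Pool.Agent.Work.MP_02cc39_co.PT
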