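import Pool.Agent.Work.MP_02cc39_co.PT.PathStep

set_option autoImplicit false

/-!
# Induction along the motion (size M)

PROOF. For noncritical times t ≤ t' in [0,1] (Gen (pth t), Gen (pth t')) let K(t,t') be the finite set of the e ∈ Sym2 ι such that e = s(j,k) with j ≠ k, j, k ≠ y and det (pth r) y j k = 0 for some r with t < r < t'.
CLAIM: R (pth t) implies R (pth t'). Strong induction over the number of elements of K(t,t'). K = ∅: `same_step` and hstep. K = {e}: `mut_step` and hstep (honly: every zero belongs to an element of K). |K| ≥ 2: e1 ≠ e2 in K with zeros r1, r2; r1 ≠ r2 by Good.one, say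
r1 < r2. The finitely many functions r ↦ det (pth r) y j k are affine and not identically 0 (they are nonzero at t), so each has at most one zero; hence there is s in (r1, r2) at which none vanishes (an infinite set minus a finite set), Gen (pth s) by `gen_pth`. K(t,s) is
contained in K(t,t') without e2, K(s,t') in K(t,t') without e1 (at most one zero). Apply the induction hypothesis to (t,s) and (s,t').
Start: pth 0 = P, pth 1 = update P y Z, Gen by hP and Good.gen.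
-/

namespace Pool.Agent.Work.MP_02cc39_co.PT

open Classical

variable {ι : Type*} [Fintype ι]

private theorem det_swap (Q : ι → ℝ × ℝ) (i j k : ι) : det Q i k j = - det Q i j k := by
  unfold det; ring

private theorem uniq_zero {P : ι → ℝ × ℝ} {y : ι} {Z : ℝ × ℝ} {j k : ι} (hj : j ≠ y) (hk : k ≠ y) {t r1 r2 : ℝ}
    (ht : det (pth P y Z t) y j k ≠ 0) (h1 : det (pth P y Z r1) y j k = 0) (h2 : det (pth P y Z r2) y j k = 0) :
    r1 = r2 := by
  rw [det_pth P y Z _ hj hk] at ht h1 h2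
  by_contra hne
  have hd : r2 - r1 ≠ 0 := fun h => hne (by linarith)
  have h3 : (r2 - r1) * (det (Function.update P y Z) y j k - det P y j k) = 0 := by
    have h4 := h2
    have h5 := h1
    ring_nf
    ring_nf at h4 h5
    linarith
  have h6 : det (Function.update P y Z) y j k - det P y j k = 0 := by
    rcases mul_eq_zero.mp h3 with h | h
    · exact absurd h hd
    · exact h
  have h7 : det (Function.update P y Z) y j k = det P y j k := by linarith
  rw [h7] at ht h1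
  have h8 : det P y j k = 0 := by
    have : (1 - r1) * det P y j k + r1 * det P y j k = det P y j k := by ring
    linarith
  apply ht
  rw [h8]; ring

/-- the pairs with a zero strictly between `t` and `t'` -/
private noncomputable def KK (P : ι → ℝ × ℝ) (y : ι) (Z : ℝ × ℝ) (t t' : ℝ) : Finset (Sym2 ι) :=
  Finset.univ.filter fun e => ∃ j k, e = s(j, k) ∧ j ≠ y ∧ k ≠ y ∧ j ≠ k ∧ ∃ r, t < r ∧ r < t' ∧
    det (pth P y Z r) y j k = 0

private theorem mem_KK {P : ι → ℝ × ℝ} {y : ι} {Z : ℝ × ℝ} {t t' : ℝ} {e : Sym2 ι} :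
    e ∈ KK P y Z t t' ↔ ∃ j k, e = s(j, k) ∧ j ≠ y ∧ k ≠ y ∧ j ≠ k ∧ ∃ r, t < r ∧ r < t' ∧
      det (pth P y Z r) y j k = 0 := by
  unfold KK
  simp

private theorem sym_zero {P : ι → ℝ × ℝ} {y : ι} {Z : ℝ × ℝ} {j k j' k' : ι} (he : s(j, k) = s(j', k')) {r : ℝ}
    (h : det (pth P y Z r) y j k = 0) : det (pth P y Z r) y j' k' = 0 := by
  rcases Sym2.eq_iff.mp he with ⟨h1, h2⟩ | ⟨h1, h2⟩
  · rw [← h1, ← h2]; exact h
  · rw [← h1, ← h2, det_swap, h, neg_zero]

private theorem fin_zero {P : ι → ℝ × ℝ} {y : ι} {Z : ℝ × ℝ} {t : ℝ} (hg : Gen (pth P y Z t)) :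
    {r : ℝ | ∃ j k : ι, j ≠ y ∧ k ≠ y ∧ j ≠ k ∧ det (pth P y Z r) y j k = 0}.Finite := by
  have hsub : {r : ℝ | ∃ j k : ι, j ≠ y ∧ k ≠ y ∧ j ≠ k ∧ det (pth P y Z r) y j k = 0} ⊆
      ⋃ p : ι × ι, {r : ℝ | p.1 ≠ y ∧ p.2 ≠ y ∧ p.1 ≠ p.2 ∧ det (pth P y Z r) y p.1 p.2 = 0} := by
    rintro r ⟨j, k, h⟩
    exact Set.mem_iUnion.mpr ⟨(j, k), h⟩
  refine Set.Finite.subset (Set.finite_iUnion fun p => ?_) hsub
  apply Set.Subsingleton.finite
  rintro r1 ⟨ha, hb, hc, h1⟩ r2 ⟨_, _, _, h2⟩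
  exact uniq_zero ha hb (hg.2 y p.1 p.2 (Ne.symm ha) (Ne.symm hb) hc) h1 h2

private theorem split_step {P : ι → ℝ × ℝ} (hP : Gen P) {y : ι} {Z : ℝ × ℝ} (hG : Good P y Z) (R : (ι → ℝ × ℝ) → Prop)
    {n : ℕ}
    (ih : ∀ m < n, ∀ t t' : ℝ, 0 ≤ t → t ≤ t' → t' ≤ 1 → Gen (pth P y Z t) → Gen (pth P y Z t') →
      (KK P y Z t t').card = m → R (pth P y Z t) → R (pth P y Z t'))
    {t t' : ℝ} (h0 : 0 ≤ t) (h1 : t' ≤ 1) (hg : Gen (pth P y Z t)) (hg' : Gen (pth P y Z t'))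
    (hn : (KK P y Z t t').card = n) (hR : R (pth P y Z t))
    {j1 k1 j2 k2 : ι} {r1 r2 : ℝ} (hj1 : j1 ≠ y) (hk1 : k1 ≠ y) (hjk1 : j1 ≠ k1) (hj2 : j2 ≠ y) (hk2 : k2 ≠ y)
    (hjk2 : j2 ≠ k2) (htr : t < r1) (hrr : r1 < r2) (hrt : r2 < t')
    (hz1 : det (pth P y Z r1) y j1 k1 = 0) (hz2 : det (pth P y Z r2) y j2 k2 = 0) : R (pth P y Z t') := by
  obtain ⟨s, ⟨hs1, hs2⟩, hs3⟩ := ((Set.Ioo_infinite hrr).sdiff (fin_zero hg)).nonempty
  have hs0 : 0 ≤ s := by linarith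
  have hsle : s ≤ 1 := by linarith
  have hgs : Gen (pth P y Z s) := by
    refine gen_pth hP hG hs0 hsle ?_
    intro j k hj hk hjk hz
    exact hs3 ⟨j, k, hj, hk, hjk, hz⟩
  have hc1 : (KK P y Z t s).card < n := by
    rw [← hn]
    apply Finset.card_lt_card
    rw [Finset.ssubset_iff_of_subset]
    · refine ⟨s(j2, k2), mem_KK.mpr ⟨j2, k2, rfl, hj2, hk2, hjk2, r2, by linarith, hrt, hz2⟩, ?_⟩
      intro hmem
      obtain ⟨j, k, he, hj, hk, hjk, r, hr1, hr2, hz⟩ := mem_KK.mp hmem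
      have hz' := sym_zero he.symm hz
      have := uniq_zero hj2 hk2 (hg.2 y j2 k2 (Ne.symm hj2) (Ne.symm hk2) hjk2) hz' hz2
      linarith
    · intro e he
      obtain ⟨j, k, he, hj, hk, hjk, r, hr1, hr2, hz⟩ := mem_KK.mp he
      exact mem_KK.mpr ⟨j, k, he, hj, hk, hjk, r, hr1, by linarith, hz⟩
  have hc2 : (KK P y Z s t').card < n := by
    rw [← hn]
    apply Finset.card_lt_card
    rw [Finset.ssubset_iff_of_subset]
    · refine ⟨s(j1, k1), mem_KK.mpr ⟨j1, k1, rfl, hj1, hk1, hjk1, r1, htr, by linarith, hz1⟩, ?_⟩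
      intro hmem
      obtain ⟨j, k, he, hj, hk, hjk, r, hr1, hr2, hz⟩ := mem_KK.mp hmem
      have hz' := sym_zero he.symm hz
      have := uniq_zero hj1 hk1 (hg.2 y j1 k1 (Ne.symm hj1) (Ne.symm hk1) hjk1) hz' hz1
      linarith
    · intro e he
      obtain ⟨j, k, he, hj, hk, hjk, r, hr1, hr2, hz⟩ := mem_KK.mp he
      exact mem_KK.mpr ⟨j, k, he, hj, hk, hjk, r, by linarith, hr2, hz⟩
  have hRs : R (pth P y Z s) := ih _ hc1 t s h0 (by linarith) hsle hg hgs rfl hR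
  exact ih _ hc2 s t' hs0 (by linarith) h1 hgs hg' rfl hRs

private theorem claim {P : ι → ℝ × ℝ} (hP : Gen P) {y : ι} {Z : ℝ × ℝ} (hG : Good P y Z) (R : (ι → ℝ × ℝ) → Prop)
    (hstep : ∀ t t' : ℝ, 0 ≤ t → t ≤ t' → t' ≤ 1 → Gen (pth P y Z t) → Gen (pth P y Z t') →
      (L (pth P y Z t) = L (pth P y Z t') ∨ ∃ p m q, Mut (L (pth P y Z t)) (L (pth P y Z t')) p m q) →
      R (pth P y Z t) → R (pth P y Z t')) :
    ∀ n : ℕ, ∀ t t' : ℝ, 0 ≤ t → t ≤ t' → t' ≤ 1 → Gen (pth P y Z t) → Gen (pth P y Z t') →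
      (KK P y Z t t').card = n → R (pth P y Z t) → R (pth P y Z t') := by
  intro n
  induction n using Nat.strong_induction_on with
  | _ n ih =>
    intro t t' h0 htt h1 hg hg' hn hR
    by_cases hbig : 1 < (KK P y Z t t').card
    · obtain ⟨e1, he1, e2, he2, hne⟩ := Finset.one_lt_card.mp hbig
      obtain ⟨j1, k1, hs1, hj1, hk1, hjk1, r1, ha1, hb1, hz1⟩ := mem_KK.mp he1
      obtain ⟨j2, k2, hs2, hj2, hk2, hjk2, r2, ha2, hb2, hz2⟩ := mem_KK.mp he2
      rcases lt_trichotomy r1 r2 with h | h | h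
      · exact split_step hP hG R ih h0 h1 hg hg' hn hR hj1 hk1 hjk1 hj2 hk2 hjk2 ha1 h hb2 hz1 hz2
      · exfalso
        subst h
        apply hne
        rw [hs1, hs2]
        exact hG.one r1 (by linarith) (by linarith) j1 k1 j2 k2 hj1 hk1 hjk1 hj2 hk2 hjk2 hz1 hz2
      · exact split_step hP hG R ih h0 h1 hg hg' hn hR hj2 hk2 hjk2 hj1 hk1 hjk1 ha2 h hb1 hz2 hz1
    · rcases Nat.lt_or_ge 0 (KK P y Z t t').card with hpos | hzero
      · have hone : (KK P y Z t t').card = 1 := by omega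
        obtain ⟨e, he⟩ := Finset.card_eq_one.mp hone
        have hmem : e ∈ KK P y Z t t' := by rw [he]; exact Finset.mem_singleton_self e
        obtain ⟨j, k, hs, hj, hk, hjk, r, hr1, hr2, hz⟩ := mem_KK.mp hmem
        refine hstep t t' h0 htt h1 hg hg' (Or.inr ?_) hR
        refine mut_step hP hG h0 hr1 hr2 h1 hg hg' hj hk hjk hz ?_
        intro r' hr1' hr2' j' k' hj' hk' hjk' hz'
        have hmem' : s(j', k') ∈ KK P y Z t t' := mem_KK.mpr ⟨j', k', rfl, hj', hk', hjk', r', hr1', hr2', hz'⟩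
        rw [he, Finset.mem_singleton] at hmem'
        rw [hmem', hs]
      · have hempty : KK P y Z t t' = ∅ := Finset.card_eq_zero.mp (Nat.le_zero.mp hzero)
        refine hstep t t' h0 htt h1 hg hg' (Or.inl ?_) hR
        refine same_step hP hG h0 htt h1 hg hg' ?_
        intro r hr1 hr2 j k hj hk hjk hz
        have hmem : s(j, k) ∈ KK P y Z t t' := mem_KK.mpr ⟨j, k, rfl, hj, hk, hjk, r, hr1, hr2, hz⟩
        rw [hempty] at hmem
        exact absurd hmem (Finset.notMem_empty _)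

theorem motion {P : ι → ℝ × ℝ} (hP : Gen P) {y : ι} {Z : ℝ × ℝ} (hG : Good P y Z) (R : (ι → ℝ × ℝ) → Prop) (hR : R P)
    (hstep : ∀ t t' : ℝ, 0 ≤ t → t ≤ t' → t' ≤ 1 → Gen (pth P y Z t) → Gen (pth P y Z t') →
      (L (pth P y Z t) = L (pth P y Z t') ∨ ∃ p m q, Mut (L (pth P y Z t)) (L (pth P y Z t')) p m q) →
      R (pth P y Z t) → R (pth P y Z t')) : R (Function.update P y Z) := by
  have hg0 : Gen (pth P y Z 0) := by rw [pth_zero]; exact hP
  have hg1 : Gen (pth P y Z 1) := by rw [pth_one]; exact hG.gen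
  have hR0 : R (pth P y Z 0) := by rw [pth_zero]; exact hR
  have hR1 := claim hP hG R hstep _ 0 1 le_rfl zero_le_one le_rfl hg0 hg1 rfl hR0
  rw [pth_one] at hR1
  exact hR1

end Pool.Agent.Work.MP_02cc39_co.PT
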