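import Pool.Agent.Work.MP_02cc39_co.PT.GoodEx
import Pool.Agent.Work.MP_02cc39_co.PT.DirHalf

set_option autoImplicit false

/-!
# The target of the pulling motion (size M)

PROOF. U := { Z | (∀ j, j ≠ x → j ≠ y → 0 < det P y x j * dt Z (P x) (P j)) ∧ ∃ v : ℝ × ℝ, ∀ j, j ≠ y → ht v Z (P j) < 0 }. U is open: a finite intersection of open conditions, and a union over v of finite intersections of open conditions.
Nonempty: Z := P x + s (P y - P x) with s > 0 large: dt Z (P x) (P j) = s * det P y x j (ring), det P y x j ≠ 0. v := P y - P x ≠ 0: ht v Z (P j) = v . (P j - P x) - s |v|^2 < 0 for all j if s is large (finitely many j).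
`good_exists` gives Z ∈ U with Good P y Z.
First statement: `det_pth` at (x, j): det (pth t) y x j = (1-t) det P y x j + t det (update P y Z) y x j where det (update P y Z) y x j = dt Z (P x) (P j) has the sign of det P y x j. So the sign of the triple (y,x,j) does not depend on t ∈ [0,1].
Second statement: `ptd_of_strict` for update P y Z, the vertex y, E = star y and u = v, and `inner_iff`.
-/

namespace Pool.Agent.Work.MP_02cc39_co.PT

open Classical

variable {ι : Type*} [Fintype ι] {P : ι → ℝ × ℝ}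

theorem pull_target (hP : Gen P) {x y : ι} (hxy : x ≠ y) : ∃ Z, Good P y Z ∧
    (∀ t, 0 ≤ t → t ≤ 1 → ∀ j, j ≠ x → j ≠ y → 0 < det P y x j * det (pth P y Z t) y x j) ∧
    ¬ Inner (L (Function.update P y Z)) y := by
  obtain ⟨v1, hv1⟩ : ∃ v1 : ℝ, v1 = (P y).1 - (P x).1 := ⟨_, rfl⟩
  obtain ⟨v2, hv2⟩ : ∃ v2 : ℝ, v2 = (P y).2 - (P x).2 := ⟨_, rfl⟩
  have hv : 0 < v1 ^ 2 + v2 ^ 2 := by
    by_contra hc
    apply hxy
    apply hP.1
    have h1 := sq_nonneg v1
    have h2 := sq_nonneg v2
    have h3 : v1 ^ 2 = 0 := by linarith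
    have h4 : v2 ^ 2 = 0 := by linarith
    have h5 : v1 = 0 := pow_eq_zero_iff two_ne_zero |>.1 h3
    have h6 : v2 = 0 := pow_eq_zero_iff two_ne_zero |>.1 h4
    exact Prod.ext (by linarith) (by linarith)
  obtain ⟨U, hU⟩ : ∃ U : Set (ℝ × ℝ), U = {Z | ∀ j, j ≠ x → j ≠ y →
      0 < det P y x j * dt Z (P x) (P j)} ∩ {Z | ∃ v : ℝ × ℝ, ∀ j, j ≠ y → ht v Z (P j) < 0} :=
    ⟨_, rfl⟩
  have hUo : IsOpen U := by
    rw [hU]
    refine IsOpen.inter ?_ ?_
    · simp only [Set.setOf_forall]
      refine isOpen_iInter_of_finite fun j => isOpen_iInter_of_finite fun _ =>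
        isOpen_iInter_of_finite fun _ => ?_
      refine isOpen_lt continuous_const ?_
      unfold dt
      fun_prop
    · simp only [Set.setOf_exists, Set.setOf_forall]
      refine isOpen_iUnion fun v => isOpen_iInter_of_finite fun j =>
        isOpen_iInter_of_finite fun _ => ?_
      refine isOpen_lt ?_ continuous_const
      unfold ht
      fun_prop
  have hUn : U.Nonempty := by
    obtain ⟨g, hg⟩ : ∃ g : ι → ℝ, ∀ j, g j =
        v1 * ((P j).1 - (P x).1) + v2 * ((P j).2 - (P x).2) := ⟨_, fun _ => rfl⟩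
    obtain ⟨s, hs⟩ : ∃ s : ℝ, s = 1 + (∑ j, |g j|) / (v1 ^ 2 + v2 ^ 2) := ⟨_, rfl⟩
    have hsum : 0 ≤ ∑ j, |g j| := Finset.sum_nonneg fun j _ => abs_nonneg _
    have hs0 : 0 < s := by
      rw [hs]
      have := div_nonneg hsum hv.le
      linarith
    have hsv : s * (v1 ^ 2 + v2 ^ 2) = (v1 ^ 2 + v2 ^ 2) + ∑ j, |g j| := by
      rw [hs, add_mul, one_mul, div_mul_cancel₀ _ hv.ne']
    refine ⟨((P x).1 + s * v1, (P x).2 + s * v2), ?_⟩
    rw [hU]
    refine ⟨fun j hjx hjy => ?_, (v1, v2), fun j hjy => ?_⟩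
    · have e1 : dt ((P x).1 + s * v1, (P x).2 + s * v2) (P x) (P j) = s * det P y x j := by
        unfold dt det
        rw [hv1, hv2]
        ring
      rw [e1]
      have e2 : det P y x j ≠ 0 := hP.2 y x j hxy.symm hjy.symm hjx.symm
      have e3 : det P y x j * (s * det P y x j) = s * (det P y x j) ^ 2 := by ring
      rw [e3]
      positivity
    · have e1 : ht (v1, v2) ((P x).1 + s * v1, (P x).2 + s * v2) (P j) =
          g j - s * (v1 ^ 2 + v2 ^ 2) := by
        rw [hg]
        unfold ht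
        ring
      have e2 : |g j| ≤ ∑ j, |g j| :=
        Finset.single_le_sum (f := fun j => |g j|) (fun j _ => abs_nonneg _) (Finset.mem_univ j)
      have e3 := le_abs_self (g j)
      rw [e1, hsv]
      linarith
  obtain ⟨Z, hZ, hG⟩ := good_exists hP y hUo hUn
  rw [hU] at hZ
  obtain ⟨hZ1, v, hZ2⟩ := hZ
  refine ⟨Z, hG, fun t h0 h1 j hjx hjy => ?_, fun hI => ?_⟩
  · rw [det_pth P y Z t hxy hjy]
    have e1 : det (Function.update P y Z) y x j = dt Z (P x) (P j) := by
      rw [det_eq, Function.update_self, Function.update_of_ne hxy, Function.update_of_ne hjy]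
    have e2 : det P y x j ≠ 0 := hP.2 y x j hxy.symm hjy.symm hjx.symm
    have e3 : 0 < (det P y x j) ^ 2 := by positivity
    have e4 := hZ1 j hjx hjy
    rw [e1]
    have e5 : det P y x j * ((1 - t) * det P y x j + t * dt Z (P x) (P j)) =
        (1 - t) * (det P y x j) ^ 2 + t * (det P y x j * dt Z (P x) (P j)) := by ring
    rw [e5]
    rcases eq_or_lt_of_le h0 with h | h
    · rw [← h]
      simpa using e3
    · have e6 : 0 ≤ (1 - t) * (det P y x j) ^ 2 := mul_nonneg (sub_nonneg.2 h1) e3.le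
      have e7 := mul_pos h e4
      linarith
  · apply (inner_iff (o := L (Function.update P y Z)) y).1 hI
    refine ptd_of_strict hG.gen v (fun b hb => ?_)
    have hby : b ≠ y := by
      rintro rfl
      exact (Finset.mem_filter.1 hb).2.2 (Sym2.mk_isDiag_iff.2 rfl)
    rw [Function.update_self, Function.update_of_ne hby]
    exact hZ2 b hby

end Pool.Agent.Work.MP_02cc39_co.PT
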