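import Pool.Agent.Work.MP_02cc39_co.PT.WInv
import Pool.Agent.Work.MP_02cc39_co.PT.PullTarget
import Pool.Agent.Work.MP_02cc39_co.PT.MotionInd

set_option autoImplicit false

/-!
# The signed number of pseudotriangulations containing a given edge ab is not changed by pulling points out of the hull (size M)

`esum o a b`: the signed number of the pseudotriangulations which contain the edge ab.
PROOFS.
`esum_eq`: with x0 e := if e = s(a,b) then 0 else 1 and x1 := 1, y := -1: wt x0 E = 0 if s(a,b) ∈ E and 1 otherwise; so wcnt o x1 V - wcnt o x0 V is the number of E in MaxSet o V with s(a,b) ∈ E; ∏ y = (-1)^card.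
`esum_mut`: if not both a, b are in {p,m,q} then the three edges of the triple are different from s(a,b), so Cond x0 y p m q and Cond x1 y p m q hold (-1 + 2 = 1): `hh_mut`.
`epull_one`: the model is Pull.lean. Let x := a if y ≠ a, and x := b if y = a (so x ≠ y and x ∈ {a,b}). `pull_target` hP (x ≠ y) gives Z; `motion` with R Q := (∃ Q', the conclusion) ∨ ((∀ w, Inner (L Q) w ↔ Inner (L P) w) ∧ (∀ j, L Q a b j ↔ L P a b j) ∧ esum (L Q) a b = esum (L P) a b).
 Step from pth t to pth t' with Mut p m q: as in Pull.lean y ∈ {p,m,q} and x ∉ {p,m,q}; so not both a, b are in {p,m,q}: `esum_mut`. The sides of the line ab: L (pth t) a b j for all j do not change with t: if y ∉ {a, b, j}: `det_pth_ne`; if y ∈ {a,b} then the other one is x, and the sign of (y,x,j) is constant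
 (`pull_target`); if j = y: {a,b} contains x, the triple is (x, other, y): if the other one ≠ y, the sign of det y x (other) is constant. Innerness: if y ≠ m or Inner (L (pth t')) m: nothing changes (see Pull.lean); if y = m and not Inner o' m: the first alternative with Q' = pth t'.
`epull`: induction on the number of inner points.
-/

namespace Pool.Agent.Work.MP_02cc39_co.PT

open Classical

variable {ι : Type*} [Fintype ι]

/-- the signed number of the pseudotriangulations which contain the edge ab -/
noncomputable def esum (o : ι → ι → ι → Prop) (a b : ι) : ℤ :=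
  ∑ V ∈ (innO o).powerset, (-1 : ℤ) ^ (innO o \ V).card * (((MaxSet o V).filter fun E => s(a, b) ∈ E).card : ℤ)

private theorem wt_one (E : Finset (Sym2 ι)) : wt (fun _ => (1 : ℤ)) E = 1 := by
  unfold wt
  exact Finset.prod_const_one

private theorem wt_zero (E : Finset (Sym2 ι)) (f : Sym2 ι) :
    wt (fun e => if e = f then (0 : ℤ) else 1) E = if f ∈ E then 0 else 1 := by
  unfold wt
  by_cases h : f ∈ E
  · rw [if_pos h]
    exact Finset.prod_eq_zero h (if_pos rfl)
  · rw [if_neg h]
    apply Finset.prod_eq_one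
    intro e he
    have h1 : e ≠ f := by
      rintro rfl
      exact h he
    exact if_neg h1

theorem esum_eq (o : ι → ι → ι → Prop) (a b : ι) : esum o a b =
    HH o (fun _ => (1 : ℤ)) (fun _ => -1) - HH o (fun e => if e = s(a, b) then (0 : ℤ) else 1) (fun _ => -1) := by
  unfold esum HH
  rw [← Finset.sum_sub_distrib]
  apply Finset.sum_congr rfl
  intro V _
  rw [← mul_sub, Finset.prod_const]
  have h1 : (((MaxSet o V).filter fun E => s(a, b) ∈ E).card : ℤ) =
      wcnt o (fun _ => (1 : ℤ)) V - wcnt o (fun e => if e = s(a, b) then (0 : ℤ) else 1) V := by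
    unfold wcnt
    rw [← Finset.sum_sub_distrib, Finset.card_filter]
    push_cast
    apply Finset.sum_congr rfl
    intro E _
    rw [wt_one, wt_zero]
    by_cases h : s(a, b) ∈ E
    · rw [if_pos h, if_pos h]
      norm_num
    · rw [if_neg h, if_neg h]
      norm_num
  rw [h1]

theorem esum_mut {P Q : ι → ℝ × ℝ} (hP : Gen P) (hQ : Gen Q) {p m q a b : ι} (h : Mut (L P) (L Q) p m q)
    (hab : ¬ ((a = p ∨ a = m ∨ a = q) ∧ (b = p ∨ b = m ∨ b = q))) : esum (L P) a b = esum (L Q) a b := by
  have h1 : Cond (fun _ : Sym2 ι => (1 : ℤ)) (fun _ : ι => (-1 : ℤ)) p m q := by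
    unfold Cond
    norm_num
  have n1 : s(p, q) ≠ s(a, b) := by
    intro h2
    rcases Sym2.eq_iff.1 h2 with ⟨h3, h4⟩ | ⟨h3, h4⟩
    · exact hab ⟨Or.inl h3.symm, Or.inr (Or.inr h4.symm)⟩
    · exact hab ⟨Or.inr (Or.inr h4.symm), Or.inl h3.symm⟩
  have n2 : s(p, m) ≠ s(a, b) := by
    intro h2
    rcases Sym2.eq_iff.1 h2 with ⟨h3, h4⟩ | ⟨h3, h4⟩
    · exact hab ⟨Or.inl h3.symm, Or.inr (Or.inl h4.symm)⟩
    · exact hab ⟨Or.inr (Or.inl h4.symm), Or.inl h3.symm⟩
  have n3 : s(m, q) ≠ s(a, b) := by
    intro h2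
    rcases Sym2.eq_iff.1 h2 with ⟨h3, h4⟩ | ⟨h3, h4⟩
    · exact hab ⟨Or.inr (Or.inl h3.symm), Or.inr (Or.inr h4.symm)⟩
    · exact hab ⟨Or.inr (Or.inr h4.symm), Or.inr (Or.inl h3.symm)⟩
  have h0 : Cond (fun e : Sym2 ι => if e = s(a, b) then (0 : ℤ) else 1) (fun _ : ι => (-1 : ℤ)) p m q := by
    unfold Cond
    simp only [if_neg n1, if_neg n2, if_neg n3]
    norm_num
  rw [esum_eq, esum_eq, hh_mut hP hQ h h1, hh_mut hP hQ h h0]

omit [Fintype ι] in
private theorem det_swap12 (Q : ι → ℝ × ℝ) (a b c : ι) : det Q b a c = - det Q a b c := by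
  unfold det
  ring

omit [Fintype ι] in
/-- the sign of the triple `p, q, m` changes, hence it is not the triple `y, x, j` -/
private theorem no_x {Q1 Q2 : ι → ℝ × ℝ} {x y p m q : ι} (hxy : x ≠ y)
    (hpm : p ≠ m) (hmq : m ≠ q) (hpq : p ≠ q)
    (hs : ∀ j, j ≠ x → j ≠ y → 0 < det Q1 y x j * det Q2 y x j)
    (hup : 0 < det Q1 p q m) (hdn : 0 < det Q2 q p m) (hy : y = p ∨ y = m ∨ y = q)
    (hx : x = p ∨ x = m ∨ x = q) : False := by
  have hdn' : det Q2 p q m < 0 := by
    rw [det_swap12 Q2 p q m] at hdn
    linarith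
  have hneg : det Q1 p q m * det Q2 p q m < 0 := mul_neg_of_pos_of_neg hup hdn'
  rcases hy with rfl | rfl | rfl <;> rcases hx with rfl | rfl | rfl
  · exact hxy rfl
  · have h1 := hs q hmq.symm hpq.symm
    have h2 : det Q1 y x q * det Q2 y x q = det Q1 y q x * det Q2 y q x := by
      unfold det
      ring
    linarith
  · have h1 := hs m hmq hpm.symm
    linarith
  · have h1 := hs q hpq.symm hmq.symm
    have h2 : det Q1 y x q * det Q2 y x q = det Q1 x q y * det Q2 x q y := by
      unfold det
      ring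
    linarith
  · exact hxy rfl
  · have h1 := hs p hpq hpm
    have h2 : det Q1 y x p * det Q2 y x p = det Q1 p x y * det Q2 p x y := by
      unfold det
      ring
    linarith
  · have h1 := hs m hpm.symm hmq
    have h2 : det Q1 y x m * det Q2 y x m = det Q1 x y m * det Q2 x y m := by
      unfold det
      ring
    linarith
  · have h1 := hs p hpm hpq
    have h2 : det Q1 y x p * det Q2 y x p = det Q1 p y x * det Q2 p y x := by
      unfold det
      ring
    linarith
  · exact hxy rfl

omit [Fintype ι] in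
/-- the sides of the line `ab` do not change -/
private theorem side_same {P Q : ι → ℝ × ℝ} {a b x y : ι} (hab : a ≠ b) (hx : x = a ∨ x = b) (hxy : x ≠ y)
    (hne : ∀ i j k, i ≠ y → j ≠ y → k ≠ y → det Q i j k = det P i j k)
    (hs : ∀ j, j ≠ x → j ≠ y → 0 < det P y x j * det Q y x j) (j : ι) : L Q a b j ↔ L P a b j := by
  by_cases hja : j = a
  · subst hja
    have e1 : ∀ R : ι → ℝ × ℝ, det R j b j = 0 := by
      intro R
      unfold det
      ring
    unfold L
    rw [e1, e1]
  by_cases hjb : j = b
  · subst hjb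
    have e1 : ∀ R : ι → ℝ × ℝ, det R a j j = 0 := by
      intro R
      unfold det
      ring
    unfold L
    rw [e1, e1]
  have hfin : 0 < det P a b j * det Q a b j → (L Q a b j ↔ L P a b j) := by
    intro h
    unfold L
    exact (pos_iff_pos_of_mul_pos h).symm
  rcases hx with hx | hx
  · subst hx
    by_cases hyb : y = b
    · subst hyb
      apply hfin
      have h1 := hs j hja hjb
      rw [det_swap12 P x y j, det_swap12 Q x y j] at h1
      linarith
    · by_cases hyj : y = j
      · subst hyj
        apply hfin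
        have h1 := hs b hab.symm (Ne.symm hyb)
        have h2 : det P y x b * det Q y x b = det P x b y * det Q x b y := by
          unfold det
          ring
        linarith
      · unfold L
        rw [hne x b j hxy (Ne.symm hyb) (Ne.symm hyj)]
  · subst hx
    by_cases hya : y = a
    · subst hya
      apply hfin
      exact hs j hjb hja
    · by_cases hyj : y = j
      · subst hyj
        apply hfin
        have h1 := hs a hab (Ne.symm hya)
        have h2 : det P y x a * det Q y x a = det P a x y * det Q a x y := by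
          unfold det
          ring
        linarith
      · unfold L
        rw [hne a x j (Ne.symm hya) hxy (Ne.symm hyj)]

theorem epull_one {P : ι → ℝ × ℝ} (hP : Gen P) {a b : ι} (hab : a ≠ b) {y : ι} (hy : Inner (L P) y) :
    ∃ Q : ι → ℝ × ℝ, Gen Q ∧ (∀ w, Inner (L Q) w ↔ Inner (L P) w ∧ w ≠ y) ∧ (∀ j, L Q a b j ↔ L P a b j) ∧
      esum (L Q) a b = esum (L P) a b := by
  obtain ⟨x, hxab, hxy⟩ : ∃ x, (x = a ∨ x = b) ∧ x ≠ y := by
    by_cases hya : y = a
    · exact ⟨b, Or.inr rfl, by rw [hya]; exact hab.symm⟩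
    · exact ⟨a, Or.inl rfl, Ne.symm hya⟩
  obtain ⟨Z, hG, hsgn, hout⟩ := pull_target hP hxy
  have hR := motion hP hG
    (fun Q : ι → ℝ × ℝ => (∃ Q' : ι → ℝ × ℝ, Gen Q' ∧ (∀ w, Inner (L Q') w ↔ Inner (L P) w ∧ w ≠ y) ∧
      (∀ j, L Q' a b j ↔ L P a b j) ∧ esum (L Q') a b = esum (L P) a b) ∨
      ((∀ w, Inner (L Q) w ↔ Inner (L P) w) ∧ esum (L Q) a b = esum (L P) a b))
    (Or.inr ⟨fun w => Iff.rfl, rfl⟩) ?_
  · rcases hR with h | h
    · exact h
    · exact absurd ((h.1 y).2 hy) hout
  · intro t t' h0 htt h1 hgt hgt' hdis hRt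
    rcases hRt with hRt | ⟨hin, hbb⟩
    · exact Or.inl hRt
    rcases hdis with heq | ⟨p, m, q, h⟩
    · right
      rw [← heq]
      exact ⟨hin, hbb⟩
    have hC := ccL hgt
    have hC' := ccL hgt'
    have hy' : y = p ∨ y = m ∨ y = q := by
      by_contra hcon
      rw [not_or, not_or] at hcon
      have h2 : 0 < det (pth P y Z t) p q m := h.up
      have h3 : 0 < det (pth P y Z t') q p m := h.dn
      rw [det_pth_ne P y Z t (Ne.symm hcon.1) (Ne.symm hcon.2.2) (Ne.symm hcon.2.1)] at h2
      rw [det_pth_ne P y Z t' (Ne.symm hcon.2.2) (Ne.symm hcon.1) (Ne.symm hcon.2.1),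
        det_swap12 P p q m] at h3
      linarith
    have hs : ∀ j, j ≠ x → j ≠ y → 0 < det (pth P y Z t) y x j * det (pth P y Z t') y x j := by
      intro j hjx hjy
      have h2 := hsgn t h0 (htt.trans h1) j hjx hjy
      have h3 := hsgn t' (h0.trans htt) h1 j hjx hjy
      have h4 : 0 < (det P y x j * det (pth P y Z t) y x j) *
          (det P y x j * det (pth P y Z t') y x j) := mul_pos h2 h3
      have h5 : (det P y x j * det (pth P y Z t) y x j) *
          (det P y x j * det (pth P y Z t') y x j) =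
          (det P y x j) ^ 2 * (det (pth P y Z t) y x j * det (pth P y Z t') y x j) := by ring
      rw [h5] at h4
      exact (pos_iff_pos_of_mul_pos h4).1 (by
        have : det P y x j ≠ 0 := by
          intro h6
          rw [h6, zero_mul] at h2
          exact lt_irrefl _ h2
        positivity)
    have hx' : ¬ (x = p ∨ x = m ∨ x = q) := fun hx =>
      no_x hxy h.pm h.mq h.pq hs h.up h.dn hy' hx
    have hyo : Inner (L (pth P y Z t)) y := (hin y).2 hy
    have hes : esum (L (pth P y Z t')) a b = esum (L P) a b := by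
      rw [← hbb]
      refine (esum_mut hgt hgt' h ?_).symm
      rintro ⟨h2, h3⟩
      rcases hxab with h4 | h4
      · exact hx' (by rw [h4]; exact h2)
      · exact hx' (by rw [h4]; exact h3)
    -- the case where m is inner before and after
    have hsame : Inner (L (pth P y Z t)) m → Inner (L (pth P y Z t')) m →
        ∀ w, Inner (L (pth P y Z t')) w ↔ Inner (L P) w := by
      intro hm hm' w
      by_cases hw : w = m
      · rw [hw]
        exact ⟨fun _ => (hin m).1 hm, fun _ => hm'⟩
      · rw [← inner_agree hC hC' h hw]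
        exact hin w
    by_cases hym : y = m
    · by_cases hm' : Inner (L (pth P y Z t')) m
      · exact Or.inr ⟨hsame (hym ▸ hyo) hm', hes⟩
      · left
        refine ⟨pth P y Z t', hgt', ?_, ?_, hes⟩
        · intro w
          by_cases hw : w = m
          · rw [hw]
            exact ⟨fun h2 => absurd h2 hm', fun h2 => absurd hym.symm h2.2⟩
          · rw [← inner_agree hC hC' h hw, hin w, hym]
            exact ⟨fun h2 => ⟨h2, hw⟩, fun h2 => h2.1⟩
        · exact side_same hab hxab hxy (fun i j k hi hj hk => det_pth_ne P y Z t' hi hj hk)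
            (hsgn t' (h0.trans htt) h1)
    · right
      rcases hy' with hyp | hy2 | hyq
      · have h2 := inner_mid_p hC hC' h (hyp ▸ hyo)
        exact ⟨hsame h2.1 h2.2, hes⟩
      · exact absurd hy2 hym
      · have h2 := inner_mid_q hC hC' h (hyq ▸ hyo)
        exact ⟨hsame h2.1 h2.2, hes⟩

theorem epull {P : ι → ℝ × ℝ} (hP : Gen P) {a b : ι} (hab : a ≠ b) :
    ∃ Q : ι → ℝ × ℝ, Gen Q ∧ (∀ w, ¬ Inner (L Q) w) ∧ (∀ j, L Q a b j ↔ L P a b j) ∧ esum (L Q) a b = esum (L P) a b := by
  have hmem : ∀ (P : ι → ℝ × ℝ) (w : ι), w ∈ innO (L P) ↔ Inner (L P) w := by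
    intro P w
    unfold innO
    simp
  have key : ∀ n : ℕ, ∀ P : ι → ℝ × ℝ, Gen P → (innO (L P)).card = n →
      ∃ Q : ι → ℝ × ℝ, Gen Q ∧ (∀ w, ¬ Inner (L Q) w) ∧ (∀ j, L Q a b j ↔ L P a b j) ∧
        esum (L Q) a b = esum (L P) a b := by
    intro n
    induction n with
    | zero =>
      intro P hP hn
      rw [Finset.card_eq_zero] at hn
      refine ⟨P, hP, ?_, fun j => Iff.rfl, rfl⟩
      intro w hw
      have h1 : w ∈ innO (L P) := (hmem P w).2 hw
      rw [hn] at h1
      exact absurd h1 (Finset.notMem_empty w)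
    | succ n ih =>
      intro P hP hn
      have hne : (innO (L P)).Nonempty := by
        rw [← Finset.card_pos]
        omega
      obtain ⟨y, hy⟩ := hne
      obtain ⟨Q, hQ, hQi, hQs, hQe⟩ := epull_one hP hab ((hmem P y).1 hy)
      have hS : innO (L Q) = (innO (L P)).erase y := by
        ext w
        rw [hmem, Finset.mem_erase, hmem, hQi]
        tauto
      have hc : (innO (L Q)).card = n := by
        rw [hS, Finset.card_erase_of_mem hy]
        omega
      obtain ⟨R, hR, hRi, hRs, hRe⟩ := ih Q hQ hc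
      exact ⟨R, hR, hRi, fun j => (hRs j).trans (hQs j), hRe.trans hQe⟩
  exact key _ P hP rfl

end Pool.Agent.Work.MP_02cc39_co.PT
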