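import Pool.Agent.Work.MP_02cc39_co.PT.LinkFam
import Pool.Agent.Work.MP_02cc39_co.PT.PullAll

set_option autoImplicit false

/-!
# Interior points (size M)

PROOFS. P := pos S, in general position (`gen_val`).
`inner_link`: (←) suppose Inner (L P) p and p.1 is not in the convex hull K of S minus p.1 (K = convexHull of a finite set, compact and convex, nonempty because Inner gives another point). By strict separation (`geometric_hahn_banach_point_closed` or
`geometric_hahn_banach_point_compact`, with a continuous linear functional f on ℝ × ℝ, f x = u.1 x.1 + u.2 x.2 with u := (f (1,0), f (0,1))) there is u with u.(s - p) > 0 for all s ∈ S, s ≠ p (replace f by -f if necessary). u ≠ 0. `inner_half` for the direction -u: some s has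
ht (-u) (P p) (P s) > 0: contradiction (s = p has ht = 0, the others have ht < 0).
(→) suppose not Inner (L P) p. If there is no other point then S minus p is empty and p is not in its convex hull (∅). Otherwise there is a ≠ p with L P p a b for all b ≠ p, a. By `inner_iff` Ptd (L P) (star p) p, and `ptd_dir` (star p is loopless) gives u with ht u (P p) (P b) < 0 for all b ≠ p. The set
{x | u.1 (x.1 - p.1) + u.2 (x.2 - p.2) < 0} is convex (a half space, `convex_halfSpace_lt` or directly) and contains S minus p, hence its convex hull (`convexHull_min`), but not p.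
`inner_map`: ext, `inner_link`; elements of inner S are in S.
-/

namespace Pool.Agent.Work.MP_02cc39_co.PT

open Classical

variable {S : Finset (ℝ × ℝ)}

private theorem star_nd {ι : Type*} [Fintype ι] (w : ι) : ∀ e ∈ star w, ¬ e.IsDiag := by
  intro e he
  unfold star at he
  rw [Finset.mem_filter] at he
  exact he.2.2

private theorem mem_star_li {ι : Type*} [Fintype ι] {w b : ι} (h : b ≠ w) : s(w, b) ∈ star w := by
  unfold star
  rw [Finset.mem_filter]
  refine ⟨Finset.mem_univ _, Sym2.mem_mk_left _ _, fun hd => h ?_⟩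
  exact (Sym2.mk_isDiag_iff.1 hd).symm

private theorem lin_eval (f : (ℝ × ℝ) →L[ℝ] ℝ) (x : ℝ × ℝ) :
    f x = f (1, 0) * x.1 + f (0, 1) * x.2 := by
  have h1 : x = x.1 • ((1, 0) : ℝ × ℝ) + x.2 • ((0, 1) : ℝ × ℝ) := by
    ext <;> simp
  conv_lhs => rw [h1]
  rw [map_add, map_smul, map_smul, smul_eq_mul, smul_eq_mul]
  ring

theorem inner_link (hS : GenPos S) (p : {x // x ∈ S}) :
    p.1 ∈ Pool.Agent.Work.MP_02cc39_co.inner S ↔ Inner (L (pos S)) p := by
  have hP : Gen (pos S) := gen_val hS
  unfold Pool.Agent.Work.MP_02cc39_co.inner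
  rw [Finset.mem_filter]
  constructor
  · rintro ⟨-, hK⟩
    by_contra hI
    have h1 : Ptd (L (pos S)) (star p) p := by
      by_contra h
      exact hI ((inner_iff p).2 h)
    obtain ⟨u, -, hu⟩ := ptd_dir hP (star_nd p) h1
    have hsub : convexHull ℝ ((S : Set (ℝ × ℝ)) \ {p.1}) ⊆
        {x : ℝ × ℝ | u.1 * x.1 + u.2 * x.2 < u.1 * p.1.1 + u.2 * p.1.2} := by
      apply convexHull_min
      · rintro x ⟨hx, hxp⟩
        have h2 := hu ⟨x, hx⟩ (mem_star_li fun h => hxp (congrArg Subtype.val h))
        unfold ht pos at h2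
        simp only at h2
        show u.1 * x.1 + u.2 * x.2 < u.1 * p.1.1 + u.2 * p.1.2
        linarith
      · intro x hx y hy a b ha hb hab
        simp only [Set.mem_setOf_eq] at hx hy
        show u.1 * (a • x + b • y).1 + u.2 * (a • x + b • y).2 < u.1 * p.1.1 + u.2 * p.1.2
        simp only [Prod.fst_add, Prod.snd_add, Prod.smul_fst, Prod.smul_snd, smul_eq_mul]
        obtain ⟨c, hc⟩ : ∃ c, c = u.1 * p.1.1 + u.2 * p.1.2 := ⟨_, rfl⟩
        rw [← hc] at hx hy ⊢
        have hb' : b = 1 - a := by linarith
        rcases ha.eq_or_lt with h0 | h0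
        · subst h0
          have : b = 1 := by linarith
          subst this
          linarith
        · have e1 : u.1 * (a * x.1 + b * y.1) + u.2 * (a * x.2 + b * y.2) =
              c - a * (c - (u.1 * x.1 + u.2 * x.2)) - b * (c - (u.1 * y.1 + u.2 * y.2)) := by
            rw [hb']
            ring
          rw [e1]
          have e2 := mul_pos h0 (sub_pos.2 hx)
          have e3 := mul_nonneg hb (sub_pos.2 hy).le
          linarith
    have h2 := hsub hK
    simp only [Set.mem_setOf_eq, lt_irrefl] at h2
  · intro hI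
    refine ⟨p.2, ?_⟩
    by_contra hK
    have hcl : IsClosed (convexHull ℝ ((S : Set (ℝ × ℝ)) \ {p.1})) :=
      (S.finite_toSet.subset Set.diff_subset).isClosed_convexHull (𝕜 := ℝ)
    obtain ⟨f, c, hf1, hf2⟩ := geometric_hahn_banach_point_closed (convex_convexHull ℝ _) hcl hK
    have key : ∀ b : {x // x ∈ S}, b ≠ p → ht (-f (1, 0), -f (0, 1)) (pos S p) (pos S b) < 0 := by
      intro b hb
      have h1 : b.1 ∈ convexHull ℝ ((S : Set (ℝ × ℝ)) \ {p.1}) :=
        subset_convexHull ℝ _ ⟨b.2, fun h => hb (Subtype.ext h)⟩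
      have h2 := hf1.trans (hf2 _ h1)
      rw [lin_eval f, lin_eval f b.1] at h2
      unfold ht pos
      simp only
      linarith
    obtain ⟨a, ha⟩ := hI.1
    have hu : ((-f (1, 0), -f (0, 1)) : ℝ × ℝ) ≠ 0 := by
      intro h0
      have h1 := key a ha
      rw [h0] at h1
      unfold ht at h1
      simp at h1
    obtain ⟨s, hs⟩ := inner_half hP hI hu
    by_cases hsp : s = p
    · rw [hsp] at hs
      unfold ht at hs
      simp at hs
    · exact absurd hs (not_lt.2 (key s hsp).le)

theorem inner_map (hS : GenPos S) : Pool.Agent.Work.MP_02cc39_co.inner S = (innS (pos S)).map (emv S) := by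
  ext q
  rw [Finset.mem_map]
  constructor
  · intro hq
    have hqS : q ∈ S := by
      unfold Pool.Agent.Work.MP_02cc39_co.inner at hq
      exact (Finset.mem_filter.1 hq).1
    refine ⟨⟨q, hqS⟩, ?_, rfl⟩
    unfold innS
    rw [Finset.mem_filter]
    exact ⟨Finset.mem_univ _, (inner_link hS ⟨q, hqS⟩).1 hq⟩
  · rintro ⟨p, hp, rfl⟩
    unfold innS at hp
    rw [Finset.mem_filter] at hp
    exact (inner_link hS p).2 hp.2

end Pool.Agent.Work.MP_02cc39_co.PT
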