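import Pool.Agent.Work.MP_02cc39_co.PT.LinkCnt
import Pool.Agent.Work.MP_02cc39_co.PT.LinkInner
import Pool.Agent.Work.MP_02cc39_co.PT.CatLink

set_option autoImplicit false

/-!
# The alternating sum for finite sets of points (size S-M)

PROOFS. P := pos S, Gen by `gen_val`; card {x // x ∈ S} = S.card; inner S = (innS P).map (emv S) (`inner_map`).
`sum_link`: the subsets of W.map (emv S) are the V.map (emv S) with V ⊆ W (`Finset.powerset_map`, or Finset.sum_bij/sum_nbij), cards agree (`Finset.card_map`), `ncard_ptv`; definition of bb.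
`main_alt`: `sum_link` with W = innS P and `alt_sum`.
-/

namespace Pool.Agent.Work.MP_02cc39_co.PT

open Classical

variable {S : Finset (ℝ × ℝ)}

theorem sum_link (hS : GenPos S) (W : Finset {x // x ∈ S}) :
    ∑ V ∈ (W.map (emv S)).powerset, (-1 : ℤ) ^ ((W.map (emv S)).card - V.card) * ((PTV S V).ncard : ℤ) = bb (L (pos S)) W := by
  unfold bb
  symm
  refine Finset.sum_bij (fun V _ => V.map (emv S)) ?_ ?_ ?_ ?_
  · intro V hV
    rw [Finset.mem_powerset] at hV ⊢
    exact Finset.map_subset_map.2 hV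
  · intro V₁ _ V₂ _ h
    exact Finset.map_injective _ h
  · intro U hU
    rw [Finset.mem_powerset, Finset.subset_map_iff] at hU
    obtain ⟨V, hV, rfl⟩ := hU
    exact ⟨V, Finset.mem_powerset.2 hV, rfl⟩
  · intro V hV
    rw [Finset.card_map, Finset.card_map, ncard_ptv hS V]

theorem main_alt (hS : GenPos S) (hc : 2 ≤ S.card) :
    ∑ V ∈ (Pool.Agent.Work.MP_02cc39_co.inner S).powerset,
      (-1 : ℤ) ^ ((Pool.Agent.Work.MP_02cc39_co.inner S).card - V.card) * ((PTV S V).ncard : ℤ) = (catalan (S.card - 2) : ℤ) := by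
  have h1 : Fintype.card {x // x ∈ S} = S.card := Fintype.card_coe S
  rw [inner_map hS, sum_link hS, alt_sum (gen_val hS) (by rw [h1]; exact hc), h1]

end Pool.Agent.Work.MP_02cc39_co.PT
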