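import Pool.Agent.Work.MP_02cc39_co.PT.ESplit
import Pool.Agent.Work.MP_02cc39_co.PT.EPull
import Pool.Agent.Work.MP_02cc39_co.PT.CatLink
import Pool.Agent.Work.MP_02cc39_co.PT.MainAlt

set_option autoImplicit false

/-!
# The edge law (size M)

PROOFS.
`econv`: Q in convex position. innO = ∅, so esum (L Q) a b is the number of the E with Max (L Q) ∅ E and s(a,b) ∈ E. `conv_label` gives σ : Fin n ≃ ι with L Q (σ i) (σ j) (σ k) for i < j < k; so L Q (σ i) (σ j) (σ k) for different i, j, k holds iff (i,j,k) is in cyclic order (cyc, anti). The hypotheses hcr and hAB of `esplit`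
are statements about the cyclic order of at most four numbers (chords of a convex polygon: for four different points Cross o c d u v iff exactly one of u, v is in the cyclic interval from c to d); A is the closed interval from a to b or its complement. The restrictions are in general position (Gen) and have no inner points: if w were
inner for the restriction to A then, as w is not inner for L Q, there is a first point a0 of all other points seen from w; use `hull_ptd`/`ptd_mono`: (star w for the subtype) is pointed, contradiction to `inner_iff`. `cnt_conv` (apply it to Q restricted: fun i => Q i.1; L of it is definitionally the restriction of L Q): cnt = catalan (card A - 2), card A = l + 2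
with l = number of j with L Q a b j, card B = r + 2, where r = number of j ≠ a, b with not L Q a b j.
`edge_law`: `epull` and `econv`.
-/

namespace Pool.Agent.Work.MP_02cc39_co.PT

open Classical

variable {V : Type} [Fintype V]

/-- seen from a hull point the order of the other points is transitive -/
private theorem tr {o : V → V → V → Prop} (hC : CC o) {v0 : V} (hv : ¬ Inner o v0) {a b c : V}
    (h1 : o v0 a b) (h2 : o v0 b c) : o v0 a c := by
  have n1 := hC.ne _ _ _ h1
  have n2 := hC.ne _ _ _ h2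
  have hx : ∃ a0, a0 ≠ v0 ∧ ∀ x, x ≠ v0 → x ≠ a0 → o v0 a0 x := by
    by_contra hcon
    push Not at hcon
    exact hv ⟨⟨a, n1.1.symm⟩, fun z hz => by
      obtain ⟨x, h1, h2, h3⟩ := hcon z hz
      exact ⟨x, h1, h2, h3⟩⟩
  obtain ⟨a0, ha0, hall⟩ := hx
  by_cases hb0 : b = a0
  · subst hb0
    exact absurd (hall a n1.1.symm n1.2.2) (hC.anti _ _ _ h1)
  by_cases hc0 : c = a0
  · subst hc0
    exact absurd (hall b n1.2.1.symm n2.2.2) (hC.anti _ _ _ h2)
  by_cases ha00 : a = a0
  · subst ha00
    exact hall c n2.2.1.symm hc0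
  exact trans_left hC (hall a n1.1.symm ha00) (hall b n1.2.1.symm hb0) (hall c n2.2.1.symm hc0) h1 h2

/-- three points in order seen from `a` -/
private theorem inc {o : V → V → V → Prop} (hC : CC o) (hn : ∀ w, ¬ Inner o w) {a x y z : V}
    (h1 : o a x y) (h2 : o a y z) : o x y z := by
  have n1 := hC.ne _ _ _ h1
  have n2 := hC.ne _ _ _ h2
  have h3 := tr hC (hn a) h1 h2
  have n3 := hC.ne _ _ _ h3
  by_contra hno
  have h4 := hC.tot x y z n1.2.2 n3.2.2 n2.2.2 hno
  have h5 : o y x z := hC.cyc _ _ _ (hC.cyc _ _ _ h4)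
  have h6 : o y a x := hC.cyc _ _ _ (hC.cyc _ _ _ h1)
  have h7 : o y z a := hC.cyc _ _ _ h2
  have h8 := tr hC (hn y) h6 h5
  exact hC.anti _ _ _ h8 h7

private theorem cross_lr {o : V → V → V → Prop} (hC : CC o) (hn : ∀ w, ¬ Inner o w) {a b : V} (hab : a ≠ b)
    (u v : V) (hu : o a b u) (hva : v ≠ a) (hvb : v ≠ b) (hv : ¬ o a b v) : Cross o a b u v := by
  have h1 : o a v b := hC.tot a b v hab hva.symm hvb.symm hv
  have h2 : o a v u := tr hC (hn a) h1 hu
  have h3 : o v b u := inc hC hn h1 hu
  have h4 : o u a v := hC.cyc _ _ _ (hC.cyc _ _ _ h2)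
  have h5 : o u v b := hC.cyc _ _ _ (hC.cyc _ _ _ h3)
  exact ⟨⟨fun _ => hv, fun _ => hu⟩, ⟨fun h => absurd h (hC.anti _ _ _ h4), fun h => absurd h5 h⟩⟩

/-- the side of a chord of `A` on which a point of `B` lies -/
private theorem side_cd {o : V → V → V → Prop} (hC : CC o) (hn : ∀ w, ¬ Inner o w) {a b : V} (hab : a ≠ b)
    {c d w : V} (hc : c = b ∨ o a b c) (hd : d = b ∨ o a b d) (hcd : c ≠ d) (hcw : c ≠ w) (hdw : d ≠ w)
    (hw : w = a ∨ w = b ∨ ¬ o a b w) : o c d w ↔ o a c d := by
  rcases eq_or_ne w a with hwa | hwa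
  · subst hwa
    exact ⟨fun h => hC.cyc _ _ _ (hC.cyc _ _ _ h), fun h => hC.cyc _ _ _ h⟩
  have hw' : w = b ∨ o a w b := by
    rcases hw with h | h | h
    · exact absurd h hwa
    · exact Or.inl h
    · by_cases hwb : w = b
      · exact Or.inl hwb
      · exact Or.inr (hC.tot a b w hab hwa.symm (Ne.symm hwb) h)
  -- w is before every point of A
  have hbef : ∀ e, (e = b ∨ o a b e) → e ≠ w → o a w e := by
    intro e he hew
    rcases he with he | he
    · subst he
      rcases hw' with h | h
      · exact absurd h.symm hew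
      · exact h
    · rcases hw' with h | h
      · rw [h]
        exact he
      · exact tr hC (hn a) h he
  have h1 := hbef c hc hcw
  have h2 := hbef d hd hdw
  have n1 := hC.ne _ _ _ h1
  have n2 := hC.ne _ _ _ h2
  constructor
  · intro h
    by_contra hno
    have h3 : o a d c := hC.tot a c d n1.2.1 n2.2.1 hcd hno
    have h4 : o w d c := inc hC hn h2 h3
    have h5 : o c w d := hC.cyc _ _ _ (hC.cyc _ _ _ h4)
    exact hC.anti _ _ _ h5 h
  · intro h
    have h4 : o w c d := inc hC hn h1 h
    exact hC.cyc _ _ _ h4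

private theorem cross_ab {o : V → V → V → Prop} (hC : CC o) (hn : ∀ w, ¬ Inner o w) {a b : V} (hab : a ≠ b)
    {c d u v : V} (hc : c = a ∨ c = b ∨ o a b c) (hd : d = a ∨ d = b ∨ o a b d)
    (hu : u = a ∨ u = b ∨ ¬ o a b u) (hv : v = a ∨ v = b ∨ ¬ o a b v)
    (hcd : c ≠ d) (hcu : c ≠ u) (hcv : c ≠ v) (hdu : d ≠ u) (hdv : d ≠ v) : ¬ Cross o c d u v := by
  -- a point of B before the point e of A
  have hbef : ∀ e w, (e = b ∨ o a b e) → (w = a ∨ w = b ∨ ¬ o a b w) → w ≠ a → e ≠ w → o a w e := by
    intro e w he hw hwa hew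
    by_cases hwb : w = b
    · rcases he with he | he
      · exact absurd (he.trans hwb.symm) hew
      · rw [hwb]
        exact he
    · have h1 : ¬ o a b w := by
        rcases hw with h | h | h
        · exact absurd h hwa
        · exact absurd h hwb
        · exact h
      have h2 : o a w b := hC.tot a b w hab (Ne.symm hwa) (Ne.symm hwb) h1
      rcases he with he | he
      · rw [he]
        exact h2
      · exact tr hC (hn a) h2 he
  have key : o c d u ↔ o c d v := by
    by_cases hca : c = a
    · subst hca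
      have hd' : d = b ∨ o c b d := by
        rcases hd with h | h
        · exact absurd h.symm hcd
        · exact h
      have h1 := hbef d u hd' hu hcu.symm hdu
      have h2 := hbef d v hd' hv hcv.symm hdv
      exact ⟨fun h => absurd h (hC.anti _ _ _ h1), fun h => absurd h (hC.anti _ _ _ h2)⟩
    have hc' : c = b ∨ o a b c := by
      rcases hc with h | h
      · exact absurd h hca
      · exact h
    by_cases hda : d = a
    · subst hda
      have h1 := hbef c u hc' hu hdu.symm hcu
      have h2 := hbef c v hc' hv hdv.symm hcv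
      exact ⟨fun _ => hC.cyc _ _ _ (hC.cyc _ _ _ h2), fun _ => hC.cyc _ _ _ (hC.cyc _ _ _ h1)⟩
    have hd' : d = b ∨ o a b d := by
      rcases hd with h | h
      · exact absurd h hda
      · exact h
    rw [side_cd hC hn hab hc' hd' hcd hcu hdu hu, side_cd hC hn hab hc' hd' hcd hcv hdv hv]
  rintro ⟨h1, -⟩
  rw [key] at h1
  exact iff_not_self h1

/-- the restriction to `A` has no inner points -/
private theorem restr_inner {o : V → V → V → Prop} (hC : CC o) (hn : ∀ w, ¬ Inner o w) (A : Finset V)
    (w : {x // x ∈ A}) : ¬ Inner (fun i j k : {x // x ∈ A} => o i.1 j.1 k.1) w := by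
  rintro ⟨⟨a1, ha1⟩, h⟩
  have h1 := hull_ptd hC (hn w.1)
    (E := Finset.univ.filter fun e : Sym2 V => (∀ x ∈ e, x ∈ A) ∧ ¬ e.IsDiag)
    (fun e he => (Finset.mem_filter.1 he).2.2)
  have hmem : ∀ b, s(w.1, b) ∈ (Finset.univ.filter fun e : Sym2 V => (∀ x ∈ e, x ∈ A) ∧ ¬ e.IsDiag) ↔
      b ∈ A ∧ b ≠ w.1 := by
    intro b
    rw [Finset.mem_filter, Sym2.mk_isDiag_iff]
    constructor
    · rintro ⟨-, h2, h3⟩
      exact ⟨h2 b (Sym2.mem_mk_right _ _), Ne.symm h3⟩
    · rintro ⟨h2, h3⟩
      refine ⟨Finset.mem_univ _, ?_, Ne.symm h3⟩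
      intro x hx
      rcases Sym2.mem_iff.1 hx with h4 | h4
      · rw [h4]
        exact w.2
      · rw [h4]
        exact h2
  rcases h1 with h1 | ⟨a0, h2, h3⟩
  · exact h1 a1.1 ((hmem a1.1).2 ⟨a1.2, fun h4 => ha1 (Subtype.ext h4)⟩)
  · have h4 := (hmem a0).1 h2
    obtain ⟨b, hb1, hb2, hb3⟩ := h ⟨a0, h4.1⟩ (fun h5 => h4.2 (congrArg Subtype.val h5))
    exact hb3 (h3 b.1 ((hmem b.1).2 ⟨b.2, fun h5 => hb1 (Subtype.ext h5)⟩)
      (fun h5 => hb2 (Subtype.ext h5)))

private theorem restr_cnt {Q : V → ℝ × ℝ} (hQ : Gen Q) (hn : ∀ w, ¬ Inner (L Q) w) (A : Finset V)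
    (hA : 2 ≤ A.card) : cnt (fun i j k : {x // x ∈ A} => L Q i.1 j.1 k.1) ∅ = catalan (A.card - 2) := by
  have hG : Gen (fun i : {x // x ∈ A} => Q i.1) := by
    constructor
    · intro i j hij
      exact Subtype.ext (hQ.1 hij)
    · intro i j k hij hik hjk
      exact hQ.2 i.1 j.1 k.1 (fun h => hij (Subtype.ext h)) (fun h => hik (Subtype.ext h))
        (fun h => hjk (Subtype.ext h))
  have hI : ∀ w, ¬ Inner (L (fun i : {x // x ∈ A} => Q i.1)) w := restr_inner (ccL hQ) hn A
  have hc : Fintype.card {x // x ∈ A} = A.card := Fintype.card_coe A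
  have h1 := cnt_conv hG hI (by rw [hc]; exact hA)
  rw [hc] at h1
  exact h1

theorem econv {Q : V → ℝ × ℝ} (hQ : Gen Q) (hn : ∀ w, ¬ Inner (L Q) w) {a b : V} (hab : a ≠ b) :
    esum (L Q) a b = (catalan (Finset.univ.filter fun j => L Q a b j).card : ℤ) *
      (catalan (Finset.univ.filter fun j => L Q b a j).card : ℤ) := by
  have hC := ccL hQ
  have hinn : innO (L Q) = ∅ := by
    unfold innO
    rw [Finset.filter_eq_empty_iff]
    intro w _
    exact hn w
  have haa : ∀ x y, ¬ L Q x y x := fun x y h => (hC.ne _ _ _ h).2.1 rfl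
  have hbb : ∀ x y, ¬ L Q x y y := fun x y h => (hC.ne _ _ _ h).2.2 rfl
  obtain ⟨A, hAdef⟩ : ∃ A : Finset V, A = insert a (insert b (Finset.univ.filter fun j => L Q a b j)) := ⟨_, rfl⟩
  obtain ⟨B, hBdef⟩ : ∃ B : Finset V, B = insert a (insert b (Finset.univ.filter fun j => L Q b a j)) := ⟨_, rfl⟩
  have hA : ∀ j, j ∈ A ↔ j = a ∨ j = b ∨ L Q a b j := by
    intro j
    rw [hAdef, Finset.mem_insert, Finset.mem_insert, Finset.mem_filter]
    simp
  have hB : ∀ j, j ∈ B ↔ j = a ∨ j = b ∨ ¬ L Q a b j := by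
    intro j
    rw [hBdef, Finset.mem_insert, Finset.mem_insert, Finset.mem_filter]
    by_cases hja : j = a
    · simp [hja]
    by_cases hjb : j = b
    · simp [hjb]
    rw [o_swap hC hab (Ne.symm hja) (Ne.symm hjb)]
    simp
  have hAc : A.card = (Finset.univ.filter fun j => L Q a b j).card + 2 := by
    rw [hAdef, Finset.card_insert_of_notMem, Finset.card_insert_of_notMem]
    · rw [Finset.mem_filter]
      exact fun h => hbb a b h.2
    · rw [Finset.mem_insert, Finset.mem_filter]
      rintro (h | h)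
      · exact hab h
      · exact haa a b h.2
  have hBc : B.card = (Finset.univ.filter fun j => L Q b a j).card + 2 := by
    rw [hBdef, Finset.card_insert_of_notMem, Finset.card_insert_of_notMem]
    · rw [Finset.mem_filter]
      exact fun h => haa b a h.2
    · rw [Finset.mem_insert, Finset.mem_filter]
      rintro (h | h)
      · exact hab h
      · exact hbb b a h.2
  have h1 := esplit hC hab A B hA hB (fun u v hu hva hvb hv => cross_lr hC hn hab u v hu hva hvb hv)
    (fun c d u v hc hd hu hv hcd _ hcu hcv hdu hdv =>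
      cross_ab hC hn hab ((hA c).1 hc) ((hA d).1 hd) ((hB u).1 hu) ((hB v).1 hv) hcd hcu hcv hdu hdv)
  rw [restr_cnt hQ hn A (by omega), restr_cnt hQ hn B (by omega), hAc, hBc, Nat.add_sub_cancel,
    Nat.add_sub_cancel] at h1
  unfold esum
  rw [hinn, Finset.powerset_empty, Finset.sum_singleton, Finset.empty_sdiff, Finset.card_empty, pow_zero, one_mul]
  unfold MaxSet
  rw [Finset.filter_filter, h1]
  push_cast
  rfl

theorem edge_law {P : V → ℝ × ℝ} (hP : Gen P) {a b : V} (hab : a ≠ b) :
    esum (L P) a b = (catalan (Finset.univ.filter fun j => L P a b j).card : ℤ) *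
      (catalan (Finset.univ.filter fun j => L P b a j).card : ℤ) := by
  obtain ⟨Q, hQ, hn, hs, he⟩ := epull hP hab
  have h1 : (Finset.univ.filter fun j => L Q a b j) = Finset.univ.filter fun j => L P a b j :=
    Finset.filter_congr (fun j _ => hs j)
  have h2 : (Finset.univ.filter fun j => L Q b a j) = Finset.univ.filter fun j => L P b a j := by
    apply Finset.filter_congr
    intro j _
    have hC := ccL hQ
    have hC' := ccL hP
    by_cases hja : j = a
    · subst hja
      exact ⟨fun h => absurd rfl (hC.ne _ _ _ h).2.2, fun h => absurd rfl (hC'.ne _ _ _ h).2.2⟩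
    by_cases hjb : j = b
    · subst hjb
      exact ⟨fun h => absurd rfl (hC.ne _ _ _ h).2.1, fun h => absurd rfl (hC'.ne _ _ _ h).2.1⟩
    rw [o_swap hC hab (Ne.symm hja) (Ne.symm hjb), o_swap hC' hab (Ne.symm hja) (Ne.symm hjb), hs j]
  rw [← he, econv hQ hn hab, h1, h2]

end Pool.Agent.Work.MP_02cc39_co.PT
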