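import Pool.Agent.Work.MP_02cc39_co.PT.Base

set_option autoImplicit false

/-!
# Maximal noncrossing graphs containing a diagonal which separates (abstract, size M-L)

Let A = {a, b} ∪ {j | o a b j} and B = {a, b} ∪ {the others}; every segment from the left side to the right side crosses ab. The restriction of o to the subtype of A is `fun i j k => o i.1 j.1 k.1`.
PROOF. Let E be Max o ∅ with s(a,b) ∈ E. An edge s(u,v) ∈ E with u left and v right would cross ab (hcr), so every edge of E has both ends in A or both in B (both in A and in B only for s(a,b)). E_A := the graph on {x // x ∈ A} of the edges of E with both ends in A (preimage under Sym2.map val), E_B similarly.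
E ↦ (E_A, E_B) is a bijection onto the pairs (E1, E2) of maximal noncrossing graphs of the restrictions; the inverse is E1, E2 ↦ the union of the images under Sym2.map val. s(a,b) is in every maximal graph of the restriction to A: nothing of A crosses ab, since all other points of A are on one side (Cross o a b u v with u, v both
left of ab is false); the same for B. (⊆) E_A is noncrossing and loopless; maximal: if insert f E_A is noncrossing then insert f E is noncrossing: an edge of E in B does not cross f (both ends of f in A: the edge s(u,v) with u, v ∈ B, f = s(c,d), c, d ∈ A: suppose they cross, with four different ends. Use the following: CLAIM: Cross o c d u v with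
c, d ∈ A, u, v ∈ B and four different points is impossible. If s(a,b) is one of them: all other points of the other edge are on one side. Otherwise c or d is strictly left, u or v is strictly right ... the claim is part of the hypotheses: hAB.) (⊇) the union of E1 and E2 is noncrossing (hAB) and loopless; maximal: an edge s(u,v) not in it: if it goes
from the strict left to the strict right it crosses ab; otherwise both ends are in A or both in B: use maximality of E1 or E2.
-/

namespace Pool.Agent.Work.MP_02cc39_co.PT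

open Classical

variable {ι : Type*} [Fintype ι]

private theorem max_iff {κ : Type*} [Fintype κ] {o : κ → κ → κ → Prop} (hC : CC o) {E : Finset (Sym2 κ)} :
    Max o ∅ E ↔ (∀ e ∈ E, ¬ e.IsDiag) ∧ ∀ u v : κ, u ≠ v → (s(u, v) ∈ E ↔
      ∀ c d, s(c, d) ∈ E → u ≠ c → u ≠ d → v ≠ c → v ≠ d → ¬ Cross o u v c d) := by
  constructor
  · intro h
    refine ⟨h.1.nd, fun u v huv => ⟨fun h1 c d h2 n1 n2 n3 n4 => h.1.nc u v c d h1 h2 n1 n2 n3 n4, fun h1 => ?_⟩⟩
    exact max_mem hC h huv h1 (fun h2 => absurd h2 (Finset.notMem_empty _))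
      (fun h2 => absurd h2 (Finset.notMem_empty _))
  · rintro ⟨h1, h2⟩
    have hnc : NonCr o E := by
      intro u v c d h3 h4 n1 n2 n3 n4
      have huv : u ≠ v := by
        intro h5
        exact h1 _ h3 (by rw [Sym2.mk_isDiag_iff]; exact h5)
      exact (h2 u v huv).1 h3 c d h4 n1 n2 n3 n4
    refine ⟨⟨h1, hnc, fun v hv => absurd hv (Finset.notMem_empty _)⟩, ?_⟩
    intro e he hE hF
    induction e using Sym2.ind with
    | _ u v =>
      rw [Sym2.mk_isDiag_iff] at he
      apply hE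
      rw [h2 u v he]
      intro c d h3 n1 n2 n3 n4
      exact hF.nc u v c d (Finset.mem_insert_self _ _) (Finset.mem_insert_of_mem h3) n1 n2 n3 n4

private theorem cc_res {o : ι → ι → ι → Prop} (hC : CC o) (A : Finset ι) :
    CC (fun i j k : {x // x ∈ A} => o i.1 j.1 k.1) := by
  refine ⟨?_, ?_, ?_, ?_, ?_⟩
  · intro i j k h
    exact hC.cyc _ _ _ h
  · intro i j k h
    obtain ⟨h1, h2, h3⟩ := hC.ne _ _ _ h
    exact ⟨fun h4 => h1 (congrArg Subtype.val h4), fun h4 => h2 (congrArg Subtype.val h4),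
      fun h4 => h3 (congrArg Subtype.val h4)⟩
  · intro i j k h
    exact hC.anti _ _ _ h
  · intro i j k h1 h2 h3 h
    exact hC.tot _ _ _ (fun h4 => h1 (Subtype.ext h4)) (fun h4 => h2 (Subtype.ext h4))
      (fun h4 => h3 (Subtype.ext h4)) h
  · intro x a b c d hn h1 h2
    have h3 : [x.1, a.1, b.1, c.1, d.1].Nodup := by
      have h4 := hn.map (f := fun z : {x // x ∈ A} => z.1) Subtype.val_injective
      simpa only [List.map_cons, List.map_nil] using h4
    exact hC.gp _ _ _ _ _ h3 h1 h2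

private noncomputable def res (A : Finset ι) (E : Finset (Sym2 ι)) : Finset (Sym2 {x // x ∈ A}) :=
  Finset.univ.filter fun e => e.map Subtype.val ∈ E

private theorem mem_res {A : Finset ι} {E : Finset (Sym2 ι)} {u v : {x // x ∈ A}} :
    s(u, v) ∈ res A E ↔ s(u.1, v.1) ∈ E := by
  unfold res
  rw [Finset.mem_filter, Sym2.map_mk]
  exact ⟨fun h => h.2, fun h => ⟨Finset.mem_univ _, h⟩⟩

private noncomputable def uni {A B : Finset ι} (E1 : Finset (Sym2 {x // x ∈ A})) (E2 : Finset (Sym2 {x // x ∈ B})) :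
    Finset (Sym2 ι) :=
  E1.image (Sym2.map Subtype.val) ∪ E2.image (Sym2.map Subtype.val)

private theorem mem_im {A : Finset ι} {E1 : Finset (Sym2 {x // x ∈ A})} {u v : ι} :
    s(u, v) ∈ E1.image (Sym2.map Subtype.val) ↔
      ∃ (hu : u ∈ A) (hv : v ∈ A), s((⟨u, hu⟩ : {x // x ∈ A}), ⟨v, hv⟩) ∈ E1 := by
  rw [Finset.mem_image]
  constructor
  · rintro ⟨e, he, h⟩
    induction e using Sym2.ind with
    | _ p q =>
      rw [Sym2.map_mk] at h
      rcases Sym2.eq_iff.1 h with ⟨h1, h2⟩ | ⟨h1, h2⟩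
      · subst h1
        subst h2
        exact ⟨p.2, q.2, he⟩
      · subst h1
        subst h2
        refine ⟨q.2, p.2, ?_⟩
        rw [Sym2.eq_swap]
        exact he
  · rintro ⟨hu, hv, h⟩
    exact ⟨_, h, by rw [Sym2.map_mk]⟩

/-- the hypotheses in symmetric form -/
private structure Sep (o : ι → ι → ι → Prop) (a b : ι) (A B : Finset ι) : Prop where
  cov : ∀ x, x ∈ A ∨ x ∈ B
  int : ∀ x, x ∈ A → x ∈ B → x = a ∨ x = b
  aA : a ∈ A
  bA : b ∈ A
  aB : a ∈ B
  bB : b ∈ B
  nA : ∀ u v, u ∈ A → v ∈ A → a ≠ u → a ≠ v → b ≠ u → b ≠ v → ¬ Cross o a b u v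
  nB : ∀ u v, u ∈ B → v ∈ B → a ≠ u → a ≠ v → b ≠ u → b ≠ v → ¬ Cross o a b u v
  cr : ∀ u v, u ∉ B → v ∉ A → Cross o a b u v
  nAB : ∀ c d u v, c ∈ A → d ∈ A → u ∈ B → v ∈ B → c ≠ d → u ≠ v → c ≠ u → c ≠ v → d ≠ u → d ≠ v → ¬ Cross o c d u v

private theorem sep_symm {o : ι → ι → ι → Prop} (hC : CC o) {a b : ι} {A B : Finset ι} (h : Sep o a b A B) :
    Sep o a b B A := by
  refine ⟨fun x => (h.cov x).symm, fun x h1 h2 => h.int x h2 h1, h.aB, h.bB, h.aA, h.bA, h.nB, h.nA, ?_, ?_⟩
  · intro u v hu hv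
    have huv : u ≠ v := by
      rintro rfl
      rcases h.cov u with h1 | h1
      · exact hu h1
      · exact hv h1
    have h1 := h.cr v u hv hu
    rw [cross_swap' hC huv.symm (fun h2 => hv (h2 ▸ h.aB)) (fun h2 => hu (h2 ▸ h.aA)) (fun h2 => hv (h2 ▸ h.bB))
      (fun h2 => hu (h2 ▸ h.bA))] at h1
    exact h1
  · intro c d u v hc hd hu hv h1 h2 n1 n2 n3 n4
    rw [cross_comm]
    exact h.nAB u v c d hu hv hc hd h2 h1 n1.symm n3.symm n2.symm n4.symm

private theorem edge_side {o : ι → ι → ι → Prop} (hC : CC o) {a b : ι} {A B : Finset ι} (h : Sep o a b A B)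
    {E : Finset (Sym2 ι)} (hnc : NonCr o E) (hab : s(a, b) ∈ E) {u v : ι} (huv : s(u, v) ∈ E) :
    (u ∈ A ∧ v ∈ A) ∨ (u ∈ B ∧ v ∈ B) := by
  by_contra hcon
  have key : ∀ p q, s(p, q) ∈ E → p ∉ B → q ∉ A → False := by
    intro p q hpq hp hq
    exact hnc a b p q hab hpq (fun h2 => hp (h2 ▸ h.aB)) (fun h2 => hq (h2 ▸ h.aA)) (fun h2 => hp (h2 ▸ h.bB))
      (fun h2 => hq (h2 ▸ h.bA)) (h.cr p q hp hq)
  have hu := h.cov u
  have hv := h.cov v
  have k1 := key u v huv
  have k2 := key v u (by rw [Sym2.eq_swap]; exact huv)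
  tauto

private theorem max_res {o : ι → ι → ι → Prop} (hC : CC o) {a b : ι} {A B : Finset ι} (h : Sep o a b A B)
    {E : Finset (Sym2 ι)} (hE : Max o ∅ E) (hab : s(a, b) ∈ E) :
    Max (fun i j k : {x // x ∈ A} => o i.1 j.1 k.1) ∅ (res A E) := by
  rw [max_iff (cc_res hC A)]
  have hE' := (max_iff hC).1 hE
  constructor
  · intro e he
    induction e using Sym2.ind with
    | _ p q =>
      rw [mem_res] at he
      have h1 := hE'.1 _ he
      rw [Sym2.mk_isDiag_iff] at h1 ⊢
      exact fun h2 => h1 (congrArg Subtype.val h2)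
  · intro u v huv
    have huv' : u.1 ≠ v.1 := fun h1 => huv (Subtype.ext h1)
    rw [mem_res, hE'.2 _ _ huv']
    constructor
    · intro h1 c d hcd n1 n2 n3 n4
      exact h1 c.1 d.1 (mem_res.1 hcd) (fun h2 => n1 (Subtype.ext h2)) (fun h2 => n2 (Subtype.ext h2))
        (fun h2 => n3 (Subtype.ext h2)) (fun h2 => n4 (Subtype.ext h2))
    · intro h1 c d hcd n1 n2 n3 n4
      rcases edge_side hC h hE.1.nc hab hcd with ⟨hc, hd⟩ | ⟨hc, hd⟩
      · exact h1 ⟨c, hc⟩ ⟨d, hd⟩ (mem_res.2 hcd) (fun h2 => n1 (congrArg Subtype.val h2))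
          (fun h2 => n2 (congrArg Subtype.val h2)) (fun h2 => n3 (congrArg Subtype.val h2))
          (fun h2 => n4 (congrArg Subtype.val h2))
      · have hne : c ≠ d := by
          intro h2
          exact hE'.1 _ hcd (by rw [Sym2.mk_isDiag_iff]; exact h2)
        exact h.nAB _ _ _ _ u.2 v.2 hc hd huv' hne n1 n2 n3 n4

private theorem ab_mem {o : ι → ι → ι → Prop} (hC : CC o) {a b : ι} (hab : a ≠ b) {A B : Finset ι}
    (h : Sep o a b A B) {E1 : Finset (Sym2 {x // x ∈ A})}
    (hE : Max (fun i j k : {x // x ∈ A} => o i.1 j.1 k.1) ∅ E1) :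
    s((⟨a, h.aA⟩ : {x // x ∈ A}), ⟨b, h.bA⟩) ∈ E1 := by
  rw [((max_iff (cc_res hC A)).1 hE).2 _ _ (fun h1 => hab (congrArg Subtype.val h1))]
  intro c d _ n1 n2 n3 n4
  exact h.nA c.1 d.1 c.2 d.2 (fun h2 => n1 (Subtype.ext h2)) (fun h2 => n2 (Subtype.ext h2))
    (fun h2 => n3 (Subtype.ext h2)) (fun h2 => n4 (Subtype.ext h2))

private theorem max_uni {o : ι → ι → ι → Prop} (hC : CC o) {a b : ι} (hab : a ≠ b) {A B : Finset ι}
    (h : Sep o a b A B) {E1 : Finset (Sym2 {x // x ∈ A})} {E2 : Finset (Sym2 {x // x ∈ B})}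
    (hE1 : Max (fun i j k : {x // x ∈ A} => o i.1 j.1 k.1) ∅ E1)
    (hE2 : Max (fun i j k : {x // x ∈ B} => o i.1 j.1 k.1) ∅ E2) : Max o ∅ (uni E1 E2) := by
  have hab' : s(a, b) ∈ uni E1 E2 :=
    Finset.mem_union_left _ (mem_im.2 ⟨h.aA, h.bA, ab_mem hC hab h hE1⟩)
  have hE1' := (max_iff (cc_res hC A)).1 hE1
  have hE2' := (max_iff (cc_res hC B)).1 hE2
  rw [max_iff hC]
  have hd : ∀ e ∈ uni E1 E2, ¬ e.IsDiag := by
    intro e he
    induction e using Sym2.ind with
    | _ p q =>
      rw [Sym2.mk_isDiag_iff]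
      intro hpq
      rcases Finset.mem_union.1 he with h1 | h1
      · obtain ⟨hp, hq, h2⟩ := mem_im.1 h1
        exact hE1'.1 _ h2 (by rw [Sym2.mk_isDiag_iff]; exact Subtype.ext hpq)
      · obtain ⟨hp, hq, h2⟩ := mem_im.1 h1
        exact hE2'.1 _ h2 (by rw [Sym2.mk_isDiag_iff]; exact Subtype.ext hpq)
  refine ⟨hd, ?_⟩
  intro u v huv
  constructor
  · intro h1 c d h2 n1 n2 n3 n4
    have hcd : c ≠ d := by
      intro h3
      exact hd _ h2 (by rw [Sym2.mk_isDiag_iff]; exact h3)
    rcases Finset.mem_union.1 h1 with h1 | h1 <;> rcases Finset.mem_union.1 h2 with h2 | h2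
    · obtain ⟨hu, hv, h3⟩ := mem_im.1 h1
      obtain ⟨hc, hd, h4⟩ := mem_im.1 h2
      exact (hE1'.2 ⟨u, hu⟩ ⟨v, hv⟩ (fun h5 => huv (congrArg Subtype.val h5))).1 h3 ⟨c, hc⟩ ⟨d, hd⟩ h4
        (fun h5 => n1 (congrArg Subtype.val h5)) (fun h5 => n2 (congrArg Subtype.val h5))
        (fun h5 => n3 (congrArg Subtype.val h5)) (fun h5 => n4 (congrArg Subtype.val h5))
    · obtain ⟨hu, hv, -⟩ := mem_im.1 h1
      obtain ⟨hc, hd, -⟩ := mem_im.1 h2
      exact h.nAB u v c d hu hv hc hd huv hcd n1 n2 n3 n4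
    · obtain ⟨hu, hv, -⟩ := mem_im.1 h1
      obtain ⟨hc, hd, -⟩ := mem_im.1 h2
      rw [cross_comm]
      exact h.nAB c d u v hc hd hu hv hcd huv n1.symm n3.symm n2.symm n4.symm
    · obtain ⟨hu, hv, h3⟩ := mem_im.1 h1
      obtain ⟨hc, hd, h4⟩ := mem_im.1 h2
      exact (hE2'.2 ⟨u, hu⟩ ⟨v, hv⟩ (fun h5 => huv (congrArg Subtype.val h5))).1 h3 ⟨c, hc⟩ ⟨d, hd⟩ h4
        (fun h5 => n1 (congrArg Subtype.val h5)) (fun h5 => n2 (congrArg Subtype.val h5))
        (fun h5 => n3 (congrArg Subtype.val h5)) (fun h5 => n4 (congrArg Subtype.val h5))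
  · intro h1
    have key : ∀ p q, p ∉ B → q ∉ A → Cross o p q a b := by
      intro p q hp hq
      rw [cross_comm]
      exact h.cr p q hp hq
    by_cases hA : u ∈ A ∧ v ∈ A
    · apply Finset.mem_union_left
      refine mem_im.2 ⟨hA.1, hA.2, ?_⟩
      rw [hE1'.2 ⟨u, hA.1⟩ ⟨v, hA.2⟩ (fun h5 => huv (congrArg Subtype.val h5))]
      intro c d h3 n1 n2 n3 n4
      exact h1 c.1 d.1 (Finset.mem_union_left _ (mem_im.2 ⟨c.2, d.2, h3⟩)) (fun h5 => n1 (Subtype.ext h5))
        (fun h5 => n2 (Subtype.ext h5)) (fun h5 => n3 (Subtype.ext h5)) (fun h5 => n4 (Subtype.ext h5))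
    by_cases hB : u ∈ B ∧ v ∈ B
    · apply Finset.mem_union_right
      refine mem_im.2 ⟨hB.1, hB.2, ?_⟩
      rw [hE2'.2 ⟨u, hB.1⟩ ⟨v, hB.2⟩ (fun h5 => huv (congrArg Subtype.val h5))]
      intro c d h3 n1 n2 n3 n4
      exact h1 c.1 d.1 (Finset.mem_union_right _ (mem_im.2 ⟨c.2, d.2, h3⟩)) (fun h5 => n1 (Subtype.ext h5))
        (fun h5 => n2 (Subtype.ext h5)) (fun h5 => n3 (Subtype.ext h5)) (fun h5 => n4 (Subtype.ext h5))
    exfalso
    have hu := h.cov u
    have hv := h.cov v
    have hcase : (u ∉ B ∧ v ∉ A) ∨ (v ∉ B ∧ u ∉ A) := by tauto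
    rcases hcase with ⟨h2, h3⟩ | ⟨h2, h3⟩
    · exact h1 a b hab' (fun h5 => h2 (h5 ▸ h.aB)) (fun h5 => h2 (h5 ▸ h.bB)) (fun h5 => h3 (h5 ▸ h.aA))
        (fun h5 => h3 (h5 ▸ h.bA)) (key u v h2 h3)
    · have n1 : u ≠ a := fun h5 => h3 (h5 ▸ h.aA)
      have n2 : u ≠ b := fun h5 => h3 (h5 ▸ h.bA)
      have n3 : v ≠ a := fun h5 => h2 (h5 ▸ h.aB)
      have n4 : v ≠ b := fun h5 => h2 (h5 ▸ h.bB)
      have h6 := key v u h2 h3
      rw [cross_swap hC huv.symm n3 n4 n1 n2] at h6
      exact h1 a b hab' n1 n2 n3 n4 h6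

private theorem esplit_sep {o : ι → ι → ι → Prop} (hC : CC o) {a b : ι} (hab : a ≠ b) {A B : Finset ι}
    (h : Sep o a b A B) :
    ((Finset.univ : Finset (Finset (Sym2 ι))).filter fun E => Max o ∅ E ∧ s(a, b) ∈ E).card =
      cnt (fun i j k : {x // x ∈ A} => o i.1 j.1 k.1) ∅ * cnt (fun i j k : {x // x ∈ B} => o i.1 j.1 k.1) ∅ := by
  unfold cnt
  rw [← Finset.card_product]
  have hs := sep_symm hC h
  have hm : ∀ {κ : Type _} [Fintype κ] (p : κ → κ → κ → Prop) (E : Finset (Sym2 κ)),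
      E ∈ MaxSet p ∅ ↔ Max p ∅ E := by
    intro κ _ p E
    unfold MaxSet
    rw [Finset.mem_filter]
    exact ⟨fun h1 => h1.2, fun h1 => ⟨Finset.mem_univ _, h1⟩⟩
  refine Finset.card_nbij' (fun E => (res A E, res B E)) (fun p => uni p.1 p.2) ?_ ?_ ?_ ?_
  · intro E hE
    rw [Finset.mem_coe, Finset.mem_filter] at hE
    rw [Finset.mem_coe, Finset.mem_product, hm, hm]
    exact ⟨max_res hC h hE.2.1 hE.2.2, max_res hC hs hE.2.1 hE.2.2⟩
  · intro p hp
    rw [Finset.mem_coe, Finset.mem_product, hm, hm] at hp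
    rw [Finset.mem_coe, Finset.mem_filter]
    exact ⟨Finset.mem_univ _, max_uni hC hab h hp.1 hp.2,
      Finset.mem_union_left _ (mem_im.2 ⟨h.aA, h.bA, ab_mem hC hab h hp.1⟩)⟩
  · intro E hE
    rw [Finset.mem_coe, Finset.mem_filter] at hE
    ext e
    induction e using Sym2.ind with
    | _ p q =>
      constructor
      · intro h1
        rcases Finset.mem_union.1 h1 with h1 | h1
        · obtain ⟨hp, hq, h2⟩ := mem_im.1 h1
          exact mem_res.1 h2
        · obtain ⟨hp, hq, h2⟩ := mem_im.1 h1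
          exact mem_res.1 h2
      · intro h1
        rcases edge_side hC h hE.2.1.1.nc hE.2.2 h1 with ⟨hp, hq⟩ | ⟨hp, hq⟩
        · exact Finset.mem_union_left _ (mem_im.2 ⟨hp, hq, mem_res.2 h1⟩)
        · exact Finset.mem_union_right _ (mem_im.2 ⟨hp, hq, mem_res.2 h1⟩)
  · intro p hp
    rw [Finset.mem_coe, Finset.mem_product, hm, hm] at hp
    have hE1' := (max_iff (cc_res hC A)).1 hp.1
    have hE2' := (max_iff (cc_res hC B)).1 hp.2
    have h3 : res A (uni p.1 p.2) = p.1 := by
      ext e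
      induction e using Sym2.ind with
      | _ u v =>
        rw [mem_res]
        constructor
        · intro h1
          rcases Finset.mem_union.1 h1 with h1 | h1
          · obtain ⟨hu, hv, h2⟩ := mem_im.1 h1
            exact h2
          · obtain ⟨hu, hv, h2⟩ := mem_im.1 h1
            have hne : u.1 ≠ v.1 := by
              intro h4
              exact hE2'.1 _ h2 (by rw [Sym2.mk_isDiag_iff]; exact Subtype.ext h4)
            have h5 := ab_mem hC hab h hp.1
            rcases h.int _ u.2 hu with h6 | h6 <;> rcases h.int _ v.2 hv with h7 | h7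
            · exact absurd (h6.trans h7.symm) hne
            · have e1 : u = ⟨a, h.aA⟩ := Subtype.ext h6
              have e2 : v = ⟨b, h.bA⟩ := Subtype.ext h7
              rw [e1, e2]
              exact h5
            · have e1 : u = ⟨b, h.bA⟩ := Subtype.ext h6
              have e2 : v = ⟨a, h.aA⟩ := Subtype.ext h7
              rw [e1, e2, Sym2.eq_swap]
              exact h5
            · exact absurd (h6.trans h7.symm) hne
        · intro h1
          exact Finset.mem_union_left _ (mem_im.2 ⟨u.2, v.2, h1⟩)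
    have h4 : res B (uni p.1 p.2) = p.2 := by
      ext e
      induction e using Sym2.ind with
      | _ u v =>
        rw [mem_res]
        constructor
        · intro h1
          rcases Finset.mem_union.1 h1 with h1 | h1
          · obtain ⟨hu, hv, h2⟩ := mem_im.1 h1
            have hne : u.1 ≠ v.1 := by
              intro h4
              exact hE1'.1 _ h2 (by rw [Sym2.mk_isDiag_iff]; exact Subtype.ext h4)
            have h5 := ab_mem hC hab hs hp.2
            rcases h.int _ hu u.2 with h6 | h6 <;> rcases h.int _ hv v.2 with h7 | h7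
            · exact absurd (h6.trans h7.symm) hne
            · have e1 : u = ⟨a, h.aB⟩ := Subtype.ext h6
              have e2 : v = ⟨b, h.bB⟩ := Subtype.ext h7
              rw [e1, e2]
              exact h5
            · have e1 : u = ⟨b, h.bB⟩ := Subtype.ext h6
              have e2 : v = ⟨a, h.aB⟩ := Subtype.ext h7
              rw [e1, e2, Sym2.eq_swap]
              exact h5
            · exact absurd (h6.trans h7.symm) hne
          · obtain ⟨hu, hv, h2⟩ := mem_im.1 h1
            exact h2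
        · intro h1
          exact Finset.mem_union_right _ (mem_im.2 ⟨u.2, v.2, h1⟩)
    exact Prod.ext h3 h4

theorem esplit {o : ι → ι → ι → Prop} (hC : CC o) {a b : ι} (hab : a ≠ b) (A B : Finset ι)
    (hA : ∀ j, j ∈ A ↔ j = a ∨ j = b ∨ o a b j) (hB : ∀ j, j ∈ B ↔ j = a ∨ j = b ∨ ¬ o a b j)
    (hcr : ∀ u v, o a b u → v ≠ a → v ≠ b → ¬ o a b v → Cross o a b u v)
    (hAB : ∀ c d u v, c ∈ A → d ∈ A → u ∈ B → v ∈ B → c ≠ d → u ≠ v → c ≠ u → c ≠ v → d ≠ u → d ≠ v → ¬ Cross o c d u v) :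
    ((Finset.univ : Finset (Finset (Sym2 ι))).filter fun E => Max o ∅ E ∧ s(a, b) ∈ E).card =
      cnt (fun i j k : {x // x ∈ A} => o i.1 j.1 k.1) ∅ * cnt (fun i j k : {x // x ∈ B} => o i.1 j.1 k.1) ∅ := by
  apply esplit_sep hC hab
  refine ⟨?_, ?_, (hA a).2 (Or.inl rfl), (hA b).2 (Or.inr (Or.inl rfl)), (hB a).2 (Or.inl rfl),
    (hB b).2 (Or.inr (Or.inl rfl)), ?_, ?_, ?_, hAB⟩
  · intro x
    rw [hA, hB]
    tauto
  · intro x h1 h2
    rw [hA] at h1
    rw [hB] at h2
    tauto
  · intro u v hu hv n1 n2 n3 n4 hX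
    rw [hA] at hu hv
    have h1 : o a b u := by
      rcases hu with h | h | h
      · exact absurd h.symm n1
      · exact absurd h.symm n3
      · exact h
    have h2 : o a b v := by
      rcases hv with h | h | h
      · exact absurd h.symm n2
      · exact absurd h.symm n4
      · exact h
    exact (hX.1.1 h1) h2
  · intro u v hu hv n1 n2 n3 n4 hX
    rw [hB] at hu hv
    have h1 : ¬ o a b u := by
      rcases hu with h | h | h
      · exact absurd h.symm n1
      · exact absurd h.symm n3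
      · exact h
    have h2 : ¬ o a b v := by
      rcases hv with h | h | h
      · exact absurd h.symm n2
      · exact absurd h.symm n4
      · exact h
    exact h1 (hX.1.2 h2)
  · intro u v hu hv
    rw [hB] at hu
    rw [hA] at hv
    push Not at hu hv
    exact hcr u v hu.2.2 hv.1 hv.2.1 hv.2.2

end Pool.Agent.Work.MP_02cc39_co.PT
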