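import Pool.Agent.Work.MP_02cc39_co.PT.MutPt

set_option autoImplicit false

/-!
# Edges forced by maximality (size S-M)

`Mut o o' p m q`. Write `x` for a point different from `p, m, q`.

PROOFS.
`add_ok_pm`: let s(c,d) ∈ G with c, d different from p, m; c ≠ d by `nd`. If c = q: `no_cross1`; if d = q: `cross_swap'` and `no_cross1`.
Otherwise `cross_pm_pq` gives Cross o p q c d, impossible because s(p,q), s(c,d) ∈ G and `nc`.
`add_ok_mq`: the same with `no_cross2` and `cross_mq_pq`.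
`nbr_above`: Cross o p q m x is impossible (`nc`), so o p q x by `cross_pqmx`.
`t1_edges`: s(p,m) ∈ E by `max_mem`: crossings by `add_ok_pm`; at p: `pt_add_p` and `ptd_mono`; m ∉ V.
s(m,q) ∈ E in the same way with `add_ok_mq`, `pt_add_q`.
The primed version (for o') is the unprimed one for `mut_symm`, `t1_symm`.
-/

namespace Pool.Agent.Work.MP_02cc39_co.PT

open Classical

variable {ι : Type*} {o o' : ι → ι → ι → Prop} {p m q : ι}

private theorem ne_of_nd {V : Finset ι} {G : Finset (Sym2 ι)} (hG : Fam o V G) {c d : ι} (h : s(c, d) ∈ G) :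
    c ≠ d := by
  intro hcd
  exact hG.nd _ h (Sym2.mk_isDiag_iff.2 hcd)

theorem add_ok_pm (hC : CC o) (h : Mut o o' p m q) {V : Finset ι} {G : Finset (Sym2 ι)} (hG : Fam o V G)
    (hpq : s(p, q) ∈ G) : ∀ c d, s(c, d) ∈ G → p ≠ c → p ≠ d → m ≠ c → m ≠ d → ¬ Cross o p m c d := by
  intro c d hcd hpc hpd hmc hmd hx
  have hne := ne_of_nd hG hcd
  by_cases hcq : c = q
  · rw [hcq] at hx hne
    exact no_cross1 hC h hpd.symm hmd.symm hne.symm hx
  by_cases hdq : d = q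
  · rw [hdq] at hx hne hpd hmd
    rw [cross_swap' hC hne hpc hpd hmc hmd] at hx
    exact no_cross1 hC h hpc.symm hmc.symm hne hx
  exact hG.nc p q c d hpq hcd hpc hpd (Ne.symm hcq) (Ne.symm hdq)
    (cross_pm_pq hC h hne hpc.symm hmc.symm hcq hpd.symm hmd.symm hdq hx)

theorem add_ok_mq (hC : CC o) (h : Mut o o' p m q) {V : Finset ι} {G : Finset (Sym2 ι)} (hG : Fam o V G)
    (hpq : s(p, q) ∈ G) : ∀ c d, s(c, d) ∈ G → m ≠ c → m ≠ d → q ≠ c → q ≠ d → ¬ Cross o m q c d := by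
  intro c d hcd hmc hmd hqc hqd hx
  have hne := ne_of_nd hG hcd
  by_cases hcp : c = p
  · rw [hcp] at hx hne
    exact no_cross2 hC h hne.symm hmd.symm hqd.symm hx
  by_cases hdp : d = p
  · rw [hdp] at hx hne hmd hqd
    rw [cross_swap' hC hne hmc hmd hqc hqd] at hx
    exact no_cross2 hC h hne hmc.symm hqc.symm hx
  exact hG.nc p q c d hpq hcd (Ne.symm hcp) (Ne.symm hdp) hqc hqd
    (cross_mq_pq hC h hne hcp hmc.symm hqc.symm hdp hmd.symm hqd.symm hx)

theorem nbr_above (hC : CC o) (h : Mut o o' p m q) {V : Finset ι} {G : Finset (Sym2 ι)} (hG : Fam o V G)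
    (hpq : s(p, q) ∈ G) {x : ι} (hxp : x ≠ p) (hxq : x ≠ q) (hx : s(m, x) ∈ G) : o p q x := by
  by_contra hn
  exact hG.nc p q m x hpq hx h.pm hxp.symm h.mq.symm hxq.symm
    ((cross_pqmx hC h hxp (ne_of_nd hG hx).symm hxq).2 hn)

/-- the version for `o'` -/
theorem nbr_below (hC : CC o) (hC' : CC o') (h : Mut o o' p m q) {V : Finset ι} {G : Finset (Sym2 ι)}
    (hG : Fam o' V G) (hpq : s(p, q) ∈ G) {x : ι} (hxp : x ≠ p) (hxq : x ≠ q) (hx : s(m, x) ∈ G) : ¬ o p q x := by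
  intro hn
  exact hG.nc p q m x hpq hx h.pm hxp.symm h.mq.symm hxq.symm
    ((cross_pqmx' hC hC' h hxp (ne_of_nd hG hx).symm hxq).2 hn)

theorem t1_edges (hC : CC o) (hC' : CC o') (h : Mut o o' p m q) {V : Finset ι} (hm : m ∉ V)
    {E : Finset (Sym2 ι)} (hE : Max o V E) (hpq : s(p, q) ∈ E) : s(p, m) ∈ E ∧ s(m, q) ∈ E := by
  constructor
  · refine max_mem hC hE h.pm (add_ok_pm hC h hE.1 hpq) (fun hp => ?_) (fun hm' => absurd hm' hm)
    have h1 := pt_add_p hC hC' h (Or.inl hpq) (hE.1.pt p hp)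
    rwa [Finset.insert_eq_of_mem hpq] at h1
  · refine max_mem hC hE h.mq (add_ok_mq hC h hE.1 hpq) (fun hm' => absurd hm' hm) (fun hq => ?_)
    have h1 := pt_add_q hC hC' h (Or.inl hpq) (hE.1.pt q hq)
    rwa [Finset.insert_eq_of_mem hpq] at h1

/-- the version for `o'` -/
theorem t1_edges' (hC : CC o) (hC' : CC o') (h : Mut o o' p m q) {V : Finset ι} (hm : m ∉ V)
    {E : Finset (Sym2 ι)} (hE : Max o' V E) (hpq : s(p, q) ∈ E) : s(p, m) ∈ E ∧ s(m, q) ∈ E := by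
  have hqp : s(q, p) ∈ E := by rwa [Sym2.eq_swap]
  obtain ⟨h1, h2⟩ := t1_edges hC' hC (mut_symm hC hC' h) hm hE hqp
  rw [Sym2.eq_swap] at h1 h2
  exact ⟨h2, h1⟩

end Pool.Agent.Work.MP_02cc39_co.PT
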