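import Pool.Agent.Work.MP_02cc39_co.PT.Count
import Pool.Agent.Work.MP_02cc39_co.PT.InnerMut

set_option autoImplicit false

/-!
# A point leaves the convex hull through the edge pq, part A (size M)

`Mut o o' p m q` and every other point x satisfies o p q x. In `o` the point m is inside, near the hull edge pq; in `o'` it is outside.

PROOFS.
`hull_edge` (any o with CC, p ≠ q, all other points to the left of pq): `max_mem` for s(p,q): Cross o p q c d is impossible (o p q c and
o p q d are true for c, d different from p, q). At p: Ptd: q is the first neighbour of p in insert s(p,q) E. At q: `ptd_of_half_last` with s = p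
(o q b p by cyc from o p q b); note s(q,q) is not in the edge set.
`exit_edges'` : in o' the hull edges at m are pm and mq: o' p m x ↔ o p m x ↔ o p q x, o' p m q from `dn` by cyc; o' m q x ↔ o m q x ↔ o p q x,
o' m q p from `dn` by cyc. `hull_edge` for o'.
`exit_ptd'`: `pt_below'`: all neighbours x of m satisfy o p q x.
`exit_max'`: Fam o' V E ↔ Fam o' (insert m V) E by `exit_ptd'`, so Max o' V E ↔ Max o' (insert m V) E.
`exit_t2'`: (→) if s(p,q) ∉ E and m had no neighbour x (x ≠ p, q), then s(p,q) can be added in o' (`max_mem`): Cross o' p q c d: if c or d is m the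
other one is p or q, excluded; otherwise o' p q c, o' p q d are both true; at p: Ptd o' E p (if p ∈ V), `pt_agree`, `pt_add_p` (s(p,m) ∈ E by
`exit_edges'`), `pt_agree`, `ptd_mono`; at q similarly. So there is x and T2 holds. (←) clear.
`exit_t1` : in o all maximal graphs contain s(p,q) (`hull_edge`: o p q m is `up`), and m is not pointed, so by `pt_below` it has a neighbour
x with o p q x.
-/

namespace Pool.Agent.Work.MP_02cc39_co.PT

open Classical

variable {ι : Type*} {o o' : ι → ι → ι → Prop} {p m q : ι}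

theorem hull_edge (hC : CC o) (hpq : p ≠ q) (hh : ∀ x, x ≠ p → x ≠ q → o p q x) {V : Finset ι}
    {E : Finset (Sym2 ι)} (hE : Max o V E) : s(p, q) ∈ E := by
  have hnd : ∀ b, s(b, b) ∉ insert s(p, q) E := by
    intro b hb
    rw [Finset.mem_insert] at hb
    rcases hb with hb | hb
    · rw [Sym2.eq_iff] at hb
      rcases hb with ⟨h1, h2⟩ | ⟨h1, h2⟩
      · exact hpq (h1.symm.trans h2)
      · exact hpq (h2.symm.trans h1)
    · exact hE.1.nd _ hb (by simp)
  apply max_mem hC hE hpq
  · intro c d _ h1 h2 h3 h4 h5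
    exact (h5.1.1 (hh c h1.symm h3.symm)) (hh d h2.symm h4.symm)
  · intro _
    right
    refine ⟨q, Finset.mem_insert_self _ _, ?_⟩
    intro b hb hbq
    apply hh b _ hbq
    intro h1
    rw [h1] at hb
    exact hnd p hb
  · intro _
    apply ptd_of_half_last hC (s := p)
    intro b hb hbp
    apply hC.cyc
    apply hh b hbp
    intro h1
    rw [h1] at hb
    exact hnd q hb

theorem exit_edges' (hC : CC o) (hC' : CC o') (h : Mut o o' p m q) (hh : ∀ x, x ≠ p → x ≠ m → x ≠ q → o p q x)
    {V : Finset ι} {E : Finset (Sym2 ι)} (hE : Max o' V E) : s(p, m) ∈ E ∧ s(m, q) ∈ E := by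
  constructor
  · apply hull_edge hC' h.pm _ hE
    intro x hxp hxm
    by_cases hxq : x = q
    · rw [hxq]
      exact hC'.cyc _ _ _ h.dn
    · rw [← h.same p m x (by
        rintro ⟨_, _, h1 | h1 | h1⟩
        · exact hxp h1
        · exact hxm h1
        · exact hxq h1)]
      exact (h.mid1 x hxp hxm hxq).2 (hh x hxp hxm hxq)
  · apply hull_edge hC' h.mq _ hE
    intro x hxm hxq
    by_cases hxp : x = p
    · rw [hxp]
      exact hC'.cyc _ _ _ (hC'.cyc _ _ _ h.dn)
    · rw [← h.same m q x (by
        rintro ⟨_, _, h1 | h1 | h1⟩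
        · exact hxp h1
        · exact hxm h1
        · exact hxq h1)]
      exact (h.mid2 x hxp hxm hxq).2 (hh x hxp hxm hxq)

theorem exit_ptd' (hC : CC o) (hC' : CC o') (h : Mut o o' p m q) (hh : ∀ x, x ≠ p → x ≠ m → x ≠ q → o p q x)
    {E : Finset (Sym2 ι)} (hE : ∀ e ∈ E, ¬ e.IsDiag) : Ptd o' E m := by
  have hmm : ∀ x, s(m, x) ∈ E → x ≠ m := by
    intro x hx hxm
    rw [hxm] at hx
    exact hE _ hx (by simp)
  apply pt_below' hC hC' h
  · intro h1
    exact hmm m h1 rfl
  · intro x hxp hxq hx
    exact hh x hxp (hmm x hx) hxq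

theorem exit_max' (hC : CC o) (hC' : CC o') (h : Mut o o' p m q) (hh : ∀ x, x ≠ p → x ≠ m → x ≠ q → o p q x)
    {V : Finset ι} {E : Finset (Sym2 ι)} : Max o' (insert m V) E ↔ Max o' V E := by
  have key : ∀ F : Finset (Sym2 ι), Fam o' (insert m V) F ↔ Fam o' V F := by
    intro F
    constructor
    · intro hF
      exact ⟨hF.nd, hF.nc, fun v hv => hF.pt v (Finset.mem_insert_of_mem hv)⟩
    · intro hF
      refine ⟨hF.nd, hF.nc, ?_⟩
      intro v hv
      rw [Finset.mem_insert] at hv
      rcases hv with hv | hv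
      · rw [hv]
        exact exit_ptd' hC hC' h hh hF.nd
      · exact hF.pt v hv
  unfold Max
  simp only [key]

theorem exit_t2' (hC : CC o) (hC' : CC o') (h : Mut o o' p m q) (hh : ∀ x, x ≠ p → x ≠ m → x ≠ q → o p q x)
    {V : Finset ι} {E : Finset (Sym2 ι)} (hE : Max o' V E) : T2 p m q E ↔ s(p, q) ∉ E := by
  constructor
  · intro hT
    exact hT.2.2.1
  · intro hpq
    obtain ⟨e1, e2⟩ := exit_edges' hC hC' h hh hE
    refine ⟨e1, e2, hpq, ?_⟩
    by_contra hno
    have hno' : ∀ x, x ≠ p → x ≠ q → s(m, x) ∉ E := by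
      intro x h1 h2 h3
      exact hno ⟨x, h1, h2, h3⟩
    have hs : ∀ x, x ≠ p → x ≠ m → x ≠ q → o' p q x := by
      intro x hxp hxm hxq
      rw [← h.same p q x (by
        rintro ⟨_, _, h1 | h1 | h1⟩
        · exact hxp h1
        · exact hxm h1
        · exact hxq h1)]
      exact hh x hxp hxm hxq
    apply hpq
    apply max_mem hC' hE h.pq
    · intro c d hcd h1 h2 h3 h4 h5
      by_cases hc : c = m
      · rw [hc] at hcd
        exact hno' d h2.symm h4.symm hcd
      by_cases hd : d = m
      · rw [hd, Sym2.eq_swap] at hcd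
        exact hno' c h1.symm h3.symm hcd
      exact (h5.1.1 (hs c h1.symm hc h3.symm)) (hs d h2.symm hd h4.symm)
    · intro hp
      have h1 := (pt_agree hC hC' h h.pm).2 (hE.1.pt p hp)
      have h2 := pt_add_p hC hC' h (Or.inr e1) h1
      have h3 := ptd_mono hC (Finset.subset_insert s(p, m) (insert s(p, q) E)) h2
      exact (pt_agree hC hC' h h.pm).1 h3
    · intro hq
      have h1 := (pt_agree hC hC' h h.mq.symm).2 (hE.1.pt q hq)
      have h2 := pt_add_q hC hC' h (Or.inr e2) h1
      have h3 := ptd_mono hC (Finset.subset_insert s(m, q) (insert s(p, q) E)) h2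
      exact (pt_agree hC hC' h h.mq.symm).1 h3

theorem exit_t1 (hC : CC o) (hC' : CC o') (h : Mut o o' p m q) (hh : ∀ x, x ≠ p → x ≠ m → x ≠ q → o p q x)
    {V : Finset ι} {E : Finset (Sym2 ι)} (hE : Max o V E) (hX : ¬ Ptd o E m) : T1 p m q E := by
  refine ⟨hull_edge hC h.pq (fun x hxp hxq => ?_) hE, ?_⟩
  · by_cases hxm : x = m
    · rw [hxm]
      exact h.up
    · exact hh x hxp hxm hxq
  · by_contra hno
    apply hX
    apply pt_below hC h
    · intro h1
      exact hE.1.nd _ h1 (by simp)
    · intro x hxp hxq hx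
      exact absurd ⟨x, hxp, hxq, hx⟩ hno

end Pool.Agent.Work.MP_02cc39_co.PT
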