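import Pool.Agent.Work.MP_02cc39_co.PT.Count

set_option autoImplicit false

/-!
# The mutation law (size S)

PROOFS.
`mutation_law`: cnt o V - cnt o' V = t1n o V - t1n o' V (`rest_notMem`: split by T1). cnt o (insert m V) = t1n + t2n + resn
(`cnt_split`) = 2 t1n o V + t1n o' V + resn, cnt o' (insert m V) = 2 t1n o' V + t1n o V + resn (`t1n_insert`, `t2n_insert` and the primed
versions, `rest_mem`). Subtract.
`bb_mut` (pure): bb o W is the sum over V ⊆ W.erase m of ± (cnt o V - cnt o (insert m V)): write W = insert m (W.erase m) and use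
`Finset.sum_powerset_insert`; the sign of V is (-1)^(|W| - |V|), the sign of insert m V is the opposite one (|V| < |W|).
Each term is the same for o and o'.
-/

namespace Pool.Agent.Work.MP_02cc39_co.PT

open Classical

variable {ι : Type*} [Fintype ι] {o o' : ι → ι → ι → Prop} {p m q : ι}

private theorem cnt_split1 (o : ι → ι → ι → Prop) (p m q : ι) (V : Finset ι) :
    cnt o V = t1n o p m q V +
      (Finset.univ.filter fun E : Finset (Sym2 ι) => Max o V E ∧ ¬ T1 p m q E).card := by
  have h1 := Finset.card_filter_add_card_filter_not (s := MaxSet o V) (fun E => T1 p m q E)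
  rw [MaxSet, Finset.filter_filter, Finset.filter_filter] at h1
  exact h1.symm

theorem mutation_law (hC : CC o) (hC' : CC o') (h : Mut o o' p m q) {V : Finset ι} (hm : m ∉ V)
    (hX : ∀ E, Max o V E → ¬ Ptd o E m) (hX' : ∀ E, Max o' V E → ¬ Ptd o' E m) :
    (cnt o V : ℤ) - cnt o' V = (cnt o (insert m V) : ℤ) - cnt o' (insert m V) := by
  have h1 := cnt_split1 o p m q V
  have h2 := cnt_split1 o' p m q V
  rw [← rest_notMem hC hC' h hm hX hX'] at h2
  have h3 := cnt_split o p m q (insert m V)
  have h4 := cnt_split o' p m q (insert m V)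
  rw [t1n_insert hC hC' h hm, t2n_insert hC hC' h hm] at h3
  rw [t1n_insert' hC hC' h hm, t2n_insert' hC hC' h hm,
    ← rest_mem hC hC' h (Finset.mem_insert_self m V)] at h4
  omega

theorem bb_eq_sum (o : ι → ι → ι → Prop) {W : Finset ι} {m : ι} (hm : m ∈ W) :
    bb o W = ∑ V ∈ (W.erase m).powerset, (-1 : ℤ) ^ ((W.erase m).card - V.card) *
      ((cnt o (insert m V) : ℤ) - cnt o V) := by
  have hmW : m ∉ W.erase m := Finset.notMem_erase m W
  have hc : W.card = (W.erase m).card + 1 := (Finset.card_erase_add_one hm).symm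
  rw [bb]
  conv_lhs => rw [show W.powerset = (insert m (W.erase m)).powerset by
    rw [Finset.insert_erase hm]]
  rw [Finset.sum_powerset_insert hmW, ← Finset.sum_add_distrib]
  refine Finset.sum_congr rfl fun V hV => ?_
  have hVs : V ⊆ W.erase m := Finset.mem_powerset.1 hV
  have hmV : m ∉ V := fun h => hmW (hVs h)
  have hle : V.card ≤ (W.erase m).card := Finset.card_le_card hVs
  rw [Finset.card_insert_of_notMem hmV,
    show W.card - V.card = ((W.erase m).card - V.card) + 1 by omega,
    show W.card - (V.card + 1) = (W.erase m).card - V.card by omega, pow_succ]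
  ring

theorem bb_mut (hC : CC o) (hC' : CC o') (h : Mut o o' p m q) {W : Finset ι} (hm : m ∈ W)
    (hX : ∀ V : Finset ι, m ∉ V → ∀ E, Max o V E → ¬ Ptd o E m)
    (hX' : ∀ V : Finset ι, m ∉ V → ∀ E, Max o' V E → ¬ Ptd o' E m) : bb o W = bb o' W := by
  rw [bb_eq_sum o hm, bb_eq_sum o' hm]
  refine Finset.sum_congr rfl fun V hV => ?_
  have hmV : m ∉ V := fun h1 => Finset.notMem_erase m W (Finset.mem_powerset.1 hV h1)
  have h2 := mutation_law hC hC' h hmV (hX V hmV) (hX' V hmV)
  congr 1
  omega

end Pool.Agent.Work.MP_02cc39_co.PT
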