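import Pool.Agent.Work.MP_02cc39_co.PT.ExitA
import Pool.Agent.Work.MP_02cc39_co.PT.Law

set_option autoImplicit false

/-!
# The exit law (size S-M)
-/

namespace Pool.Agent.Work.MP_02cc39_co.PT

open Classical

variable {ι : Type*} [Fintype ι] {o o' : ι → ι → ι → Prop} {p m q : ι}

theorem exit_law (hC : CC o) (hC' : CC o') (h : Mut o o' p m q) (hh : ∀ x, x ≠ p → x ≠ m → x ≠ q → o p q x)
    {V : Finset ι} (hm : m ∉ V) (hX : ∀ E, Max o V E → ¬ Ptd o E m) :
    cnt o (insert m V) = cnt o V + cnt o' V := by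
  have hh0 : ∀ x, x ≠ p → x ≠ q → o p q x := by
    intro x hxp hxq
    by_cases hxm : x = m
    · rw [hxm]; exact h.up
    · exact hh x hxp hxm hxq
  have hT1all : ∀ E, Max o V E → T1 p m q E := fun E hE => exit_t1 hC hC' h hh hE (hX E hE)
  have hedge : ∀ (U : Finset ι) (E : Finset (Sym2 ι)), Max o U E → s(p, q) ∈ E :=
    fun U E hE => hull_edge hC h.pq hh0 hE
  -- (1)
  have h1 : cnt o V = t1n o p m q V := by
    rw [cnt, t1n, MaxSet]
    congr 1
    ext E
    simp only [Finset.mem_filter, Finset.mem_univ, true_and]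
    exact ⟨fun hE => ⟨hE, hT1all E hE⟩, fun hE => hE.1⟩
  -- (2)
  have h2 : t2n o p m q (insert m V) = 0 := by
    rw [t2n, Finset.card_eq_zero, Finset.filter_eq_empty_iff]
    intro E _ hE
    exact hE.2.2.2.1 (hedge _ E hE.1)
  -- (3)
  have h3 := t1n_insert hC hC' h hm
  have h4 := cnt_split o p m q (insert m V)
  have h5 : resn o p m q (insert m V) = resn o' p m q (insert m V) :=
    rest_mem hC hC' h (Finset.mem_insert_self m V)
  -- (6)
  have hT1no : ∀ E, Max o' (insert m V) E → ¬ T1 p m q E := by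
    intro E hE hT
    obtain ⟨hpq, x, hxp, hxq, hmx⟩ := hT
    have hxm : x ≠ m := by
      intro e
      rw [e] at hmx
      exact hE.1.nd _ hmx rfl
    have hpqx : o p q x := hh x hxp hxm hxq
    have hx' : o' p q x := by
      rw [← h.same p q x ?_]
      · exact hpqx
      · rintro ⟨_, _, hx⟩
        rcases hx with hx | hx | hx
        · exact hxp hx
        · exact hxm hx
        · exact hxq hx
    have hnc := hE.1.nc p q m x hpq hmx h.pm hxp.symm (Ne.symm h.mq) hxq.symm
    apply hnc
    have a1 : ¬ o' p q m := by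
      intro hp
      exact hC'.anti _ _ _ h.dn (hC'.cyc _ _ _ hp)
    refine ⟨⟨fun t => absurd t a1, fun t => absurd hx' t⟩, ?_⟩
    -- o' m x p ↔ ¬ o' m x q
    have b1 : o' m x p ↔ o' p m x := ⟨fun t => hC'.cyc _ _ _ (hC'.cyc _ _ _ t), fun t => hC'.cyc _ _ _ t⟩
    have b2 : o' p m x := by
      rw [← h.same p m x ?_]
      · exact (h.mid1 x hxp hxm hxq).2 hpqx
      · rintro ⟨_, _, hx⟩
        rcases hx with hx | hx | hx
        · exact hxp hx
        · exact hxm hx
        · exact hxq hx
    have b3 : o' m q x := by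
      rw [← h.same m q x ?_]
      · exact (h.mid2 x hxp hxm hxq).2 hpqx
      · rintro ⟨_, _, hx⟩
        rcases hx with hx | hx | hx
        · exact hxp hx
        · exact hxm hx
        · exact hxq hx
    have b4 : ¬ o' m x q := fun t => hC'.anti _ _ _ b3 t
    exact ⟨fun _ => b4, fun _ => b1.2 b2⟩
  have h6 : t1n o' p m q (insert m V) = 0 := by
    rw [t1n, Finset.card_eq_zero, Finset.filter_eq_empty_iff]
    intro E _ hE
    exact hT1no E hE.1 hE.2
  have h7 := cnt_split o' p m q (insert m V)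
  have h8 : cnt o' (insert m V) = cnt o' V := by
    rw [cnt, cnt, MaxSet, MaxSet]
    congr 1
    ext E
    simp only [Finset.mem_filter, Finset.mem_univ, true_and]
    exact exit_max' hC hC' h hh
  have h9 := t2n_insert' hC hC' h hm
  omega

theorem exit_bb (hC : CC o) (hC' : CC o') (h : Mut o o' p m q) (hh : ∀ x, x ≠ p → x ≠ m → x ≠ q → o p q x)
    {W0 : Finset ι} (hm : m ∉ W0) (hX : ∀ V : Finset ι, m ∉ V → ∀ E, Max o V E → ¬ Ptd o E m) :
    bb o (insert m W0) = bb o' W0 := by
  rw [bb_eq_sum o (Finset.mem_insert_self m W0), Finset.erase_insert hm, bb]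
  refine Finset.sum_congr rfl ?_
  intro V hV
  rw [Finset.mem_powerset] at hV
  have hmV : m ∉ V := fun t => hm (hV t)
  rw [exit_law hC hC' h hh hmV (hX V hmV)]
  push_cast
  ring

end Pool.Agent.Work.MP_02cc39_co.PT
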