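import Pool.Agent.Work.MP_02cc39_co.PT.Bridge

set_option autoImplicit false

/-!
# A segment which enters a triangle and leaves it (size M)

The triangle y w a is counterclockwise; z = a or z is strictly inside; c = z, or cd crosses wz; d is to the left of w→z (the side of y), d ≠ y
and d is not strictly inside the triangle. Then cd leaves the triangle through wy or ya.

PROOF. Put f1(X) := dt (P y) (P w) X, f3(X) := dt (P a) (P y) X, f2(X) := dt (P w) (P a) X, g(X) := dt (P w) (P z) X (affine in X).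
Start point X0: if c = z (then z ≠ a by hypothesis, z is strictly inside) X0 := P z, i.e. X0 = (1-m) P c + m P d with m = 0. Otherwise by `cross_point`
X0 = (1-l) P w + l P z = (1-m) P c + m P d with l, m in (0,1). In both cases f1(X0) > 0 (f1(w) = 0, f1(z) > 0), f3(X0) > 0 (f3(w) > 0,
f3(z) ≥ 0, l < 1; or f3(z) > 0 if X0 = P z), g(X0) = 0, 0 ≤ m < 1.
CONE: if g(X) > 0 and f1(X) > 0 then f2(X) > 0. For z = a: g = f2. Otherwise the identity (ring)
 dt w a X * dt w z y = dt w a z * dt w X y + dt w a y * dt w z X, where dt w z y > 0 (= f1(z) by cyc), dt w a z > 0, dt w X y = f1(X) > 0,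
 dt w a y > 0, dt w z X = g(X) > 0.
f1(d) < 0 or f3(d) < 0: otherwise both are > 0 (they are nonzero: d is different from y, w, a; d ≠ a because g(a) ≤ 0: for z = a it is 0, otherwise
g(a) = - dt w a z < 0), and f2(d) > 0 by CONE, so d is strictly inside, contradiction.
For t in [m,1] let X(t) := (1-t) P c + t P d; f1(X(t)), f3(X(t)), g(X(t)) are affine in t, f1, f3 > 0 at t = m, g = 0 at t = m, g > 0 for t > m
(g(d) > 0). Let t* be the smallest t in (m,1] at which f1 or f3 vanishes (explicit zeros t1 = if f1(d) < 0, t3 = if f3(d) < 0, the minimum of them);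
t* < 1. X* := X(t*), g(X*) > 0.
 Case A: f1(X*) = 0, f3(X*) ≥ 0. X* is on the line wy: X* = (1-k) P w + k P y, with g(X*) = k g(y), g(y) > 0, so k > 0; and f3(X*) = (1-k) f3(w),
 f3(w) > 0, so k ≤ 1. `cross_of_point` gives Cross w y c d (the four points are different: c ≠ y because g(c) ≤ 0 < g(y)).
 Case B: f3(X*) = 0, f1(X*) > 0 (if f1(X*) = 0 we are in Case A). X* = (1-k) P y + k P a, f1(X*) = k f1(a), so k > 0; f2(X*) = (1-k) f2(y) > 0 by
 CONE, so k < 1. If c = a: then a, y, X*, d are on a line through... X* = (1-t*) P a + t* P d with t* > 0 and dt a y X* = 0, hence dt a y d = 0,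
 contradiction to Gen. So c ≠ a and `cross_of_point` gives Cross y a c d.
(The existence of k: X* on the line of two different points; e.g. from f1(X*) = 0 and w ≠ y: k := ratio of the larger coordinate difference; or:
k := g(X*)/g(y), check both coordinates with the identity expressing X* - P w in the basis P z - P w, P y - P w.)
-/

namespace Pool.Agent.Work.MP_02cc39_co.PT

open Classical

variable {ι : Type*} {P : ι → ℝ × ℝ}

private theorem dt_aff (A B C D : ℝ × ℝ) (t : ℝ) :
    dt A B ((1 - t) * C.1 + t * D.1, (1 - t) * C.2 + t * D.2) =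
      (1 - t) * dt A B C + t * dt A B D := by
  unfold dt; ring

private theorem dt_cyc (A B C : ℝ × ℝ) : dt A B C = dt B C A := by unfold dt; ring

private theorem dt_swap (A B C : ℝ × ℝ) : dt A B C = -dt A C B := by unfold dt; ring

private theorem dt_self1 (A B : ℝ × ℝ) : dt A A B = 0 := by unfold dt; ring

private theorem dt_self2 (A B : ℝ × ℝ) : dt A B A = 0 := by unfold dt; ring

private theorem dt_self3 (A B : ℝ × ℝ) : dt A B B = 0 := by unfold dt; ring

private theorem dt_gp (W A X Z Y : ℝ × ℝ) :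
    dt W A X * dt W Z Y = dt W A Z * dt W X Y + dt W A Y * dt W Z X := by
  unfold dt; ring

/-- a point on the line `UV` -/
private theorem on_line {U V R X : ℝ × ℝ} (h0 : dt U V X = 0) (hV : dt U R V ≠ 0) :
    (1 - dt U R X / dt U R V) * U.1 + dt U R X / dt U R V * V.1 = X.1 ∧
    (1 - dt U R X / dt U R V) * U.2 + dt U R X / dt U R V * V.2 = X.2 := by
  have e1 : dt U R X * (V.1 - U.1) - dt U R V * (X.1 - U.1) = dt U V X * (U.1 - R.1) * (-1) := by
    unfold dt; ring
  have e2 : dt U R X * (V.2 - U.2) - dt U R V * (X.2 - U.2) = dt U V X * (U.2 - R.2) * (-1) := by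
    unfold dt; ring
  rw [h0] at e1 e2
  constructor
  · field_simp
    linear_combination e1
  · field_simp
    linear_combination e2

/-- the first zero -/
private theorem first_zero {c1 d1 c3 d3 m0 : ℝ} (hm1 : m0 < 1)
    (h1 : 0 < (1 - m0) * c1 + m0 * d1) (h3 : 0 < (1 - m0) * c3 + m0 * d3)
    (h : d1 < 0 ∨ d3 < 0) : ∃ t : ℝ, m0 < t ∧ t < 1 ∧
      (((1 - t) * c1 + t * d1 = 0 ∧ 0 ≤ (1 - t) * c3 + t * d3) ∨
       ((1 - t) * c3 + t * d3 = 0 ∧ 0 < (1 - t) * c1 + t * d1)) := by
  -- a zero of a function which is positive at `m0` and negative at `1`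
  have root : ∀ a b : ℝ, 0 < (1 - m0) * a + m0 * b → b < 0 →
      ∃ t, m0 < t ∧ t < 1 ∧ (1 - t) * a + t * b = 0 := by
    intro a b h0 hb
    have ha : 0 < a - b := by nlinarith
    refine ⟨a / (a - b), ?_, ?_, ?_⟩
    · rw [lt_div_iff₀ ha]; nlinarith
    · rw [div_lt_one ha]; linarith
    · field_simp; ring
  by_cases hd1 : d1 < 0
  · obtain ⟨t1, ht1, ht1', e1⟩ := root c1 d1 h1 hd1
    by_cases hF : 0 ≤ (1 - t1) * c3 + t1 * d3
    · exact ⟨t1, ht1, ht1', Or.inl ⟨e1, hF⟩⟩
    · push Not at hF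
      have hd : d3 < c3 := by nlinarith
      have hd3 : d3 < 0 := by nlinarith
      obtain ⟨t3, ht3, ht3', e3⟩ := root c3 d3 h3 hd3
      refine ⟨t3, ht3, ht3', Or.inr ⟨e3, ?_⟩⟩
      have hlt : t3 < t1 := by
        by_contra hcon
        push Not at hcon
        nlinarith
      have hc1 : d1 < c1 := by nlinarith
      nlinarith
  · have hd3 : d3 < 0 := h.resolve_left hd1
    push Not at hd1
    obtain ⟨t3, ht3, ht3', e3⟩ := root c3 d3 h3 hd3
    refine ⟨t3, ht3, ht3', Or.inr ⟨e3, ?_⟩⟩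
    have hc1 : 0 < c1 ∨ 0 < d1 := by
      by_contra hcon
      push Not at hcon
      obtain ⟨h5, h6⟩ := hcon
      have h7 : d1 = 0 := le_antisymm h6 hd1
      rw [h7] at h1
      nlinarith
    by_cases hc : c1 ≤ d1
    · have : 0 < d1 := by
        rcases hc1 with h5 | h5
        · linarith
        · exact h5
      nlinarith
    · push Not at hc
      have h5 : 0 < c1 := by linarith
      have h6 : 0 < (1 - t3) * c1 := mul_pos (by linarith) h5
      by_cases ht0 : 0 ≤ t3
      · have h7 : 0 ≤ t3 * d1 := mul_nonneg ht0 hd1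
        linarith
      · push Not at ht0
        nlinarith

theorem exit_tri (hP : Gen P) {y w a z c d : ι} (hT : L P y w a) (hz : z = a ∨ Tri P y w a z) (hd : L P w z d) (hdy : d ≠ y)
    (hdT : ¬ Tri P y w a d) (hdw : d ≠ w) (hcw : c ≠ w) (hcd : c ≠ d)
    (hc : (c = z ∧ z ≠ a) ∨ (c ≠ z ∧ d ≠ z ∧ Cross (L P) w z c d)) :
    Cross (L P) w y c d ∨ (c ≠ a ∧ Cross (L P) y a c d) := by
  have hT' : 0 < dt (P y) (P w) (P a) := hT
  have hgd : 0 < dt (P w) (P z) (P d) := hd
  have hyw : y ≠ w := by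
    rintro rfl; rw [dt_self1] at hT'; exact lt_irrefl _ hT'
  have hya : y ≠ a := by
    rintro rfl; rw [dt_self2] at hT'; exact lt_irrefl _ hT'
  have hwa : w ≠ a := by
    rintro rfl; rw [dt_self3] at hT'; exact lt_irrefl _ hT'
  have hwz : w ≠ z := by
    rintro rfl; rw [dt_self1] at hgd; exact lt_irrefl _ hgd
  have hzd : z ≠ d := by
    rintro rfl; rw [dt_self3] at hgd; exact lt_irrefl _ hgd
  -- facts on `z`
  have hf1z : 0 < dt (P y) (P w) (P z) := by
    rcases hz with rfl | hz
    · exact hT'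
    · exact hz.1
  have hf3z : 0 ≤ dt (P a) (P y) (P z) := by
    rcases hz with rfl | hz
    · rw [dt_self2]
    · exact le_of_lt hz.2.2
  have hga : dt (P w) (P z) (P a) ≤ 0 := by
    rcases hz with rfl | hz
    · rw [dt_self3]
    · have h1 : 0 < dt (P w) (P a) (P z) := hz.2.1
      rw [dt_swap]
      linarith
  have hgy : 0 < dt (P w) (P z) (P y) := by
    rw [← dt_cyc]; exact hf1z
  have hf2y : 0 < dt (P w) (P a) (P y) := by
    rw [← dt_cyc]; exact hT'
  have hf3w : 0 < dt (P a) (P y) (P w) := by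
    rw [dt_cyc]; exact hT'
  have hcone : ∀ X : ℝ × ℝ, 0 < dt (P w) (P z) X → 0 < dt (P y) (P w) X →
      0 < dt (P w) (P a) X := by
    intro X hg hf
    rcases hz with rfl | hz
    · exact hg
    · have h1 : 0 < dt (P w) (P a) (P z) := hz.2.1
      have h2 := dt_gp (P w) (P a) X (P z) (P y)
      have h3 : 0 < dt (P w) X (P y) := by rw [← dt_cyc]; exact hf
      have h4 : 0 < dt (P w) (P a) X * dt (P w) (P z) (P y) := by
        rw [h2]
        exact add_pos (mul_pos h1 h3) (mul_pos hf2y hg)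
      exact (mul_pos_iff_of_pos_right hgy).1 h4
  have hda : d ≠ a := by
    rintro rfl; exact absurd hgd (not_lt.2 hga)
  -- `d` is outside
  have hout : dt (P y) (P w) (P d) < 0 ∨ dt (P a) (P y) (P d) < 0 := by
    by_contra hcon
    push Not at hcon
    obtain ⟨h1, h2⟩ := hcon
    have h3 : dt (P y) (P w) (P d) ≠ 0 := hP.2 y w d hyw (Ne.symm hdy) (Ne.symm hdw)
    have h4 : dt (P a) (P y) (P d) ≠ 0 := hP.2 a y d hya.symm (Ne.symm hda) (Ne.symm hdy)
    have h5 := lt_of_le_of_ne h1 h3.symm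
    have h6 := lt_of_le_of_ne h2 h4.symm
    exact hdT ⟨h5, hcone _ hgd h5, h6⟩
  -- the start
  obtain ⟨m0, hm00, hm01, hF1, hF3, hG, hgc⟩ : ∃ m0 : ℝ, 0 ≤ m0 ∧ m0 < 1 ∧
      0 < (1 - m0) * dt (P y) (P w) (P c) + m0 * dt (P y) (P w) (P d) ∧
      0 < (1 - m0) * dt (P a) (P y) (P c) + m0 * dt (P a) (P y) (P d) ∧
      (1 - m0) * dt (P w) (P z) (P c) + m0 * dt (P w) (P z) (P d) = 0 ∧
      dt (P w) (P z) (P c) ≤ 0 := by
    rcases hc with ⟨rfl, hza⟩ | ⟨hcz, hdz, hcr⟩
    · refine ⟨0, le_rfl, one_pos, ?_, ?_, ?_, ?_⟩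
      · rw [sub_zero, one_mul, zero_mul, add_zero]; exact hf1z
      · rw [sub_zero, one_mul, zero_mul, add_zero]
        rcases hz with hz | hz
        · exact absurd hz hza
        · exact hz.2.2
      · rw [sub_zero, one_mul, zero_mul, add_zero, dt_self3]
      · rw [dt_self3]
    · obtain ⟨l, m0, hl0, hl1, hm0, hm1, e1, e2⟩ := cross_point hP hwz (Ne.symm hcw)
        (Ne.symm hdw) (Ne.symm hcz) (Ne.symm hdz) hcd hcr
      have hpt : (((1 - m0) * (P c).1 + m0 * (P d).1, (1 - m0) * (P c).2 + m0 * (P d).2) : ℝ × ℝ) =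
          ((1 - l) * (P w).1 + l * (P z).1, (1 - l) * (P w).2 + l * (P z).2) := by
        rw [e1, e2]
      refine ⟨m0, hm0.le, hm1, ?_, ?_, ?_, ?_⟩
      · rw [← dt_aff, hpt, dt_aff, dt_self3, mul_zero, zero_add]
        exact mul_pos hl0 hf1z
      · rw [← dt_aff, hpt, dt_aff]
        exact add_pos_of_pos_of_nonneg (mul_pos (by linarith) hf3w) (mul_nonneg hl0.le hf3z)
      · rw [← dt_aff, hpt, dt_aff, dt_self2, dt_self3]
        ring
      · have h1 : ¬ L P w z c := fun h2 => hcr.1.1 h2 hd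
        exact not_lt.1 h1
  have hcy : y ≠ c := by
    rintro rfl; exact absurd hgy (not_lt.2 hgc)
  obtain ⟨t, hmt, ht1, hcase⟩ := first_zero hm01 hF1 hF3 hout
  have ht0 : 0 ≤ t := hm00.trans hmt.le
  have hGt : 0 < (1 - t) * dt (P w) (P z) (P c) + t * dt (P w) (P z) (P d) := by
    nlinarith
  set X : ℝ × ℝ := ((1 - t) * (P c).1 + t * (P d).1, (1 - t) * (P c).2 + t * (P d).2) with hX
  rw [← dt_aff, ← hX] at hGt
  rcases hcase with ⟨h1, h3⟩ | ⟨h3, h1⟩
  · left
    rw [← dt_aff, ← hX] at h1 h3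
    have h1' : dt (P w) (P y) X = 0 := by
      have : dt (P w) (P y) X = - dt (P y) (P w) X := by unfold dt; ring
      rw [this, h1, neg_zero]
    obtain ⟨e1, e2⟩ := on_line (R := P z) h1' hgy.ne'
    set k := dt (P w) (P z) X / dt (P w) (P z) (P y) with hk
    have hk0 : 0 < k := div_pos hGt hgy
    have hXk : X = ((1 - k) * (P w).1 + k * (P y).1, (1 - k) * (P w).2 + k * (P y).2) := by
      rw [e1, e2]
    have hk1 : k ≤ 1 := by
      rw [hXk, dt_aff, dt_self3, mul_zero, add_zero] at h3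
      by_contra hcon
      push Not at hcon
      nlinarith
    exact cross_of_point hP hyw.symm (Ne.symm hcw) (Ne.symm hdw) hcy (Ne.symm hdy) hcd hk0.le hk1
      ht0 ht1.le e1 e2
  · right
    have hca : c ≠ a := by
      rintro rfl
      rw [dt_self2, mul_zero, zero_add] at h3
      have h4 : dt (P c) (P y) (P d) ≠ 0 := hP.2 c y d hya.symm (Ne.symm hda) (Ne.symm hdy)
      rcases mul_eq_zero.1 h3 with h5 | h5
      · linarith
      · exact h4 h5
    refine ⟨hca, ?_⟩
    rw [← dt_aff, ← hX] at h1 h3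
    have h3' : dt (P y) (P a) X = 0 := by
      have : dt (P y) (P a) X = - dt (P a) (P y) X := by unfold dt; ring
      rw [this, h3, neg_zero]
    obtain ⟨e1, e2⟩ := on_line (R := P w) h3' hT'.ne'
    set k := dt (P y) (P w) X / dt (P y) (P w) (P a) with hk
    have hk0 : 0 < k := div_pos h1 hT'
    have hXk : X = ((1 - k) * (P y).1 + k * (P a).1, (1 - k) * (P y).2 + k * (P a).2) := by
      rw [e1, e2]
    have hk1 : k ≤ 1 := by
      have h5 := hcone X hGt h1
      rw [hXk, dt_aff, dt_self3, mul_zero, add_zero] at h5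
      by_contra hcon
      push Not at hcon
      nlinarith
    exact cross_of_point hP hya hcy (Ne.symm hdy) hca.symm (Ne.symm hda) hcd hk0.le hk1
      ht0 ht1.le e1 e2

end Pool.Agent.Work.MP_02cc39_co.PT
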