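import Pool.Agent.Work.MP_02cc39_co.PT.Base

set_option autoImplicit false

/-!
# When a new edge destroys pointedness (abstract, size S-M)

PROOF. Ptd o E y. If y had no neighbour in E then w would be the only neighbour in insert s(w,y) E: pointed (a = w). So there is a first neighbour a1.
a1 ≠ w because s(w,y) ∉ E. If o y a1 w then a1 is also first in insert s(w,y) E, contradiction; so o y w a1 (`tot`). By `ptd_last` there is a last neighbour a2.
If o y w a2 then all neighbours b ≠ a2 of y in insert s(w,y) E satisfy o y b a2, `ptd_of_half_last` (s = a2) makes y pointed, contradiction; so o y a2 w.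
a1 ≠ a2 (`anti`), so o y a1 a2.
-/

namespace Pool.Agent.Work.MP_02cc39_co.PT

open Classical

variable {ι : Type*} {o : ι → ι → ι → Prop}

theorem ptd_three (hC : CC o) {E : Finset (Sym2 ι)} (hnd : ∀ e ∈ E, ¬ e.IsDiag) {w y : ι} (hwy : w ≠ y) (hE : s(w, y) ∉ E)
    (h : Ptd o E y) (h' : ¬ Ptd o (insert s(w, y) E) y) :
    ∃ a1 a2, s(y, a1) ∈ E ∧ s(y, a2) ∈ E ∧ (∀ b, s(y, b) ∈ E → b ≠ a1 → o y a1 b) ∧ (∀ b, s(y, b) ∈ E → b ≠ a2 → o y b a2) ∧
      o y a1 a2 ∧ o y a2 w ∧ o y w a1 := by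
  have hwE : s(y, w) ∉ E := by rw [Sym2.eq_swap]; exact hE
  have hmem : ∀ b, s(y, b) ∈ insert s(w, y) E ↔ b = w ∨ s(y, b) ∈ E := by
    intro b
    rw [Finset.mem_insert]
    constructor
    · rintro (h1 | h1)
      · rcases Sym2.eq_iff.1 h1 with ⟨h2, -⟩ | ⟨-, h2⟩
        · exact absurd h2 hwy.symm
        · exact Or.inl h2
      · exact Or.inr h1
    · rintro (rfl | h1)
      · exact Or.inl Sym2.eq_swap
      · exact Or.inr h1
  have hne : ∀ b, s(y, b) ∈ E → y ≠ b := by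
    rintro b hb rfl
    exact hnd _ hb (Sym2.mk_isDiag_iff.2 rfl)
  rcases h with h | ⟨a1, ha1, h1⟩
  · exfalso
    refine h' (Or.inr ⟨w, (hmem w).2 (Or.inl rfl), fun b hb hbw => ?_⟩)
    rcases (hmem b).1 hb with h2 | h2
    · exact absurd h2 hbw
    · exact absurd h2 (h b)
  have ha1w : a1 ≠ w := fun h2 => hwE (h2 ▸ ha1)
  have hA : ¬ o y a1 w := by
    intro h2
    refine h' (Or.inr ⟨a1, (hmem a1).2 (Or.inr ha1), fun b hb hba => ?_⟩)
    rcases (hmem b).1 hb with h3 | h3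
    · rw [h3]; exact h2
    · exact h1 b h3 hba
  have hA' : o y w a1 := hC.tot y a1 w (hne a1 ha1) hwy.symm ha1w hA
  rcases ptd_last hC hnd (Or.inr ⟨a1, ha1, h1⟩) with h2 | ⟨a2, ha2, h2⟩
  · exact absurd ha1 (h2 a1)
  have ha2w : a2 ≠ w := fun h3 => hwE (h3 ▸ ha2)
  have hB : ¬ o y w a2 := by
    intro h3
    refine h' (ptd_of_half_last hC (s := a2) fun b hb hba => ?_)
    rcases (hmem b).1 hb with h4 | h4
    · rw [h4]; exact h3
    · exact h2 b h4 hba
  have hB' : o y a2 w := hC.tot y w a2 hwy.symm (hne a2 ha2) ha2w.symm hB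
  have h12 : a2 ≠ a1 := by
    rintro rfl
    exact hC.anti _ _ _ hA' hB'
  exact ⟨a1, a2, ha1, ha2, h1, h2, h1 a2 ha2 h12, hB', hA'⟩

end Pool.Agent.Work.MP_02cc39_co.PT
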