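import Pool.Agent.Work.MP_02cc39_co.PT.ExtMirror
import Pool.Agent.Work.MP_02cc39_co.PT.PtdThree
import Pool.Agent.Work.MP_02cc39_co.PT.VisUp
import Pool.Agent.Work.MP_02cc39_co.PT.DirHalf

set_option autoImplicit false

/-!
# The extension lemma (size M): an inner point which is not marked is not pointed in a maximal graph

PROOF. Suppose w is pointed in E. `ptd_dir`: u ≠ 0 with ht u (P w) (P b) < 0 for all neighbours b of w. `inner_half`: some s has ht > 0. `vis_up`: the finite set of
the y with 0 < ht u (P w) (P y) and Vis (L P) E w y is nonempty; let y be one of largest height. y ≠ w, s(w,y) ∉ E (height). If Fam V (insert s(w,y) E), contradiction to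
maximality. By `fam_insert` (crossings: Vis; w ∉ V) it follows that y ∈ V and ¬ Ptd (insert s(w,y) E) y, while Ptd E y. `ptd_three`: a1, a2.
Identity (ring): det y a2 w * (ht(a1) - ht(y)) + det y w a1 * (ht(a2) - ht(y)) + det y a1 a2 * (ht(w) - ht(y)) = 0 with ht(x) := ht u (P w) (P x); all three
determinants are > 0, ht(w) = 0 < ht(y); so ht(a1) > ht(y) or ht(a2) > ht(y).
 Case ht(a1) > ht(y): `ext_core` with a = a1 (hT = L P y w a1; hcone: a neighbour b of y with L P y b a1 is ≠ a1 (ne), so L P y a1 b, contradiction to anti). Get z.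
 If z = a1: a1 is visible and higher than y: contradiction. Otherwise z is strictly inside the triangle y w a1: det y w a1 * ht(z) = det w a1 z * ht(y) + det y w z * ht(a1) +
 det a1 y z * ht(w) (ring), so ht(z) > 0, hence s(w,z) ∉ E. Fam V (insert s(w,z) E) by `fam_insert`: crossings: Vis; w ∉ V; at z: w is the first neighbour (L P z w b for all
 neighbours b ≠ w), so z is pointed in insert s(w,z) E. Contradiction to maximality.
 Case ht(a2) > ht(y): `ext_core'` with a = a2 (hT = L P y a2 w), the same with `ptd_of_half_last` (s = w) at z.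
-/

namespace Pool.Agent.Work.MP_02cc39_co.PT

open Classical

variable {ι : Type*} [Fintype ι] {P : ι → ℝ × ℝ}

omit [Fintype ι] in
private theorem ht_self (u : ℝ × ℝ) (A : ℝ × ℝ) : ht u A A = 0 := by
  unfold ht
  ring

omit [Fintype ι] in
private theorem id_three (u : ℝ × ℝ) (w y a1 a2 : ι) :
    det P y a2 w * (ht u (P w) (P a1) - ht u (P w) (P y)) +
      det P y w a1 * (ht u (P w) (P a2) - ht u (P w) (P y)) +
      det P y a1 a2 * (0 - ht u (P w) (P y)) = 0 := by
  unfold ht det
  ring

omit [Fintype ι] in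
private theorem id_in (u : ℝ × ℝ) (w y a z : ι) :
    det P y w a * ht u (P w) (P z) =
      det P w a z * ht u (P w) (P y) + det P y w z * ht u (P w) (P a) := by
  unfold ht det
  ring

omit [Fintype ι] in
private theorem id_in' (u : ℝ × ℝ) (w y a z : ι) :
    det P y a w * ht u (P w) (P z) =
      det P a w z * ht u (P w) (P y) + det P w y z * ht u (P w) (P a) := by
  unfold ht det
  ring

theorem ext (hP : Gen P) {V : Finset ι} {E : Finset (Sym2 ι)} (hE : Max (L P) V E) {w : ι} (hV : w ∉ V)
    (hw : Inner (L P) w) : ¬ Ptd (L P) E w := by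
  intro hpt
  have hC := ccL hP
  obtain ⟨u, hu, hneg⟩ := ptd_dir hP hE.1.nd hpt
  obtain ⟨s, hs⟩ := inner_half hP hw hu
  obtain ⟨y0, hy0, hvis0⟩ := vis_up hP hE.1.nd hE.1.nc u hs
  obtain ⟨y, hyS, hmax⟩ := Finset.exists_max_image
    (Finset.univ.filter fun y => 0 < ht u (P w) (P y) ∧ Vis (L P) E w y)
    (fun y => ht u (P w) (P y)) ⟨y0, by simp [hy0, hvis0]⟩
  rw [Finset.mem_filter] at hyS
  obtain ⟨-, hy, hvis⟩ := hyS
  -- points of positive height
  have hpos : ∀ z, 0 < ht u (P w) (P z) → w ≠ z ∧ s(w, z) ∉ E := by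
    intro z hz
    refine ⟨?_, fun h => ?_⟩
    · rintro rfl
      rw [ht_self] at hz
      exact lt_irrefl _ hz
    · exact lt_asymm hz (hneg z h)
  have key : ∀ z, 0 < ht u (P w) (P z) → Vis (L P) E w z →
      ¬ (z ∈ V → Ptd (L P) (insert s(w, z) E) z) := by
    intro z hz hvz hzV
    obtain ⟨hwz, hwzE⟩ := hpos z hz
    exact hE.2 s(w, z) (fun h => hwz (Sym2.mk_isDiag_iff.1 h)) hwzE
      (fam_insert hC hE.1 hwz hvz (fun h => absurd h hV) hzV)
  have hyV : y ∈ V ∧ ¬ Ptd (L P) (insert s(w, y) E) y := by
    have h := key y hy hvis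
    exact Classical.not_imp.1 h
  obtain ⟨hwy, hwyE⟩ := hpos y hy
  obtain ⟨a1, a2, h1E, h2E, hfirst, hlast, h12, h2w, hw1⟩ :=
    ptd_three hC hE.1.nd hwy hwyE (hE.1.pt y hyV.1) hyV.2
  have hid := id_three (P := P) u w y a1 a2
  unfold L at h12 h2w hw1
  rcases lt_or_ge (ht u (P w) (P y)) (ht u (P w) (P a1)) with hc | hc
  · -- first case
    obtain ⟨z, hz1, -, hz3, hz4⟩ := ext_core hP hE.1.nd hE.1.nc hvis (a := a1) hw1 h1E
      (fun b hb h => by
        have hne := hC.ne _ _ _ h.2
        exact hC.anti _ _ _ h.2 (hfirst b hb hne.2.2))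
    by_cases hza : z = a1
    · subst hza
      have h := hmax z (by
        rw [Finset.mem_filter]
        exact ⟨Finset.mem_univ _, lt_trans hy hc, hz3⟩)
      exact absurd hc (not_lt.2 h)
    · have hT := hz1.resolve_left hza
      have hz : 0 < ht u (P w) (P z) := by
        have hi := id_in (P := P) u w y a1 z
        have h3 : 0 < det P w a1 z := hT.2.1
        have h4 : 0 < det P y w z := hT.1
        have h5 : 0 < det P y w a1 * ht u (P w) (P z) := by
          rw [hi]
          have := mul_pos h3 hy
          have := mul_pos h4 (lt_trans hy hc)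
          linarith
        exact (pos_iff_pos_of_mul_pos h5).1 hw1
      refine key z hz hz3 fun _ => ?_
      refine ptd_of_half hC (s := w) fun b hb hbw => ?_
      rcases Finset.mem_insert.1 hb with h | h
      · exfalso
        rw [Sym2.eq_swap] at h
        rcases Sym2.eq_iff.1 h with ⟨h1, h2⟩ | ⟨h1, h2⟩
        · exact hbw h1
        · exact (hpos z hz).1 h2.symm
      · exact hz4 hza b h hbw
  · -- second case
    have hc2 : ht u (P w) (P y) < ht u (P w) (P a2) := by
      by_contra hcon
      rw [not_lt] at hcon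
      have e1 : det P y a2 w * (ht u (P w) (P a1) - ht u (P w) (P y)) ≤ 0 :=
        mul_nonpos_of_nonneg_of_nonpos h2w.le (by linarith)
      have e2 : det P y w a1 * (ht u (P w) (P a2) - ht u (P w) (P y)) ≤ 0 :=
        mul_nonpos_of_nonneg_of_nonpos hw1.le (by linarith)
      have e3 : 0 < det P y a1 a2 * ht u (P w) (P y) := mul_pos h12 hy
      nlinarith
    obtain ⟨z, hz1, -, hz3, hz4⟩ := ext_core' hP hE.1.nd hE.1.nc hvis (a := a2) h2w h2E
      (fun b hb h => by
        have hne := hC.ne _ _ _ h.2
        exact hC.anti _ _ _ h.2 (hlast b hb hne.2.2.symm))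
    by_cases hza : z = a2
    · subst hza
      have h := hmax z (by
        rw [Finset.mem_filter]
        exact ⟨Finset.mem_univ _, lt_trans hy hc2, hz3⟩)
      exact absurd hc2 (not_lt.2 h)
    · have hT := hz1.resolve_left hza
      have hz : 0 < ht u (P w) (P z) := by
        have hi := id_in' (P := P) u w y a2 z
        have h3 : 0 < det P a2 w z := hT.2.1
        have h4 : 0 < det P w y z := hT.2.2
        have h5 : 0 < det P y a2 w * ht u (P w) (P z) := by
          rw [hi]
          have := mul_pos h3 hy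
          have := mul_pos h4 (lt_trans hy hc2)
          linarith
        exact (pos_iff_pos_of_mul_pos h5).1 h2w
      refine key z hz hz3 fun _ => ?_
      refine ptd_of_half_last hC (s := w) fun b hb hbw => ?_
      rcases Finset.mem_insert.1 hb with h | h
      · exfalso
        rw [Sym2.eq_swap] at h
        rcases Sym2.eq_iff.1 h with ⟨h1, h2⟩ | ⟨h1, h2⟩
        · exact hbw h1
        · exact (hpos z hz).1 h2.symm
      · exact hz4 hza b h hbw

end Pool.Agent.Work.MP_02cc39_co.PT
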