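import Pool.Agent.Work.MP_02cc39_co.PT.Geo

set_option autoImplicit false

/-!
# The point of a triangle with the smallest angle (size S-M)

PROOF. Candidates: C := the (finite) set of a and all points strictly inside the triangle y w a. For c ∈ C: dt w c y > 0 (for c = a this is
L P y w a, otherwise L P y w c; cyc), and dt w a c ≥ 0. Let z ∈ C maximise phi(c) := dt w a c / dt w c y (`Finset.exists_max_image` over
Finset.univ.filter). If d ∈ C and dt w z d > 0: identity (ring) dt w a d * dt w z y = dt w a z * dt w d y + dt w a y * dt w z d, so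
phi(d) > phi(z) (all denominators are positive, dt w a y > 0), contradiction. (dt w a d means dt (P w) (P a) (P d).)
-/

namespace Pool.Agent.Work.MP_02cc39_co.PT

open Classical

variable {ι : Type*} [Fintype ι] {P : ι → ℝ × ℝ}

theorem ext_z {y w a : ι} (hT : L P y w a) :
    ∃ z, (z = a ∨ Tri P y w a z) ∧ ∀ d, (d = a ∨ Tri P y w a d) → ¬ L P w z d := by
  have hcyc : ∀ c, dt (P w) (P c) (P y) = dt (P y) (P w) (P c) := by
    intro c
    simp only [dt]
    ring
  have hpos : ∀ c, (c = a ∨ Tri P y w a c) → 0 < dt (P w) (P c) (P y) := by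
    intro c hc
    rw [hcyc]
    rcases hc with rfl | hc
    · exact hT
    · exact hc.1
  obtain ⟨z, hz, hmax⟩ := Finset.exists_max_image
    (Finset.univ.filter (fun c : ι => c = a ∨ Tri P y w a c))
    (fun c => dt (P w) (P a) (P c) / dt (P w) (P c) (P y))
    ⟨a, by simp⟩
  have hz' : z = a ∨ Tri P y w a z := by simpa using hz
  refine ⟨z, hz', ?_⟩
  intro d hd hL
  have hL' : 0 < dt (P w) (P z) (P d) := hL
  have hle := hmax d (by simpa using hd)
  have h1 := hpos z hz'
  have h2 := hpos d hd
  have h3 := hpos a (Or.inl rfl)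
  rw [div_le_div_iff₀ h2 h1] at hle
  have hid : dt (P w) (P a) (P d) * dt (P w) (P z) (P y)
      = dt (P w) (P a) (P z) * dt (P w) (P d) (P y) + dt (P w) (P a) (P y) * dt (P w) (P z) (P d) := by
    simp only [dt]
    ring
  have h4 := mul_pos h3 hL'
  linarith

end Pool.Agent.Work.MP_02cc39_co.PT
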