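import Pool.Agent.Work.MP_02cc39_co.PT.ExitTri
import Pool.Agent.Work.MP_02cc39_co.PT.ExtZ
import Pool.Agent.Work.MP_02cc39_co.PT.CCL

set_option autoImplicit false

/-!
# Core of the extension lemma (size M)

PROOF. z from `ext_z`. (CC rules for L P by `ccL hP`: cyc, anti, tot, ne.) g: L P w z y holds: for z = a it is L P y w a (cyc), otherwise L P y w z.
VISIBILITY of z from w: let s(c,d) ∈ E, c ≠ d (nd), c, d different from w, z, and Cross w z c d. Exchanging c and d (`cross_swap'`, `Sym2.eq_swap`) we may assume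
L P w z d and not L P w z c.
 Case d = y: s(c,y) ∈ E. If c = a then z ≠ a, z strictly inside, L P a y w and L P a y z are true, contradiction to the second part of Cross
 (L P c d w ↔ ¬ L P c d z). If c ≠ a: by `cross_point` the point X = (1-l) P w + l P z = (1-m) P c + m P y with 0 < l, m < 1. Then L P y w c and L P y c z hold: det(y,w,X) > 0
 because det(y,w,z) > 0 and X = (1-m) P c + m P y gives det(y,w,X) = (1-m) det(y,w,c), so L P y w c; det(y,X,z) = (1-l) det(y,w,z) > 0 and
 det(y,X,z) = (1-m) det(y,c,z), so L P y c z. If z = a this contradicts hcone (c is a neighbour of y in the open cone from w to a). If z is inside: L P y z a (from L P a y z),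
 `trans_left` (v = y, s = w; L P y w c, L P y w z, L P y w a, L P y c z, L P y z a) gives L P y c a, contradiction to hcone.
 Case d ≠ y: d is not strictly inside the triangle (choice of z, L P w z d). `exit_tri` gives Cross w y c d (contradiction to hvis; c ≠ y because L P w z y) or
 c ≠ a and Cross y a c d (contradiction to hnc and s(y,a) ∈ E; d ≠ a by the choice of z).
LAST PART: z ≠ a, s(z,b) ∈ E, b ≠ w, b ≠ z (nd). Suppose not L P z w b; then L P w z b (Gen/tot, cyc). b ≠ y: otherwise z is a neighbour of y with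
L P y w z and L P y z a (from L P a y z): contradiction to hcone. b is not strictly inside, b ≠ a (choice of z). `exit_tri` with c = z, d = b: Cross w y z b (contradiction
to hvis) or Cross y a z b (contradiction to hnc).
-/

namespace Pool.Agent.Work.MP_02cc39_co.PT

open Classical

variable {ι : Type*} [Fintype ι] {P : ι → ℝ × ℝ}

private theorem dt_aff3 (A B C D : ℝ × ℝ) (t : ℝ) :
    dt A B ((1 - t) * C.1 + t * D.1, (1 - t) * C.2 + t * D.2) =
      (1 - t) * dt A B C + t * dt A B D := by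
  unfold dt; ring

private theorem dt_aff2 (A B C D : ℝ × ℝ) (t : ℝ) :
    dt A ((1 - t) * C.1 + t * D.1, (1 - t) * C.2 + t * D.2) B =
      (1 - t) * dt A C B + t * dt A D B := by
  unfold dt; ring

/-- an edge from `y` which crosses `wz` is in the open cone from `w` to `z` -/
private theorem cone_of_cross (hP : Gen P) {w y z c : ι} (hwz : w ≠ z) (hwc : w ≠ c) (hwy : w ≠ y) (hzc : z ≠ c)
    (hzy : z ≠ y) (hcy : c ≠ y) (h : Cross (L P) w z c y) (hz : L P y w z) : L P y w c ∧ L P y c z := by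
  obtain ⟨l, m, hl0, hl1, hm0, hm1, e1, e2⟩ := cross_point hP hwz hwc hwy hzc hzy hcy h
  have hz' : 0 < dt (P y) (P w) (P z) := hz
  have hpt : (((1 - m) * (P c).1 + m * (P y).1, (1 - m) * (P c).2 + m * (P y).2) : ℝ × ℝ) =
      ((1 - l) * (P w).1 + l * (P z).1, (1 - l) * (P w).2 + l * (P z).2) := by
    rw [e1, e2]
  have h1 : (1 - m) * dt (P y) (P w) (P c) + m * dt (P y) (P w) (P y) =
      (1 - l) * dt (P y) (P w) (P w) + l * dt (P y) (P w) (P z) := by
    rw [← dt_aff3, hpt, dt_aff3]
  have h2 : (1 - m) * dt (P y) (P c) (P z) + m * dt (P y) (P y) (P z) =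
      (1 - l) * dt (P y) (P w) (P z) + l * dt (P y) (P z) (P z) := by
    rw [← dt_aff2, hpt, dt_aff2]
  have e3 : dt (P y) (P w) (P y) = 0 := by unfold dt; ring
  have e4 : dt (P y) (P w) (P w) = 0 := by unfold dt; ring
  have e5 : dt (P y) (P y) (P z) = 0 := by unfold dt; ring
  have e6 : dt (P y) (P z) (P z) = 0 := by unfold dt; ring
  rw [e3, e4, mul_zero, mul_zero, add_zero, zero_add] at h1
  rw [e5, e6, mul_zero, mul_zero, add_zero, add_zero] at h2
  have hm : 0 < 1 - m := by linarith
  have k1 : 0 < (1 - m) * dt (P y) (P w) (P c) := by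
    rw [h1]; exact mul_pos hl0 hz'
  have k2 : 0 < (1 - m) * dt (P y) (P c) (P z) := by
    rw [h2]; exact mul_pos (by linarith) hz'
  exact ⟨(mul_pos_iff_of_pos_left hm).1 k1, (mul_pos_iff_of_pos_left hm).1 k2⟩

theorem ext_core (hP : Gen P) {E : Finset (Sym2 ι)} (hnd : ∀ e ∈ E, ¬ e.IsDiag) (hnc : NonCr (L P) E) {w y a : ι}
    (hvis : Vis (L P) E w y) (hT : L P y w a) (hya : s(y, a) ∈ E)
    (hcone : ∀ b, s(y, b) ∈ E → ¬ (L P y w b ∧ L P y b a)) :
    ∃ z, (z = a ∨ Tri P y w a z) ∧ (∀ d, (d = a ∨ Tri P y w a d) → ¬ L P w z d) ∧ Vis (L P) E w z ∧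
      (z ≠ a → ∀ b, s(z, b) ∈ E → b ≠ w → L P z w b) := by
  have hC := ccL hP
  obtain ⟨z, hz, hmax⟩ := ext_z hT
  have hywz : L P y w z := by
    rcases hz with rfl | hz
    · exact hT
    · exact hz.1
  have hg : L P w z y := hC.cyc _ _ _ hywz
  obtain ⟨hyw, hya', hwa⟩ := hC.ne _ _ _ hT
  obtain ⟨-, hyz, hwz⟩ := hC.ne _ _ _ hywz
  -- the visibility of `z`
  have key : ∀ c d, s(c, d) ∈ E → w ≠ c → w ≠ d → z ≠ c → z ≠ d → c ≠ d → Cross (L P) w z c d →
      L P w z d → False := by
    intro c d hcd n1 n2 n3 n4 n5 hcr hd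
    have hnot : ¬ L P w z c := fun h => hcr.1.1 h hd
    by_cases hdy : d = y
    · subst hdy
      by_cases hca : c = a
      · subst hca
        have hTri : Tri P d w c z := by
          rcases hz with h | h
          · exact absurd h n3
          · exact h
        exact hcr.2.1 (hC.cyc _ _ _ (hC.cyc _ _ _ hT)) hTri.2.2
      · obtain ⟨k1, k2⟩ := cone_of_cross hP hwz n1 n2 n3 n4 n5 hcr hywz
        have hE : s(d, c) ∈ E := by rw [Sym2.eq_swap]; exact hcd
        rcases hz with h | h
        · subst h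
          exact hcone c hE ⟨k1, k2⟩
        · have k3 : L P d z a := hC.cyc _ _ _ h.2.2
          exact hcone c hE ⟨k1, trans_left hC k1 hywz hT k2 k3⟩
    · have hdT : ¬ Tri P y w a d := fun h => hmax d (Or.inr h) hd
      have hda : d ≠ a := fun h => hmax d (Or.inl h) hd
      have hyc : y ≠ c := by
        rintro rfl
        exact hnot hg
      rcases exit_tri hP hT hz hd hdy hdT (Ne.symm n2) (Ne.symm n1) n5
        (Or.inr ⟨Ne.symm n3, Ne.symm n4, hcr⟩) with h | ⟨h1, h2⟩
      · exact hvis c d hcd n1 n2 hyc (Ne.symm hdy) h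
      · exact hnc y a c d hya hcd hyc (Ne.symm hdy) (Ne.symm h1) (Ne.symm hda) h2
  refine ⟨z, hz, hmax, ?_, ?_⟩
  · intro c d hcd n1 n2 n3 n4 hcr
    have n5 : c ≠ d := by
      rintro rfl
      exact hnd _ hcd rfl
    by_cases hd : L P w z d
    · exact key c d hcd n1 n2 n3 n4 n5 hcr hd
    · have hc : L P w z c := hcr.1.2 hd
      have hcr' : Cross (L P) w z d c := (cross_swap' hC n5 n1 n2 n3 n4).1 hcr
      exact key d c (by rw [Sym2.eq_swap]; exact hcd) n2 n1 n4 n3 n5.symm hcr' hc
  · intro hza b hzb hbw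
    have hTri : Tri P y w a z := by
      rcases hz with h | h
      · exact absurd h hza
      · exact h
    have hbz : z ≠ b := by
      rintro rfl
      exact hnd _ hzb rfl
    by_contra hn
    have hd : L P w z b := hC.cyc _ _ _ (hC.cyc _ _ _ (hC.tot z w b hwz.symm hbz (Ne.symm hbw) hn))
    have hby : b ≠ y := by
      rintro rfl
      exact hcone z (by rw [Sym2.eq_swap]; exact hzb) ⟨hywz, hC.cyc _ _ _ hTri.2.2⟩
    have hbT : ¬ Tri P y w a b := fun h => hmax b (Or.inr h) hd
    have hba : b ≠ a := fun h => hmax b (Or.inl h) hd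
    rcases exit_tri hP hT hz hd hby hbT hbw hwz.symm hbz (Or.inl ⟨rfl, hza⟩) with h | ⟨h1, h2⟩
    · exact hvis z b hzb hwz (Ne.symm hbw) hyz (Ne.symm hby) h
    · exact hnc y a z b hya hzb hyz (Ne.symm hby) (Ne.symm h1) (Ne.symm hba) h2

end Pool.Agent.Work.MP_02cc39_co.PT
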