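import Pool.Agent.Work.MP_02cc39_co.PT.ExtCore

set_option autoImplicit false

/-!
# The mirrored core lemma (size S-M)

PROOF. Let Q i := (-(P i).1, (P i).2). det Q i j k = - det P i j k = det P i k j (ring), so L Q i j k ↔ L P i k j. Gen Q from Gen P. For four different indices
Cross (L Q) a b c d ↔ Cross (L P) a b c d (both parts: L Q a b c ↔ L P a c b ↔ ¬ L P a b c). So NonCr (L Q) E, Vis (L Q) E w y. Apply `ext_core` to Q:
L Q y w a is L P y a w; hcone: L Q y w b ∧ L Q y b a is L P y b w ∧ L P y a b. The result: Tri Q y w a z means L P y z w, L P w z a, L P a z y, that is (cyc)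
Tri P y a w z = (L P y a z, L P a w z, L P w y z). L Q w z d is L P w d z; L Q z w b is L P z b w. (In NonCr the ends of one edge may a priori coincide:
use hnd.)
-/

namespace Pool.Agent.Work.MP_02cc39_co.PT

open Classical

variable {ι : Type*} [Fintype ι] {P : ι → ℝ × ℝ}

omit [Fintype ι] in
private theorem mir_L (i j k : ι) :
    L (fun i => ((-(P i).1, (P i).2) : ℝ × ℝ)) i j k ↔ L P i k j := by
  unfold L det
  have h : (-(P j).1 - -(P i).1) * ((P k).2 - (P i).2) - ((P j).2 - (P i).2) * (-(P k).1 - -(P i).1)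
      = ((P k).1 - (P i).1) * ((P j).2 - (P i).2) - ((P k).2 - (P i).2) * ((P j).1 - (P i).1) := by
    ring
  show 0 < (-(P j).1 - -(P i).1) * ((P k).2 - (P i).2) -
    ((P j).2 - (P i).2) * (-(P k).1 - -(P i).1) ↔ _
  rw [h]

omit [Fintype ι] in
private theorem mir_gen (hP : Gen P) : Gen (fun i => ((-(P i).1, (P i).2) : ℝ × ℝ)) := by
  refine ⟨fun i j h => hP.1 ?_, fun i j k hij hik hjk => ?_⟩
  · have h1 := congrArg Prod.fst h
    have h2 := congrArg Prod.snd h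
    simp only [neg_inj] at h1 h2
    exact Prod.ext h1 h2
  · have h := hP.2 i k j hik hij hjk.symm
    unfold det at h ⊢
    intro h0
    apply h
    have h1 : (-(P j).1 - -(P i).1) * ((P k).2 - (P i).2) -
        ((P j).2 - (P i).2) * (-(P k).1 - -(P i).1) = 0 := h0
    linarith

omit [Fintype ι] in
private theorem mir_sw (hP : Gen P) {a b c : ι} (hab : a ≠ b) (hac : a ≠ c) (hbc : b ≠ c) :
    L (fun i => ((-(P i).1, (P i).2) : ℝ × ℝ)) a b c ↔ ¬ L P a b c := by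
  rw [mir_L]
  exact ⟨fun h => (ccL hP).anti _ _ _ h, fun h => (ccL hP).tot _ _ _ hab hac hbc h⟩

omit [Fintype ι] in
private theorem mir_cross (hP : Gen P) {a b c d : ι} (hab : a ≠ b) (hcd : c ≠ d) (hac : a ≠ c)
    (had : a ≠ d) (hbc : b ≠ c) (hbd : b ≠ d) :
    Cross (L (fun i => ((-(P i).1, (P i).2) : ℝ × ℝ))) a b c d ↔ Cross (L P) a b c d := by
  unfold Cross
  rw [mir_sw hP hab hac hbc, mir_sw hP hab had hbd, mir_sw hP hcd hac.symm had.symm,
    mir_sw hP hcd hbc.symm hbd.symm]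
  tauto

theorem ext_core' (hP : Gen P) {E : Finset (Sym2 ι)} (hnd : ∀ e ∈ E, ¬ e.IsDiag) (hnc : NonCr (L P) E) {w y a : ι}
    (hvis : Vis (L P) E w y) (hT : L P y a w) (hya : s(y, a) ∈ E)
    (hcone : ∀ b, s(y, b) ∈ E → ¬ (L P y b w ∧ L P y a b)) :
    ∃ z, (z = a ∨ Tri P y a w z) ∧ (∀ d, (d = a ∨ Tri P y a w d) → ¬ L P w d z) ∧ Vis (L P) E w z ∧
      (z ≠ a → ∀ b, s(z, b) ∈ E → b ≠ w → L P z b w) := by
  have hC := ccL hP
  have hne : ∀ {c d : ι}, s(c, d) ∈ E → c ≠ d := by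
    intro c d h hcd
    exact hnd _ h (by rw [hcd]; exact Sym2.mk_isDiag_iff.2 rfl)
  have hT' := hC.ne _ _ _ hT
  have htri : ∀ z, Tri (fun i => ((-(P i).1, (P i).2) : ℝ × ℝ)) y w a z ↔ Tri P y a w z := by
    intro z
    unfold Tri
    rw [mir_L, mir_L, mir_L]
    constructor
    · rintro ⟨h1, h2, h3⟩
      exact ⟨hC.cyc _ _ _ (hC.cyc _ _ _ h3), hC.cyc _ _ _ (hC.cyc _ _ _ h2),
        hC.cyc _ _ _ (hC.cyc _ _ _ h1)⟩
    · rintro ⟨h1, h2, h3⟩
      exact ⟨hC.cyc _ _ _ h3, hC.cyc _ _ _ h2, hC.cyc _ _ _ h1⟩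
  obtain ⟨z, hz1, hz2, hz3, hz4⟩ := ext_core (P := fun i => ((-(P i).1, (P i).2) : ℝ × ℝ))
    (mir_gen hP) (E := E) hnd
    (fun a b c d hab hcd hac had hbc hbd h =>
      hnc a b c d hab hcd hac had hbc hbd
        ((mir_cross hP (hne hab) (hne hcd) hac had hbc hbd).1 h))
    (w := w) (y := y) (a := a)
    (fun c d hcd hwc hwd hyc hyd h =>
      hvis c d hcd hwc hwd hyc hyd
        ((mir_cross hP hT'.2.1.symm (hne hcd) hwc hwd hyc hyd).1 h))
    ((mir_L y w a).2 hT) hya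
    (fun b hb h => hcone b hb ⟨(mir_L y w b).1 h.1, (mir_L y b a).1 h.2⟩)
  have hwz : w ≠ z := by
    rcases hz1 with h | h
    · rw [h]
      exact hT'.2.2.symm
    · exact (hC.ne _ _ _ ((htri z).1 h).2.2).2.1
  refine ⟨z, ?_, ?_, ?_, ?_⟩
  · rcases hz1 with h | h
    · exact Or.inl h
    · exact Or.inr ((htri z).1 h)
  · intro d hd h
    refine hz2 d ?_ ((mir_L w z d).2 h)
    rcases hd with h1 | h1
    · exact Or.inl h1
    · exact Or.inr ((htri d).2 h1)
  · intro c d hcd hwc hwd hyc hyd h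
    exact hz3 c d hcd hwc hwd hyc hyd
      ((mir_cross hP hwz (hne hcd) hwc hwd hyc hyd).2 h)
  · intro hza b hb hbw
    exact (mir_L z w b).1 (hz4 hza b hb hbw)

end Pool.Agent.Work.MP_02cc39_co.PT
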