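import Pool.Agent.Work.MP_02cc39_co.PT.CrossFace
import Pool.Agent.Work.MP_02cc39_co.PT.TriSub

set_option autoImplicit false

/-!
# Flips (size M)
-/

namespace Pool.Agent.Work.MP_02cc39_co.PT

open Classical

variable {ι : Type*} [Fintype ι] {P : ι → ℝ × ℝ}

theorem emp_dca (hP : Gen P) {T : Finset (Sym2 ι)} {a b c d : ι} (h1 : Face (L P) T a b c) (h2 : Face (L P) T b a d)
    (hX : Cross (L P) a b c d) : ∀ g, ¬ (L P d c g ∧ L P c a g ∧ L P a d g) := by
  have hC := ccL hP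
  obtain ⟨hcdb, hdca⟩ := four_pt hP h1.l h2.l hX
  rintro g ⟨g1, g2, g3⟩
  have hab : a ≠ b := (hC.ne _ _ _ h1.l).1
  have hag : a ≠ g := (hC.ne _ _ _ g2).2.2
  have hbg : b ≠ g := by
    rintro rfl
    exact hC.anti _ _ _ hcdb (hC.cyc _ _ _ g1)
  by_cases hg : L P a b g
  · have k1 : L P c g b := trans_left hC (v := c) (s := a) (a := g) (b := d) (c := b)
      g2 (hC.cyc _ _ _ hdca) (hC.cyc _ _ _ (hC.cyc _ _ _ h1.l)) (hC.cyc _ _ _ g1) hcdb
    exact h1.emp g ⟨hg, hC.cyc _ _ _ (hC.cyc _ _ _ k1), g2⟩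
  · have hg' : L P b a g := hC.cyc _ _ _ (hC.cyc _ _ _ (hC.tot _ _ _ hab hag hbg hg))
    have k1 : L P d b g := trans_right hC (v := d) (s := a) (a := b) (b := c) (c := g)
      (hC.cyc _ _ _ (hC.cyc _ _ _ h2.l)) hdca (hC.cyc _ _ _ g3) (hC.cyc _ _ _ hcdb) g1
    exact h2.emp g ⟨hg', g3, k1⟩

private theorem cross_flip4 (hP : Gen P) {a b c d : ι} (h1 : L P a b c) (h2 : L P b a d)
    (hX : Cross (L P) a b c d) : Cross (L P) b a d c := by
  have hC := ccL hP
  have hcd : c ≠ d := (hC.ne _ _ _ (four_pt hP h1 h2 hX).1).1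
  obtain ⟨hab, hac, hbc⟩ := hC.ne _ _ _ h1
  obtain ⟨_, hbd, had⟩ := hC.ne _ _ _ h2
  exact (cross_swap' hC hcd hbc hbd hac had).1 ((cross_swap hC hab hac had hbc hbd).1 hX)

private theorem emp_cdb (hP : Gen P) {T : Finset (Sym2 ι)} {a b c d : ι} (h1 : Face (L P) T a b c)
    (h2 : Face (L P) T b a d) (hX : Cross (L P) a b c d) :
    ∀ g, ¬ (L P c d g ∧ L P d b g ∧ L P b c g) :=
  emp_dca hP h2 h1 (cross_flip4 hP h1.l h2.l hX)

private theorem cd_notMem (hP : Gen P) {T : Finset (Sym2 ι)} (hT : Max (L P) ∅ T) {a b c d : ι}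
    (h1 : Face (L P) T a b c) (h2 : Face (L P) T b a d) (hX : Cross (L P) a b c d) : s(c, d) ∉ T := by
  have hC := ccL hP
  obtain ⟨hab, hac, hbc⟩ := hC.ne _ _ _ h1.l
  obtain ⟨_, hbd, had⟩ := hC.ne _ _ _ h2.l
  intro h
  exact hT.1.nc a b c d h1.ab h hac had hbc hbd hX

private theorem flip_aux (hP : Gen P) {T : Finset (Sym2 ι)} (hT : Max (L P) ∅ T) {a b c d : ι}
    (h1 : Face (L P) T a b c) (h2 : Face (L P) T b a d) (hX : Cross (L P) a b c d) {e f : ι}
    (hef : s(e, f) ∈ T) (hne : s(e, f) ≠ s(a, b)) (hce : c ≠ e) (hcf : c ≠ f) (hde : d ≠ e) (hdf : d ≠ f)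
    (he : L P c d e) (hf : L P d c f) (hY : Cross (L P) c d e f) : False := by
  have hC := ccL hP
  obtain ⟨hcdb, hdca⟩ := four_pt hP h1.l h2.l hX
  have hcd : c ≠ d := (hC.ne _ _ _ hcdb).1
  have hef' : e ≠ f := by
    rintro rfl
    exact hT.1.nd _ hef rfl
  have k1 : f = a := cross_face' hP hT.1.nc (a := d) (b := c) (c := a) (e := e) (f := f) hdca
    (emp_dca hP h1 h2 hX) (by rw [Sym2.eq_swap]; exact h2.bc) h1.ca hef hde hdf hce hcf hef'
    ((cross_swap hC hcd hce hcf hde hdf).1 hY) hf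
  have k2 : e = b := cross_face' hP hT.1.nc (a := c) (b := d) (c := b) (e := f) (f := e) hcdb
    (emp_cdb hP h1 h2 hX) (by rw [Sym2.eq_swap]; exact h1.bc) h2.ca (by rw [Sym2.eq_swap]; exact hef)
    hcf hce hdf hde hef'.symm ((cross_swap' hC hef' hce hcf hde hdf).1 hY) he
  apply hne
  rw [k1, k2, Sym2.eq_swap]

private theorem flip_nc (hP : Gen P) {T : Finset (Sym2 ι)} (hT : Max (L P) ∅ T) {a b c d : ι}
    (h1 : Face (L P) T a b c) (h2 : Face (L P) T b a d) (hX : Cross (L P) a b c d) :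
    NonCr (L P) (insert s(c, d) (T.erase s(a, b))) := by
  have hC := ccL hP
  obtain ⟨hcdb, hdca⟩ := four_pt hP h1.l h2.l hX
  have hcd : c ≠ d := (hC.ne _ _ _ hcdb).1
  refine nonCr_insert hC (nonCr_mono (Finset.erase_subset _ _) hT.1.nc) hcd ?_
  intro e f hef hce hcf hde hdf hY
  rw [Finset.mem_erase] at hef
  by_cases he : L P c d e
  · have hf : ¬ L P c d f := hY.1.1 he
    exact flip_aux hP hT h1 h2 hX hef.2 hef.1 hce hcf hde hdf he ((o_swap hC hcd hcf hdf).2 hf) hY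
  · have hf : L P c d f := by
      by_contra h
      exact he (hY.1.2 h)
    have hef' : e ≠ f := by
      rintro rfl
      exact he hf
    have hfe : s(f, e) ∈ T := by rw [Sym2.eq_swap]; exact hef.2
    have hfe' : s(f, e) ≠ s(a, b) := by rw [Sym2.eq_swap]; exact hef.1
    exact flip_aux hP hT h1 h2 hX hfe hfe' hcf hce hdf hde hf ((o_swap hC hcd hce hde).2 he)
      ((cross_swap' hC hef' hce hcf hde hdf).1 hY)

private theorem flip_aux2 (hP : Gen P) {T G : Finset (Sym2 ι)} {a b c d : ι}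
    (h1 : Face (L P) T a b c) (h2 : Face (L P) T b a d) (hG : NonCr (L P) G)
    (hac : s(a, c) ∈ G) (hbc : s(b, c) ∈ G) (had : s(a, d) ∈ G) (hbd : s(b, d) ∈ G) {e f : ι}
    (hef : s(e, f) ∈ G) (hef' : e ≠ f) (hae : a ≠ e) (haf : a ≠ f) (hbe : b ≠ e) (hbf : b ≠ f)
    (he : L P b a e) (hf : L P a b f) (hY : Cross (L P) a b e f) : s(e, f) = s(c, d) := by
  have hC := ccL hP
  have hab : a ≠ b := (hC.ne _ _ _ h1.l).1
  have k1 : f = c := cross_face' hP hG (a := a) (b := b) (c := c) (e := e) (f := f) h1.l h1.emp hac hbc hef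
    hae haf hbe hbf hef' hY hf
  have k2 : e = d := cross_face' hP hG (a := b) (b := a) (c := d) (e := f) (f := e) h2.l h2.emp hbd had
    (by rw [Sym2.eq_swap]; exact hef) hbf hbe haf hae hef'.symm
    ((cross_swap' hC hef' hbe hbf hae haf).1 ((cross_swap hC hab hae haf hbe hbf).1 hY)) he
  rw [k1, k2, Sym2.eq_swap]

theorem flip_max (hP : Gen P) {T : Finset (Sym2 ι)} (hT : Max (L P) ∅ T) {a b c d : ι} (h1 : Face (L P) T a b c)
    (h2 : Face (L P) T b a d) (hX : Cross (L P) a b c d) :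
    Max (L P) ∅ (insert s(c, d) (T.erase s(a, b))) ∧ Face (L P) (insert s(c, d) (T.erase s(a, b))) d c a ∧
      Face (L P) (insert s(c, d) (T.erase s(a, b))) c d b := by
  have hC := ccL hP
  obtain ⟨hcdb, hdca⟩ := four_pt hP h1.l h2.l hX
  have hcd : c ≠ d := (hC.ne _ _ _ hcdb).1
  obtain ⟨hab, hac, hbc⟩ := hC.ne _ _ _ h1.l
  obtain ⟨_, hbd, had⟩ := hC.ne _ _ _ h2.l
  have hnc := flip_nc hP hT h1 h2 hX
  have mca : s(c, a) ∈ insert s(c, d) (T.erase s(a, b)) := by
    refine Finset.mem_insert_of_mem (Finset.mem_erase.2 ⟨?_, h1.ca⟩)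
    intro h
    rcases Sym2.eq_iff.1 h with ⟨h, -⟩ | ⟨h, -⟩
    · exact hac h.symm
    · exact hbc h.symm
  have mbc : s(b, c) ∈ insert s(c, d) (T.erase s(a, b)) := by
    refine Finset.mem_insert_of_mem (Finset.mem_erase.2 ⟨?_, h1.bc⟩)
    intro h
    rcases Sym2.eq_iff.1 h with ⟨h, -⟩ | ⟨-, h⟩
    · exact hab h.symm
    · exact hac h.symm
  have mad : s(a, d) ∈ insert s(c, d) (T.erase s(a, b)) := by
    refine Finset.mem_insert_of_mem (Finset.mem_erase.2 ⟨?_, h2.bc⟩)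
    intro h
    rcases Sym2.eq_iff.1 h with ⟨-, h⟩ | ⟨h, -⟩
    · exact hbd h.symm
    · exact hab h
  have mdb : s(d, b) ∈ insert s(c, d) (T.erase s(a, b)) := by
    refine Finset.mem_insert_of_mem (Finset.mem_erase.2 ⟨?_, h2.ca⟩)
    intro h
    rcases Sym2.eq_iff.1 h with ⟨h, -⟩ | ⟨h, -⟩
    · exact had h.symm
    · exact hbd h.symm
  have mcd : s(c, d) ∈ insert s(c, d) (T.erase s(a, b)) := Finset.mem_insert_self _ _
  refine ⟨⟨⟨?_, hnc, ?_⟩, ?_⟩, ⟨hdca, ?_, mca, mad, emp_dca hP h1 h2 hX⟩, ⟨hcdb, mcd, mdb, mbc, emp_cdb hP h1 h2 hX⟩⟩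
  · intro e he
    rcases Finset.mem_insert.1 he with h | h
    · rw [h]
      exact fun h => hcd h
    · exact hT.1.nd e (Finset.mem_of_mem_erase h)
  · intro v hv
    exact absurd hv (Finset.notMem_empty v)
  · intro e0
    induction e0 using Sym2.ind with
    | _ e f =>
      intro hd0 hnm hF
      have hef : e ≠ f := fun h => hd0 h
      set G := insert s(e, f) (insert s(c, d) (T.erase s(a, b))) with hGdef
      have mG : ∀ x ∈ insert s(c, d) (T.erase s(a, b)), x ∈ G := fun x hx => Finset.mem_insert_of_mem hx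
      by_cases hefab : s(e, f) = s(a, b)
      · have m1 : s(a, b) ∈ G := by rw [← hefab]; exact Finset.mem_insert_self _ _
        exact hF.nc a b c d m1 (mG _ mcd) hac had hbc hbd hX
      · have hefT : s(e, f) ∉ T := by
          intro h
          exact hnm (Finset.mem_insert_of_mem (Finset.mem_erase.2 ⟨hefab, h⟩))
        have hex : ∃ c' d', s(c', d') ∈ T ∧ e ≠ c' ∧ e ≠ d' ∧ f ≠ c' ∧ f ≠ d' ∧ Cross (L P) e f c' d' := by
          by_contra hno
          push Not at hno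
          exact hT.2 s(e, f) hd0 hefT (fam_insert hC hT.1 hef
            (fun c' d' hm n1 n2 n3 n4 => hno c' d' hm n1 n2 n3 n4)
            (fun h => absurd h (Finset.notMem_empty _)) (fun h => absurd h (Finset.notMem_empty _)))
        obtain ⟨c', d', hm, n1, n2, n3, n4, hY⟩ := hex
        have hs : s(c', d') = s(a, b) := by
          by_contra hs
          exact hF.nc e f c' d' (Finset.mem_insert_self _ _)
            (mG _ (Finset.mem_insert_of_mem (Finset.mem_erase.2 ⟨hs, hm⟩))) n1 n2 n3 n4 hY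
        have key : a ≠ e ∧ a ≠ f ∧ b ≠ e ∧ b ≠ f ∧ Cross (L P) a b e f := by
          rcases Sym2.eq_iff.1 hs with ⟨rfl, rfl⟩ | ⟨rfl, rfl⟩
          · exact ⟨n1.symm, n3.symm, n2.symm, n4.symm, cross_comm.1 hY⟩
          · refine ⟨n2.symm, n4.symm, n1.symm, n3.symm, ?_⟩
            exact (cross_swap hC hab.symm n1.symm n3.symm n2.symm n4.symm).1 (cross_comm.1 hY)
        obtain ⟨hae, haf, hbe, hbf, hZ⟩ := key
        have hGac : s(a, c) ∈ G := by rw [Sym2.eq_swap]; exact mG _ mca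
        have hGbd : s(b, d) ∈ G := by rw [Sym2.eq_swap]; exact mG _ mdb
        apply hnm
        by_cases hf : L P a b f
        · have he : ¬ L P a b e := fun h => hZ.1.1 h hf
          have := flip_aux2 hP h1 h2 hF.nc hGac (mG _ mbc) (mG _ mad) hGbd (Finset.mem_insert_self _ _) hef
            hae haf hbe hbf ((o_swap hC hab hae hbe).2 he) hf hZ
          rw [this]
          exact mcd
        · have he : L P a b e := hZ.1.2 hf
          have hfe : s(f, e) ∈ G := by rw [Sym2.eq_swap]; exact Finset.mem_insert_self _ _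
          have := flip_aux2 hP h1 h2 hF.nc hGac (mG _ mbc) (mG _ mad) hGbd hfe hef.symm
            haf hae hbf hbe ((o_swap hC hab haf hbf).2 hf) he ((cross_swap' hC hef hae haf hbe hbf).1 hZ)
          have h5 : s(e, f) = s(c, d) := (Sym2.eq_swap (a := e) (b := f)).trans this
          rw [h5]
          exact mcd
  · rw [Sym2.eq_swap (a := d) (b := c)]
    exact mcd

theorem flip_back (hP : Gen P) {T : Finset (Sym2 ι)} (hT : Max (L P) ∅ T) {a b c d : ι} (h1 : Face (L P) T a b c)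
    (h2 : Face (L P) T b a d) (hX : Cross (L P) a b c d) :
    insert s(a, b) ((insert s(c, d) (T.erase s(a, b))).erase s(c, d)) = T := by
  have hn := cd_notMem hP hT h1 h2 hX
  rw [Finset.erase_insert (fun h => hn (Finset.mem_of_mem_erase h)), Finset.insert_erase h1.ab]

end Pool.Agent.Work.MP_02cc39_co.PT
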