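import Pool.Agent.Work.MP_02cc39_co.PT.UpTri
import Pool.Agent.Work.MP_02cc39_co.PT.Flip

set_option autoImplicit false

/-!
# The sign reversing flip bijection (size M-L)

FA: the side uv of the triangle w u v above w is flippable (z is the third point of the triangle on its other side). FB1: the side wu is flippable, FB2: the side wv is flippable.

PROOFS. (`face_rot`, `cross_comm`, `cross_swap`, `cross_swap'`, `Sym2.eq_swap` freely; CC by `ccL hP`.)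
`fa_fb1`, `fa_fb2`: `flip_max` with (a,b,c,d) := (u,v,w,z): T' := insert s(w,z) (T.erase s(u,v)) is maximal, Face T' z w u, Face T' w z v.
`fb1_fa`: `flip_max` with (a,b,c,d) := (w,u,v,z): T' := insert s(v,z) (T.erase s(w,u)), Face T' z v w, Face T' v z u. x_id with w, a = z, b = u, c = v: x_z det(w,u,v) = x_u det(w,z,v) - x_v det(w,z,u) > 0
(L w z u from Face T u w z, L w z v from Face T' z v w, x_u > 0, x_v < 0), so (P w).1 < (P z).1.
`fb2_fa`: `flip_max` with (a,b,c,d) := (v,w,u,z) (Face T v w u, Face T w v z): T' := insert s(u,z) (T.erase s(w,v)), Face T' z u v, Face T' u z w. x_id with a = u, b = v, c = z: x_z det(w,u,v) = x_v det(w,u,z) - x_u det(w,v,z) < 0,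
so (P z).1 < (P w).1.
`card_AB`: the map (T,w,u,v,z) ↦ (insert s(w,z) (T.erase s(u,v)), w, z, v, u) if (P w).1 < (P z).1 and (insert s(w,z) (T.erase s(u,v)), w, u, z, v) if (P z).1 < (P w).1 (z ≠ w, hx) is a bijection from A onto the disjoint union of B1 and B2;
the inverse maps are (T,w,u,v,z) ↦ (insert s(v,z) (T.erase s(w,u)), w, z, v, u) on B1 and (T,w,u,v,z) ↦ (insert s(u,z) (T.erase s(w,v)), w, u, z, v) on B2 (`flip_back` for the first components).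
So split A by (P w).1 < (P z).1 and use `Finset.card_nbij'` twice.
-/

namespace Pool.Agent.Work.MP_02cc39_co.PT

open Classical

variable {ι : Type*} [Fintype ι] {P : ι → ℝ × ℝ}

def FA (P : ι → ℝ × ℝ) (T : Finset (Sym2 ι)) (w u v z : ι) : Prop :=
  Max (L P) ∅ T ∧ Inner (L P) w ∧ Up P T w u v ∧ Face (L P) T v u z ∧ Cross (L P) u v w z

def FB1 (P : ι → ℝ × ℝ) (T : Finset (Sym2 ι)) (w u v z : ι) : Prop :=
  Max (L P) ∅ T ∧ Inner (L P) w ∧ Up P T w u v ∧ Face (L P) T u w z ∧ Cross (L P) w u v z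

def FB2 (P : ι → ℝ × ℝ) (T : Finset (Sym2 ι)) (w u v z : ι) : Prop :=
  Max (L P) ∅ T ∧ Inner (L P) w ∧ Up P T w u v ∧ Face (L P) T w v z ∧ Cross (L P) w v u z

theorem fa_fb1 (hP : Gen P) {T : Finset (Sym2 ι)} {w u v z : ι} (h : FA P T w u v z) (hz : (P w).1 < (P z).1) :
    FB1 P (insert s(w, z) (T.erase s(u, v))) w z v u := by
  have hC := ccL hP
  obtain ⟨hT, hin, hup, hf, hX⟩ := h
  obtain ⟨h1, h2, h3⟩ := flip_max hP hT (face_rot hC hup.face) hf hX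
  obtain ⟨hwu, hwv, huv⟩ := hC.ne _ _ _ hup.face.l
  obtain ⟨_, hvz, huz⟩ := hC.ne _ _ _ hf.l
  exact ⟨h1, hin, ⟨hz, hup.xv, h3⟩, h2, (cross_swap' hC huv hwu hwv huz.symm hvz.symm).1 (cross_comm.1 hX)⟩

theorem fa_fb2 (hP : Gen P) {T : Finset (Sym2 ι)} {w u v z : ι} (h : FA P T w u v z) (hz : (P z).1 < (P w).1) :
    FB2 P (insert s(w, z) (T.erase s(u, v))) w u z v := by
  have hC := ccL hP
  obtain ⟨hT, hin, hup, hf, hX⟩ := h
  obtain ⟨h1, h2, h3⟩ := flip_max hP hT (face_rot hC hup.face) hf hX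
  exact ⟨h1, hin, ⟨hup.xu, hz, face_rot hC h2⟩, h3, cross_comm.1 hX⟩

theorem fb1_fa (hP : Gen P) {T : Finset (Sym2 ι)} {w u v z : ι} (h : FB1 P T w u v z) :
    (P w).1 < (P z).1 ∧ FA P (insert s(v, z) (T.erase s(w, u))) w z v u := by
  have hC := ccL hP
  obtain ⟨hT, hin, hup, hf, hX⟩ := h
  obtain ⟨h1, h2, h3⟩ := flip_max hP hT hup.face hf hX
  obtain ⟨hwu, hwv, huv⟩ := hC.ne _ _ _ hup.face.l
  obtain ⟨_, huz, hwz⟩ := hC.ne _ _ _ hf.l
  obtain ⟨hzv, _, _⟩ := hC.ne _ _ _ h2.l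
  have e1 : 0 < det P w u v := hup.face.l
  have e2 : 0 < det P w z u := hC.cyc _ _ _ hf.l
  have e3 : 0 < det P w z v := hC.cyc _ _ _ (hC.cyc _ _ _ h2.l)
  have hid := x_id P w z u v
  have hu := hup.xu
  have hv := hup.xv
  have hz : (P w).1 < (P z).1 := by
    by_contra hcon
    have f1 : ((P z).1 - (P w).1) * det P w u v ≤ 0 := mul_nonpos_of_nonpos_of_nonneg (by linarith) e1.le
    have f2 : 0 < ((P u).1 - (P w).1) * det P w z v := mul_pos (by linarith) e3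
    have f3 : ((P v).1 - (P w).1) * det P w z u < 0 := mul_neg_of_neg_of_pos (by linarith) e2
    linarith
  refine ⟨hz, h1, hin, ⟨hz, hup.xv, face_rot hC (face_rot hC h2)⟩, h3, ?_⟩
  exact (cross_swap hC hzv.symm hwv.symm huv.symm hwz.symm huz.symm).1 (cross_comm.1 hX)

theorem fb2_fa (hP : Gen P) {T : Finset (Sym2 ι)} {w u v z : ι} (h : FB2 P T w u v z) :
    (P z).1 < (P w).1 ∧ FA P (insert s(u, z) (T.erase s(w, v))) w u z v := by
  have hC := ccL hP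
  obtain ⟨hT, hin, hup, hf, hX⟩ := h
  obtain ⟨hwu, hwv, huv⟩ := hC.ne _ _ _ hup.face.l
  obtain ⟨_, hwz, hvz⟩ := hC.ne _ _ _ hf.l
  obtain ⟨h1, h2, h3⟩ := flip_max hP hT (face_rot hC (face_rot hC hup.face)) hf
    ((cross_swap hC hwv hwu hwz huv.symm hvz).1 hX)
  rw [Sym2.eq_swap (a := v) (b := w)] at h1 h2 h3
  have e1 : 0 < det P w u v := hup.face.l
  have e2 : 0 < det P w v z := hf.l
  have e3 : 0 < det P w u z := hC.cyc _ _ _ (hC.cyc _ _ _ h3.l)
  have hid := x_id P w u v z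
  have hu := hup.xu
  have hv := hup.xv
  have hz : (P z).1 < (P w).1 := by
    by_contra hcon
    have f1 : 0 ≤ ((P z).1 - (P w).1) * det P w u v := mul_nonneg (by linarith) e1.le
    have f2 : 0 < ((P u).1 - (P w).1) * det P w v z := mul_pos (by linarith) e2
    have f3 : ((P v).1 - (P w).1) * det P w u z < 0 := mul_neg_of_neg_of_pos (by linarith) e3
    linarith
  refine ⟨hz, h1, hin, ⟨hup.xu, hz, face_rot hC (face_rot hC h3)⟩, h2, cross_comm.1 hX⟩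

noncomputable def setA (P : ι → ℝ × ℝ) : Finset (Finset (Sym2 ι) × ι × ι × ι × ι) :=
  Finset.univ.filter fun t => FA P t.1 t.2.1 t.2.2.1 t.2.2.2.1 t.2.2.2.2

noncomputable def setB1 (P : ι → ℝ × ℝ) : Finset (Finset (Sym2 ι) × ι × ι × ι × ι) :=
  Finset.univ.filter fun t => FB1 P t.1 t.2.1 t.2.2.1 t.2.2.2.1 t.2.2.2.2

noncomputable def setB2 (P : ι → ℝ × ℝ) : Finset (Finset (Sym2 ι) × ι × ι × ι × ι) :=
  Finset.univ.filter fun t => FB2 P t.1 t.2.1 t.2.2.1 t.2.2.2.1 t.2.2.2.2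

private theorem card_one (hP : Gen P) :
    ((setA P).filter fun t => (P t.2.1).1 < (P t.2.2.2.2).1).card = (setB1 P).card := by
  refine Finset.card_nbij'
    (fun t => (insert s(t.2.1, t.2.2.2.2) (t.1.erase s(t.2.2.1, t.2.2.2.1)), t.2.1, t.2.2.2.2, t.2.2.2.1, t.2.2.1))
    (fun t => (insert s(t.2.2.2.1, t.2.2.2.2) (t.1.erase s(t.2.1, t.2.2.1)), t.2.1, t.2.2.2.2, t.2.2.2.1, t.2.2.1))
    ?_ ?_ ?_ ?_
  · rintro ⟨T, w, u, v, z⟩ ht
    obtain ⟨h1, h2⟩ := Finset.mem_filter.1 ht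
    exact Finset.mem_filter.2 ⟨Finset.mem_univ _, fa_fb1 hP (Finset.mem_filter.1 h1).2 h2⟩
  · rintro ⟨T, w, u, v, z⟩ ht
    have h1 : FB1 P T w u v z := (Finset.mem_filter.1 ht).2
    exact Finset.mem_filter.2 ⟨Finset.mem_filter.2 ⟨Finset.mem_univ _, (fb1_fa hP h1).2⟩, h1.2.2.1.xu⟩
  · rintro ⟨T, w, u, v, z⟩ ht
    have h1 : FA P T w u v z := (Finset.mem_filter.1 (Finset.mem_filter.1 ht).1).2
    have h2 := flip_back hP h1.1 (face_rot (ccL hP) h1.2.2.1.face) h1.2.2.2.1 h1.2.2.2.2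
    simp only [Prod.mk.injEq, and_true]
    rw [Sym2.eq_swap (a := v) (b := u)]
    exact h2
  · rintro ⟨T, w, u, v, z⟩ ht
    have h1 : FB1 P T w u v z := (Finset.mem_filter.1 ht).2
    have h2 := flip_back hP h1.1 h1.2.2.1.face h1.2.2.2.1 h1.2.2.2.2
    simp only [Prod.mk.injEq, and_true]
    rw [Sym2.eq_swap (a := z) (b := v)]
    exact h2

private theorem card_two (hP : Gen P) (hx : ∀ i j, i ≠ j → (P i).1 ≠ (P j).1) :
    ((setA P).filter fun t => ¬ (P t.2.1).1 < (P t.2.2.2.2).1).card = (setB2 P).card := by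
  have hC := ccL hP
  refine Finset.card_nbij'
    (fun t => (insert s(t.2.1, t.2.2.2.2) (t.1.erase s(t.2.2.1, t.2.2.2.1)), t.2.1, t.2.2.1, t.2.2.2.2, t.2.2.2.1))
    (fun t => (insert s(t.2.2.1, t.2.2.2.2) (t.1.erase s(t.2.1, t.2.2.2.1)), t.2.1, t.2.2.1, t.2.2.2.2, t.2.2.2.1))
    ?_ ?_ ?_ ?_
  · rintro ⟨T, w, u, v, z⟩ ht
    obtain ⟨h1, h2⟩ := Finset.mem_filter.1 ht
    have h3 : FA P T w u v z := (Finset.mem_filter.1 h1).2
    have hwz : w ≠ z := by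
      rintro rfl
      exact hC.anti _ _ _ (hC.cyc _ _ _ (hC.cyc _ _ _ h3.2.2.2.1.l)) h3.2.2.1.face.l
    have h4 : (P z).1 < (P w).1 := lt_of_le_of_ne (not_lt.1 h2) (hx _ _ hwz.symm)
    exact Finset.mem_filter.2 ⟨Finset.mem_univ _, fa_fb2 hP h3 h4⟩
  · rintro ⟨T, w, u, v, z⟩ ht
    have h1 : FB2 P T w u v z := (Finset.mem_filter.1 ht).2
    exact Finset.mem_filter.2 ⟨Finset.mem_filter.2 ⟨Finset.mem_univ _, (fb2_fa hP h1).2⟩, h1.2.2.1.xv.not_gt⟩
  · rintro ⟨T, w, u, v, z⟩ ht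
    have h1 : FA P T w u v z := (Finset.mem_filter.1 (Finset.mem_filter.1 ht).1).2
    have h2 := flip_back hP h1.1 (face_rot (ccL hP) h1.2.2.1.face) h1.2.2.2.1 h1.2.2.2.2
    simp only [Prod.mk.injEq, and_true]
    exact h2
  · rintro ⟨T, w, u, v, z⟩ ht
    have h1 : FB2 P T w u v z := (Finset.mem_filter.1 ht).2
    obtain ⟨hwu, hwv, huv⟩ := hC.ne _ _ _ h1.2.2.1.face.l
    obtain ⟨_, hwz, hvz⟩ := hC.ne _ _ _ h1.2.2.2.1.l
    have h2 := flip_back hP h1.1 (face_rot hC (face_rot hC h1.2.2.1.face)) h1.2.2.2.1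
      ((cross_swap hC hwv hwu hwz huv.symm hvz).1 h1.2.2.2.2)
    simp only [Prod.mk.injEq, and_true]
    rw [Sym2.eq_swap (a := v) (b := w)] at h2
    exact h2

theorem card_AB (hP : Gen P) (hx : ∀ i j, i ≠ j → (P i).1 ≠ (P j).1) :
    (setA P).card = (setB1 P).card + (setB2 P).card := by
  rw [← card_one hP, ← card_two hP hx]
  exact (Finset.card_filter_add_card_filter_not _).symm

end Pool.Agent.Work.MP_02cc39_co.PT
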