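import Pool.Agent.Work.MP_02cc39_co.PT.FlagBij

set_option autoImplicit false

/-!
# Counting the flags (size M)

FL: the flags (T, w, u, v) with T maximal, w inner, w u v the triangle above w. N1: those for which the side wu is not flippable, N2: those for which the side wv is not flippable.

PROOFS.
`card_FL`: by `up_exists`, `up_unique` the projection (T,w,u,v) ↦ (T,w) is a bijection from FL onto MaxSet (L P) ∅ ×ˢ (the inner points).
`card_N1`: the projection (T,w,u,v,z) ↦ (T,w,u,v) from setB1 is injective (`face_unique`) with image the complement of N1 in FL. `card_N2`: the same for setB2.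
`card_A_le`: the projection from setA to FL is injective (`face_unique` for Face v u z).
`card_N`: card FL ≤ card N1 + card N2: card N1 + card N2 = 2 card FL - card B1 - card B2 = 2 card FL - card A ≥ card FL.
-/

namespace Pool.Agent.Work.MP_02cc39_co.PT

open Classical

variable {ι : Type*} [Fintype ι] {P : ι → ℝ × ℝ}

noncomputable def setFL (P : ι → ℝ × ℝ) : Finset (Finset (Sym2 ι) × ι × ι × ι) :=
  Finset.univ.filter fun t => Max (L P) ∅ t.1 ∧ Inner (L P) t.2.1 ∧ Up P t.1 t.2.1 t.2.2.1 t.2.2.2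

noncomputable def setN1 (P : ι → ℝ × ℝ) : Finset (Finset (Sym2 ι) × ι × ι × ι) :=
  (setFL P).filter fun t => ¬ ∃ z, Face (L P) t.1 t.2.2.1 t.2.1 z ∧ Cross (L P) t.2.1 t.2.2.1 t.2.2.2 z

noncomputable def setN2 (P : ι → ℝ × ℝ) : Finset (Finset (Sym2 ι) × ι × ι × ι) :=
  (setFL P).filter fun t => ¬ ∃ z, Face (L P) t.1 t.2.1 t.2.2.2 z ∧ Cross (L P) t.2.1 t.2.2.2 t.2.2.1 z

theorem card_FL (hP : Gen P) (hx : ∀ i j, i ≠ j → (P i).1 ≠ (P j).1) :
    (setFL P).card = (Finset.univ.filter fun w => Inner (L P) w).card * cnt (L P) ∅ := by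
  unfold cnt
  rw [← Finset.card_product]
  refine Finset.card_bij (fun t _ => (t.2.1, t.1)) ?_ ?_ ?_
  · intro t ht
    simp only [setFL, Finset.mem_filter, Finset.mem_univ, true_and] at ht
    simp only [Finset.mem_product, Finset.mem_filter, Finset.mem_univ, true_and, MaxSet]
    exact ⟨ht.2.1, ht.1⟩
  · rintro ⟨T, w, u, v⟩ ht ⟨T', w', u', v'⟩ ht' h
    simp only [setFL, Finset.mem_filter, Finset.mem_univ, true_and] at ht ht'
    simp only [Prod.mk.injEq] at h
    obtain ⟨rfl, rfl⟩ := h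
    obtain ⟨rfl, rfl⟩ := up_unique hP ht.1.1.nc ht.2.2 ht'.2.2
    rfl
  · rintro ⟨w, T⟩ h
    simp only [Finset.mem_product, Finset.mem_filter, Finset.mem_univ, true_and, MaxSet] at h
    obtain ⟨u, v, huv⟩ := up_exists hP hx h.2 h.1
    refine ⟨(T, w, u, v), ?_, rfl⟩
    simp only [setFL, Finset.mem_filter, Finset.mem_univ, true_and]
    exact ⟨h.2, h.1, huv⟩

private theorem face_inj (hP : Gen P) {T : Finset (Sym2 ι)} (hT : Max (L P) ∅ T) {a b c c' : ι}
    (h : Face (L P) T a b c) (h' : Face (L P) T a b c') : c = c' :=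
  face_unique (ccL hP) hT.1.nc h h'

theorem card_N1 (hP : Gen P) : (setN1 P).card + (setB1 P).card = (setFL P).card := by
  rw [← Finset.card_filter_add_card_filter_not (s := setFL P)
    (fun t => ∃ z, Face (L P) t.1 t.2.2.1 t.2.1 z ∧ Cross (L P) t.2.1 t.2.2.1 t.2.2.2 z), add_comm]
  congr 1
  refine Finset.card_bij (fun t _ => (t.1, t.2.1, t.2.2.1, t.2.2.2.1)) ?_ ?_ ?_
  · rintro ⟨T, w, u, v, z⟩ ht
    simp only [setB1, FB1, Finset.mem_filter, Finset.mem_univ, true_and] at ht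
    simp only [setFL, Finset.mem_filter, Finset.mem_univ, true_and]
    exact ⟨⟨ht.1, ht.2.1, ht.2.2.1⟩, z, ht.2.2.2.1, ht.2.2.2.2⟩
  · rintro ⟨T, w, u, v, z⟩ ht ⟨T', w', u', v', z'⟩ ht' h
    simp only [setB1, FB1, Finset.mem_filter, Finset.mem_univ, true_and] at ht ht'
    simp only [Prod.mk.injEq] at h
    obtain ⟨rfl, rfl, rfl, rfl⟩ := h
    obtain rfl := face_inj hP ht.1 ht.2.2.2.1 ht'.2.2.2.1
    rfl
  · rintro ⟨T, w, u, v⟩ ht
    simp only [setFL, Finset.mem_filter, Finset.mem_univ, true_and] at ht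
    obtain ⟨⟨h1, h2, h3⟩, z, h4, h5⟩ := ht
    refine ⟨(T, w, u, v, z), ?_, rfl⟩
    simp only [setB1, FB1, Finset.mem_filter, Finset.mem_univ, true_and]
    exact ⟨h1, h2, h3, h4, h5⟩

theorem card_N2 (hP : Gen P) : (setN2 P).card + (setB2 P).card = (setFL P).card := by
  rw [← Finset.card_filter_add_card_filter_not (s := setFL P)
    (fun t => ∃ z, Face (L P) t.1 t.2.1 t.2.2.2 z ∧ Cross (L P) t.2.1 t.2.2.2 t.2.2.1 z), add_comm]
  congr 1
  refine Finset.card_bij (fun t _ => (t.1, t.2.1, t.2.2.1, t.2.2.2.1)) ?_ ?_ ?_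
  · rintro ⟨T, w, u, v, z⟩ ht
    simp only [setB2, FB2, Finset.mem_filter, Finset.mem_univ, true_and] at ht
    simp only [setFL, Finset.mem_filter, Finset.mem_univ, true_and]
    exact ⟨⟨ht.1, ht.2.1, ht.2.2.1⟩, z, ht.2.2.2.1, ht.2.2.2.2⟩
  · rintro ⟨T, w, u, v, z⟩ ht ⟨T', w', u', v', z'⟩ ht' h
    simp only [setB2, FB2, Finset.mem_filter, Finset.mem_univ, true_and] at ht ht'
    simp only [Prod.mk.injEq] at h
    obtain ⟨rfl, rfl, rfl, rfl⟩ := h
    obtain rfl := face_inj hP ht.1 ht.2.2.2.1 ht'.2.2.2.1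
    rfl
  · rintro ⟨T, w, u, v⟩ ht
    simp only [setFL, Finset.mem_filter, Finset.mem_univ, true_and] at ht
    obtain ⟨⟨h1, h2, h3⟩, z, h4, h5⟩ := ht
    refine ⟨(T, w, u, v, z), ?_, rfl⟩
    simp only [setB2, FB2, Finset.mem_filter, Finset.mem_univ, true_and]
    exact ⟨h1, h2, h3, h4, h5⟩

theorem card_A_le (hP : Gen P) : (setA P).card ≤ (setFL P).card := by
  refine Finset.card_le_card_of_injOn (fun t => (t.1, t.2.1, t.2.2.1, t.2.2.2.1)) ?_ ?_
  · rintro ⟨T, w, u, v, z⟩ ht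
    simp only [setA, FA, Finset.coe_filter, Finset.mem_univ, true_and, Set.mem_setOf_eq] at ht
    simp only [setFL, Finset.coe_filter, Finset.mem_univ, true_and, Set.mem_setOf_eq]
    exact ⟨ht.1, ht.2.1, ht.2.2.1⟩
  · rintro ⟨T, w, u, v, z⟩ ht ⟨T', w', u', v', z'⟩ ht' h
    simp only [setA, FA, Finset.coe_filter, Finset.mem_univ, true_and, Set.mem_setOf_eq] at ht ht'
    simp only [Prod.mk.injEq] at h
    obtain ⟨rfl, rfl, rfl, rfl⟩ := h
    obtain rfl := face_inj hP ht.1 ht.2.2.2.1 ht'.2.2.2.1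
    rfl

theorem card_N (hP : Gen P) (hx : ∀ i j, i ≠ j → (P i).1 ≠ (P j).1) :
    (setFL P).card ≤ (setN1 P).card + (setN2 P).card := by
  have h1 := card_N1 hP
  have h2 := card_N2 hP
  have h3 := card_A_le hP
  have h4 := card_AB hP hx
  omega

end Pool.Agent.Work.MP_02cc39_co.PT
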