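import Pool.Agent.Work.MP_02cc39_co.PT.Base

set_option autoImplicit false

/-!
# Definitions for the plane geometry (fixed), trivial facts
-/

namespace Pool.Agent.Work.MP_02cc39_co.PT

open Classical

variable {ι : Type*}

/-- twice the signed area of a triangle -/
def dt (A B C : ℝ × ℝ) : ℝ := (B.1 - A.1) * (C.2 - A.2) - (B.2 - A.2) * (C.1 - A.1)

theorem det_eq (P : ι → ℝ × ℝ) (i j k : ι) : det P i j k = dt (P i) (P j) (P k) := rfl

/-- `z` is strictly inside the counterclockwise triangle `a b c` -/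
def Tri (P : ι → ℝ × ℝ) (a b c z : ι) : Prop := L P a b z ∧ L P b c z ∧ L P c a z

/-- the height of `B` above `A` in the direction `u` -/
def ht (u A B : ℝ × ℝ) : ℝ := u.1 * (B.1 - A.1) + u.2 * (B.2 - A.2)

/-- no edge of `E` without a common end with `wy` crosses `wy` -/
def Vis (o : ι → ι → ι → Prop) (E : Finset (Sym2 ι)) (w y : ι) : Prop :=
  ∀ c d, s(c, d) ∈ E → w ≠ c → w ≠ d → y ≠ c → y ≠ d → ¬ Cross o w y c d

end Pool.Agent.Work.MP_02cc39_co.PT
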