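import Pool.Agent.Work.MP_02cc39_co.PT.InnerMut
import Pool.Agent.Work.MP_02cc39_co.PT.CCL

set_option autoImplicit false

/-!
# Hull points are always pointed (size S)

PROOFS. `hull_ptd`: not Inner, so Ptd (star w) w (`inner_iff`), E restricted to the edges at w is contained in star w: `ptd_mono` and `ptd_congr` (only the edges at w matter). `fam_hull`, `cnt_hull`: Fam o V E ↔ Fam o (V.filter Inner) E. `cnt_univ`: V = univ.
-/

namespace Pool.Agent.Work.MP_02cc39_co.PT

open Classical

variable {ι : Type*} [Fintype ι] {o : ι → ι → ι → Prop}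

theorem hull_ptd (hC : CC o) {w : ι} (hw : ¬ Inner o w) {E : Finset (Sym2 ι)} (hE : ∀ e ∈ E, ¬ e.IsDiag) : Ptd o E w := by
  have h1 : Ptd o (star w) w := by
    by_contra h
    exact hw ((inner_iff w).2 h)
  have hsub : (E.filter fun e => w ∈ e) ⊆ star w := by
    intro e he
    rw [Finset.mem_filter] at he
    unfold star
    rw [Finset.mem_filter]
    exact ⟨Finset.mem_univ _, he.2, hE e he.1⟩
  have h2 := ptd_mono hC hsub h1
  refine (ptd_congr (fun b => ?_)).1 h2
  rw [Finset.mem_filter]
  exact ⟨fun h => h.1, fun h => ⟨h, Sym2.mem_mk_left _ _⟩⟩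

private theorem fam_hull (hC : CC o) (V : Finset ι) (E : Finset (Sym2 ι)) :
    Fam o V E ↔ Fam o (V.filter fun w => Inner o w) E := by
  constructor
  · intro h
    exact ⟨h.nd, h.nc, fun v hv => h.pt v (Finset.mem_filter.1 hv).1⟩
  · intro h
    refine ⟨h.nd, h.nc, fun v hv => ?_⟩
    by_cases hi : Inner o v
    · exact h.pt v (Finset.mem_filter.2 ⟨hv, hi⟩)
    · exact hull_ptd hC hi h.nd

theorem cnt_hull (hC : CC o) (V : Finset ι) : cnt o V = cnt o (V.filter fun w => Inner o w) := by
  unfold cnt MaxSet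
  congr 1
  apply Finset.filter_congr
  intro E _
  unfold Max
  rw [fam_hull hC V E]
  refine and_congr Iff.rfl ?_
  refine forall_congr' fun e => ?_
  refine forall_congr' fun _ => ?_
  refine forall_congr' fun _ => ?_
  rw [fam_hull hC V (insert e E)]

theorem cnt_univ (hC : CC o) : cnt o Finset.univ = cnt o (Finset.univ.filter fun w => Inner o w) :=
  cnt_hull hC Finset.univ

end Pool.Agent.Work.MP_02cc39_co.PT
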