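import Pool.Agent.Work.MP_02cc39_co.PT.EdgesT

set_option autoImplicit false

/-!
# Non-exceptional maximal graphs are the same before and after, m not marked (size S-M)

`Mut o o' p m q`, m ∉ V, E is maximal for o, m is not pointed in E, and not T1. Write `x` for a point different from p, m, q.

PROOFS.
`fam_transfer` (m ∉ V, s(p,q) ∉ G): `nc`: `cross_same` for every pair of edges ab, cd of G without a common end (a ≠ b and c ≠ d
by `nd`; its hypotheses h1, h2 are void as s(p,q) is not in G). `pt`: `pt_agree` (v ∈ V is different from m).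
`fam_transfer'`: the same for `mut_symm` (or directly).
`lawA`: By `pt_below` (contraposition) m has a neighbour x with o p q x, x ≠ p, q; since T1 fails, s(p,q) ∉ E. `Fam o' V E` by
`fam_transfer`. Maximality: let e ∉ E, not diagonal, with Fam o' V (insert e E). If e ≠ s(p,q) then Fam o V (insert e E) by
`fam_transfer'`, contradiction. If e = s(p,q): by `nbr_below` every neighbour x of m (x ≠ p, q) satisfies ¬ o p q x, so `pt_below`
makes m pointed in E, contradiction.
-/

namespace Pool.Agent.Work.MP_02cc39_co.PT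

open Classical

variable {ι : Type*} {o o' : ι → ι → ι → Prop} {p m q : ι}

theorem fam_transfer (hC : CC o) (hC' : CC o') (h : Mut o o' p m q) {V : Finset ι} (hm : m ∉ V)
    {G : Finset (Sym2 ι)} (hpq : s(p, q) ∉ G) (hG : Fam o V G) : Fam o' V G := by
  refine ⟨hG.nd, ?_, ?_⟩
  · intro a b c d hab hcd hac had hbc hbd hx
    have h1 : a ≠ b := fun e => hG.nd _ hab (Sym2.mk_isDiag_iff.2 e)
    have h2 : c ≠ d := fun e => hG.nd _ hcd (Sym2.mk_isDiag_iff.2 e)
    exact hG.nc a b c d hab hcd hac had hbc hbd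
      ((cross_same hC hC' h h1 hac had hbc hbd h2
        (fun e => absurd (by rw [← e]; exact hab) hpq) (fun e => absurd (by rw [← e]; exact hcd) hpq)).2 hx)
  · intro v hv
    exact (pt_agree hC hC' h (fun e => hm (by rw [← e]; exact hv))).1 (hG.pt v hv)

theorem fam_transfer' (hC : CC o) (hC' : CC o') (h : Mut o o' p m q) {V : Finset ι} (hm : m ∉ V)
    {G : Finset (Sym2 ι)} (hpq : s(p, q) ∉ G) (hG : Fam o' V G) : Fam o V G := by
  refine ⟨hG.nd, ?_, ?_⟩
  · intro a b c d hab hcd hac had hbc hbd hx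
    have h1 : a ≠ b := fun e => hG.nd _ hab (Sym2.mk_isDiag_iff.2 e)
    have h2 : c ≠ d := fun e => hG.nd _ hcd (Sym2.mk_isDiag_iff.2 e)
    exact hG.nc a b c d hab hcd hac had hbc hbd
      ((cross_same hC hC' h h1 hac had hbc hbd h2
        (fun e => absurd (by rw [← e]; exact hab) hpq) (fun e => absurd (by rw [← e]; exact hcd) hpq)).1 hx)
  · intro v hv
    exact (pt_agree hC hC' h (fun e => hm (by rw [← e]; exact hv))).2 (hG.pt v hv)

theorem lawA (hC : CC o) (hC' : CC o') (h : Mut o o' p m q) {V : Finset ι} (hm : m ∉ V)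
    {E : Finset (Sym2 ι)} (hE : Max o V E) (hX : ¬ Ptd o E m) (hT : ¬ T1 p m q E) : Max o' V E := by
  have hmm : s(m, m) ∉ E := fun e => hE.1.nd _ e (Sym2.mk_isDiag_iff.2 rfl)
  obtain ⟨x, hxp, hxq, hxE, hx⟩ : ∃ x, x ≠ p ∧ x ≠ q ∧ s(m, x) ∈ E ∧ o p q x := by
    by_contra hcon
    push Not at hcon
    exact hX (pt_below hC h hmm hcon)
  have hpq : s(p, q) ∉ E := fun e => hT ⟨e, x, hxp, hxq, hxE⟩
  refine ⟨fam_transfer hC hC' h hm hpq hE.1, ?_⟩
  intro e hed heE hF
  by_cases he : e = s(p, q)
  · subst he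
    exact nbr_below hC hC' h hF (Finset.mem_insert_self _ _) hxp hxq
      (Finset.mem_insert_of_mem hxE) hx
  · refine hE.2 e hed heE (fam_transfer' hC hC' h hm ?_ hF)
    intro h3
    rcases Finset.mem_insert.1 h3 with h4 | h4
    · exact he h4.symm
    · exact hpq h4

end Pool.Agent.Work.MP_02cc39_co.PT
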