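import Pool.Agent.Work.MP_02cc39_co.PT.LinkFam
import Pool.Agent.Work.MP_02cc39_co.PT.HullPt

set_option autoImplicit false

/-!
# The numbers agree (size S-M)

PROOFS.
`max_emb`: Max (L (pos S)) V E ↔ emb S E ∈ PTV S (V.map (emv S)): `fam_emb` for E and for insert e E; an edge e' ∈ S.sym2, not diagonal, not in emb S E is Sym2.map (emv S) e for some e (both ends are in S), and insert e' (emb S E) = emb S (insert e E) (Finset.map_insert).
`ncard_ptv`: emb S is injective and maps MaxSet (L (pos S)) V bijectively onto PTV S (V.map (emv S)) (`exists_emb`): `Set.ncard_image_of_injective`, `Set.ncard_coe_finset`.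
`ncard_triang`: Triang S = PTV S ∅ (PtOn ∅ is trivially true), V = ∅. `ncard_ppt`: PPT S = PTV S S definitionally (Pointed S E is PtOn S E), S = univ.map (emv S) (Finset.attach_map_val / subtype), `cnt_univ` with `ccL`.
-/

namespace Pool.Agent.Work.MP_02cc39_co.PT

open Classical

variable {S : Finset (ℝ × ℝ)}

private theorem ins_eq {α : Type*} (d1 d2 : DecidableEq α) (e : α) (E : Finset α) :
    @insert _ _ (@Finset.instInsert _ d1) e E = @insert _ _ (@Finset.instInsert _ d2) e E := by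
  apply Finset.ext
  intro x
  constructor
  · intro h
    exact (@Finset.mem_insert _ d2 _ _ _).2 ((@Finset.mem_insert _ d1 _ _ _).1 h)
  · intro h
    exact (@Finset.mem_insert _ d1 _ _ _).2 ((@Finset.mem_insert _ d2 _ _ _).1 h)

private theorem emb_ins (E : Finset (Sym2 {x // x ∈ S})) (e : Sym2 {x // x ∈ S}) :
    emb S (insert e E) = insert (Sym2.map (emv S) e) (emb S E) := by
  unfold emb
  rw [Finset.map_insert]
  rfl

private theorem map_mem_emb (E : Finset (Sym2 {x // x ∈ S})) (e : Sym2 {x // x ∈ S}) :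
    Sym2.map (emv S) e ∈ emb S E ↔ e ∈ E := by
  induction e using Sym2.ind with
  | _ a b => exact mem_emb E a b

private theorem map_diag (e : Sym2 {x // x ∈ S}) :
    (Sym2.map (emv S) e).IsDiag ↔ e.IsDiag := by
  induction e using Sym2.ind with
  | _ a b =>
    rw [Sym2.map_mk, Sym2.mk_isDiag_iff, Sym2.mk_isDiag_iff]
    exact (emv S).injective.eq_iff

theorem max_emb (hS : GenPos S) (V : Finset {x // x ∈ S}) (E : Finset (Sym2 {x // x ∈ S})) :
    Max (L (pos S)) V E ↔ emb S E ∈ PTV S (V.map (emv S)) := by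
  constructor
  · rintro ⟨hF, hM⟩
    obtain ⟨h1, h2, h3⟩ := (fam_emb hS E V).1 hF
    refine ⟨emb_sub E, h1, h2, h3, ?_⟩
    intro e' he' hd hnot
    obtain ⟨e, rfl⟩ : ∃ e : Sym2 {x // x ∈ S}, Sym2.map (emv S) e = e' := by
      induction e' using Sym2.ind with
      | _ p q =>
        rw [Finset.mk_mem_sym2_iff] at he'
        exact ⟨s(⟨p, he'.1⟩, ⟨q, he'.2⟩), rfl⟩
    rintro ⟨h4, h5⟩
    rw [map_diag] at hd
    rw [map_mem_emb] at hnot
    rw [← emb_ins] at h4 h5
    have h7 : Fam (L (pos S)) V (insert e E) := by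
      refine (fam_emb hS (insert e E) V).2 ⟨?_, h4, h5⟩
      rw [emb_diag]
      intro f hf
      rcases Finset.mem_insert.1 hf with h6 | h6
      · rw [h6]; exact hd
      · exact (emb_diag E).1 h1 f h6
    refine hM e hd hnot ?_
    rw [ins_eq _ inferInstance]
    exact h7
  · rintro ⟨-, h1, h2, h3, h4⟩
    refine ⟨(fam_emb hS E V).2 ⟨h1, h2, h3⟩, ?_⟩
    intro e hd hnot hF
    have hF' : Fam (L (pos S)) V (insert e E) := by
      rw [ins_eq _ inferInstance] at hF
      exact hF
    obtain ⟨h5, h6, h7⟩ := (fam_emb hS (insert e E) V).1 hF'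
    have hmem : Sym2.map (emv S) e ∈ S.sym2 :=
      emb_sub (insert e E) ((map_mem_emb (insert e E) e).2 (Finset.mem_insert_self e E))
    rw [emb_ins] at h6 h7
    exact h4 _ hmem (fun h => hd ((map_diag e).1 h)) (fun h => hnot ((map_mem_emb E e).1 h))
      ⟨h6, h7⟩

theorem ncard_ptv (hS : GenPos S) (V : Finset {x // x ∈ S}) : (PTV S (V.map (emv S))).ncard = cnt (L (pos S)) V := by
  have h1 : PTV S (V.map (emv S)) = emb S '' (MaxSet (L (pos S)) V : Set (Finset (Sym2 {x // x ∈ S}))) := by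
    ext F
    constructor
    · intro hF
      obtain ⟨E, rfl⟩ := exists_emb hF.1
      refine ⟨E, ?_, rfl⟩
      rw [Finset.mem_coe]
      unfold MaxSet
      rw [Finset.mem_filter]
      exact ⟨Finset.mem_univ _, (max_emb hS V E).2 hF⟩
    · rintro ⟨E, hE, rfl⟩
      rw [Finset.mem_coe] at hE
      unfold MaxSet at hE
      rw [Finset.mem_filter] at hE
      exact (max_emb hS V E).1 hE.2
  rw [h1, Set.ncard_image_of_injective _ emb_inj, Set.ncard_coe_finset]
  rfl

theorem ncard_triang (hS : GenPos S) : (Triang S).ncard = cnt (L (pos S)) ∅ := by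
  rw [← ncard_ptv hS ∅, Finset.map_empty]
  congr 1
  ext E
  have h0 : ∀ F : Finset (Sym2 (ℝ × ℝ)), PtOn ∅ F := fun F p hp => absurd hp (Finset.notMem_empty p)
  constructor
  · rintro ⟨h1, h2, h3, h4⟩
    exact ⟨h1, h2, h3, h0 _, fun e he hd hn h => h4 e he hd hn h.1⟩
  · rintro ⟨h1, h2, h3, -, h4⟩
    exact ⟨h1, h2, h3, fun e he hd hn h => h4 e he hd hn ⟨h, h0 _⟩⟩

theorem ncard_ppt (hS : GenPos S) : (PPT S).ncard = cnt (L (pos S)) (Finset.univ.filter fun w => Inner (L (pos S)) w) := by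
  rw [← cnt_univ (ccL (gen_val hS)), ← ncard_ptv hS Finset.univ]
  have h1 : (Finset.univ : Finset {x // x ∈ S}).map (emv S) = S := by
    ext x
    rw [Finset.mem_map]
    constructor
    · rintro ⟨a, -, rfl⟩
      exact a.2
    · intro hx
      exact ⟨⟨x, hx⟩, Finset.mem_univ _, rfl⟩
  rw [h1]
  rfl

end Pool.Agent.Work.MP_02cc39_co.PT
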