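import Pool.Agent.Work.MP_02cc39_co.Defs
import Pool.Agent.Work.MP_02cc39_co.PT.Geo

set_option autoImplicit false

/-!
# Definitions for finite sets of points (fixed)
-/

namespace Pool.Agent.Work.MP_02cc39_co.PT

open Classical

/-- at every point of `V` all edges are strictly on one side of a line -/
def PtOn (V : Finset (ℝ × ℝ)) (E : Finset (Sym2 (ℝ × ℝ))) : Prop :=
  ∀ p ∈ V, ∃ v : ℝ × ℝ, ∀ q : ℝ × ℝ, s(p, q) ∈ E → 0 < v.1 * (q.1 - p.1) + v.2 * (q.2 - p.2)

/-- the maximal ones among the noncrossing graphs on `S` which are pointed at the points of `V` -/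
def PTV (S V : Finset (ℝ × ℝ)) : Set (Finset (Sym2 (ℝ × ℝ))) :=
  {E | E ⊆ S.sym2 ∧ (∀ e ∈ E, ¬ e.IsDiag) ∧ NonCrossing E ∧ PtOn V E ∧
    ∀ e ∈ S.sym2, ¬ e.IsDiag → e ∉ E → ¬ (NonCrossing (insert e E) ∧ PtOn V (insert e E))}

/-- the points of `S` as a configuration -/
def pos (S : Finset (ℝ × ℝ)) : {x // x ∈ S} → ℝ × ℝ := fun x => x.1

/-- the inclusion as an embedding -/
def emv (S : Finset (ℝ × ℝ)) : {x // x ∈ S} ↪ ℝ × ℝ := Function.Embedding.subtype _

/-- a graph on the index type as a graph on the points -/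
def emb (S : Finset (ℝ × ℝ)) (E : Finset (Sym2 {x // x ∈ S})) : Finset (Sym2 (ℝ × ℝ)) :=
  E.map ⟨Sym2.map (emv S), Sym2.map.injective (emv S).injective⟩

end Pool.Agent.Work.MP_02cc39_co.PT
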