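import Pool.Agent.Work.MP_02cc39_co.PT.LinkDefs
import Pool.Agent.Work.MP_02cc39_co.PT.Bridge
import Pool.Agent.Work.MP_02cc39_co.PT.VisUp
import Pool.Agent.Work.MP_02cc39_co.PT.DirHalf

set_option autoImplicit false

/-!
# Graphs on a finite point set and graphs on the index type (size M)

PROOFS.
`gen_val`: injective clear; det = 0 for three different points of S would make them collinear (theorem `GenPos.det_ne` in Pool.Agent.Work.MP_02cc39_co.Visible, D (b - a) (c - a) is det after unfolding).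
`mem_emb`: `Finset.mem_map`, injectivity of Sym2.map. `emb_sub`, `exists_emb`: the image of emb is exactly the set of subsets of S.sym2 (take E := the preimage, univ.filter).
`noncross_emb`: an edge of emb S E is s(a.1, b.1) with s(a,b) ∈ E; four different ends: `cross_iff`. (a ≠ b, c ≠ d by hnd.)
`pton_emb`: (→) at v ∈ V: vector v0 with 0 < v0.(q - p) for all neighbours: `ptd_of_strict` with u := -v0 (if there is no neighbour: fine too, ptd_of_strict has no condition then). (←) `ptd_dir` gives u, take v0 := -u; every q with s(p,q) ∈ emb S E is a point of S.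
`fam_emb`: from these. `emb_insert`: Finset.map_insert.
-/

namespace Pool.Agent.Work.MP_02cc39_co.PT

open Classical

variable {S : Finset (ℝ × ℝ)}

theorem gen_val (hS : GenPos S) : Gen (pos S) := by
  refine ⟨fun a b h => Subtype.ext h, ?_⟩
  intro i j k hij hik hjk h0
  exact hS.det_ne i.2 j.2 k.2 (fun h => hij (Subtype.ext h)) (fun h => hik (Subtype.ext h))
    (fun h => hjk (Subtype.ext h)) h0

theorem mem_emb (E : Finset (Sym2 {x // x ∈ S})) (a b : {x // x ∈ S}) : s(a.1, b.1) ∈ emb S E ↔ s(a, b) ∈ E := by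
  have h : s(a.1, b.1) = (⟨Sym2.map (emv S), Sym2.map.injective (emv S).injective⟩ :
      Sym2 {x // x ∈ S} ↪ Sym2 (ℝ × ℝ)) s(a, b) := rfl
  unfold emb
  rw [h, Finset.mem_map']

theorem of_mem_emb {E : Finset (Sym2 {x // x ∈ S})} {p q : ℝ × ℝ} (h : s(p, q) ∈ emb S E) :
    ∃ (hp : p ∈ S) (hq : q ∈ S), s((⟨p, hp⟩ : {x // x ∈ S}), ⟨q, hq⟩) ∈ E := by
  unfold emb at h
  obtain ⟨e, he, h1⟩ := Finset.mem_map.1 h
  induction e using Sym2.ind with
  | _ a b =>
    have h2 : s(a.1, b.1) = s(p, q) := h1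
    rcases Sym2.eq_iff.1 h2 with ⟨rfl, rfl⟩ | ⟨rfl, rfl⟩
    · exact ⟨a.2, b.2, he⟩
    · refine ⟨b.2, a.2, ?_⟩
      rw [Sym2.eq_swap]
      exact he

theorem emb_sub (E : Finset (Sym2 {x // x ∈ S})) : emb S E ⊆ S.sym2 := by
  intro e he
  induction e using Sym2.ind with
  | _ p q =>
    obtain ⟨hp, hq, -⟩ := of_mem_emb he
    exact Finset.mk_mem_sym2_iff.2 ⟨hp, hq⟩

theorem exists_emb {F : Finset (Sym2 (ℝ × ℝ))} (h : F ⊆ S.sym2) : ∃ E : Finset (Sym2 {x // x ∈ S}), emb S E = F := by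
  refine ⟨Finset.univ.filter fun e => Sym2.map (emv S) e ∈ F, ?_⟩
  ext e
  induction e using Sym2.ind with
  | _ p q =>
    constructor
    · intro he
      obtain ⟨hp, hq, h1⟩ := of_mem_emb he
      exact (Finset.mem_filter.1 h1).2
    · intro he
      obtain ⟨hp, hq⟩ := Finset.mk_mem_sym2_iff.1 (h he)
      have h1 := (mem_emb (Finset.univ.filter fun e => Sym2.map (emv S) e ∈ F) ⟨p, hp⟩ ⟨q, hq⟩).2
        (Finset.mem_filter.2 ⟨Finset.mem_univ _, he⟩)
      exact h1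

theorem emb_inj : Function.Injective (emb S) := by
  intro E F h
  exact Finset.map_injective _ h

theorem emb_diag (E : Finset (Sym2 {x // x ∈ S})) : (∀ e ∈ emb S E, ¬ e.IsDiag) ↔ ∀ e ∈ E, ¬ e.IsDiag := by
  constructor
  · intro h e he
    induction e using Sym2.ind with
    | _ a b =>
      intro hd
      have h1 : a = b := Sym2.mk_isDiag_iff.1 hd
      exact h _ ((mem_emb E a b).2 he) (Sym2.mk_isDiag_iff.2 (by rw [h1]))
  · intro h e he
    induction e using Sym2.ind with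
    | _ p q =>
      obtain ⟨hp, hq, h1⟩ := of_mem_emb he
      intro hd
      have h2 : p = q := Sym2.mk_isDiag_iff.1 hd
      exact h _ h1 (Sym2.mk_isDiag_iff.2 (Subtype.ext h2))

theorem noncross_emb (hS : GenPos S) {E : Finset (Sym2 {x // x ∈ S})} (hnd : ∀ e ∈ E, ¬ e.IsDiag) :
    NonCrossing (emb S E) ↔ NonCr (L (pos S)) E := by
  have hP := gen_val hS
  have hne : ∀ {i j : {x // x ∈ S}}, s(i, j) ∈ E → i ≠ j := fun h hij => hnd _ h (Sym2.mk_isDiag_iff.2 hij)
  constructor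
  · intro h a b c d hab hcd h1 h2 h3 h4
    have h5 := h a.1 b.1 c.1 d.1 ((mem_emb E a b).2 hab) ((mem_emb E c d).2 hcd)
      (fun e => h1 (Subtype.ext e)) (fun e => h2 (Subtype.ext e)) (fun e => h3 (Subtype.ext e))
      (fun e => h4 (Subtype.ext e))
    exact (cross_iff hP (hne hab) h1 h2 h3 h4 (hne hcd)).1 h5
  · intro h a b c d hab hcd h1 h2 h3 h4
    obtain ⟨ha, hb, hab'⟩ := of_mem_emb hab
    obtain ⟨hc, hd, hcd'⟩ := of_mem_emb hcd
    have h1' : (⟨a, ha⟩ : {x // x ∈ S}) ≠ ⟨c, hc⟩ := fun e => h1 (congrArg Subtype.val e)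
    have h2' : (⟨a, ha⟩ : {x // x ∈ S}) ≠ ⟨d, hd⟩ := fun e => h2 (congrArg Subtype.val e)
    have h3' : (⟨b, hb⟩ : {x // x ∈ S}) ≠ ⟨c, hc⟩ := fun e => h3 (congrArg Subtype.val e)
    have h4' : (⟨b, hb⟩ : {x // x ∈ S}) ≠ ⟨d, hd⟩ := fun e => h4 (congrArg Subtype.val e)
    exact (cross_iff hP (hne hab') h1' h2' h3' h4' (hne hcd')).2 (h _ _ _ _ hab' hcd' h1' h2' h3' h4')

theorem pton_emb (hS : GenPos S) {E : Finset (Sym2 {x // x ∈ S})} (hnd : ∀ e ∈ E, ¬ e.IsDiag) (V : Finset {x // x ∈ S}) :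
    PtOn (V.map (emv S)) (emb S E) ↔ ∀ v ∈ V, Ptd (L (pos S)) E v := by
  have hP := gen_val hS
  constructor
  · intro h v hv
    obtain ⟨w, hw⟩ := h v.1 (Finset.mem_map.2 ⟨v, hv, rfl⟩)
    refine ptd_of_strict hP (-w) ?_
    intro b hb
    have h1 := hw b.1 ((mem_emb E v b).2 hb)
    have h2 : ht (-w) (pos S v) (pos S b) = -(w.1 * (b.1.1 - v.1.1) + w.2 * (b.1.2 - v.1.2)) := by
      unfold ht pos
      simp only [Prod.fst_neg, Prod.snd_neg]
      ring
    rw [h2]
    linarith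
  · intro h p hp
    obtain ⟨v, hv, rfl⟩ := Finset.mem_map.1 hp
    obtain ⟨u, -, hu⟩ := ptd_dir hP hnd (h v hv)
    refine ⟨-u, ?_⟩
    intro q hq
    obtain ⟨hv', hq', h1⟩ := of_mem_emb hq
    have h2 := hu ⟨q, hq'⟩ h1
    unfold ht pos at h2
    have h3 : (emv S) v = v.1 := rfl
    rw [h3]
    simp only [Prod.fst_neg, Prod.snd_neg]
    simp only at h2
    linarith

theorem fam_emb (hS : GenPos S) (E : Finset (Sym2 {x // x ∈ S})) (V : Finset {x // x ∈ S}) :
    Fam (L (pos S)) V E ↔ (∀ e ∈ emb S E, ¬ e.IsDiag) ∧ NonCrossing (emb S E) ∧ PtOn (V.map (emv S)) (emb S E) := by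
  constructor
  · intro h
    exact ⟨(emb_diag E).2 h.nd, (noncross_emb hS h.nd).2 h.nc, (pton_emb hS h.nd V).2 h.pt⟩
  · rintro ⟨h1, h2, h3⟩
    have h4 := (emb_diag E).1 h1
    exact ⟨h4, (noncross_emb hS h4).1 h2, (pton_emb hS h4 V).1 h3⟩

end Pool.Agent.Work.MP_02cc39_co.PT
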