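import Pool.Agent.Work.MP_02cc39_co.PT.CritInj

set_option autoImplicit false

/-!
# The average number of non-flippable edges of a triangulation is at least the number of inner points (size S-M)

PROOFS.
`shear`: Q i := ((P i).1 + r * (P i).2, (P i).2): det Q i j k = det P i j k (ring), so L Q = L P and Gen Q; the x-coordinates of Q i, Q j (i ≠ j) are different unless (P i).1 - (P j).1 + r ((P i).2 - (P j).2) = 0; since P i ≠ P j this excludes at most
one r for each pair (if the second coordinates are equal, none). Choose r outside the finite set of excluded values (the finite image of (i,j) ↦ - ((P i).1 - (P j).1) / ((P i).2 - (P j).2); `Set.Finite.exists_notMem` or Infinite.exists_notMem_finset).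
`m_zero`: for Q: `card_FL`, `card_N`, `card_crit`; L Q = L P.
-/

namespace Pool.Agent.Work.MP_02cc39_co.PT

open Classical

variable {ι : Type*} [Fintype ι] {P : ι → ℝ × ℝ}

theorem shear (hP : Gen P) : ∃ Q : ι → ℝ × ℝ, L Q = L P ∧ Gen Q ∧ ∀ i j, i ≠ j → (Q i).1 ≠ (Q j).1 := by
  obtain ⟨r, hr⟩ := Infinite.exists_notMem_finset
    ((Finset.univ : Finset (ι × ι)).image
      fun p => -((P p.1).1 - (P p.2).1) / ((P p.1).2 - (P p.2).2))
  have hdet : ∀ i j k, det (fun i => ((P i).1 + r * (P i).2, (P i).2)) i j k = det P i j k := by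
    intro i j k
    simp only [det]
    ring
  refine ⟨fun i => ((P i).1 + r * (P i).2, (P i).2), ?_, ⟨?_, ?_⟩, ?_⟩
  · funext i j k
    simp only [L, hdet]
  · intro i j hij
    have hij' : ((P i).1 + r * (P i).2, (P i).2) = ((P j).1 + r * (P j).2, (P j).2) := hij
    obtain ⟨h1, h2⟩ := Prod.mk.inj hij'
    rw [h2] at h1
    exact hP.1 (Prod.ext (add_right_cancel h1) h2)
  · intro i j k hij hik hjk
    rw [hdet]
    exact hP.2 i j k hij hik hjk
  · intro i j hij h
    have h1 : (P i).1 + r * (P i).2 = (P j).1 + r * (P j).2 := h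
    by_cases h2 : (P i).2 = (P j).2
    · rw [h2] at h1
      exact hij (hP.1 (Prod.ext (add_right_cancel h1) h2))
    · apply hr
      rw [Finset.mem_image]
      refine ⟨(i, j), Finset.mem_univ _, ?_⟩
      have h3 : (P i).2 - (P j).2 ≠ 0 := sub_ne_zero.2 h2
      show -((P i).1 - (P j).1) / ((P i).2 - (P j).2) = r
      rw [div_eq_iff h3]
      linarith

theorem m_zero (hP : Gen P) : (Finset.univ.filter fun w => Inner (L P) w).card * cnt (L P) ∅ ≤
    ∑ x ∈ Finset.univ.filter (fun w => Inner (L P) w), cnt (L P) {x} := by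
  obtain ⟨Q, hL, hQ, hx⟩ := shear hP
  rw [← hL]
  calc (Finset.univ.filter fun w => Inner (L Q) w).card * cnt (L Q) ∅ = (setFL Q).card :=
        (card_FL hQ hx).symm
    _ ≤ (setN1 Q).card + (setN2 Q).card := card_N hQ hx
    _ ≤ _ := card_crit hQ

end Pool.Agent.Work.MP_02cc39_co.PT
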