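import Pool.Agent.Work.MP_02cc39_co.PT.PullAll
import Pool.Agent.Work.MP_02cc39_co.PT.MZero

set_option autoImplicit false

/-!
# More pointed pseudotriangulations than triangulations for 1, 2 or 3 inner points (size S-M)

I := innS P. By `sum_bb` cnt (L P) I = ∑ W ∈ I.powerset, bb (L P) W.
PROOFS.
`bb_full_pos`: `pull_full`, `cnt_pos`. `bb_but_pos`: `pull_but`, `cnt_pos`. `bb_one`: bb {w} = cnt {w} - cnt ∅ (powerset of a singleton). `beta_one`: ∑ over w ∈ I of bb {w} ≥ 0 by `m_zero` (I = innS P is definitionally the filtered set).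
`small`: I.card = 1, I = {w}: cnt I = bb ∅ + bb {w}, bb ∅ = cnt ∅ (`bb_empty`), bb I > 0. I.card = 2, I = {u,w}: cnt I = cnt ∅ + bb {u} + bb {w} + bb I, {u} = I.erase w, {w} = I.erase u, all > 0. I.card = 3, I = {u,v,w} (`Finset.card_eq_three`): cnt I = cnt ∅ + (bb {u} + bb {v} + bb {w})
+ (bb {u,v} + bb {u,w} + bb {v,w}) + bb I, the first bracket is ≥ 0 (`beta_one`), the pairs are I.erase of the third point. (Alternatively group `Finset.powerset` by `Finset.powersetCard`: Finset.sum_powerset.)
-/

namespace Pool.Agent.Work.MP_02cc39_co.PT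

open Classical

variable {ι : Type*} [Fintype ι] {P : ι → ℝ × ℝ}

theorem bb_full_pos (hP : Gen P) : 0 < bb (L P) (innS P) := by
  obtain ⟨Q, _, _, h⟩ := pull_full hP
  rw [h]
  exact_mod_cast cnt_pos (L Q) ∅

theorem bb_but_pos (hP : Gen P) (x : ι) : 0 < bb (L P) ((innS P).erase x) := by
  obtain ⟨Q, _, _, h⟩ := pull_but hP x
  rw [h]
  exact_mod_cast cnt_pos (L Q) ∅

theorem bb_one (o : ι → ι → ι → Prop) (w : ι) : bb o {w} = (cnt o {w} : ℤ) - cnt o ∅ := by
  have h := sum_bb o ({w} : Finset ι)
  have h0 : w ∉ (∅ : Finset ι) := Finset.notMem_empty w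
  have h1 : ({w} : Finset ι) = insert w ∅ := rfl
  rw [h1, Finset.sum_powerset_insert h0, Finset.powerset_empty, Finset.sum_singleton,
    Finset.sum_singleton, bb_empty] at h
  rw [h1]
  linarith

theorem beta_one (hP : Gen P) : 0 ≤ ∑ w ∈ innS P, bb (L P) {w} := by
  have h : ((innS P).card * cnt (L P) ∅ : ℕ) ≤ ∑ x ∈ innS P, cnt (L P) {x} := m_zero hP
  have h' : (((innS P).card * cnt (L P) ∅ : ℕ) : ℤ) ≤ ((∑ x ∈ innS P, cnt (L P) {x} : ℕ) : ℤ) := by
    exact_mod_cast h
  have h2 : ∑ w ∈ innS P, bb (L P) {w} = (∑ w ∈ innS P, (cnt (L P) {w} : ℤ)) - (innS P).card * (cnt (L P) ∅ : ℤ) := by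
    rw [Finset.sum_congr rfl fun w _ => bb_one (L P) w, Finset.sum_sub_distrib, Finset.sum_const,
      nsmul_eq_mul]
  rw [h2]
  push_cast at h'
  linarith

theorem small (hP : Gen P) (h1 : 1 ≤ (innS P).card) (h3 : (innS P).card ≤ 3) : cnt (L P) ∅ < cnt (L P) (innS P) := by
  have hfull := bb_full_pos hP
  have hbut := bb_but_pos hP
  have hone := beta_one hP
  have hsum := sum_bb (L P) (innS P)
  have he := bb_empty (L P)
  have key : (cnt (L P) ∅ : ℤ) < cnt (L P) (innS P) := by
    have hc : (innS P).card = 1 ∨ (innS P).card = 2 ∨ (innS P).card = 3 := by omega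
    rcases hc with hc | hc | hc
    · obtain ⟨w, hw⟩ := Finset.card_eq_one.1 hc
      rw [hw] at hfull hsum ⊢
      have h0 : w ∉ (∅ : Finset ι) := Finset.notMem_empty w
      have h1 : ({w} : Finset ι) = insert w ∅ := rfl
      rw [h1, Finset.sum_powerset_insert h0, Finset.powerset_empty, Finset.sum_singleton,
        Finset.sum_singleton] at hsum
      rw [h1] at hfull ⊢
      linarith
    · obtain ⟨u, w, huw, hw⟩ := Finset.card_eq_two.1 hc
      have hu := hbut w
      have hv := hbut u
      rw [hw] at hfull hsum hu hv ⊢
      have e1 : ({u, w} : Finset ι).erase w = {u} := by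
        ext x
        simp only [Finset.mem_erase, Finset.mem_insert, Finset.mem_singleton]
        constructor
        · rintro ⟨h1, h2 | h2⟩
          · exact h2
          · exact absurd h2 h1
        · intro h
          exact ⟨by rw [h]; exact huw, Or.inl h⟩
      have e2 : ({u, w} : Finset ι).erase u = {w} := by
        ext x
        simp only [Finset.mem_erase, Finset.mem_insert, Finset.mem_singleton]
        constructor
        · rintro ⟨h1, h2 | h2⟩
          · exact absurd h2 h1
          · exact h2
        · intro h
          exact ⟨by rw [h]; exact huw.symm, Or.inr h⟩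
      rw [e1] at hu
      rw [e2] at hv
      have h0 : u ∉ ({w} : Finset ι) := by simpa using huw
      have h00 : w ∉ (∅ : Finset ι) := Finset.notMem_empty w
      have h1 : ({w} : Finset ι) = insert w ∅ := rfl
      have hs : ∑ W ∈ ({u, w} : Finset ι).powerset, bb (L P) W
          = bb (L P) ∅ + bb (L P) {w} + (bb (L P) {u} + bb (L P) {u, w}) := by
        rw [Finset.sum_powerset_insert h0, h1, Finset.sum_powerset_insert h00,
          Finset.sum_powerset_insert h00, Finset.powerset_empty, Finset.sum_singleton,
          Finset.sum_singleton, Finset.sum_singleton, Finset.sum_singleton]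
        rfl
      rw [hs] at hsum
      linarith
    · obtain ⟨u, v, w, huv, huw, hvw, hw⟩ := Finset.card_eq_three.1 hc
      have hu := hbut w
      have hv := hbut u
      have hw' := hbut v
      rw [hw] at hfull hsum hu hv hw' hone ⊢
      have e1 : ({u, v, w} : Finset ι).erase w = {u, v} := by
        ext x
        simp only [Finset.mem_erase, Finset.mem_insert, Finset.mem_singleton]
        constructor
        · rintro ⟨h1, h2 | h2 | h2⟩
          · exact Or.inl h2
          · exact Or.inr h2
          · exact absurd h2 h1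
        · rintro (h | h)
          · exact ⟨by rw [h]; exact huw, Or.inl h⟩
          · exact ⟨by rw [h]; exact hvw, Or.inr (Or.inl h)⟩
      have e2 : ({u, v, w} : Finset ι).erase u = {v, w} := by
        ext x
        simp only [Finset.mem_erase, Finset.mem_insert, Finset.mem_singleton]
        constructor
        · rintro ⟨h1, h2 | h2 | h2⟩
          · exact absurd h2 h1
          · exact Or.inl h2
          · exact Or.inr h2
        · rintro (h | h)
          · exact ⟨by rw [h]; exact huv.symm, Or.inr (Or.inl h)⟩
          · exact ⟨by rw [h]; exact huw.symm, Or.inr (Or.inr h)⟩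
      have e3 : ({u, v, w} : Finset ι).erase v = {u, w} := by
        ext x
        simp only [Finset.mem_erase, Finset.mem_insert, Finset.mem_singleton]
        constructor
        · rintro ⟨h1, h2 | h2 | h2⟩
          · exact Or.inl h2
          · exact absurd h2 h1
          · exact Or.inr h2
        · rintro (h | h)
          · exact ⟨by rw [h]; exact huv, Or.inl h⟩
          · exact ⟨by rw [h]; exact hvw.symm, Or.inr (Or.inr h)⟩
      rw [e1] at hu
      rw [e2] at hv
      rw [e3] at hw'
      have h0 : u ∉ ({v, w} : Finset ι) := by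
        simp only [Finset.mem_insert, Finset.mem_singleton, not_or]
        exact ⟨huv, huw⟩
      have h01 : v ∉ ({w} : Finset ι) := by simpa using hvw
      have h00 : w ∉ (∅ : Finset ι) := Finset.notMem_empty w
      have h1 : ({w} : Finset ι) = insert w ∅ := rfl
      have hs : ∑ W ∈ ({u, v, w} : Finset ι).powerset, bb (L P) W
          = bb (L P) ∅ + bb (L P) {w} + (bb (L P) {v} + bb (L P) {v, w})
            + (bb (L P) {u} + bb (L P) {u, w} + (bb (L P) {u, v} + bb (L P) {u, v, w})) := by
        rw [Finset.sum_powerset_insert h0, Finset.sum_powerset_insert h01,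
          Finset.sum_powerset_insert h01, h1, Finset.sum_powerset_insert h00,
          Finset.sum_powerset_insert h00, Finset.sum_powerset_insert h00,
          Finset.sum_powerset_insert h00, Finset.powerset_empty]
        simp only [Finset.sum_singleton]
        rfl
      have hones : ∑ x ∈ ({u, v, w} : Finset ι), bb (L P) {x}
          = bb (L P) {u} + (bb (L P) {v} + bb (L P) {w}) := by
        rw [Finset.sum_insert h0, Finset.sum_insert h01, Finset.sum_singleton]
      rw [hones] at hone
      rw [hs] at hsum
      linarith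
  exact_mod_cast key

end Pool.Agent.Work.MP_02cc39_co.PT
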