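import Pool.Agent.Work.MP_02cc39_co.PT.LinkCnt
import Pool.Agent.Work.MP_02cc39_co.PT.LinkInner
import Pool.Agent.Work.MP_02cc39_co.PT.CatLink
import Pool.Agent.Work.MP_02cc39_co.PT.Small

set_option autoImplicit false

/-!
# More pointed pseudotriangulations than triangulations for 1, 2 or 3 interior points (size S-M)

PROOF. P := pos S, I := innS P. `ncard_triang`, `ncard_ppt` (innS P is the filtered set), I.card = (inner S).card by `inner_map`. Show cnt (L P) ∅ + catalan (n - 2) + (if I.card = 1 then 0 else I.card) ≤ cnt (L P) I: `sum_bb` for I; bb I = catalan (n - 2) (`alt_sum`); bb ((innS P).erase x) ≥ 1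
(`bb_but_pos`); `beta_one`, `bb_empty`. Three cases I.card = 1, 2, 3 as in `small` (Small.lean).
-/

namespace Pool.Agent.Work.MP_02cc39_co.PT

open Classical

variable {S : Finset (ℝ × ℝ)}

private lemma small_strong {ι : Type} [Fintype ι] {P : ι → ℝ × ℝ} (hP : Gen P) (h1 : 1 ≤ (innS P).card)
    (h3 : (innS P).card ≤ 3) :
    (cnt (L P) ∅ : ℤ) + bb (L P) (innS P) + (if (innS P).card = 1 then 0 else ((innS P).card : ℤ))
      ≤ cnt (L P) (innS P) := by
  have hbut := bb_but_pos hP
  have hone := beta_one hP
  have hsum := sum_bb (L P) (innS P)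
  have he := bb_empty (L P)
  have hc : (innS P).card = 1 ∨ (innS P).card = 2 ∨ (innS P).card = 3 := by omega
  rcases hc with hc | hc | hc
  · obtain ⟨w, hw⟩ := Finset.card_eq_one.1 hc
    rw [if_pos hc]
    rw [hw] at hsum ⊢
    have h0 : w ∉ (∅ : Finset ι) := Finset.notMem_empty w
    have h1 : ({w} : Finset ι) = insert w ∅ := rfl
    rw [h1, Finset.sum_powerset_insert h0, Finset.powerset_empty, Finset.sum_singleton,
      Finset.sum_singleton] at hsum
    rw [h1]
    linarith
  · have hne : (innS P).card ≠ 1 := by omega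
    rw [if_neg hne, hc]
    obtain ⟨u, w, huw, hw⟩ := Finset.card_eq_two.1 hc
    have hu := hbut w
    have hv := hbut u
    rw [hw] at hsum hu hv ⊢
    have e1 : ({u, w} : Finset ι).erase w = {u} := by
      ext x
      simp only [Finset.mem_erase, Finset.mem_insert, Finset.mem_singleton]
      constructor
      · rintro ⟨h1, h2 | h2⟩
        · exact h2
        · exact absurd h2 h1
      · intro h
        exact ⟨by rw [h]; exact huw, Or.inl h⟩
    have e2 : ({u, w} : Finset ι).erase u = {w} := by
      ext x
      simp only [Finset.mem_erase, Finset.mem_insert, Finset.mem_singleton]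
      constructor
      · rintro ⟨h1, h2 | h2⟩
        · exact absurd h2 h1
        · exact h2
      · intro h
        exact ⟨by rw [h]; exact huw.symm, Or.inr h⟩
    rw [e1] at hu
    rw [e2] at hv
    have h0 : u ∉ ({w} : Finset ι) := by simpa using huw
    have h00 : w ∉ (∅ : Finset ι) := Finset.notMem_empty w
    have h1 : ({w} : Finset ι) = insert w ∅ := rfl
    have hs : ∑ W ∈ ({u, w} : Finset ι).powerset, bb (L P) W
        = bb (L P) ∅ + bb (L P) {w} + (bb (L P) {u} + bb (L P) {u, w}) := by
      rw [Finset.sum_powerset_insert h0, h1, Finset.sum_powerset_insert h00,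
        Finset.sum_powerset_insert h00, Finset.powerset_empty, Finset.sum_singleton,
        Finset.sum_singleton, Finset.sum_singleton, Finset.sum_singleton]
      rfl
    rw [hs] at hsum
    push_cast
    linarith
  · have hne : (innS P).card ≠ 1 := by omega
    rw [if_neg hne, hc]
    obtain ⟨u, v, w, huv, huw, hvw, hw⟩ := Finset.card_eq_three.1 hc
    have hu := hbut w
    have hv := hbut u
    have hw' := hbut v
    rw [hw] at hsum hu hv hw' hone ⊢
    have e1 : ({u, v, w} : Finset ι).erase w = {u, v} := by
      ext x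
      simp only [Finset.mem_erase, Finset.mem_insert, Finset.mem_singleton]
      constructor
      · rintro ⟨h1, h2 | h2 | h2⟩
        · exact Or.inl h2
        · exact Or.inr h2
        · exact absurd h2 h1
      · rintro (h | h)
        · exact ⟨by rw [h]; exact huw, Or.inl h⟩
        · exact ⟨by rw [h]; exact hvw, Or.inr (Or.inl h)⟩
    have e2 : ({u, v, w} : Finset ι).erase u = {v, w} := by
      ext x
      simp only [Finset.mem_erase, Finset.mem_insert, Finset.mem_singleton]
      constructor
      · rintro ⟨h1, h2 | h2 | h2⟩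
        · exact absurd h2 h1
        · exact Or.inl h2
        · exact Or.inr h2
      · rintro (h | h)
        · exact ⟨by rw [h]; exact huv.symm, Or.inr (Or.inl h)⟩
        · exact ⟨by rw [h]; exact huw.symm, Or.inr (Or.inr h)⟩
    have e3 : ({u, v, w} : Finset ι).erase v = {u, w} := by
      ext x
      simp only [Finset.mem_erase, Finset.mem_insert, Finset.mem_singleton]
      constructor
      · rintro ⟨h1, h2 | h2 | h2⟩
        · exact Or.inl h2
        · exact absurd h2 h1
        · exact Or.inr h2
      · rintro (h | h)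
        · exact ⟨by rw [h]; exact huv, Or.inl h⟩
        · exact ⟨by rw [h]; exact hvw.symm, Or.inr (Or.inr h)⟩
    rw [e1] at hu
    rw [e2] at hv
    rw [e3] at hw'
    have h0 : u ∉ ({v, w} : Finset ι) := by
      simp only [Finset.mem_insert, Finset.mem_singleton, not_or]
      exact ⟨huv, huw⟩
    have h01 : v ∉ ({w} : Finset ι) := by simpa using hvw
    have h00 : w ∉ (∅ : Finset ι) := Finset.notMem_empty w
    have h1 : ({w} : Finset ι) = insert w ∅ := rfl
    have hs : ∑ W ∈ ({u, v, w} : Finset ι).powerset, bb (L P) W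
        = bb (L P) ∅ + bb (L P) {w} + (bb (L P) {v} + bb (L P) {v, w})
          + (bb (L P) {u} + bb (L P) {u, w} + (bb (L P) {u, v} + bb (L P) {u, v, w})) := by
      rw [Finset.sum_powerset_insert h0, Finset.sum_powerset_insert h01,
        Finset.sum_powerset_insert h01, h1, Finset.sum_powerset_insert h00,
        Finset.sum_powerset_insert h00, Finset.sum_powerset_insert h00,
        Finset.sum_powerset_insert h00, Finset.powerset_empty]
      simp only [Finset.sum_singleton]
      rfl
    have hones : ∑ x ∈ ({u, v, w} : Finset ι), bb (L P) {x}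
        = bb (L P) {u} + (bb (L P) {v} + bb (L P) {w}) := by
      rw [Finset.sum_insert h0, Finset.sum_insert h01, Finset.sum_singleton]
    rw [hones] at hone
    rw [hs] at hsum
    push_cast
    linarith

theorem main_small (hS : GenPos S) (h1 : 1 ≤ (Pool.Agent.Work.MP_02cc39_co.inner S).card)
    (h3 : (Pool.Agent.Work.MP_02cc39_co.inner S).card ≤ 3) :
    (Triang S).ncard + catalan (S.card - 2) + (if (Pool.Agent.Work.MP_02cc39_co.inner S).card = 1 then 0
      else (Pool.Agent.Work.MP_02cc39_co.inner S).card) ≤ (PPT S).ncard := by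
  have hP := gen_val hS
  have hcard : (Pool.Agent.Work.MP_02cc39_co.inner S).card = (innS (pos S)).card := by
    rw [inner_map hS, Finset.card_map]
  rw [hcard] at h1 h3 ⊢
  have hn : Fintype.card {x // x ∈ S} = S.card := Fintype.card_coe S
  have h2 : 2 ≤ Fintype.card {x // x ∈ S} := by
    obtain ⟨w, hw⟩ := Finset.card_pos.1 (by omega : 0 < (innS (pos S)).card)
    have hw' : Inner (L (pos S)) w := (Finset.mem_filter.1 hw).2
    obtain ⟨⟨a, ha⟩, _⟩ := hw'
    exact Fintype.one_lt_card_iff.2 ⟨a, w, ha⟩
  have hall := alt_sum hP h2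
  have hmain := small_strong hP h1 h3
  rw [hall, hn] at hmain
  rw [ncard_triang hS, ncard_ppt hS]
  have hmain' : (cnt (L (pos S)) ∅ : ℤ) + (catalan (S.card - 2) : ℤ) +
      ((if (innS (pos S)).card = 1 then 0 else (innS (pos S)).card : ℕ) : ℤ)
      ≤ (cnt (L (pos S)) (innS (pos S)) : ℤ) := by
    push_cast
    exact hmain
  exact_mod_cast hmain'

end Pool.Agent.Work.MP_02cc39_co.PT
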