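import Pool.Agent.Work.MP_02cc39_co.PT.MainOne
import Pool.Agent.Work.MP_02cc39_co.PT.MainSmall

set_option autoImplicit false

/-!
# At most three interior points, with the exact values of all terms but one
-/

namespace Pool.Agent.Work.MP_02cc39_co.PT

open Classical

/-- the case distinction -/
theorem three_strong {ι : Type} [Fintype ι] [DecidableEq ι] {P : ι → ℝ × ℝ} (hP : Gen P) (h1 : 1 ≤ (innS P).card)
    (h3 : (innS P).card ≤ 3) :
    ((cnt (L P) ∅ : ℤ) + bb (L P) (innS P) +
      (if (innS P).card = 1 then 0 else ∑ x ∈ innS P, bb (L P) ((innS P).erase x)) ≤ cnt (L P) (innS P)) ∧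
    ((innS P).card ≤ 2 → (cnt (L P) ∅ : ℤ) + bb (L P) (innS P) +
      (if (innS P).card = 1 then 0 else ∑ x ∈ innS P, bb (L P) ((innS P).erase x)) = cnt (L P) (innS P)) := by
  have hone := beta_one hP
  have hsum := sum_bb (L P) (innS P)
  have he := bb_empty (L P)
  have hc : (innS P).card = 1 ∨ (innS P).card = 2 ∨ (innS P).card = 3 := by omega
  rcases hc with hc | hc | hc
  · obtain ⟨w, hw⟩ := Finset.card_eq_one.1 hc
    rw [if_pos hc]
    rw [hw] at hsum ⊢
    have h0 : w ∉ (∅ : Finset ι) := Finset.notMem_empty w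
    have h1 : ({w} : Finset ι) = insert w ∅ := rfl
    rw [h1, Finset.sum_powerset_insert h0, Finset.powerset_empty, Finset.sum_singleton,
      Finset.sum_singleton] at hsum
    rw [h1]
    exact ⟨by linarith, fun _ => by linarith⟩
  · have hne : (innS P).card ≠ 1 := by omega
    rw [if_neg hne]
    obtain ⟨u, w, huw, hw⟩ := Finset.card_eq_two.1 hc
    rw [hw] at hsum ⊢
    have e1 : ({u, w} : Finset ι).erase w = {u} := by
      ext x
      simp only [Finset.mem_erase, Finset.mem_insert, Finset.mem_singleton]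
      constructor
      · rintro ⟨h1, h2 | h2⟩
        · exact h2
        · exact absurd h2 h1
      · intro h
        exact ⟨by rw [h]; exact huw, Or.inl h⟩
    have e2 : ({u, w} : Finset ι).erase u = {w} := by
      ext x
      simp only [Finset.mem_erase, Finset.mem_insert, Finset.mem_singleton]
      constructor
      · rintro ⟨h1, h2 | h2⟩
        · exact absurd h2 h1
        · exact h2
      · intro h
        exact ⟨by rw [h]; exact huw.symm, Or.inr h⟩
    have h0 : u ∉ ({w} : Finset ι) := by simpa using huw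
    have h00 : w ∉ (∅ : Finset ι) := Finset.notMem_empty w
    have h1 : ({w} : Finset ι) = insert w ∅ := rfl
    have hs : ∑ W ∈ ({u, w} : Finset ι).powerset, bb (L P) W
        = bb (L P) ∅ + bb (L P) {w} + (bb (L P) {u} + bb (L P) {u, w}) := by
      rw [Finset.sum_powerset_insert h0, h1, Finset.sum_powerset_insert h00,
        Finset.sum_powerset_insert h00, Finset.powerset_empty, Finset.sum_singleton,
        Finset.sum_singleton, Finset.sum_singleton, Finset.sum_singleton]
      rfl
    have ht : ∑ x ∈ ({u, w} : Finset ι), bb (L P) (({u, w} : Finset ι).erase x) = bb (L P) {w} + bb (L P) {u} := by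
      rw [Finset.sum_insert h0, Finset.sum_singleton, e1, e2]
    rw [hs] at hsum
    rw [ht]
    exact ⟨by linarith, fun _ => by linarith⟩
  · have hne : (innS P).card ≠ 1 := by omega
    rw [if_neg hne]
    refine ⟨?_, fun h => absurd hc (by omega)⟩
    obtain ⟨u, v, w, huv, huw, hvw, hw⟩ := Finset.card_eq_three.1 hc
    rw [hw] at hsum hone ⊢
    have e1 : ({u, v, w} : Finset ι).erase w = {u, v} := by
      ext x
      simp only [Finset.mem_erase, Finset.mem_insert, Finset.mem_singleton]
      constructor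
      · rintro ⟨h1, h2 | h2 | h2⟩
        · exact Or.inl h2
        · exact Or.inr h2
        · exact absurd h2 h1
      · rintro (h | h)
        · exact ⟨by rw [h]; exact huw, Or.inl h⟩
        · exact ⟨by rw [h]; exact hvw, Or.inr (Or.inl h)⟩
    have e2 : ({u, v, w} : Finset ι).erase u = {v, w} := by
      ext x
      simp only [Finset.mem_erase, Finset.mem_insert, Finset.mem_singleton]
      constructor
      · rintro ⟨h1, h2 | h2 | h2⟩
        · exact absurd h2 h1
        · exact Or.inl h2
        · exact Or.inr h2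
      · rintro (h | h)
        · exact ⟨by rw [h]; exact huv.symm, Or.inr (Or.inl h)⟩
        · exact ⟨by rw [h]; exact huw.symm, Or.inr (Or.inr h)⟩
    have e3 : ({u, v, w} : Finset ι).erase v = {u, w} := by
      ext x
      simp only [Finset.mem_erase, Finset.mem_insert, Finset.mem_singleton]
      constructor
      · rintro ⟨h1, h2 | h2 | h2⟩
        · exact Or.inl h2
        · exact absurd h2 h1
        · exact Or.inr h2
      · rintro (h | h)
        · exact ⟨by rw [h]; exact huv, Or.inl h⟩
        · exact ⟨by rw [h]; exact hvw.symm, Or.inr (Or.inr h)⟩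
    have h0 : u ∉ ({v, w} : Finset ι) := by
      simp only [Finset.mem_insert, Finset.mem_singleton, not_or]
      exact ⟨huv, huw⟩
    have h01 : v ∉ ({w} : Finset ι) := by simpa using hvw
    have h00 : w ∉ (∅ : Finset ι) := Finset.notMem_empty w
    have h1 : ({w} : Finset ι) = insert w ∅ := rfl
    have hs : ∑ W ∈ ({u, v, w} : Finset ι).powerset, bb (L P) W
        = bb (L P) ∅ + bb (L P) {w} + (bb (L P) {v} + bb (L P) {v, w})
          + (bb (L P) {u} + bb (L P) {u, w} + (bb (L P) {u, v} + bb (L P) {u, v, w})) := by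
      rw [Finset.sum_powerset_insert h0, Finset.sum_powerset_insert h01,
        Finset.sum_powerset_insert h01, h1, Finset.sum_powerset_insert h00,
        Finset.sum_powerset_insert h00, Finset.sum_powerset_insert h00,
        Finset.sum_powerset_insert h00, Finset.powerset_empty]
      simp only [Finset.sum_singleton]
      rfl
    have hones : ∑ x ∈ ({u, v, w} : Finset ι), bb (L P) {x}
        = bb (L P) {u} + (bb (L P) {v} + bb (L P) {w}) := by
      rw [Finset.sum_insert h0, Finset.sum_insert h01, Finset.sum_singleton]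
    have ht : ∑ x ∈ ({u, v, w} : Finset ι), bb (L P) (({u, v, w} : Finset ι).erase x) =
        bb (L P) {v, w} + (bb (L P) {u, w} + bb (L P) {u, v}) := by
      rw [Finset.sum_insert h0, Finset.sum_insert h01, Finset.sum_singleton, e1, e2, e3]
    rw [hones] at hone
    rw [hs] at hsum
    rw [ht]
    linarith

/-- the statement for finite sets of points -/
theorem main_three {S : Finset (ℝ × ℝ)} (hS : GenPos S) (h1 : 1 ≤ (Pool.Agent.Work.MP_02cc39_co.inner S).card)
    (h3 : (Pool.Agent.Work.MP_02cc39_co.inner S).card ≤ 3) :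
    ∃ f : ℝ × ℝ → Finset (ℝ × ℝ), (∀ x ∈ Pool.Agent.Work.MP_02cc39_co.inner S, GenPos (f x) ∧ (f x).card = S.card ∧
      (Pool.Agent.Work.MP_02cc39_co.inner (f x)).card = 1) ∧
      (Triang S).ncard + catalan (S.card - 2) + (if (Pool.Agent.Work.MP_02cc39_co.inner S).card = 1 then 0
        else ∑ x ∈ Pool.Agent.Work.MP_02cc39_co.inner S, (Triang (f x)).ncard) ≤ (PPT S).ncard ∧
      ((Pool.Agent.Work.MP_02cc39_co.inner S).card ≤ 2 →
        (Triang S).ncard + catalan (S.card - 2) + (if (Pool.Agent.Work.MP_02cc39_co.inner S).card = 1 then 0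
          else ∑ x ∈ Pool.Agent.Work.MP_02cc39_co.inner S, (Triang (f x)).ncard) = (PPT S).ncard) := by
  have hP := gen_val hS
  choose! f hf using fun p (hp : p ∈ Pool.Agent.Work.MP_02cc39_co.inner S) => main_one hS hp
  refine ⟨f, fun x hx => ⟨(hf x hx).1, (hf x hx).2.1, (hf x hx).2.2.1⟩, ?_⟩
  have hcard : (Pool.Agent.Work.MP_02cc39_co.inner S).card = (innS (pos S)).card := by
    rw [inner_map hS, Finset.card_map]
  have hb : ∑ x ∈ Pool.Agent.Work.MP_02cc39_co.inner S, ((Triang (f x)).ncard : ℤ) =
      ∑ x ∈ innS (pos S), bb (L (pos S)) ((innS (pos S)).erase x) := by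
    have h4 : ∀ x ∈ Pool.Agent.Work.MP_02cc39_co.inner S, ((Triang (f x)).ncard : ℤ) =
        ∑ V ∈ ((Pool.Agent.Work.MP_02cc39_co.inner S).erase x).powerset,
          (-1 : ℤ) ^ (((Pool.Agent.Work.MP_02cc39_co.inner S).erase x).card - V.card) * ((PTV S V).ncard : ℤ) :=
      fun x hx => ((hf x hx).2.2.2).symm
    rw [Finset.sum_congr rfl h4, inner_map hS, Finset.sum_map]
    refine Finset.sum_congr rfl fun x _ => ?_
    rw [← Finset.map_erase, sum_link hS]
  rw [hcard] at h1 h3 ⊢
  have hn : Fintype.card {x // x ∈ S} = S.card := Fintype.card_coe S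
  have h2 : 2 ≤ Fintype.card {x // x ∈ S} := by
    obtain ⟨w, hw⟩ := Finset.card_pos.1 (by omega : 0 < (innS (pos S)).card)
    have hw' : Inner (L (pos S)) w := (Finset.mem_filter.1 hw).2
    obtain ⟨⟨a, ha⟩, _⟩ := hw'
    exact Fintype.one_lt_card_iff.2 ⟨a, w, ha⟩
  have hall := alt_sum hP h2
  have hmain := three_strong hP h1 h3
  rw [hall, hn, ← hb] at hmain
  rw [ncard_triang hS, ncard_ppt hS]
  constructor
  · have h5 : (cnt (L (pos S)) ∅ : ℤ) + (catalan (S.card - 2) : ℤ) +
        ((if (innS (pos S)).card = 1 then 0 else ∑ x ∈ Pool.Agent.Work.MP_02cc39_co.inner S, (Triang (f x)).ncard : ℕ) : ℤ)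
        ≤ (cnt (L (pos S)) (innS (pos S)) : ℤ) := by
      push_cast
      exact hmain.1
    exact_mod_cast h5
  · intro h6
    have h5 : (cnt (L (pos S)) ∅ : ℤ) + (catalan (S.card - 2) : ℤ) +
        ((if (innS (pos S)).card = 1 then 0 else ∑ x ∈ Pool.Agent.Work.MP_02cc39_co.inner S, (Triang (f x)).ncard : ℕ) : ℤ)
        = (cnt (L (pos S)) (innS (pos S)) : ℤ) := by
      push_cast
      exact hmain.2 h6
    exact_mod_cast h5

end Pool.Agent.Work.MP_02cc39_co.PT
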