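import Pool.Agent.Work.MP_02cc39_co.PT.OneCentre
import Pool.Agent.Work.MP_02cc39_co.PT.MainAlt
import Pool.Agent.Work.MP_02cc39_co.PT.MainThree

set_option autoImplicit false

/-!
# The edge law and the explicit formulas for finite sets of points (size M)

`side S p q` is the number of the points of S strictly to the left of the line from p to q.
PROOFS. P := pos S.
`main_edge`: `edge_law` for P; the sum over the subsets of inner S is transported as in `sum_link` (MainAlt.lean): V ↦ V.map (emv S); the set {E ∈ PTV S (V.map) | s(p,q) ∈ E} corresponds to {E ∈ MaxSet | s(a,b) ∈ E} under emb S (`max_emb`, `mem_emb`); (innO \ V).card = card - V.card. side S p q = number of the j with L P a b j (dt is det).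
`main_centre`: `one_centre`, `sum_link` with W = (innS P).erase x (see MainOne.lean).
`main_explicit`: `three_strong` (MainThree.lean) for P, `alt_sum`, `one_centre` for every inner point, `ncard_triang`, `ncard_ppt`; multiply by 2. For card = 1: innS P = {x}: (innS P).erase x = ∅, bb ∅ = cnt ∅ = T.
-/

namespace Pool.Agent.Work.MP_02cc39_co.PT

open Classical

variable {S : Finset (ℝ × ℝ)}

/-- the number of the points of `S` strictly to the left of the line from `p` to `q` -/
noncomputable def side (S : Finset (ℝ × ℝ)) (p q : ℝ × ℝ) : ℕ := (S.filter fun u => 0 < dt p q u).card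

private theorem sd_card {α : Type*} (d : DecidableEq α) {A B : Finset α} (h : B ⊆ A) :
    (@SDiff.sdiff _ (@Finset.instSDiff _ d) A B).card = A.card - B.card :=
  Finset.card_sdiff_of_subset h

private theorem erase_eq {α : Type*} (d1 d2 : DecidableEq α) (A : Finset α) (a : α) :
    @Finset.erase _ d1 A a = @Finset.erase _ d2 A a := by
  apply Finset.ext
  intro x
  constructor
  · intro h
    exact (@Finset.mem_erase _ d2 _ _ _).2 ((@Finset.mem_erase _ d1 _ _ _).1 h)
  · intro h
    exact (@Finset.mem_erase _ d1 _ _ _).2 ((@Finset.mem_erase _ d2 _ _ _).1 h)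

private theorem side_eq (a b : {x // x ∈ S}) :
    (Finset.univ.filter fun j => L (pos S) a b j).card = side S a.1 b.1 := by
  unfold side
  rw [← Finset.card_map (emv S)]
  have h : (Finset.univ.filter fun j => L (pos S) a b j).map (emv S) =
      S.filter fun u => 0 < dt a.1 b.1 u := by
    ext u
    rw [Finset.mem_map, Finset.mem_filter]
    constructor
    · rintro ⟨j, hj, rfl⟩
      rw [Finset.mem_filter] at hj
      exact ⟨j.2, hj.2⟩
    · rintro ⟨hu, h1⟩
      refine ⟨⟨u, hu⟩, ?_, rfl⟩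
      rw [Finset.mem_filter]
      exact ⟨Finset.mem_univ _, h1⟩
  rw [h]

private theorem ncard_edge (hS : GenPos S) (V : Finset {x // x ∈ S}) (a b : {x // x ∈ S})
    (d : DecidablePred fun E : Finset (Sym2 {x // x ∈ S}) => s(a, b) ∈ E) :
    {E | E ∈ PTV S (V.map (emv S)) ∧ s(a.1, b.1) ∈ E}.ncard =
      (@Finset.filter _ (fun E => s(a, b) ∈ E) d (MaxSet (L (pos S)) V)).card := by
  have h1 : {E | E ∈ PTV S (V.map (emv S)) ∧ s(a.1, b.1) ∈ E} =
      emb S '' ((@Finset.filter _ (fun E => s(a, b) ∈ E) d (MaxSet (L (pos S)) V) : Finset (Finset (Sym2 {x // x ∈ S}))) :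
        Set (Finset (Sym2 {x // x ∈ S}))) := by
    ext F
    constructor
    · rintro ⟨hF, hab⟩
      obtain ⟨E, rfl⟩ := exists_emb hF.1
      refine ⟨E, ?_, rfl⟩
      rw [Finset.mem_coe, Finset.mem_filter]
      refine ⟨?_, (mem_emb E a b).1 hab⟩
      unfold MaxSet
      rw [Finset.mem_filter]
      exact ⟨Finset.mem_univ _, (max_emb hS V E).2 hF⟩
    · rintro ⟨E, hE, rfl⟩
      rw [Finset.mem_coe, Finset.mem_filter] at hE
      obtain ⟨hE, hab⟩ := hE
      unfold MaxSet at hE
      rw [Finset.mem_filter] at hE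
      exact ⟨(max_emb hS V E).1 hE.2, (mem_emb E a b).2 hab⟩
  rw [h1, Set.ncard_image_of_injective _ emb_inj, Set.ncard_coe_finset]

/-- the sum with the point `x` left out, in terms of the index type -/
private theorem centre_bb (hS : GenPos S) {x : {x // x ∈ S}} (hx : x ∈ innS (pos S)) :
    2 * bb (L (pos S)) ((innS (pos S)).erase x) +
      ∑ q ∈ S.erase x.1, (catalan (side S x.1 q) : ℤ) * (catalan (side S q x.1) : ℤ) =
        (catalan (S.card - 1) : ℤ) := by
  have hin : Inner (L (pos S)) x := (Finset.mem_filter.1 hx).2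
  have h1 := one_centre (gen_val hS) hin
  have hn : Fintype.card {x // x ∈ S} = S.card := Fintype.card_coe S
  rw [hn] at h1
  have h2 : ∑ q ∈ S.erase x.1, (catalan (side S x.1 q) : ℤ) * (catalan (side S q x.1) : ℤ) =
      ∑ q ∈ Finset.univ.erase x, (catalan (side S x.1 q.1) : ℤ) * (catalan (side S q.1 x.1) : ℤ) := by
    have h3 : S.erase x.1 = (Finset.univ.erase x).map (emv S) := by
      ext u
      rw [Finset.mem_map, Finset.mem_erase]
      constructor
      · rintro ⟨h4, h5⟩
        refine ⟨⟨u, h5⟩, ?_, rfl⟩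
        rw [Finset.mem_erase]
        exact ⟨fun h6 => h4 (by rw [← h6]), Finset.mem_univ _⟩
      · rintro ⟨j, hj, rfl⟩
        rw [Finset.mem_erase] at hj
        exact ⟨fun h6 => hj.1 (Subtype.ext h6), j.2⟩
    rw [h3, Finset.sum_map]
    rfl
  rw [h2, ← h1]
  have h3 : ∀ q : {x // x ∈ S}, (catalan (Finset.univ.filter fun j => L (pos S) x q j).card : ℤ) *
      (catalan (Finset.univ.filter fun j => L (pos S) q x j).card : ℤ) =
        (catalan (side S x.1 q.1) : ℤ) * (catalan (side S q.1 x.1) : ℤ) := by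
    intro q
    rw [side_eq, side_eq]
  rw [Finset.sum_congr rfl fun q _ => h3 q]
  rw [erase_eq _ (fun a b => Classical.propDecidable (a = b)) (innS (pos S)) x,
    erase_eq _ (fun a b => Classical.propDecidable (a = b)) Finset.univ x]

private theorem sum_erase (hS : GenPos S) (x : {x // x ∈ S}) :
    ∑ V ∈ ((Pool.Agent.Work.MP_02cc39_co.inner S).erase x.1).powerset,
      (-1 : ℤ) ^ (((Pool.Agent.Work.MP_02cc39_co.inner S).erase x.1).card - V.card) *
        ((PTV S V).ncard : ℤ) = bb (L (pos S)) ((innS (pos S)).erase x) := by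
  have h1 : (Pool.Agent.Work.MP_02cc39_co.inner S).erase x.1 =
      ((innS (pos S)).erase x).map (emv S) := by
    rw [inner_map hS, Finset.map_erase]
    rfl
  rw [h1, sum_link hS]

theorem main_edge (hS : GenPos S) {p q : ℝ × ℝ} (hp : p ∈ S) (hq : q ∈ S) (hpq : p ≠ q) :
    ∑ V ∈ (Pool.Agent.Work.MP_02cc39_co.inner S).powerset,
      (-1 : ℤ) ^ ((Pool.Agent.Work.MP_02cc39_co.inner S).card - V.card) * (({E | E ∈ PTV S V ∧ s(p, q) ∈ E}.ncard : ℕ) : ℤ) =
        (catalan (side S p q) : ℤ) * (catalan (side S q p) : ℤ) := by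
  obtain ⟨a, rfl⟩ : ∃ a : {x // x ∈ S}, a.1 = p := ⟨⟨p, hp⟩, rfl⟩
  obtain ⟨b, rfl⟩ : ∃ b : {x // x ∈ S}, b.1 = q := ⟨⟨q, hq⟩, rfl⟩
  have hab : a ≠ b := fun h => hpq (by rw [h])
  have h1 := edge_law (gen_val hS) hab
  rw [side_eq, side_eq] at h1
  rw [← h1, inner_map hS]
  unfold esum
  symm
  refine Finset.sum_bij (fun V _ => V.map (emv S)) ?_ ?_ ?_ ?_
  · intro V hV
    rw [Finset.mem_powerset] at hV ⊢
    exact Finset.map_subset_map.2 hV
  · intro V₁ _ V₂ _ h
    exact Finset.map_injective _ h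
  · intro U hU
    rw [Finset.mem_powerset, Finset.subset_map_iff] at hU
    obtain ⟨V, hV, rfl⟩ := hU
    exact ⟨V, Finset.mem_powerset.2 hV, rfl⟩
  · intro V hV
    rw [Finset.card_map, Finset.card_map, sd_card _ (Finset.mem_powerset.1 hV)]
    exact congrArg₂ (fun s t : ℤ => s * t) rfl (congrArg _ (ncard_edge hS V a b _).symm)

theorem main_centre (hS : GenPos S) {z : ℝ × ℝ} (hz : z ∈ Pool.Agent.Work.MP_02cc39_co.inner S) :
    2 * ∑ V ∈ ((Pool.Agent.Work.MP_02cc39_co.inner S).erase z).powerset,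
      (-1 : ℤ) ^ (((Pool.Agent.Work.MP_02cc39_co.inner S).erase z).card - V.card) * ((PTV S V).ncard : ℤ) +
      ∑ q ∈ S.erase z, (catalan (side S z q) : ℤ) * (catalan (side S q z) : ℤ) = (catalan (S.card - 1) : ℤ) := by
  have hzS : z ∈ S := (Finset.mem_filter.1 hz).1
  obtain ⟨x, rfl⟩ : ∃ x : {x // x ∈ S}, x.1 = z := ⟨⟨z, hzS⟩, rfl⟩
  have hx : x ∈ innS (pos S) := Finset.mem_filter.2 ⟨Finset.mem_univ _, (inner_link hS x).1 hz⟩
  rw [sum_erase hS]
  exact centre_bb hS hx

/-- explicit formulas for one and two interior points, explicit lower bound for three -/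
theorem main_explicit (hS : GenPos S) :
    ((Pool.Agent.Work.MP_02cc39_co.inner S).card = 1 → ∀ z ∈ Pool.Agent.Work.MP_02cc39_co.inner S,
      2 * ((Triang S).ncard : ℤ) = (catalan (S.card - 1) : ℤ) -
        ∑ q ∈ S.erase z, (catalan (side S z q) : ℤ) * (catalan (side S q z) : ℤ) ∧
      ((PPT S).ncard : ℤ) = ((Triang S).ncard : ℤ) + (catalan (S.card - 2) : ℤ)) ∧
    ((Pool.Agent.Work.MP_02cc39_co.inner S).card = 2 ∨ (Pool.Agent.Work.MP_02cc39_co.inner S).card = 3 →
      2 * ((Triang S).ncard : ℤ) + 2 * (catalan (S.card - 2) : ℤ) + ∑ z ∈ Pool.Agent.Work.MP_02cc39_co.inner S,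
        ((catalan (S.card - 1) : ℤ) - ∑ q ∈ S.erase z, (catalan (side S z q) : ℤ) * (catalan (side S q z) : ℤ)) ≤
          2 * ((PPT S).ncard : ℤ)) ∧
    ((Pool.Agent.Work.MP_02cc39_co.inner S).card = 2 →
      2 * ((Triang S).ncard : ℤ) + 2 * (catalan (S.card - 2) : ℤ) + ∑ z ∈ Pool.Agent.Work.MP_02cc39_co.inner S,
        ((catalan (S.card - 1) : ℤ) - ∑ q ∈ S.erase z, (catalan (side S z q) : ℤ) * (catalan (side S q z) : ℤ)) =
          2 * ((PPT S).ncard : ℤ)) := by
  have hP := gen_val hS
  have hcard : (Pool.Agent.Work.MP_02cc39_co.inner S).card = (innS (pos S)).card := by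
    rw [inner_map hS, Finset.card_map]
  have hn : Fintype.card {x // x ∈ S} = S.card := Fintype.card_coe S
  have hppt : (PPT S).ncard = cnt (L (pos S)) (innS (pos S)) := ncard_ppt hS
  have htri := ncard_triang hS
  have hsum : ∑ z ∈ Pool.Agent.Work.MP_02cc39_co.inner S,
      ((catalan (S.card - 1) : ℤ) -
        ∑ q ∈ S.erase z, (catalan (side S z q) : ℤ) * (catalan (side S q z) : ℤ)) =
      2 * ∑ x ∈ innS (pos S), bb (L (pos S)) ((innS (pos S)).erase x) := by
    rw [inner_map hS, Finset.sum_map, Finset.mul_sum]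
    refine Finset.sum_congr rfl fun x hx => ?_
    have h1 := centre_bb hS hx
    have h2 : emv S x = x.1 := rfl
    rw [h2]
    linarith
  have h2c : 1 ≤ (innS (pos S)).card → 2 ≤ Fintype.card {x // x ∈ S} := by
    intro h1
    obtain ⟨w, hw⟩ := Finset.card_pos.1 (by omega : 0 < (innS (pos S)).card)
    have hw' : Inner (L (pos S)) w := (Finset.mem_filter.1 hw).2
    obtain ⟨⟨a, ha⟩, _⟩ := hw'
    exact Fintype.one_lt_card_iff.2 ⟨a, w, ha⟩
  have hstr : 1 ≤ (innS (pos S)).card → (innS (pos S)).card ≤ 3 →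
      ((cnt (L (pos S)) ∅ : ℤ) + (catalan (S.card - 2) : ℤ) +
        (if (innS (pos S)).card = 1 then 0
          else ∑ x ∈ innS (pos S), bb (L (pos S)) ((innS (pos S)).erase x)) ≤
            cnt (L (pos S)) (innS (pos S))) ∧
      ((innS (pos S)).card ≤ 2 → (cnt (L (pos S)) ∅ : ℤ) + (catalan (S.card - 2) : ℤ) +
        (if (innS (pos S)).card = 1 then 0
          else ∑ x ∈ innS (pos S), bb (L (pos S)) ((innS (pos S)).erase x)) =
            cnt (L (pos S)) (innS (pos S))) := by
    intro h1 h3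
    have h4 := three_strong hP h1 h3
    rw [alt_sum hP (h2c h1), hn] at h4
    exact h4
  rw [hcard]
  refine ⟨?_, ?_, ?_⟩
  · intro hc z hz
    have hm := main_centre hS hz
    have he : (Pool.Agent.Work.MP_02cc39_co.inner S).erase z = ∅ := by
      rw [← Finset.card_eq_zero, Finset.card_erase_of_mem hz, hcard, hc]
    have ht : (PTV S ∅).ncard = (Triang S).ncard := by
      rw [htri, ← ncard_ptv hS ∅, Finset.map_empty]
    rw [he, Finset.powerset_empty, Finset.sum_singleton, Finset.card_empty, Nat.sub_zero, pow_zero,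
      one_mul, ht] at hm
    refine ⟨by linarith, ?_⟩
    have h4 := (hstr (by omega) (by omega)).2 (by omega)
    rw [if_pos hc, add_zero] at h4
    rw [hppt, htri]
    exact h4.symm
  · intro hc
    have hne : (innS (pos S)).card ≠ 1 := by omega
    have h4 := (hstr (by omega) (by omega)).1
    rw [if_neg hne] at h4
    rw [hsum, hppt, htri]
    linarith
  · intro hc
    have hne : (innS (pos S)).card ≠ 1 := by omega
    have h4 := (hstr (by omega) (by omega)).2 (by omega)
    rw [if_neg hne] at h4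
    rw [hsum, hppt, htri]
    linarith

end Pool.Agent.Work.MP_02cc39_co.PT
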