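import Pool.Agent.Work.MP_02cc39_co.PT.MainEdge

set_option autoImplicit false

/-!
# At most three interior points, with the explicit values of the numbers of triangulations of the sets f x
-/

namespace Pool.Agent.Work.MP_02cc39_co.PT

open Classical

/-- the statement for finite sets of points -/
theorem main_three_x {S : Finset (ℝ × ℝ)} (hS : GenPos S) (h1 : 1 ≤ (Pool.Agent.Work.MP_02cc39_co.inner S).card)
    (h3 : (Pool.Agent.Work.MP_02cc39_co.inner S).card ≤ 3) :
    ∃ f : ℝ × ℝ → Finset (ℝ × ℝ), (∀ x ∈ Pool.Agent.Work.MP_02cc39_co.inner S, GenPos (f x) ∧ (f x).card = S.card ∧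
      (Pool.Agent.Work.MP_02cc39_co.inner (f x)).card = 1 ∧
      2 * (Triang (f x)).ncard + ∑ q ∈ S.erase x, catalan (side S x q) * catalan (side S q x) = catalan (S.card - 1)) ∧
      (Triang S).ncard + catalan (S.card - 2) + (if (Pool.Agent.Work.MP_02cc39_co.inner S).card = 1 then 0
        else ∑ x ∈ Pool.Agent.Work.MP_02cc39_co.inner S, (Triang (f x)).ncard) ≤ (PPT S).ncard ∧
      ((Pool.Agent.Work.MP_02cc39_co.inner S).card ≤ 2 →
        (Triang S).ncard + catalan (S.card - 2) + (if (Pool.Agent.Work.MP_02cc39_co.inner S).card = 1 then 0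
          else ∑ x ∈ Pool.Agent.Work.MP_02cc39_co.inner S, (Triang (f x)).ncard) = (PPT S).ncard) := by
  have hP := gen_val hS
  choose! f hf using fun p (hp : p ∈ Pool.Agent.Work.MP_02cc39_co.inner S) => main_one hS hp
  refine ⟨f, fun x hx => ⟨(hf x hx).1, (hf x hx).2.1, (hf x hx).2.2.1, ?_⟩, ?_⟩
  · have h1 := main_centre hS hx
    rw [(hf x hx).2.2.2] at h1
    exact_mod_cast h1
  have hcard : (Pool.Agent.Work.MP_02cc39_co.inner S).card = (innS (pos S)).card := by
    rw [inner_map hS, Finset.card_map]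
  have hb : ∑ x ∈ Pool.Agent.Work.MP_02cc39_co.inner S, ((Triang (f x)).ncard : ℤ) =
      ∑ x ∈ innS (pos S), bb (L (pos S)) ((innS (pos S)).erase x) := by
    have h4 : ∀ x ∈ Pool.Agent.Work.MP_02cc39_co.inner S, ((Triang (f x)).ncard : ℤ) =
        ∑ V ∈ ((Pool.Agent.Work.MP_02cc39_co.inner S).erase x).powerset,
          (-1 : ℤ) ^ (((Pool.Agent.Work.MP_02cc39_co.inner S).erase x).card - V.card) * ((PTV S V).ncard : ℤ) :=
      fun x hx => ((hf x hx).2.2.2).symm
    rw [Finset.sum_congr rfl h4, inner_map hS, Finset.sum_map]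
    refine Finset.sum_congr rfl fun x _ => ?_
    rw [← Finset.map_erase, sum_link hS]
  rw [hcard] at h1 h3 ⊢
  have hn : Fintype.card {x // x ∈ S} = S.card := Fintype.card_coe S
  have h2 : 2 ≤ Fintype.card {x // x ∈ S} := by
    obtain ⟨w, hw⟩ := Finset.card_pos.1 (by omega : 0 < (innS (pos S)).card)
    have hw' : Inner (L (pos S)) w := (Finset.mem_filter.1 hw).2
    obtain ⟨⟨a, ha⟩, _⟩ := hw'
    exact Fintype.one_lt_card_iff.2 ⟨a, w, ha⟩
  have hall := alt_sum hP h2
  have hmain := three_strong hP h1 h3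
  rw [hall, hn, ← hb] at hmain
  rw [ncard_triang hS, ncard_ppt hS]
  constructor
  · have h5 : (cnt (L (pos S)) ∅ : ℤ) + (catalan (S.card - 2) : ℤ) +
        ((if (innS (pos S)).card = 1 then 0 else ∑ x ∈ Pool.Agent.Work.MP_02cc39_co.inner S, (Triang (f x)).ncard : ℕ) : ℤ)
        ≤ (cnt (L (pos S)) (innS (pos S)) : ℤ) := by
      push_cast
      exact hmain.1
    exact_mod_cast h5
  · intro h6
    have h5 : (cnt (L (pos S)) ∅ : ℤ) + (catalan (S.card - 2) : ℤ) +
        ((if (innS (pos S)).card = 1 then 0 else ∑ x ∈ Pool.Agent.Work.MP_02cc39_co.inner S, (Triang (f x)).ncard : ℕ) : ℤ)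
        = (cnt (L (pos S)) (innS (pos S)) : ℤ) := by
      push_cast
      exact hmain.2 h6
    exact_mod_cast h5

end Pool.Agent.Work.MP_02cc39_co.PT
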