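import Pool.Agent.Work.MP_02cc39_co.PT.LinkCnt
import Pool.Agent.Work.MP_02cc39_co.PT.LinkInner
import Pool.Agent.Work.MP_02cc39_co.PT.MZero

set_option autoImplicit false

/-!
# The average number of critical edges for finite sets of points (size S)

PROOF. `m_zero` for P = pos S; `ncard_triang`, `ncard_ptv` for V = {w} ({w}.map (emv S) = {w.1}); `inner_map`, `Finset.sum_map`, `Finset.card_map`.
-/

namespace Pool.Agent.Work.MP_02cc39_co.PT

open Classical

variable {S : Finset (ℝ × ℝ)}

theorem main_mzero (hS : GenPos S) : (Pool.Agent.Work.MP_02cc39_co.inner S).card * (Triang S).ncard ≤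
    ∑ p ∈ Pool.Agent.Work.MP_02cc39_co.inner S, (PTV S {p}).ncard := by
  have h := m_zero (gen_val hS)
  rw [inner_map hS, Finset.card_map, Finset.sum_map, ncard_triang hS]
  refine h.trans (le_of_eq ?_)
  refine Finset.sum_congr rfl fun w _ => ?_
  rw [← ncard_ptv hS {w}, Finset.map_singleton]

end Pool.Agent.Work.MP_02cc39_co.PT
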