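import Pool.Agent.Work.MP_02cc39_co.PT.LinkCnt
import Pool.Agent.Work.MP_02cc39_co.PT.LinkInner

set_option autoImplicit false

/-!
# Every configuration in general position is a finite set of points (size M)

Q : V → ℝ × ℝ in general position, S' := Finset.univ.image Q.
PROOFS. `tr_gen`: `genPos_image`. `tr_card`: Q is injective (`Finset.card_image_of_injective`).
Let e : V ≃ {x // x ∈ S'} with (e v).1 = Q v (Equiv.ofBijective). Then L (pos S') (e a) (e b) (e c) ↔ L Q a b c (definitionally after unfolding pos, since (e a).1 = Q a). General transport lemma for an equivalence e : V ≃ V' and predicates o, o' with o' (e a) (e b) (e c) ↔ o a b c: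
 Inner o' (e w) ↔ Inner o w; Ptd o' (E.map (Sym2.map e)) (e v) ↔ Ptd o E v; NonCr, Fam, Max with E.map and V.map; so cnt o' (W.map e) = cnt o W. (One can also substitute: o' = fun a b c => o (e.symm a) (e.symm b) (e.symm c) and avoid case distinctions by working with E ↦ E.map and its inverse.)
`tr_triang`: `ncard_triang` for S' and the transport with W = ∅. `tr_inner`: `inner_map` for S' and the transport of Inner.
-/

namespace Pool.Agent.Work.MP_02cc39_co.PT

open Classical

/-- the equivalence of the unordered pairs -/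
private def syE {V V' : Type} (e : V ≃ V') : Sym2 V ≃ Sym2 V' where
  toFun := Sym2.map e
  invFun := Sym2.map e.symm
  left_inv := fun x => by
    rw [Sym2.map_map]
    simp
  right_inv := fun x => by
    rw [Sym2.map_map]
    simp

private theorem mem_tr {V V' : Type} (e : V ≃ V') (E : Finset (Sym2 V)) (a b : V) :
    s(e a, e b) ∈ E.map (syE e).toEmbedding ↔ s(a, b) ∈ E := by
  have h : s(e a, e b) = (syE e).toEmbedding s(a, b) := by
    simp [syE]
  rw [h, Finset.mem_map']

private theorem cross_tr {V V' : Type} (e : V ≃ V') {o : V → V → V → Prop}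
    {o' : V' → V' → V' → Prop} (h : ∀ a b c, o' (e a) (e b) (e c) ↔ o a b c) (a b c d : V) :
    Cross o' (e a) (e b) (e c) (e d) ↔ Cross o a b c d := by
  unfold Cross
  rw [h, h, h, h]

private theorem fam_tr {V V' : Type} (e : V ≃ V') {o : V → V → V → Prop}
    {o' : V' → V' → V' → Prop} (h : ∀ a b c, o' (e a) (e b) (e c) ↔ o a b c)
    (E : Finset (Sym2 V)) : Fam o' ∅ (E.map (syE e).toEmbedding) ↔ Fam o ∅ E := by
  constructor
  · intro hF
    refine ⟨?_, ?_, fun v hv => absurd hv (Finset.notMem_empty v)⟩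
    · intro x hx hd
      induction x with
      | _ a b =>
        have h1 := hF.nd s(e a, e b) ((mem_tr e E a b).2 hx)
        apply h1
        rw [Sym2.mk_isDiag_iff] at hd ⊢
        rw [hd]
    · intro a b c d h1 h2 hac had hbc hbd hx
      exact hF.nc (e a) (e b) (e c) (e d) ((mem_tr e E a b).2 h1) ((mem_tr e E c d).2 h2)
        (fun h3 => hac (e.injective h3)) (fun h3 => had (e.injective h3))
        (fun h3 => hbc (e.injective h3)) (fun h3 => hbd (e.injective h3))
        ((cross_tr e h a b c d).2 hx)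
  · intro hF
    refine ⟨?_, ?_, fun v hv => absurd hv (Finset.notMem_empty v)⟩
    · intro x hx hd
      induction x with
      | _ a' b' =>
        obtain ⟨a, rfl⟩ := e.surjective a'
        obtain ⟨b, rfl⟩ := e.surjective b'
        have h1 := hF.nd s(a, b) ((mem_tr e E a b).1 hx)
        apply h1
        rw [Sym2.mk_isDiag_iff] at hd ⊢
        exact e.injective hd
    · intro a' b' c' d' h1 h2 hac had hbc hbd hx
      obtain ⟨a, rfl⟩ := e.surjective a'
      obtain ⟨b, rfl⟩ := e.surjective b'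
      obtain ⟨c, rfl⟩ := e.surjective c'
      obtain ⟨d, rfl⟩ := e.surjective d'
      exact hF.nc a b c d ((mem_tr e E a b).1 h1) ((mem_tr e E c d).1 h2)
        (fun h3 => hac (by rw [h3])) (fun h3 => had (by rw [h3]))
        (fun h3 => hbc (by rw [h3])) (fun h3 => hbd (by rw [h3]))
        ((cross_tr e h a b c d).1 hx)

private theorem diag_tr {V V' : Type} (e : V ≃ V') (x : Sym2 V) :
    (syE e x).IsDiag ↔ x.IsDiag := by
  induction x with
  | _ a b =>
    have h : syE e s(a, b) = s(e a, e b) := by simp [syE]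
    rw [h, Sym2.mk_isDiag_iff, Sym2.mk_isDiag_iff]
    exact e.injective.eq_iff

private theorem max_tr {V V' : Type} (e : V ≃ V') {o : V → V → V → Prop}
    {o' : V' → V' → V' → Prop} (h : ∀ a b c, o' (e a) (e b) (e c) ↔ o a b c)
    (E : Finset (Sym2 V)) : Max o' ∅ (E.map (syE e).toEmbedding) ↔ Max o ∅ E := by
  unfold Max
  rw [fam_tr e h]
  apply and_congr_right
  intro _
  constructor
  · intro h1 x hd hx hF
    apply h1 (syE e x) (fun h2 => hd ((diag_tr e x).1 h2))
    · intro h2
      have h3 : (syE e).toEmbedding x ∈ E.map (syE e).toEmbedding := h2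
      rw [Finset.mem_map'] at h3
      exact hx h3
    · rw [← fam_tr e h, Finset.map_insert] at hF
      exact hF
  · intro h1 x' hd hx hF
    obtain ⟨x, rfl⟩ := (syE e).surjective x'
    apply h1 x (fun h2 => hd ((diag_tr e x).2 h2))
    · intro h2
      apply hx
      have h3 : (syE e).toEmbedding x ∈ E.map (syE e).toEmbedding := Finset.mem_map_of_mem _ h2
      exact h3
    · rw [← fam_tr e h, Finset.map_insert]
      exact hF

private theorem cnt_tr {V V' : Type} [Fintype V] [Fintype V'] (e : V ≃ V')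
    {o : V → V → V → Prop} {o' : V' → V' → V' → Prop}
    (h : ∀ a b c, o' (e a) (e b) (e c) ↔ o a b c) : cnt o' ∅ = cnt o ∅ := by
  unfold cnt
  have h1 : MaxSet o' ∅ = (MaxSet o ∅).map (syE e).finsetCongr.toEmbedding := by
    ext E'
    obtain ⟨E, rfl⟩ := (syE e).finsetCongr.surjective E'
    have h2 : (syE e).finsetCongr E ∈ (MaxSet o ∅).map (syE e).finsetCongr.toEmbedding ↔
        E ∈ MaxSet o ∅ := Finset.mem_map' _
    rw [h2]
    unfold MaxSet
    rw [Finset.mem_filter, Finset.mem_filter]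
    have h3 := max_tr e h E
    constructor
    · rintro ⟨-, h4⟩
      exact ⟨Finset.mem_univ _, h3.1 h4⟩
    · rintro ⟨-, h4⟩
      exact ⟨Finset.mem_univ _, h3.2 h4⟩
  rw [h1, Finset.card_map]

private theorem inner_tr {V V' : Type} (e : V ≃ V')
    {o : V → V → V → Prop} {o' : V' → V' → V' → Prop}
    (h : ∀ a b c, o' (e a) (e b) (e c) ↔ o a b c) (w : V) : Inner o' (e w) ↔ Inner o w := by
  unfold Inner
  constructor
  · rintro ⟨⟨a', ha'⟩, h2⟩
    obtain ⟨a, rfl⟩ := e.surjective a'
    refine ⟨⟨a, fun h3 => ha' (by rw [h3])⟩, ?_⟩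
    intro x hx
    obtain ⟨b', hb1, hb2, hb3⟩ := h2 (e x) (fun h3 => hx (e.injective h3))
    obtain ⟨b, rfl⟩ := e.surjective b'
    exact ⟨b, fun h3 => hb1 (by rw [h3]), fun h3 => hb2 (by rw [h3]),
      fun h3 => hb3 ((h w x b).2 h3)⟩
  · rintro ⟨⟨a, ha⟩, h2⟩
    refine ⟨⟨e a, fun h3 => ha (e.injective h3)⟩, ?_⟩
    intro x' hx
    obtain ⟨x, rfl⟩ := e.surjective x'
    obtain ⟨b, hb1, hb2, hb3⟩ := h2 x (fun h3 => hx (by rw [h3]))
    exact ⟨e b, fun h3 => hb1 (e.injective h3), fun h3 => hb2 (e.injective h3),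
      fun h3 => hb3 ((h w x b).1 h3)⟩

/-- the points as index type -/
private noncomputable def eqv {V : Type} [Fintype V] {Q : V → ℝ × ℝ} (hQ : Gen Q) :
    V ≃ {x // x ∈ Finset.univ.image Q} :=
  Equiv.ofBijective (fun v => ⟨Q v, Finset.mem_image_of_mem Q (Finset.mem_univ v)⟩) (by
    constructor
    · intro a b hab
      exact hQ.1 (congrArg Subtype.val hab)
    · rintro ⟨x, hx⟩
      obtain ⟨v, -, hv⟩ := Finset.mem_image.1 hx
      exact ⟨v, Subtype.ext hv⟩)

private theorem eqv_L {V : Type} [Fintype V] {Q : V → ℝ × ℝ} (hQ : Gen Q) (a b c : V) :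
    L (pos (Finset.univ.image Q)) (eqv hQ a) (eqv hQ b) (eqv hQ c) ↔ L Q a b c := Iff.rfl

theorem tr_gen {V : Type} [Fintype V] {Q : V → ℝ × ℝ} (hQ : Gen Q) : GenPos (Finset.univ.image Q) := by
  exact genPos_image hQ

theorem tr_card {V : Type} [Fintype V] {Q : V → ℝ × ℝ} (hQ : Gen Q) : (Finset.univ.image Q).card = Fintype.card V := by
  rw [Finset.card_image_of_injective _ hQ.1, Finset.card_univ]

theorem tr_triang {V : Type} [Fintype V] {Q : V → ℝ × ℝ} (hQ : Gen Q) : (Triang (Finset.univ.image Q)).ncard = cnt (L Q) ∅ := by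
  rw [ncard_triang (genPos_image hQ)]
  exact cnt_tr (eqv hQ) (eqv_L hQ)

theorem tr_inner {V : Type} [Fintype V] {Q : V → ℝ × ℝ} (hQ : Gen Q) :
    (Pool.Agent.Work.MP_02cc39_co.inner (Finset.univ.image Q)).card = (innS Q).card := by
  rw [inner_map (genPos_image hQ), Finset.card_map]
  have h1 : innS (pos (Finset.univ.image Q)) = (innS Q).map (eqv hQ).toEmbedding := by
    ext w'
    obtain ⟨w, rfl⟩ := (eqv hQ).surjective w'
    have h2 : eqv hQ w ∈ (innS Q).map (eqv hQ).toEmbedding ↔ w ∈ innS Q := Finset.mem_map' _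
    rw [h2]
    unfold innS
    rw [Finset.mem_filter, Finset.mem_filter]
    have h3 := inner_tr (eqv hQ) (eqv_L hQ) w
    constructor
    · rintro ⟨-, h4⟩
      exact ⟨Finset.mem_univ _, h3.1 h4⟩
    · rintro ⟨-, h4⟩
      exact ⟨Finset.mem_univ _, h3.2 h4⟩
  rw [h1, Finset.card_map]

end Pool.Agent.Work.MP_02cc39_co.PT
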