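import Pool.Agent.Work.MP_02cc39_co.PT.MainAlt
import Pool.Agent.Work.MP_02cc39_co.PT.Transport

set_option autoImplicit false

/-!
# The sum with one point left out (size S-M)

PROOF. P := pos S, x := ⟨p, _⟩ the index of p. `pull_but` gives Q with Inner (L Q) w ↔ Inner (L P) w ∧ w = x and bb (L P) ((innS P).erase x) = cnt (L Q) ∅. S' := Finset.univ.image Q: `tr_gen`, `tr_card`, `tr_triang`, `tr_inner` (innS Q = {x} because x is inner for P, `inner_link`).
(inner S).erase p = ((innS P).erase x).map (emv S) (`inner_map`, Finset.map_erase); `sum_link`.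
-/

namespace Pool.Agent.Work.MP_02cc39_co.PT

open Classical

variable {S : Finset (ℝ × ℝ)}

theorem main_one (hS : GenPos S) {p : ℝ × ℝ} (hp : p ∈ Pool.Agent.Work.MP_02cc39_co.inner S) :
    ∃ S' : Finset (ℝ × ℝ), GenPos S' ∧ S'.card = S.card ∧ (Pool.Agent.Work.MP_02cc39_co.inner S').card = 1 ∧
      ∑ V ∈ ((Pool.Agent.Work.MP_02cc39_co.inner S).erase p).powerset,
        (-1 : ℤ) ^ (((Pool.Agent.Work.MP_02cc39_co.inner S).erase p).card - V.card) * ((PTV S V).ncard : ℤ) =
          ((Triang S').ncard : ℤ) := by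
  have hpS : p ∈ S := (Finset.mem_filter.1 hp).1
  have hP := gen_val hS
  obtain ⟨Q, hQ, hQi, hQb⟩ := pull_but hP (⟨p, hpS⟩ : {x // x ∈ S})
  have hin : Inner (L (pos S)) (⟨p, hpS⟩ : {x // x ∈ S}) := (inner_link hS ⟨p, hpS⟩).1 hp
  refine ⟨Finset.univ.image Q, tr_gen hQ, ?_, ?_, ?_⟩
  · rw [tr_card hQ, Fintype.card_coe]
  · rw [tr_inner hQ]
    have h1 : innS Q = {(⟨p, hpS⟩ : {x // x ∈ S})} := by
      ext w
      unfold innS
      rw [Finset.mem_filter, Finset.mem_singleton, hQi]
      constructor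
      · rintro ⟨_, _, h2⟩
        exact h2
      · rintro rfl
        exact ⟨Finset.mem_univ _, hin, rfl⟩
    rw [h1, Finset.card_singleton]
  · have h1 : (Pool.Agent.Work.MP_02cc39_co.inner S).erase p =
        ((innS (pos S)).erase (⟨p, hpS⟩ : {x // x ∈ S})).map (emv S) := by
      rw [inner_map hS, Finset.map_erase]
      rfl
    have h2 : ∀ (d1 d2 : DecidableEq {x // x ∈ S}) (A : Finset {x // x ∈ S}) (a : {x // x ∈ S}),
        @Finset.erase _ d1 A a = @Finset.erase _ d2 A a := by
      intro d1 d2 A a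
      apply Finset.ext
      intro x
      constructor
      · intro h
        exact (@Finset.mem_erase _ d2 _ _ _).2 ((@Finset.mem_erase _ d1 _ _ _).1 h)
      · intro h
        exact (@Finset.mem_erase _ d1 _ _ _).2 ((@Finset.mem_erase _ d2 _ _ _).1 h)
    rw [h1, sum_link hS, tr_triang hQ, ← hQb]
    exact congrArg _ (h2 _ _ _ _)

end Pool.Agent.Work.MP_02cc39_co.PT
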