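import Pool.Agent.Work.MP_02cc39_co.PT.Geo

set_option autoImplicit false

/-!
# A collinear moment gives a mutation (size S-M)

Q0, Q1 : before and after, R : the moment at which m is on the segment pq.
PROOF. `same`: if two of i, j, k are equal both sides are false; otherwise hs. `mid1`: det R p m x = r * det R p q x (ring, from hm1, hm2), so L R p m x ↔ L R p q x; L Q0 p m x ↔ L R p m x and L Q0 p q x ↔ L R p q x by hs (x is not in {p,m,q}).
`mid2`: det R m q x = (1 - r) * det R p q x. `up`: hup, `dn`: det Q1 q p m = - det Q1 p q m.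
-/

namespace Pool.Agent.Work.MP_02cc39_co.PT

open Classical

variable {ι : Type*}

private theorem det_deg (Q : ι → ℝ × ℝ) {i j k : ι} (h : i = j ∨ i = k ∨ j = k) : ¬ L Q i j k := by
  unfold L
  rcases h with rfl | rfl | rfl <;> (unfold det; nlinarith)

theorem mut_of {Q0 Q1 R : ι → ℝ × ℝ} {p m q : ι} (hpm : p ≠ m) (hmq : m ≠ q) (hpq : p ≠ q) {r : ℝ} (hr0 : 0 < r) (hr1 : r < 1)
    (hm1 : (R m).1 = (1 - r) * (R p).1 + r * (R q).1) (hm2 : (R m).2 = (1 - r) * (R p).2 + r * (R q).2)
    (hs : ∀ i j k, i ≠ j → i ≠ k → j ≠ k → ¬ ((i = p ∨ i = m ∨ i = q) ∧ (j = p ∨ j = m ∨ j = q) ∧ (k = p ∨ k = m ∨ k = q)) →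
      (L Q0 i j k ↔ L R i j k) ∧ (L R i j k ↔ L Q1 i j k))
    (hup : 0 < det Q0 p q m) (hdn : det Q1 p q m < 0) : Mut (L Q0) (L Q1) p m q := by
  have hr2 : 0 < 1 - r := by linarith
  refine ⟨hpm, hmq, hpq, ?_, ?_, ?_, hup, ?_⟩
  · intro i j k h
    by_cases hij : i = j
    · exact iff_of_false (det_deg Q0 (Or.inl hij)) (det_deg Q1 (Or.inl hij))
    by_cases hik : i = k
    · exact iff_of_false (det_deg Q0 (Or.inr (Or.inl hik))) (det_deg Q1 (Or.inr (Or.inl hik)))
    by_cases hjk : j = k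
    · exact iff_of_false (det_deg Q0 (Or.inr (Or.inr hjk))) (det_deg Q1 (Or.inr (Or.inr hjk)))
    exact (hs i j k hij hik hjk h).1.trans (hs i j k hij hik hjk h).2
  · intro x hxp hxm hxq
    have h1 := (hs p m x hpm hxp.symm hxm.symm (by rintro ⟨-, -, h | h | h⟩ <;> contradiction)).1
    have h2 := (hs p q x hpq hxp.symm hxq.symm (by rintro ⟨-, -, h | h | h⟩ <;> contradiction)).1
    rw [h1, h2]
    have e : det R p m x = r * det R p q x := by
      unfold det
      rw [hm1, hm2]
      ring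
    unfold L
    rw [e]
    exact ⟨fun h => (pos_iff_pos_of_mul_pos h).1 hr0, fun h => mul_pos hr0 h⟩
  · intro x hxp hxm hxq
    have h1 := (hs m q x hmq hxm.symm hxq.symm (by rintro ⟨-, -, h | h | h⟩ <;> contradiction)).1
    have h2 := (hs p q x hpq hxp.symm hxq.symm (by rintro ⟨-, -, h | h | h⟩ <;> contradiction)).1
    rw [h1, h2]
    have e : det R m q x = (1 - r) * det R p q x := by
      unfold det
      rw [hm1, hm2]
      ring
    unfold L
    rw [e]
    exact ⟨fun h => (pos_iff_pos_of_mul_pos h).1 hr2, fun h => mul_pos hr2 h⟩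
  · unfold L
    have e : det Q1 q p m = - det Q1 p q m := by
      unfold det
      ring
    rw [e]
    linarith

end Pool.Agent.Work.MP_02cc39_co.PT
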