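import Pool.Agent.Work.MP_02cc39_co.PT.MutSym

set_option autoImplicit false

/-!
# Pointedness under a mutation (size M)

`Mut o o' p m q`. Write `x` for a point different from `p, m, q`. Order at a point v: `o v a b` means that b is to the left of va.

PROOFS (cyc: o i j k ↔ o j k i; for distinct points o v a b ↔ ¬ o v b a).
`pt_agree` (v ≠ m). If v ≠ p, q: all triples v a b are `same`. v = p: the triples p a b differ only if {a, b} = {m, q}. Let a be the
first neighbour in o (o p a b for all other neighbours b).  a = q: if m is no neighbour the same a works in o'; if m is a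
neighbour take m in o': o' p m q by dn and cyc, and o' p m x ↔ o p m x ↔ o p q x. (b = p is impossible by `ne`.)
a = m: then q is not a neighbour (o p m q is false, because o p q m), the triples p m x are `same`. a = x: the triples p x b are
`same`. Conversely let a be the first one in o'. a = m: if q is a neighbour take q in o (o p q m is `up`,
o p q x ↔ o p m x ↔ o' p m x), otherwise take m. a = q: m is no neighbour (o' p q m is false), take q. a = x: take x.
(If a = p then there is no other neighbour, the same a works.) v = q: this is the case v = p for `mut_symm` (with `Iff.symm`).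
`pt_add_p`: the first neighbour a of p in E. a = q: q is first in the new set: o p q m is `up`. a = m: then q is no neighbour; q is
first in the new set: o p q x ↔ o p m x. a = x: q or m is a neighbour, so o p x q or o p x m; o p x q ↔ ¬ o p q x ↔
¬ o p m x ↔ o p x m, so both hold and x is first in the new set. a = p: impossible (q or m is a neighbour, `ne`).
`pt_add_q`: by `mut_symm`, `pt_add_p` for o', and `pt_agree` at q (twice).
`pt_below`: `ptd_of_half` with s = p: o m p q (from `up` by cyc) and o m p x ↔ ¬ o p m x ↔ ¬ o p q x.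
`pt_both`: let a be the first neighbour of m and suppose o p q x for a neighbour x. o m p q, o m q x (mid2), o m x p (o p m x, cyc)
are true. a = p: o m p x is false. a = q: o m q p is false. a = x: o m x q is false. a = y another one: o m y p,
o m y q, o m y x and `trans_left` (v = m, s = y, a = p, b = q, c = x) give o m p x, false. a = m: `ne`.
`pt_above`: if s(p,m) is not in E: `ptd_of_half` with s = q: o m q x by mid2. If s(m,q) is not in E: `ptd_of_half_last` with
s = p: o m x p by cyc from o p m x.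
`pt_agree_m`: only the triples (m,p,q), (m,q,p) differ.
The primed statements (for o') are the unprimed ones for `mut_symm`: ¬ o' q p x ↔ o' p q x ↔ o p q x.
-/

namespace Pool.Agent.Work.MP_02cc39_co.PT

open Classical

variable {ι : Type*} {o o' : ι → ι → ι → Prop} {p m q : ι}

private theorem sx3 (h : Mut o o' p m q) {x : ι} (h1 : x ≠ p) (h2 : x ≠ m) (h3 : x ≠ q) (i j : ι) :
    o i j x ↔ o' i j x := by
  refine h.same i j x ?_
  rintro ⟨-, -, h4 | h4 | h4⟩
  · exact h1 h4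
  · exact h2 h4
  · exact h3 h4

private theorem sx2 (h : Mut o o' p m q) {x : ι} (h1 : x ≠ p) (h2 : x ≠ m) (h3 : x ≠ q) (i k : ι) :
    o i x k ↔ o' i x k := by
  refine h.same i x k ?_
  rintro ⟨-, h4 | h4 | h4, -⟩
  · exact h1 h4
  · exact h2 h4
  · exact h3 h4

private theorem sx1 (h : Mut o o' p m q) {x : ι} (h1 : x ≠ p) (h2 : x ≠ m) (h3 : x ≠ q) (j k : ι) :
    o x j k ↔ o' x j k := by
  refine h.same x j k ?_
  rintro ⟨h4 | h4 | h4, -⟩
  · exact h1 h4
  · exact h2 h4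
  · exact h3 h4

private theorem sw (hC : CC o) {v a b : ι} (h1 : v ≠ a) (h2 : v ≠ b) (h3 : a ≠ b) :
    o v a b ↔ ¬ o v b a :=
  ⟨fun h => hC.anti _ _ _ h, fun h => hC.tot _ _ _ h2 h1 h3.symm h⟩

private theorem agA (hC : CC o) (hC' : CC o') (h : Mut o o' p m q) {E : Finset (Sym2 ι)}
    (hp : Ptd o E p) : Ptd o' E p := by
  rcases hp with hp | ⟨a, haE, ha⟩
  · exact Or.inl hp
  right
  by_cases hap : a = p
  · subst hap
    exact ⟨a, haE, fun b hb hba => absurd rfl (hC.ne _ _ _ (ha b hb hba)).1⟩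
  have hpE : s(p, p) ∉ E := fun h1 => (hC.ne _ _ _ (ha p h1 (Ne.symm hap))).2.1 rfl
  by_cases haq : a = q
  · subst haq
    by_cases hmE : s(p, m) ∈ E
    · refine ⟨m, hmE, fun b hb hbm => ?_⟩
      by_cases hbq : b = a
      · subst hbq
        exact hC'.cyc _ _ _ h.dn
      have hbp : b ≠ p := fun h1 => hpE (h1 ▸ hb)
      exact (sx3 h hbp hbm hbq _ _).1 ((h.mid1 b hbp hbm hbq).2 (ha b hb hbq))
    · refine ⟨a, haE, fun b hb hbq => ?_⟩
      have hbp : b ≠ p := fun h1 => hpE (h1 ▸ hb)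
      have hbm : b ≠ m := fun h1 => hmE (h1 ▸ hb)
      exact (sx3 h hbp hbm hbq _ _).1 (ha b hb hbq)
  by_cases ham : a = m
  · subst ham
    refine ⟨a, haE, fun b hb hbm => ?_⟩
    have hbp : b ≠ p := fun h1 => hpE (h1 ▸ hb)
    by_cases hbq : b = q
    · exact absurd (hbq ▸ ha b hb hbm) (hC.anti _ _ _ h.up)
    exact (sx3 h hbp hbm hbq _ _).1 (ha b hb hbm)
  · refine ⟨a, haE, fun b hb hba => ?_⟩
    exact (sx2 h hap ham haq _ _).1 (ha b hb hba)

private theorem agB (hC : CC o) (hC' : CC o') (h : Mut o o' p m q) {E : Finset (Sym2 ι)}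
    (hp : Ptd o' E p) : Ptd o E p := by
  rcases hp with hp | ⟨a, haE, ha⟩
  · exact Or.inl hp
  right
  by_cases hap : a = p
  · subst hap
    exact ⟨a, haE, fun b hb hba => absurd rfl (hC'.ne _ _ _ (ha b hb hba)).1⟩
  have hpE : s(p, p) ∉ E := fun h1 => (hC'.ne _ _ _ (ha p h1 (Ne.symm hap))).2.1 rfl
  by_cases ham : a = m
  · subst ham
    by_cases hqE : s(p, q) ∈ E
    · refine ⟨q, hqE, fun b hb hbq => ?_⟩
      by_cases hbm : b = a
      · subst hbm
        exact h.up
      have hbp : b ≠ p := fun h1 => hpE (h1 ▸ hb)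
      exact (h.mid1 b hbp hbm hbq).1 ((sx3 h hbp hbm hbq _ _).2 (ha b hb hbm))
    · refine ⟨a, haE, fun b hb hbm => ?_⟩
      have hbp : b ≠ p := fun h1 => hpE (h1 ▸ hb)
      have hbq : b ≠ q := fun h1 => hqE (h1 ▸ hb)
      exact (sx3 h hbp hbm hbq _ _).2 (ha b hb hbm)
  by_cases haq : a = q
  · subst haq
    refine ⟨a, haE, fun b hb hbq => ?_⟩
    have hbp : b ≠ p := fun h1 => hpE (h1 ▸ hb)
    by_cases hbm : b = m
    · exact absurd (hbm ▸ ha b hb hbq) (hC'.anti _ _ _ (hC'.cyc _ _ _ h.dn))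
    exact (sx3 h hbp hbm hbq _ _).2 (ha b hb hbq)
  · refine ⟨a, haE, fun b hb hba => ?_⟩
    exact (sx2 h hap ham haq _ _).2 (ha b hb hba)

theorem pt_agree (hC : CC o) (hC' : CC o') (h : Mut o o' p m q) {E : Finset (Sym2 ι)} {v : ι} (hv : v ≠ m) :
    Ptd o E v ↔ Ptd o' E v := by
  by_cases hvp : v = p
  · subst hvp
    exact ⟨agA hC hC' h, agB hC hC' h⟩
  by_cases hvq : v = q
  · subst hvq
    have h' := mut_symm hC hC' h
    exact ⟨agB hC' hC h', agA hC' hC h'⟩
  unfold Ptd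
  have h1 : ∀ a b, o v a b ↔ o' v a b := fun a b => sx1 h hvp hv hvq a b
  simp only [h1]

private theorem mem_ins {E : Finset (Sym2 ι)} {b : ι} :
    s(p, b) ∈ insert s(p, m) (insert s(p, q) E) ↔ b = m ∨ b = q ∨ s(p, b) ∈ E := by
  rw [Finset.mem_insert, Finset.mem_insert, Sym2.congr_right, Sym2.congr_right]

theorem pt_add_p (hC : CC o) (hC' : CC o') (h : Mut o o' p m q) {E : Finset (Sym2 ι)}
    (hE : s(p, q) ∈ E ∨ s(p, m) ∈ E) (hp : Ptd o E p) : Ptd o (insert s(p, m) (insert s(p, q) E)) p := by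
  rcases hp with hp | ⟨a, haE, ha⟩
  · rcases hE with hE | hE
    · exact absurd hE (hp _)
    · exact absurd hE (hp _)
  right
  by_cases hap : a = p
  · subst hap
    rcases hE with hE | hE
    · exact absurd rfl (hC.ne _ _ _ (ha q hE h.pq.symm)).1
    · exact absurd rfl (hC.ne _ _ _ (ha m hE h.pm.symm)).1
  have hpE : s(p, p) ∉ E := fun h1 => (hC.ne _ _ _ (ha p h1 (Ne.symm hap))).2.1 rfl
  by_cases haq : a = q
  · subst haq
    refine ⟨a, mem_ins.2 (Or.inr (Or.inl rfl)), fun b hb hbq => ?_⟩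
    rcases mem_ins.1 hb with hb | hb | hb
    · subst hb
      exact h.up
    · exact absurd hb hbq
    · exact ha b hb hbq
  by_cases ham : a = m
  · subst ham
    refine ⟨q, mem_ins.2 (Or.inr (Or.inl rfl)), fun b hb hbq => ?_⟩
    rcases mem_ins.1 hb with hb | hb | hb
    · subst hb
      exact h.up
    · exact absurd hb hbq
    · by_cases hbm : b = a
      · subst hbm
        exact h.up
      have hbp : b ≠ p := fun h1 => hpE (h1 ▸ hb)
      exact (h.mid1 b hbp hbm hbq).1 (ha b hb hbm)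
  · have hx : o p a q ∧ o p a m := by
      rcases hE with hE | hE
      · have h1 := ha q hE (Ne.symm haq)
        refine ⟨h1, (sw hC (Ne.symm hap) h.pm ham).2 (fun h2 => ?_)⟩
        exact hC.anti _ _ _ h1 ((h.mid1 a hap ham haq).1 h2)
      · have h1 := ha m hE (Ne.symm ham)
        refine ⟨(sw hC (Ne.symm hap) h.pq haq).2 (fun h2 => ?_), h1⟩
        exact hC.anti _ _ _ h1 ((h.mid1 a hap ham haq).2 h2)
    refine ⟨a, mem_ins.2 (Or.inr (Or.inr haE)), fun b hb hba => ?_⟩
    rcases mem_ins.1 hb with hb | hb | hb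
    · subst hb
      exact hx.2
    · subst hb
      exact hx.1
    · exact ha b hb hba

theorem pt_add_q (hC : CC o) (hC' : CC o') (h : Mut o o' p m q) {E : Finset (Sym2 ι)}
    (hE : s(p, q) ∈ E ∨ s(m, q) ∈ E) (hq : Ptd o E q) : Ptd o (insert s(m, q) (insert s(p, q) E)) q := by
  have h' := mut_symm hC hC' h
  have h1 := (pt_agree hC hC' h h.mq.symm).1 hq
  have h2 := pt_add_p hC' hC h' (E := E) (by rwa [Sym2.eq_swap, Sym2.eq_swap (a := q) (b := m)]) h1
  rw [Sym2.eq_swap (a := q) (b := m), Sym2.eq_swap (a := q) (b := p)] at h2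
  exact (pt_agree hC hC' h h.mq.symm).2 h2

theorem pt_below (hC : CC o) (h : Mut o o' p m q) {E : Finset (Sym2 ι)} (hmm : s(m, m) ∉ E)
    (hx : ∀ x, x ≠ p → x ≠ q → s(m, x) ∈ E → ¬ o p q x) : Ptd o E m := by
  refine ptd_of_half hC (s := p) (fun b hb hbp => ?_)
  have hbm : b ≠ m := fun h1 => hmm (h1 ▸ hb)
  by_cases hbq : b = q
  · subst hbq
    exact hC.cyc _ _ _ (hC.cyc _ _ _ h.up)
  refine (sw hC h.pm.symm hbm.symm (Ne.symm hbp)).2 (fun h1 => ?_)
  exact hx b hbp hbq hb ((h.mid1 b hbp hbm hbq).1 (hC.cyc _ _ _ (hC.cyc _ _ _ h1)))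

theorem pt_both (hC : CC o) (h : Mut o o' p m q) {E : Finset (Sym2 ι)} (hmm : s(m, m) ∉ E)
    (h1 : s(p, m) ∈ E) (h2 : s(m, q) ∈ E) (hm : Ptd o E m) {x : ι} (hxp : x ≠ p) (hxq : x ≠ q) (hx : s(m, x) ∈ E) :
    ¬ o p q x := by
  intro hpx
  have hxm : x ≠ m := fun h3 => hmm (h3 ▸ hx)
  rw [Sym2.eq_swap] at h1
  have a1 : o m p q := hC.cyc _ _ _ (hC.cyc _ _ _ h.up)
  have a2 : o m q x := (h.mid2 x hxp hxm hxq).2 hpx
  have a3 : o m x p := hC.cyc _ _ _ ((h.mid1 x hxp hxm hxq).2 hpx)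
  rcases hm with hm | ⟨a, haE, ha⟩
  · exact hm _ hx
  by_cases hap : a = p
  · subst hap
    exact hC.anti _ _ _ a3 (ha x hx hxp)
  by_cases haq : a = q
  · subst haq
    exact hC.anti _ _ _ a1 (ha p h1 (Ne.symm hap))
  by_cases hax : a = x
  · subst hax
    exact hC.anti _ _ _ a2 (ha q h2 (Ne.symm haq))
  exact hC.anti _ _ _ a3 (trans_left hC (ha p h1 (Ne.symm hap)) (ha q h2 (Ne.symm haq))
    (ha x hx (Ne.symm hax)) a1 a2)

theorem pt_above (hC : CC o) (h : Mut o o' p m q) {E : Finset (Sym2 ι)} (hmm : s(m, m) ∉ E)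
    (hE : s(p, m) ∉ E ∨ s(m, q) ∉ E) (hx : ∀ x, x ≠ p → x ≠ q → s(m, x) ∈ E → o p q x) : Ptd o E m := by
  rcases hE with hE | hE
  · refine ptd_of_half hC (s := q) (fun b hb hbq => ?_)
    have hbm : b ≠ m := fun h1 => hmm (h1 ▸ hb)
    have hbp : b ≠ p := fun h1 => hE (by rw [Sym2.eq_swap]; exact h1 ▸ hb)
    exact (h.mid2 b hbp hbm hbq).2 (hx b hbp hbq hb)
  · refine ptd_of_half_last hC (s := p) (fun b hb hbp => ?_)
    have hbm : b ≠ m := fun h1 => hmm (h1 ▸ hb)
    have hbq : b ≠ q := fun h1 => hE (h1 ▸ hb)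
    exact hC.cyc _ _ _ ((h.mid1 b hbp hbm hbq).2 (hx b hbp hbq hb))

theorem pt_agree_m (hC : CC o) (hC' : CC o') (h : Mut o o' p m q) {E : Finset (Sym2 ι)}
    (hE : ¬ (s(p, m) ∈ E ∧ s(m, q) ∈ E)) : Ptd o E m ↔ Ptd o' E m := by
  have key : ∀ a b, s(m, a) ∈ E → s(m, b) ∈ E → b ≠ a → (o m a b ↔ o' m a b) := by
    intro a b ha hb hba
    by_cases ham : a = m
    · subst ham
      exact ⟨fun h1 => absurd rfl (hC.ne _ _ _ h1).1, fun h1 => absurd rfl (hC'.ne _ _ _ h1).1⟩
    by_cases hbm : b = m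
    · subst hbm
      exact ⟨fun h1 => absurd rfl (hC.ne _ _ _ h1).2.1, fun h1 => absurd rfl (hC'.ne _ _ _ h1).2.1⟩
    by_cases hap : a = p
    · by_cases hbq : b = q
      · exact absurd ⟨by rw [Sym2.eq_swap, ← hap]; exact ha, hbq ▸ hb⟩ hE
      · exact sx3 h (fun h1 => hba (h1.trans hap.symm)) hbm hbq _ _
    by_cases haq : a = q
    · by_cases hbp : b = p
      · exact absurd ⟨by rw [Sym2.eq_swap, ← hbp]; exact hb, haq ▸ ha⟩ hE
      · exact sx3 h hbp hbm (fun h1 => hba (h1.trans haq.symm)) _ _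
    exact sx2 h hap ham haq _ _
  unfold Ptd
  refine or_congr Iff.rfl (exists_congr fun a => and_congr_right fun ha => forall_congr' fun b => ?_)
  refine forall_congr' fun hb => forall_congr' fun hba => key a b ha hb hba

theorem pt_below' (hC : CC o) (hC' : CC o') (h : Mut o o' p m q) {E : Finset (Sym2 ι)} (hmm : s(m, m) ∉ E)
    (hx : ∀ x, x ≠ p → x ≠ q → s(m, x) ∈ E → o p q x) : Ptd o' E m := by
  refine pt_below hC' (mut_symm hC hC' h) hmm (fun x hxq hxp hxE => ?_)
  have hxm : x ≠ m := fun h1 => hmm (h1 ▸ hxE)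
  have h1 : o' p q x := (sx3 h hxp hxm hxq _ _).1 (hx x hxp hxq hxE)
  intro h2
  exact hC'.anti _ _ _ h1 (hC'.cyc _ _ _ h2)

theorem pt_both' (hC : CC o) (hC' : CC o') (h : Mut o o' p m q) {E : Finset (Sym2 ι)} (hmm : s(m, m) ∉ E)
    (h1 : s(p, m) ∈ E) (h2 : s(m, q) ∈ E) (hm : Ptd o' E m) {x : ι} (hxp : x ≠ p) (hxq : x ≠ q) (hx : s(m, x) ∈ E) :
    o p q x := by
  have hxm : x ≠ m := fun h1 => hmm (h1 ▸ hx)
  have h3 : ¬ o' q p x := pt_both hC' (mut_symm hC hC' h) hmm (by rwa [Sym2.eq_swap])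
    (by rwa [Sym2.eq_swap]) hm hxq hxp hx
  refine (sx3 h hxp hxm hxq _ _).2 ?_
  by_contra h4
  apply h3
  exact hC'.cyc _ _ _ (hC'.cyc _ _ _ (hC'.tot _ _ _ h.pq (Ne.symm hxp) (Ne.symm hxq) h4))

end Pool.Agent.Work.MP_02cc39_co.PT
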