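import Pool.Agent.Work.MP_02cc39_co.PT.Base

set_option autoImplicit false

/-!
# Symmetry of the mutation and the crossing facts (size M)

`Mut o o' p m q` : `m` is near the segment `pq`, above it in `o`, below it in `o'`. Write `x` for a point different from
`p, m, q`. All proofs are propositional logic with `CC` (for distinct points: `o i j k ↔ o j k i ↔ o k i j` by `cyc`,
`o j i k ↔ ¬ o i j k` by `o_swap`, `o i k j ↔ ¬ o i j k`) and the fields of `Mut`.

PROOFS.
`mut_symm`: `mid1`: o' q m x ↔ o q m x (`same`) ↔ ¬ o m q x ↔ ¬ o p q x ↔ o q p x ↔ o' q p x. `mid2`: the same with `p m`.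
`up` is `h.dn`, `dn` is `h.up`.
`t1_symm`, `t2_symm`: `Sym2.eq_swap`.
`cross_pqmx`: Cross o p q m x = (o p q m ↔ ¬ o p q x) ∧ (o m x p ↔ ¬ o m x q); o p q m is true; o m x p ↔ o p m x ↔ o p q x and
o m x q ↔ ¬ o m q x ↔ ¬ o p q x, so the second part is true. `cross_pqmx'`: the same in o', where o' p q m is false
(`dn` is o' q p m).
`no_cross1` : the second part of Cross o p m q x is o q x p ↔ ¬ o q x m; o q x p ↔ o p q x, o q x m ↔ o m q x ↔ o p q x: false.
`no_cross2` : Cross o m q p x: o p x m ↔ ¬ o p m x ↔ ¬ o p q x, o p x q ↔ ¬ o p q x: the second part is false.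
`cross_same`: if one of p, m, q is not among a, b, c, d, then all four triples are `same`. Otherwise {a,b,c,d} = {p,m,q,x} and
the two pairs are {pm, qx}, {mq, px} (or {pq, mx}, which is excluded by hypothesis), in some order: both sides are false, by
`no_cross1`, `no_cross2` (for o, and for o' by `mut_symm`) and `cross_comm`, `cross_swap`, `cross_swap'`.
(Suggestion: `by_cases` on a = p, a = m, ... or first the case distinction whether each of p, m, q is in {a,b,c,d}.)
`cross_pm_pq` (x, y not in {p,m,q}, x ≠ y): Cross o p m x y = (o p m x ↔ ¬ o p m y) ∧ (o x y p ↔ ¬ o x y m). The first part of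
Cross o p q x y follows by `mid1`. Suppose the second part fails: o x y p ↔ o x y q; and o x y m ↔ ¬ o x y p. Put T := o p q x.
o x p q ↔ T, o x m q ↔ T (mid2, cyc), o x m p ↔ ¬ T, o x p m ↔ T, o x q m ↔ ¬ T, o x q p ↔ ¬ T.
If (o x y m ↔ T): `gp x y m p q` : (o x y m ↔ o x p q) → (o x y q ↔ o x m p) → (o x y p ↔ o x m q); premises hold, the conclusion
o x y p ↔ T is false. Otherwise (o x y q ↔ T): `gp x y q p m` : (o x y q ↔ o x p m) → (o x y m ↔ o x q p) → (o x y p ↔ o x q m):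
premises hold, the conclusion o x y p ↔ ¬ T is false.
`cross_mq_pq`: the same (again m is on the other side of xy than p and q).
`cross_pq_or`: the first parts by mid1, mid2; o x y m agrees with exactly one of o x y p, o x y q.
The primed versions for o': all triples there contain x or y, use `same` (or `mut_symm`).
-/

namespace Pool.Agent.Work.MP_02cc39_co.PT

open Classical

variable {ι : Type*} {o o' : ι → ι → ι → Prop} {p m q : ι}

private theorem c1 (hC : CC o) {i j k : ι} : o j k i ↔ o i j k :=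
  ⟨fun h => hC.cyc _ _ _ (hC.cyc _ _ _ h), fun h => hC.cyc _ _ _ h⟩

private theorem c2 (hC : CC o) {i j k : ι} : o k i j ↔ o i j k :=
  ⟨fun h => hC.cyc _ _ _ h, fun h => hC.cyc _ _ _ (hC.cyc _ _ _ h)⟩

private theorem same3 (h : Mut o o' p m q) {x : ι} (hp : x ≠ p) (hm : x ≠ m) (hq : x ≠ q) (i j : ι) :
    (o i j x ↔ o' i j x) ∧ (o i x j ↔ o' i x j) ∧ (o x i j ↔ o' x i j) := by
  refine ⟨h.same _ _ _ ?_, h.same _ _ _ ?_, h.same _ _ _ ?_⟩
  · rintro ⟨-, -, h1 | h1 | h1⟩
    · exact hp h1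
    · exact hm h1
    · exact hq h1
  · rintro ⟨-, h1 | h1 | h1, -⟩
    · exact hp h1
    · exact hm h1
    · exact hq h1
  · rintro ⟨h1 | h1 | h1, -, -⟩
    · exact hp h1
    · exact hm h1
    · exact hq h1

/-- the values of all triples with `x` -/
private theorem vals (hC : CC o) (h : Mut o o' p m q) {x : ι} (hp : x ≠ p) (hm : x ≠ m)
    (hq : x ≠ q) : (o p m x ↔ o p q x) ∧ (o m x p ↔ o p q x) ∧ (o x p m ↔ o p q x) ∧
      (o m p x ↔ ¬ o p q x) ∧ (o p x m ↔ ¬ o p q x) ∧ (o x m p ↔ ¬ o p q x) ∧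
      (o m q x ↔ o p q x) ∧ (o q x m ↔ o p q x) ∧ (o x m q ↔ o p q x) ∧
      (o q m x ↔ ¬ o p q x) ∧ (o m x q ↔ ¬ o p q x) ∧ (o x q m ↔ ¬ o p q x) ∧
      (o q x p ↔ o p q x) ∧ (o x p q ↔ o p q x) ∧
      (o q p x ↔ ¬ o p q x) ∧ (o p x q ↔ ¬ o p q x) ∧ (o x q p ↔ ¬ o p q x) := by
  have e1 : o p m x ↔ o p q x := h.mid1 x hp hm hq
  have e2 : o m q x ↔ o p q x := h.mid2 x hp hm hq
  have e3 : o m p x ↔ ¬ o p q x := by
    rw [o_swap hC h.pm hp.symm hm.symm, e1]
  have e4 : o q m x ↔ ¬ o p q x := by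
    rw [o_swap hC h.mq hm.symm hq.symm, e2]
  have e5 : o q p x ↔ ¬ o p q x := o_swap hC h.pq hp.symm hq.symm
  refine ⟨e1, ?_, ?_, e3, ?_, ?_, e2, ?_, ?_, e4, ?_, ?_, ?_, ?_, e5, ?_, ?_⟩
  · rw [c1 hC (i := p), e1]
  · rw [c2 hC (k := x), e1]
  · rw [c1 hC (i := m), e3]
  · rw [c2 hC (k := x), e3]
  · rw [c1 hC (i := m), e2]
  · rw [c2 hC (k := x), e2]
  · rw [c1 hC (i := q), e4]
  · rw [c2 hC (k := x), e4]
  · rw [c1 hC (i := p)]
  · rw [c2 hC (k := x)]
  · rw [c1 hC (i := q), e5]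
  · rw [c2 hC (k := x), e5]

theorem mut_symm (hC : CC o) (hC' : CC o') (h : Mut o o' p m q) : Mut o' o q m p := by
  refine ⟨h.mq.symm, h.pm.symm, h.pq.symm, ?_, ?_, ?_, h.dn, h.up⟩
  · intro i j k hn
    refine (h.same i j k ?_).symm
    rintro ⟨h1, h2, h3⟩
    exact hn ⟨by tauto, by tauto, by tauto⟩
  · intro x hq hm hp
    obtain ⟨-, -, -, -, -, -, -, -, -, v1, -, -, -, -, v2, -, -⟩ := vals hC h hp hm hq
    rw [← (same3 h hp hm hq q m).1, ← (same3 h hp hm hq q p).1, v1, v2]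
  · intro x hq hm hp
    obtain ⟨-, -, -, v1, -, -, -, -, -, -, -, -, -, -, v2, -, -⟩ := vals hC h hp hm hq
    rw [← (same3 h hp hm hq m p).1, ← (same3 h hp hm hq q p).1, v1, v2]

theorem t1_symm {E : Finset (Sym2 ι)} : T1 q m p E ↔ T1 p m q E := by
  unfold T1
  rw [Sym2.eq_swap (a := q) (b := p)]
  constructor
  · rintro ⟨h1, x, h2, h3, h4⟩
    exact ⟨h1, x, h3, h2, h4⟩
  · rintro ⟨h1, x, h2, h3, h4⟩
    exact ⟨h1, x, h3, h2, h4⟩

theorem t2_symm {E : Finset (Sym2 ι)} : T2 q m p E ↔ T2 p m q E := by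
  unfold T2
  rw [Sym2.eq_swap (a := q) (b := m), Sym2.eq_swap (a := m) (b := p), Sym2.eq_swap (a := q) (b := p)]
  constructor
  · rintro ⟨h1, h5, h6, x, h2, h3, h4⟩
    exact ⟨h5, h1, h6, x, h3, h2, h4⟩
  · rintro ⟨h1, h5, h6, x, h2, h3, h4⟩
    exact ⟨h5, h1, h6, x, h3, h2, h4⟩

theorem cross_pqmx (hC : CC o) (h : Mut o o' p m q) {x : ι} (hp : x ≠ p) (hm : x ≠ m) (hq : x ≠ q) :
    Cross o p q m x ↔ ¬ o p q x := by
  obtain ⟨-, v1, -, -, -, -, -, -, -, -, v2, -, -, -, -, -, -⟩ := vals hC h hp hm hq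
  have v3 := h.up
  unfold Cross
  rw [v1, v2]
  tauto

theorem cross_pqmx' (hC : CC o) (hC' : CC o') (h : Mut o o' p m q) {x : ι} (hp : x ≠ p) (hm : x ≠ m) (hq : x ≠ q) :
    Cross o' p q m x ↔ o p q x := by
  obtain ⟨-, v1, -, -, -, -, -, -, -, -, v2, -, -, -, -, -, -⟩ := vals hC h hp hm hq
  have v3 : ¬ o' p q m := (o_swap hC' h.pq h.pm h.mq.symm).1 h.dn
  unfold Cross
  rw [← (same3 h hp hm hq p q).1, ← (same3 h hp hm hq m p).2.1, ← (same3 h hp hm hq m q).2.1,
    v1, v2]
  tauto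

theorem no_cross1 (hC : CC o) (h : Mut o o' p m q) {x : ι} (hp : x ≠ p) (hm : x ≠ m) (hq : x ≠ q) :
    ¬ Cross o p m q x := by
  obtain ⟨-, -, -, -, -, -, -, v1, -, -, -, -, v2, -, -, -, -⟩ := vals hC h hp hm hq
  unfold Cross
  rw [v1, v2]
  tauto

theorem no_cross2 (hC : CC o) (h : Mut o o' p m q) {x : ι} (hp : x ≠ p) (hm : x ≠ m) (hq : x ≠ q) :
    ¬ Cross o m q p x := by
  obtain ⟨-, -, -, -, v1, -, -, -, -, -, -, -, -, -, -, v2, -⟩ := vals hC h hp hm hq
  unfold Cross
  rw [v1, v2]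
  tauto

private theorem no_tri (hC : CC o) (h : Mut o o' p m q) {a b c x : ι} (hab : a ≠ b) (hac : a ≠ c)
    (hbc : b ≠ c) (hp : x ≠ p) (hm : x ≠ m) (hq : x ≠ q) (ha : a = p ∨ a = m ∨ a = q)
    (hb : b = p ∨ b = m ∨ b = q) (hc : c = p ∨ c = m ∨ c = q) (hn : s(a, b) ≠ s(p, q)) :
    ¬ Cross o a b c x := by
  rcases ha with rfl | rfl | rfl
  · rcases hb with rfl | rfl | rfl
    · exact absurd rfl hab
    · rcases hc with rfl | rfl | rfl
      · exact absurd rfl hac
      · exact absurd rfl hbc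
      · exact no_cross1 hC h hp hm hq
    · exact absurd rfl hn
  · rcases hb with rfl | rfl | rfl
    · rcases hc with rfl | rfl | rfl
      · exact absurd rfl hbc
      · exact absurd rfl hac
      · rw [cross_swap hC hab hac hm.symm hbc hp.symm]
        exact no_cross1 hC h hp hm hq
    · exact absurd rfl hab
    · rcases hc with rfl | rfl | rfl
      · exact no_cross2 hC h hp hm hq
      · exact absurd rfl hac
      · exact absurd rfl hbc
  · rcases hb with rfl | rfl | rfl
    · exact absurd Sym2.eq_swap hn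
    · rcases hc with rfl | rfl | rfl
      · rw [cross_swap hC hab hac hq.symm hbc hm.symm]
        exact no_cross2 hC h hp hm hq
      · exact absurd rfl hbc
      · exact absurd rfl hac
    · exact absurd rfl hab

/-- three of the four points are `p, m, q` -/
private theorem tri_same (hC : CC o) (hC' : CC o') (h : Mut o o' p m q) {a b c x : ι} (hab : a ≠ b)
    (hac : a ≠ c) (hbc : b ≠ c) (hax : a ≠ x) (hbx : b ≠ x) (hcx : c ≠ x)
    (ha : a = p ∨ a = m ∨ a = q) (hb : b = p ∨ b = m ∨ b = q) (hc : c = p ∨ c = m ∨ c = q)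
    (h1 : s(a, b) = s(p, q) → c ≠ m) : Cross o a b c x ↔ Cross o' a b c x := by
  have hx : x ≠ p ∧ x ≠ m ∧ x ≠ q := by
    refine ⟨?_, ?_, ?_⟩
    · rintro rfl
      have ha' := ha.resolve_left hax
      have hb' := hb.resolve_left hbx
      have hc' := hc.resolve_left hcx
      rcases ha' with rfl | rfl
      · have hb'' := hb'.resolve_left (Ne.symm hab)
        have hc'' := hc'.resolve_left (Ne.symm hac)
        exact hbc (hb''.trans hc''.symm)
      · have hb'' := hb'.resolve_right (Ne.symm hab)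
        have hc'' := hc'.resolve_right (Ne.symm hac)
        exact hbc (hb''.trans hc''.symm)
    · rintro rfl
      have ha' : a = p ∨ a = q := by tauto
      have hb' : b = p ∨ b = q := by tauto
      have hc' : c = p ∨ c = q := by tauto
      rcases ha' with rfl | rfl
      · have hb'' := hb'.resolve_left (Ne.symm hab)
        have hc'' := hc'.resolve_left (Ne.symm hac)
        exact hbc (hb''.trans hc''.symm)
      · have hb'' := hb'.resolve_right (Ne.symm hab)
        have hc'' := hc'.resolve_right (Ne.symm hac)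
        exact hbc (hb''.trans hc''.symm)
    · rintro rfl
      have ha' : a = p ∨ a = m := by tauto
      have hb' : b = p ∨ b = m := by tauto
      have hc' : c = p ∨ c = m := by tauto
      rcases ha' with rfl | rfl
      · have hb'' := hb'.resolve_left (Ne.symm hab)
        have hc'' := hc'.resolve_left (Ne.symm hac)
        exact hbc (hb''.trans hc''.symm)
      · have hb'' := hb'.resolve_right (Ne.symm hab)
        have hc'' := hc'.resolve_right (Ne.symm hac)
        exact hbc (hb''.trans hc''.symm)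
  obtain ⟨hp, hm, hq⟩ := hx
  have hn : s(a, b) ≠ s(p, q) := by
    intro he
    have hcm := h1 he
    rcases Sym2.eq_iff.1 he with ⟨rfl, rfl⟩ | ⟨rfl, rfl⟩
    · rcases hc with rfl | rfl | rfl
      · exact hac rfl
      · exact hcm rfl
      · exact hbc rfl
    · rcases hc with rfl | rfl | rfl
      · exact hbc rfl
      · exact hcm rfl
      · exact hac rfl
  have hn' : s(a, b) ≠ s(q, p) := by
    rw [Sym2.eq_swap (a := q) (b := p)]
    exact hn
  have k1 := no_tri hC h hab hac hbc hp hm hq ha hb hc hn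
  have k2 := no_tri hC' (mut_symm hC hC' h) hab hac hbc hq hm hp (by tauto) (by tauto) (by tauto) hn'
  exact iff_of_false k1 k2

theorem cross_same (hC : CC o) (hC' : CC o') (h : Mut o o' p m q) {a b c d : ι} (hab : a ≠ b) (hac : a ≠ c)
    (had : a ≠ d) (hbc : b ≠ c) (hbd : b ≠ d) (hcd : c ≠ d) (h1 : s(a, b) = s(p, q) → c ≠ m ∧ d ≠ m)
    (h2 : s(c, d) = s(p, q) → a ≠ m ∧ b ≠ m) : Cross o a b c d ↔ Cross o' a b c d := by
  by_cases ha : a = p ∨ a = m ∨ a = q
  · by_cases hb : b = p ∨ b = m ∨ b = q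
    · by_cases hc : c = p ∨ c = m ∨ c = q
      · exact tri_same hC hC' h hab hac hbc had hbd hcd ha hb hc fun he => (h1 he).1
      · by_cases hd : d = p ∨ d = m ∨ d = q
        · rw [cross_swap' hC hcd hac had hbc hbd, cross_swap' hC' hcd hac had hbc hbd]
          exact tri_same hC hC' h hab had hbd hac hbc hcd.symm ha hb hd fun he => (h1 he).2
        · push Not at hc hd
          obtain ⟨c1', c2', c3'⟩ := hc
          obtain ⟨d1', d2', d3'⟩ := hd
          unfold Cross
          rw [(same3 h c1' c2' c3' a b).1, (same3 h d1' d2' d3' a b).1,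
            (same3 h c1' c2' c3' d a).2.2, (same3 h c1' c2' c3' d b).2.2]
    · by_cases hc : c = p ∨ c = m ∨ c = q
      · by_cases hd : d = p ∨ d = m ∨ d = q
        · rw [cross_comm (a := a), cross_comm (a := a)]
          exact tri_same hC hC' h hcd hac.symm had.symm hbc.symm hbd.symm hab hc hd ha
            fun he => (h2 he).1
        · push Not at hb hd
          obtain ⟨b1', b2', b3'⟩ := hb
          obtain ⟨d1', d2', d3'⟩ := hd
          unfold Cross
          rw [(same3 h b1' b2' b3' a c).2.1, (same3 h b1' b2' b3' a d).2.1,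
            (same3 h d1' d2' d3' c a).2.1, (same3 h d1' d2' d3' c b).2.1]
      · push Not at hb hc
        obtain ⟨b1', b2', b3'⟩ := hb
        obtain ⟨c1', c2', c3'⟩ := hc
        unfold Cross
        rw [(same3 h b1' b2' b3' a c).2.1, (same3 h b1' b2' b3' a d).2.1,
          (same3 h c1' c2' c3' d a).2.2, (same3 h c1' c2' c3' d b).2.2]
  · by_cases hb : b = p ∨ b = m ∨ b = q
    · by_cases hc : c = p ∨ c = m ∨ c = q
      · by_cases hd : d = p ∨ d = m ∨ d = q
        · rw [cross_comm (a := a), cross_comm (a := a), cross_swap' hC hab hac.symm hbc.symm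
            had.symm hbd.symm, cross_swap' hC' hab hac.symm hbc.symm had.symm hbd.symm]
          exact tri_same hC hC' h hcd hbc.symm hbd.symm hac.symm had.symm hab.symm hc hd hb
            fun he => (h2 he).2
        · push Not at ha hd
          obtain ⟨a1', a2', a3'⟩ := ha
          obtain ⟨d1', d2', d3'⟩ := hd
          unfold Cross
          rw [(same3 h a1' a2' a3' b c).2.2, (same3 h a1' a2' a3' b d).2.2,
            (same3 h d1' d2' d3' c a).2.1, (same3 h d1' d2' d3' c b).2.1]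
      · push Not at ha hc
        obtain ⟨a1', a2', a3'⟩ := ha
        obtain ⟨c1', c2', c3'⟩ := hc
        unfold Cross
        rw [(same3 h a1' a2' a3' b c).2.2, (same3 h a1' a2' a3' b d).2.2,
          (same3 h c1' c2' c3' d a).2.2, (same3 h c1' c2' c3' d b).2.2]
    · push Not at ha hb
      obtain ⟨a1', a2', a3'⟩ := ha
      obtain ⟨b1', b2', b3'⟩ := hb
      unfold Cross
      rw [(same3 h a1' a2' a3' b c).2.2, (same3 h a1' a2' a3' b d).2.2,
        (same3 h a1' a2' a3' c d).1, (same3 h b1' b2' b3' c d).1]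

/-- the key case: `xy` separates `m` from at most one of `p, q` -/
private theorem sep (hC : CC o) (h : Mut o o' p m q) {x y : ι} (hxy : x ≠ y) (hxp : x ≠ p)
    (hxm : x ≠ m) (hxq : x ≠ q) (hyp : y ≠ p) (hym : y ≠ m) (hyq : y ≠ q) :
    ¬ ((o x y p ↔ o x y q) ∧ (o x y p ↔ ¬ o x y m)) := by
  obtain ⟨-, -, v1, -, -, v2, -, -, v3, -, -, v4, -, v5, -, -, v6⟩ := vals hC h hxp hxm hxq
  have g1 := hC.gp x y m p q (by
    simp only [List.nodup_cons, List.mem_cons, List.not_mem_nil, or_false, not_or,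
      not_false_eq_true, List.nodup_nil, and_true]
    exact ⟨⟨hxy, hxm, hxp, hxq⟩, ⟨hym, hyp, hyq⟩, ⟨h.pm.symm, h.mq⟩, h.pq⟩)
  have g2 := hC.gp x y q p m (by
    simp only [List.nodup_cons, List.mem_cons, List.not_mem_nil, or_false, not_or,
      not_false_eq_true, List.nodup_nil, and_true]
    exact ⟨⟨hxy, hxq, hxp, hxm⟩, ⟨hyq, hyp, hym⟩, ⟨h.pq.symm, h.mq.symm⟩, h.pm⟩)
  rw [v5, v2, v3] at g1
  rw [v1, v6, v4] at g2
  tauto

theorem cross_pm_pq (hC : CC o) (h : Mut o o' p m q) {x y : ι} (hxy : x ≠ y) (hxp : x ≠ p) (hxm : x ≠ m)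
    (hxq : x ≠ q) (hyp : y ≠ p) (hym : y ≠ m) (hyq : y ≠ q) (hx : Cross o p m x y) : Cross o p q x y := by
  have k := sep hC h hxy hxp hxm hxq hyp hym hyq
  have e1 := h.mid1 x hxp hxm hxq
  have e2 := h.mid1 y hyp hym hyq
  unfold Cross at hx ⊢
  rw [e1, e2] at hx
  tauto

theorem cross_mq_pq (hC : CC o) (h : Mut o o' p m q) {x y : ι} (hxy : x ≠ y) (hxp : x ≠ p) (hxm : x ≠ m)
    (hxq : x ≠ q) (hyp : y ≠ p) (hym : y ≠ m) (hyq : y ≠ q) (hx : Cross o m q x y) : Cross o p q x y := by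
  have k := sep hC h hxy hxp hxm hxq hyp hym hyq
  have e1 := h.mid2 x hxp hxm hxq
  have e2 := h.mid2 y hyp hym hyq
  unfold Cross at hx ⊢
  rw [e1, e2] at hx
  tauto

theorem cross_pq_or (hC : CC o) (h : Mut o o' p m q) {x y : ι} (hxy : x ≠ y) (hxp : x ≠ p) (hxm : x ≠ m)
    (hxq : x ≠ q) (hyp : y ≠ p) (hym : y ≠ m) (hyq : y ≠ q) (hx : Cross o p q x y) :
    Cross o p m x y ∨ Cross o m q x y := by
  have e1 := h.mid1 x hxp hxm hxq
  have e2 := h.mid1 y hyp hym hyq
  have e3 := h.mid2 x hxp hxm hxq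
  have e4 := h.mid2 y hyp hym hyq
  unfold Cross at hx ⊢
  rw [e1, e2, e3, e4]
  tauto

theorem cross_pq_or' (hC : CC o) (hC' : CC o') (h : Mut o o' p m q) {x y : ι} (hxy : x ≠ y) (hxp : x ≠ p) (hxm : x ≠ m)
    (hxq : x ≠ q) (hyp : y ≠ p) (hym : y ≠ m) (hyq : y ≠ q) (hx : Cross o' p q x y) :
    Cross o' p m x y ∨ Cross o' m q x y := by
  have key : ∀ u v : ι, Cross o u v x y ↔ Cross o' u v x y := by
    intro u v
    unfold Cross
    rw [(same3 h hxp hxm hxq u v).1, (same3 h hyp hym hyq u v).1,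
      (same3 h hxp hxm hxq y u).2.2, (same3 h hxp hxm hxq y v).2.2]
  rw [← key] at hx
  rw [← key, ← key]
  exact cross_pq_or hC h hxy hxp hxm hxq hyp hym hyq hx

end Pool.Agent.Work.MP_02cc39_co.PT
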