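import Pool.Agent.Work.MP_02cc39_co.PT.WInv
import Pool.Agent.Work.MP_02cc39_co.PT.Connect

set_option autoImplicit false

/-!
# The weighted law and the degree law (size M)

PROOFS.
`weighted_law`: `connect` with g o := HH o (xw c) (fun w => - c w), `hh_mut`. Cond for different p, m, q (Mut.pm, mq, pq): with A := c p + c q, B := c p + c m, C := c m + c q (nonzero): -c m * (8/(ABC)) + (2/A)(2/B + 2/C) = 4/(BC): multiply by ABC/4: -2 c m + B + C = A (field_simp, ring).
`degree_law`: R := DualNumber ℤ (or ℤ[X], or any ring with an element ε, ε^2 = 0; e.g. work in DualNumber ℤ = TrivSqZeroExt ℤ ℤ), x e := if z ∈ e then 1 - ε else 1, y w := if w = z then -1 - 2 ε else -1. Cond holds for all different p, m, q: if z is none of them: -1 + 2 = 1.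
 z = p (or q): -(1-ε)(1-ε) + (1-ε)(2-ε) = 1 - ε. z = m: (-1-2ε)(1-ε)^2 + 2(1-ε) = 1 - 2ε = (1-ε)^2 (all mod ε^2). So HH (L P) x y = HH (L P') x y (`connect`, `hh_mut`). The ε-part (snd) of HH o x y is - degsum o z: ∏ over e ∈ E of x e = 1 - (number of e ∈ E with z ∈ e) ε,
 ∏ over w ∈ I minus V of y w = (-1)^|I minus V| (1 + 2 [z ∈ I minus V] ε). (|I minus V| is written (innO o \ V).card.)
-/

namespace Pool.Agent.Work.MP_02cc39_co.PT

open Classical

variable {ι : Type*} [Fintype ι]

/-- the weights 2 / (c p + c q) -/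
noncomputable def xw {K : Type*} [Field K] (c : ι → K) : Sym2 ι → K :=
  Sym2.lift ⟨fun p q => 2 / (c p + c q), fun p q => by
    show 2 / (c p + c q) = 2 / (c q + c p)
    rw [add_comm]⟩

theorem weighted_law {K : Type*} [Field K] (c : ι → K) (hc : ∀ p q, p ≠ q → c p + c q ≠ 0) {P P' : ι → ℝ × ℝ} (hP : Gen P)
    (hP' : Gen P') : HH (L P) (xw c) (fun w => - c w) = HH (L P') (xw c) (fun w => - c w) := by
  refine connect (fun o => HH o (xw c) (fun w => - c w)) ?_ hP hP'
  rintro Q Q' hQ hQ' ⟨p, m, q, h⟩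
  refine hh_mut hQ hQ' h ?_
  have hA := hc p q h.pq
  have hB := hc p m h.pm
  have hD := hc m q h.mq
  have e1 : ∀ a b : ι, xw c s(a, b) = 2 / (c a + c b) := fun a b => rfl
  unfold Cond
  rw [e1, e1, e1]
  field_simp
  ring

/-- the signed sum of (degree of z) - 2 [z is not pointed] -/
noncomputable def degsum (o : ι → ι → ι → Prop) (z : ι) : ℤ :=
  ∑ V ∈ (innO o).powerset, (-1 : ℤ) ^ (innO o \ V).card *
    ∑ E ∈ MaxSet o V, (((E.filter fun e => z ∈ e).card : ℤ) - 2 * (if z ∈ innO o \ V then 1 else 0))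

/-- the weights of the edges -/
private noncomputable def xe (z : ι) (e : Sym2 ι) : DualNumber ℤ :=
  if z ∈ e then 1 - DualNumber.eps else 1

/-- the weights of the vertices -/
private noncomputable def ye (z w : ι) : DualNumber ℤ :=
  if w = z then -1 - 2 * DualNumber.eps else -1

private theorem eps_sq : (DualNumber.eps : DualNumber ℤ) * DualNumber.eps = 0 :=
  DualNumber.eps_mul_eps

private theorem pow_eps (n : ℕ) : (1 - DualNumber.eps : DualNumber ℤ) ^ n = 1 - (n : DualNumber ℤ) * DualNumber.eps := by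
  induction n with
  | zero => simp
  | succ n ih =>
    rw [pow_succ, ih]
    push_cast
    linear_combination (n : DualNumber ℤ) * eps_sq

omit [Fintype ι] in
private theorem wt_xe (z : ι) (E : Finset (Sym2 ι)) :
    wt (xe z) E = 1 - (((E.filter fun e => z ∈ e).card : ℕ) : DualNumber ℤ) * DualNumber.eps := by
  unfold wt xe
  rw [Finset.prod_ite, Finset.prod_const_one, mul_one, Finset.prod_const, pow_eps]

omit [Fintype ι] in
private theorem prod_ye (z : ι) (S : Finset ι) :
    ∏ w ∈ S, ye z w = (-1) ^ S.card * (1 + 2 * (if z ∈ S then 1 else 0) * DualNumber.eps) := by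
  have h1 : ∀ w ∈ S, ye z w = (-1) * (if w = z then (1 + 2 * DualNumber.eps : DualNumber ℤ) else 1) := by
    intro w _
    unfold ye
    by_cases h : w = z
    · rw [if_pos h, if_pos h]
      ring
    · rw [if_neg h, if_neg h, mul_one]
  rw [Finset.prod_congr rfl h1, Finset.prod_mul_distrib, Finset.prod_const, Finset.prod_ite_eq']
  by_cases h : z ∈ S
  · rw [if_pos h, if_pos h, mul_one]
  · rw [if_neg h, if_neg h, mul_zero, zero_mul, add_zero]

private theorem snd_cast (s t : ℤ) :
    TrivSqZeroExt.snd ((s : DualNumber ℤ) - (t : DualNumber ℤ) * DualNumber.eps) = - t := by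
  rw [TrivSqZeroExt.snd_sub, TrivSqZeroExt.snd_mul, TrivSqZeroExt.snd_intCast, TrivSqZeroExt.snd_intCast,
    TrivSqZeroExt.fst_intCast, DualNumber.snd_eps]
  simp

private theorem hh_eps (o : ι → ι → ι → Prop) (z : ι) :
    TrivSqZeroExt.snd (HH o (xe z) (ye z)) = - degsum o z := by
  have h1 : HH o (xe z) (ye z) = ∑ V ∈ (innO o).powerset, ∑ E ∈ MaxSet o V,
      ((((-1 : ℤ) ^ (innO o \ V).card : ℤ) : DualNumber ℤ) -
        (((-1 : ℤ) ^ (innO o \ V).card *
          (((E.filter fun e => z ∈ e).card : ℤ) - 2 * (if z ∈ innO o \ V then 1 else 0)) : ℤ) : DualNumber ℤ) *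
            DualNumber.eps) := by
    unfold HH wcnt
    apply Finset.sum_congr rfl
    intro V _
    rw [Finset.mul_sum]
    apply Finset.sum_congr rfl
    intro E _
    rw [wt_xe, prod_ye]
    by_cases h : z ∈ innO o \ V
    · rw [if_pos h, if_pos h]
      push_cast
      linear_combination (-(-1) ^ (innO o \ V).card * 2 *
        (((E.filter fun e => z ∈ e).card : ℕ) : DualNumber ℤ)) * eps_sq
    · rw [if_neg h, if_neg h]
      push_cast
      ring
  rw [h1, TrivSqZeroExt.snd_sum]
  unfold degsum
  rw [← Finset.sum_neg_distrib]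
  apply Finset.sum_congr rfl
  intro V _
  rw [TrivSqZeroExt.snd_sum, Finset.mul_sum, ← Finset.sum_neg_distrib]
  apply Finset.sum_congr rfl
  intro E _
  exact snd_cast _ _

theorem degree_law (z : ι) {P P' : ι → ℝ × ℝ} (hP : Gen P) (hP' : Gen P') : degsum (L P) z = degsum (L P') z := by
  have h1 : HH (L P) (xe z) (ye z) = HH (L P') (xe z) (ye z) := by
    refine connect (fun o => HH o (xe z) (ye z)) ?_ hP hP'
    rintro Q Q' hQ hQ' ⟨p, m, q, h⟩
    refine hh_mut hQ hQ' h ?_
    have hpq := h.pq
    have hpm := h.pm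
    have hmq := h.mq
    unfold Cond xe ye
    simp only [Sym2.mem_iff]
    by_cases hzp : z = p
    · subst hzp
      simp only [hpm.symm, hpm, hpq, if_true, if_false, true_or, or_self, false_or, or_false]
      ring
    by_cases hzq : z = q
    · subst hzq
      simp only [hmq.symm, hmq, hpq.symm, if_true, if_false, or_true, or_self, false_or, or_false]
      ring
    by_cases hzm : z = m
    · subst hzm
      simp only [hpm, hpm.symm, hmq, if_true, if_false, or_true, true_or, or_self, false_or, or_false]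
      linear_combination 2 * (1 - DualNumber.eps) * eps_sq
    have hzm' : ¬ m = z := fun h => hzm h.symm
    simp only [hzp, hzq, hzm, hzm', if_false, or_self]
    ring
  have h2 := congrArg TrivSqZeroExt.snd h1
  rw [hh_eps, hh_eps] at h2
  exact neg_inj.1 h2

end Pool.Agent.Work.MP_02cc39_co.PT
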