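import Pool.Agent.Work.MP_02cc39_co.PT.EConv
import Pool.Agent.Work.MP_02cc39_co.PT.WThm
import Pool.Agent.Work.MP_02cc39_co.PT.PullAll

set_option autoImplicit false

/-!
# The explicit value of the alternating sum with one point left out (size M)

n := card V.
PROOFS.
`deg_split`: the edges e ∈ E with z ∈ e are the s(z,q), q ≠ z (E loopless for E in MaxSet), so the first part of degsum o z is ∑ q ≠ z, esum o z q. The second part is -2 ∑ over V ⊆ I, z ∈ I minus V of (-1)^|I minus V| cnt o V; for z ∈ I: V ⊆ I.erase z and I minus V = insert z ((I.erase z) minus V): it is +2 bb o (I.erase z)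
((W minus V).card = W.card - V.card for V ⊆ W). For z ∉ I it is 0.
`deg_conv`: Q convex, z any point: degsum (L Q) z = ∑ q ≠ z, esum (L Q) z q (innO = ∅) = ∑ q ≠ z, catalan (l q) * catalan (r q) (`econv`) where l q + r q = n - 2. By `conv_label` (or because the points q ≠ z are totally ordered by q < q' iff L Q z q q'; z is not inner) the number r q = number of j with L Q q z j, runs through 0, ..., n - 2 once.
So the sum is ∑ k ∈ range (n - 1), catalan k * catalan (n - 2 - k) = catalan (n - 1) (`catalan_succ`, Fin sum). (n ≥ 2.)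
`one_centre`: `degree_law` for P and any convex Q (take `pull_full` hP, or `epull`), `deg_split` for P with z inner, `edge_law`, `deg_conv`.
-/

namespace Pool.Agent.Work.MP_02cc39_co.PT

open Classical

variable {V : Type} [Fintype V]

private theorem deg_count {o : V → V → V → Prop} (z : V) {E : Finset (Sym2 V)} (hE : ∀ e ∈ E, ¬ e.IsDiag) :
    ((E.filter fun e => z ∈ e).card : ℤ) = ∑ q ∈ Finset.univ.erase z, (if s(z, q) ∈ E then (1 : ℤ) else 0) := by
  rw [Finset.sum_ite, Finset.sum_const_zero, add_zero, Finset.sum_const, nsmul_eq_mul, mul_one]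
  congr 1
  symm
  refine Finset.card_bij (fun q _ => s(z, q)) ?_ ?_ ?_
  · intro q hq
    rw [Finset.mem_filter] at hq
    rw [Finset.mem_filter]
    exact ⟨hq.2, Sym2.mem_mk_left z q⟩
  · intro q _ q' _ h
    exact Sym2.congr_right.1 h
  · intro e he
    rw [Finset.mem_filter] at he
    obtain ⟨q, rfl⟩ := he.2
    refine ⟨q, ?_, rfl⟩
    rw [Finset.mem_filter, Finset.mem_erase]
    refine ⟨⟨?_, Finset.mem_univ _⟩, he.1⟩
    rintro rfl
    exact hE _ he.1 (Sym2.mk_isDiag_iff.2 rfl)

theorem deg_split {o : V → V → V → Prop} (z : V) : degsum o z = ∑ q ∈ Finset.univ.erase z, esum o z q +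
    (if z ∈ innO o then 2 * bb o ((innO o).erase z) else 0) := by
  have h1 : degsum o z = (∑ U ∈ (innO o).powerset, (-1 : ℤ) ^ (innO o \ U).card *
      ∑ E ∈ MaxSet o U, ((E.filter fun e => z ∈ e).card : ℤ)) +
      ∑ U ∈ (innO o).powerset, (-1 : ℤ) ^ (innO o \ U).card *
        ((cnt o U : ℤ) * (-2 * (if z ∈ innO o \ U then 1 else 0))) := by
    unfold degsum
    rw [← Finset.sum_add_distrib]
    refine Finset.sum_congr rfl fun U _ => ?_
    rw [← mul_add]
    congr 1
    unfold cnt
    rw [← nsmul_eq_mul, ← Finset.sum_const, ← Finset.sum_add_distrib]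
    refine Finset.sum_congr rfl fun E _ => ?_
    ring
  have h2 : ∑ U ∈ (innO o).powerset, (-1 : ℤ) ^ (innO o \ U).card *
      ∑ E ∈ MaxSet o U, ((E.filter fun e => z ∈ e).card : ℤ) = ∑ q ∈ Finset.univ.erase z, esum o z q := by
    unfold esum
    rw [Finset.sum_comm]
    refine Finset.sum_congr rfl fun U _ => ?_
    rw [← Finset.mul_sum]
    congr 1
    have h3 : ∀ q, (((MaxSet o U).filter fun E => s(z, q) ∈ E).card : ℤ) =
        ∑ E ∈ MaxSet o U, (if s(z, q) ∈ E then (1 : ℤ) else 0) := by
      intro q
      rw [Finset.sum_ite, Finset.sum_const_zero, add_zero, Finset.sum_const, nsmul_eq_mul, mul_one]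
    rw [Finset.sum_congr rfl fun q _ => h3 q, Finset.sum_comm]
    refine Finset.sum_congr rfl fun E hE => ?_
    have hM : Max o U E := (Finset.mem_filter.1 hE).2
    exact deg_count (o := o) z hM.1.nd
  rw [h1, h2]
  congr 1
  split_ifs with hz
  · unfold bb
    have h4 : (innO o).powerset.filter (fun U => z ∈ innO o \ U) = ((innO o).erase z).powerset := by
      ext U
      rw [Finset.mem_filter, Finset.mem_powerset, Finset.mem_powerset, Finset.mem_sdiff]
      constructor
      · rintro ⟨hU, _, hzU⟩ w hw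
        rw [Finset.mem_erase]
        exact ⟨fun h => hzU (h ▸ hw), hU hw⟩
      · intro hU
        refine ⟨fun w hw => (Finset.mem_erase.1 (hU hw)).2, hz, fun hw => ?_⟩
        exact (Finset.mem_erase.1 (hU hw)).1 rfl
    have h5 : ∀ U ∈ (innO o).powerset, (-1 : ℤ) ^ (innO o \ U).card *
        ((cnt o U : ℤ) * (-2 * (if z ∈ innO o \ U then 1 else 0))) =
        if z ∈ innO o \ U then (-1 : ℤ) ^ (innO o \ U).card * ((cnt o U : ℤ) * (-2)) else 0 := by
      intro U _
      split_ifs <;> ring
    rw [Finset.sum_congr rfl h5, ← Finset.sum_filter, h4, Finset.mul_sum]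
    refine Finset.sum_congr rfl fun U hU => ?_
    rw [Finset.mem_powerset] at hU
    have hUI : U ⊆ innO o := fun w hw => (Finset.mem_erase.1 (hU hw)).2
    have h6 : (innO o \ U).card = ((innO o).erase z).card - U.card + 1 := by
      rw [Finset.card_sdiff_of_subset hUI, Finset.card_erase_of_mem hz]
      have h7 : U.card ≤ ((innO o).erase z).card := Finset.card_le_card hU
      rw [Finset.card_erase_of_mem hz] at h7
      have h8 : 0 < (innO o).card := Finset.card_pos.2 ⟨z, hz⟩
      omega
    rw [h6, pow_succ]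
    ring
  · refine Finset.sum_eq_zero fun U _ => ?_
    have h9 : z ∉ innO o \ U := fun h => hz (Finset.mem_sdiff.1 h).1
    rw [if_neg h9]
    ring

private theorem trans_of {o : V → V → V → Prop} (hC : CC o) {z : V} (hz : ¬ Inner o z) {a b c : V}
    (h1 : o z a b) (h2 : o z b c) : o z a c := by
  have n1 := hC.ne _ _ _ h1
  have n2 := hC.ne _ _ _ h2
  by_contra hac
  by_cases hEq : a = c
  · subst hEq
    exact hC.anti _ _ _ h1 h2
  have hca : o z c a := hC.tot _ _ _ n1.1 n2.2.1 hEq hac
  apply hz
  refine ⟨⟨a, n1.1.symm⟩, fun x hx => ?_⟩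
  by_contra hcon
  push Not at hcon
  by_cases hxa : x = a
  · subst hxa
    exact hac (hcon c n2.2.1.symm (Ne.symm hEq))
  by_cases hxb : x = b
  · subst hxb
    exact hC.anti _ _ _ h1 (hcon a n1.1.symm n1.2.2)
  by_cases hxc : x = c
  · subst hxc
    exact hC.anti _ _ _ h2 (hcon b n2.1.symm n2.2.2)
  have g1 : o z x a := hcon a n1.1.symm (Ne.symm hxa)
  have g2 : o z x b := hcon b n1.2.1.symm (Ne.symm hxb)
  have g3 : o z x c := hcon c n2.2.1.symm (Ne.symm hxc)
  have hnd : [z, x, a, b, c].Nodup := by
    simp only [List.nodup_cons, List.mem_cons, List.not_mem_nil, or_false, not_or, not_false_eq_true,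
      List.nodup_nil, and_true]
    exact ⟨⟨Ne.symm hx, n1.1, n1.2.1, n2.2.1⟩, ⟨hxa, hxb, hxc⟩, ⟨n1.2.2, hEq⟩, n2.2.2⟩
  have h := hC.gp z x a b c hnd ⟨fun _ => h2, fun _ => g1⟩ ⟨fun _ => h1, fun _ => g3⟩
  exact hac (h.1 g2)

theorem deg_conv {Q : V → ℝ × ℝ} (hQ : Gen Q) (hn : ∀ w, ¬ Inner (L Q) w) (z : V) (hc : 2 ≤ Fintype.card V) :
    degsum (L Q) z = (catalan (Fintype.card V - 1) : ℤ) := by
  have hC : CC (L Q) := ccL hQ
  have hz : z ∉ innO (L Q) := by
    intro h
    exact hn z (Finset.mem_filter.1 h).2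
  rw [deg_split, if_neg hz, add_zero]
  have h1 : ∀ q ∈ Finset.univ.erase z, esum (L Q) z q =
      (catalan (Fintype.card V - 2 - (Finset.univ.filter fun j => L Q z j q).card) : ℤ) *
        (catalan (Finset.univ.filter fun j => L Q z j q).card : ℤ) := by
    intro q hq
    have hqz : q ≠ z := (Finset.mem_erase.1 hq).1
    rw [econv hQ hn (Ne.symm hqz)]
    have e1 : (Finset.univ.filter fun j => L Q q z j) = Finset.univ.filter fun j => L Q z j q := by
      ext j
      simp only [Finset.mem_filter, Finset.mem_univ, true_and]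
      exact ⟨fun h => hC.cyc _ _ _ h, fun h => hC.cyc _ _ _ (hC.cyc _ _ _ h)⟩
    have e2 : (Finset.univ.filter fun j => L Q z q j).card =
        Fintype.card V - 2 - (Finset.univ.filter fun j => L Q z j q).card := by
      have hd : Disjoint (Finset.univ.filter fun j => L Q z q j) (Finset.univ.filter fun j => L Q z j q) := by
        rw [Finset.disjoint_left]
        intro j h1 h2
        exact hC.anti _ _ _ (Finset.mem_filter.1 h1).2 (Finset.mem_filter.1 h2).2
      have hu : (Finset.univ.filter fun j => L Q z q j) ∪ (Finset.univ.filter fun j => L Q z j q) =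
          (Finset.univ.erase z).erase q := by
        ext j
        simp only [Finset.mem_union, Finset.mem_filter, Finset.mem_univ, true_and, Finset.mem_erase, and_true]
        constructor
        · rintro (h | h)
          · have := hC.ne _ _ _ h
            exact ⟨this.2.2.symm, this.2.1.symm⟩
          · have := hC.ne _ _ _ h
            exact ⟨this.2.2, this.1.symm⟩
        · rintro ⟨hjq, hjz⟩
          by_cases h : L Q z q j
          · exact Or.inl h
          · exact Or.inr (hC.tot _ _ _ (Ne.symm hqz) (Ne.symm hjz) (Ne.symm hjq) h)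
      have hcard := Finset.card_union_of_disjoint hd
      rw [hu, Finset.card_erase_of_mem (Finset.mem_erase.2 ⟨hqz, Finset.mem_univ _⟩),
        Finset.card_erase_of_mem (Finset.mem_univ _), Finset.card_univ] at hcard
      omega
    rw [e1, e2]
  rw [Finset.sum_congr rfl h1]
  have hcard : (Finset.univ.erase z).card = Fintype.card V - 1 := by
    rw [Finset.card_erase_of_mem (Finset.mem_univ _), Finset.card_univ]
  -- the map q ↦ r q
  have hlt : ∀ q ∈ Finset.univ.erase z, (Finset.univ.filter fun j => L Q z j q).card ∈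
      Finset.range (Fintype.card V - 1) := by
    intro q hq
    have hqz : q ≠ z := (Finset.mem_erase.1 hq).1
    rw [Finset.mem_range]
    have hsub : (Finset.univ.filter fun j => L Q z j q) ⊆ (Finset.univ.erase z).erase q := by
      intro j hj
      have := hC.ne _ _ _ (Finset.mem_filter.1 hj).2
      exact Finset.mem_erase.2 ⟨this.2.2, Finset.mem_erase.2 ⟨this.1.symm, Finset.mem_univ _⟩⟩
    have h2 := Finset.card_le_card hsub
    rw [Finset.card_erase_of_mem (Finset.mem_erase.2 ⟨hqz, Finset.mem_univ _⟩), hcard] at h2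
    omega
  have hmono : ∀ q q', L Q z q q' → (Finset.univ.filter fun j => L Q z j q).card <
      (Finset.univ.filter fun j => L Q z j q').card := by
    intro q q' h
    apply Finset.card_lt_card
    rw [Finset.ssubset_iff_of_subset]
    · refine ⟨q, ?_, ?_⟩
      · exact Finset.mem_filter.2 ⟨Finset.mem_univ _, h⟩
      · intro h'
        exact (hC.ne _ _ _ (Finset.mem_filter.1 h').2).2.2 rfl
    · intro j hj
      exact Finset.mem_filter.2 ⟨Finset.mem_univ _, trans_of hC (hn z) (Finset.mem_filter.1 hj).2 h⟩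
  have hinj : Set.InjOn (fun q => (Finset.univ.filter fun j => L Q z j q).card) (Finset.univ.erase z : Finset V) := by
    intro q hq q' hq' h
    by_contra hne
    have hqz : q ≠ z := (Finset.mem_erase.1 (Finset.mem_coe.1 hq)).1
    have hqz' : q' ≠ z := (Finset.mem_erase.1 (Finset.mem_coe.1 hq')).1
    by_cases hl : L Q z q q'
    · exact absurd h (ne_of_lt (hmono _ _ hl))
    · exact absurd h (ne_of_gt (hmono _ _ (hC.tot _ _ _ (Ne.symm hqz) (Ne.symm hqz') hne hl)))
  have himg : (Finset.univ.erase z).image (fun q => (Finset.univ.filter fun j => L Q z j q).card) =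
      Finset.range (Fintype.card V - 1) := by
    apply Finset.eq_of_subset_of_card_le
    · intro k hk
      obtain ⟨q, hq, rfl⟩ := Finset.mem_image.1 hk
      exact hlt q hq
    · rw [Finset.card_image_of_injOn hinj, hcard, Finset.card_range]
  have hsum : ∑ q ∈ Finset.univ.erase z,
      (catalan (Fintype.card V - 2 - (Finset.univ.filter fun j => L Q z j q).card) : ℤ) *
        (catalan (Finset.univ.filter fun j => L Q z j q).card : ℤ) =
      ∑ k ∈ Finset.range (Fintype.card V - 1), (catalan (Fintype.card V - 2 - k) : ℤ) * (catalan k : ℤ) := by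
    rw [← himg, Finset.sum_image hinj]
  rw [hsum]
  obtain ⟨n, hn2⟩ : ∃ n, Fintype.card V = n + 2 := ⟨Fintype.card V - 2, by omega⟩
  rw [hn2]
  have h3 : n + 2 - 1 = n + 1 := by omega
  have h4 : n + 2 - 2 = n := by omega
  rw [h3, h4, catalan_succ, ← Finset.sum_range (fun i => catalan i * catalan (n - i))]
  push_cast
  refine Finset.sum_congr rfl fun k _ => ?_
  ring

theorem one_centre {P : V → ℝ × ℝ} (hP : Gen P) {z : V} (hz : Inner (L P) z) :
    2 * bb (L P) ((innS P).erase z) + ∑ q ∈ Finset.univ.erase z,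
      (catalan (Finset.univ.filter fun j => L P z q j).card : ℤ) * (catalan (Finset.univ.filter fun j => L P q z j).card : ℤ) =
        (catalan (Fintype.card V - 1) : ℤ) := by
  obtain ⟨Q, hQ, hn, -⟩ := pull_full hP
  have hc : 2 ≤ Fintype.card V := by
    obtain ⟨⟨a, ha⟩, -⟩ := hz
    exact Fintype.one_lt_card_iff.2 ⟨a, z, ha⟩
  rw [← deg_conv hQ hn z hc, ← degree_law z hP hQ, deg_split]
  have hzi : z ∈ innO (L P) := Finset.mem_filter.2 ⟨Finset.mem_univ _, hz⟩
  rw [if_pos hzi]
  have h1 : ∀ q ∈ Finset.univ.erase z, esum (L P) z q =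
      (catalan (Finset.univ.filter fun j => L P z q j).card : ℤ) *
        (catalan (Finset.univ.filter fun j => L P q z j).card : ℤ) := fun q hq =>
    edge_law hP (Ne.symm (Finset.mem_erase.1 hq).1)
  rw [Finset.sum_congr rfl h1]
  have h2 : innS P = innO (L P) := rfl
  rw [h2, add_comm]

end Pool.Agent.Work.MP_02cc39_co.PT
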