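import Pool.Agent.Work.MP_02cc39_co.PT.Geo

set_option autoImplicit false

/-!
# Motion of one point along a segment: definitions and trivial facts (size S)

PROOFS. `Function.update` and ring. det (pth P y Z t) y j k is affine in the position of y.
`gen_pth`: at a time t in [0,1] at which no det (pth t) y j k vanishes the configuration is in general position: injective by `ne` and Gen P.
-/

namespace Pool.Agent.Work.MP_02cc39_co.PT

open Classical

variable {ι : Type*}

/-- the configuration at time `t` : the point `y` moves from `P y` to `Z` -/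
noncomputable def pth (P : ι → ℝ × ℝ) (y : ι) (Z : ℝ × ℝ) (t : ℝ) : ι → ℝ × ℝ :=
  Function.update P y ((1 - t) * (P y).1 + t * Z.1, (1 - t) * (P y).2 + t * Z.2)

/-- a generic target -/
structure Good (P : ι → ℝ × ℝ) (y : ι) (Z : ℝ × ℝ) : Prop where
  gen : Gen (Function.update P y Z)
  ne : ∀ t : ℝ, 0 ≤ t → t ≤ 1 → ∀ i, i ≠ y → pth P y Z t y ≠ P i
  one : ∀ t : ℝ, 0 ≤ t → t ≤ 1 → ∀ j k j' k', j ≠ y → k ≠ y → j ≠ k → j' ≠ y → k' ≠ y → j' ≠ k' →
    det (pth P y Z t) y j k = 0 → det (pth P y Z t) y j' k' = 0 → s(j, k) = s(j', k')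

theorem pth_zero (P : ι → ℝ × ℝ) (y : ι) (Z : ℝ × ℝ) : pth P y Z 0 = P := by
  unfold pth
  have h : ((1 - (0 : ℝ)) * (P y).1 + 0 * Z.1, (1 - (0 : ℝ)) * (P y).2 + 0 * Z.2) = P y := by
    ext <;> simp
  rw [h, Function.update_eq_self]

theorem pth_one (P : ι → ℝ × ℝ) (y : ι) (Z : ℝ × ℝ) : pth P y Z 1 = Function.update P y Z := by
  unfold pth
  have h : ((1 - (1 : ℝ)) * (P y).1 + 1 * Z.1, (1 - (1 : ℝ)) * (P y).2 + 1 * Z.2) = Z := by
    ext <;> simp
  rw [h]

theorem pth_same (P : ι → ℝ × ℝ) (y : ι) (Z : ℝ × ℝ) (t : ℝ) {i : ι} (hi : i ≠ y) : pth P y Z t i = P i := by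
  unfold pth
  exact Function.update_of_ne hi _ _

theorem det_pth_ne (P : ι → ℝ × ℝ) (y : ι) (Z : ℝ × ℝ) (t : ℝ) {i j k : ι} (hi : i ≠ y) (hj : j ≠ y) (hk : k ≠ y) :
    det (pth P y Z t) i j k = det P i j k := by
  unfold det
  rw [pth_same P y Z t hi, pth_same P y Z t hj, pth_same P y Z t hk]

theorem det_pth (P : ι → ℝ × ℝ) (y : ι) (Z : ℝ × ℝ) (t : ℝ) {j k : ι} (hj : j ≠ y) (hk : k ≠ y) :
    det (pth P y Z t) y j k = (1 - t) * det P y j k + t * det (Function.update P y Z) y j k := by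
  unfold det
  rw [pth_same P y Z t hj, pth_same P y Z t hk, Function.update_of_ne hj, Function.update_of_ne hk]
  simp only [pth, Function.update_self]
  ring

theorem gen_pth {P : ι → ℝ × ℝ} (hP : Gen P) {y : ι} {Z : ℝ × ℝ} (hG : Good P y Z) {t : ℝ} (h0 : 0 ≤ t) (h1 : t ≤ 1)
    (h : ∀ j k, j ≠ y → k ≠ y → j ≠ k → det (pth P y Z t) y j k ≠ 0) : Gen (pth P y Z t) := by
  have hcyc : ∀ (Q : ι → ℝ × ℝ) (i j k : ι), det Q i j k = det Q j k i := by
    intro Q i j k
    unfold det
    ring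
  refine ⟨?_, ?_⟩
  · intro i j hij
    by_cases hi : i = y
    · by_cases hj : j = y
      · rw [hi, hj]
      · exfalso
        rw [hi, pth_same P y Z t hj] at hij
        exact hG.ne t h0 h1 j hj hij
    · by_cases hj : j = y
      · exfalso
        rw [hj, pth_same P y Z t hi] at hij
        exact hG.ne t h0 h1 i hi hij.symm
      · rw [pth_same P y Z t hi, pth_same P y Z t hj] at hij
        exact hP.1 hij
  · intro i j k hij hik hjk
    by_cases hi : i = y
    · subst hi
      exact h j k hij.symm hik.symm hjk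
    by_cases hj : j = y
    · subst hj
      rw [hcyc]
      exact h k i hjk.symm hij (Ne.symm hik)
    by_cases hk : k = y
    · subst hk
      rw [hcyc, hcyc]
      exact h i j hi hj hij
    rw [det_pth_ne P y Z t hi hj hk]
    exact hP.2 i j k hij hik hjk

end Pool.Agent.Work.MP_02cc39_co.PT
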