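import Pool.Agent.Work.MP_02cc39_co.PT.Path
import Pool.Agent.Work.MP_02cc39_co.PT.MutOf

set_option autoImplicit false

/-!
# The steps of the motion (size M)

f(r) := det (pth r) y j k is affine in r (`det_pth`).
`same_step`: for triples without y: `det_pth_ne`. For triples with y (use cyc and antisymmetry of det to bring y to the front): f is affine, nonzero at t and t' and has no zero between them, so it has the same sign at t and t' (if the signs were different there would be
a zero r in (t,t')). Triples with equal entries: both false.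
`mut_step`: let R := pth r. R y, P j, P k are collinear and different (Good.ne, Gen P). So one of them is strictly between the two others: e.g. write R y = P j + c (P k - P j) (c exists because det = 0 and P j ≠ P k), c ≠ 0, 1; 0 < c < 1: m = y, {p,q} = {j,k}; c < 0: m = j, {p,q} = {y,k};
c > 1: m = k, {p,q} = {y,j}. f is affine, zero at r and nonzero at t < r < t', so f(t) and f(t') have different signs; choose the order of p and q such that det (pth t) p q m > 0, then det (pth t') p q m < 0. `mut_of` with Q0 = pth t, Q1 = pth t': for the other triples the sign is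
the same at t, r, t' (affine functions without zero in (t,t') and nonzero at t, t': by honly; triples without y are constant).
-/

namespace Pool.Agent.Work.MP_02cc39_co.PT

open Classical

variable {ι : Type*}

private theorem det_cyc (Q : ι → ℝ × ℝ) (i j k : ι) : det Q i j k = det Q j k i := by
  unfold det
  ring

private theorem det_sw (Q : ι → ℝ × ℝ) (i j k : ι) : det Q i j k = -det Q i k j := by
  unfold det
  ring

private theorem det_iik (Q : ι → ℝ × ℝ) (i k : ι) : det Q i i k = 0 := by
  unfold det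
  ring

private theorem det_ikk (Q : ι → ℝ × ℝ) (i k : ι) : det Q i k k = 0 := by
  unfold det
  ring

private theorem det_iki (Q : ι → ℝ × ℝ) (i k : ι) : det Q i k i = 0 := by
  unfold det
  ring

/-- an affine function without zero keeps its sign -/
private theorem aff_sign {A B t t' : ℝ} (htt : t ≤ t') (h0 : (1 - t) * A + t * B ≠ 0)
    (h1 : (1 - t') * A + t' * B ≠ 0)
    (hno : ∀ r, t < r → r < t' → (1 - r) * A + r * B ≠ 0) :
    (0 < (1 - t) * A + t * B ↔ 0 < (1 - t') * A + t' * B) := by
  by_contra hcon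
  set x := (1 - t) * A + t * B with hx
  set z := (1 - t') * A + t' * B with hz
  have hxz : (0 < x ∧ z < 0) ∨ (x < 0 ∧ 0 < z) := by
    rcases lt_or_gt_of_ne h0 with h2 | h2
    · rcases lt_or_gt_of_ne h1 with h3 | h3
      · exact absurd ⟨fun h => absurd h (not_lt.2 h2.le), fun h => absurd h (not_lt.2 h3.le)⟩ hcon
      · exact Or.inr ⟨h2, h3⟩
    · rcases lt_or_gt_of_ne h1 with h3 | h3
      · exact Or.inl ⟨h2, h3⟩
      · exact absurd ⟨fun _ => h3, fun _ => h2⟩ hcon
  have hlt : t < t' := by
    rcases htt.lt_or_eq with h | h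
    · exact h
    · exfalso
      have : x = z := by rw [hx, hz, h]
      rcases hxz with ⟨h2, h3⟩ | ⟨h2, h3⟩ <;> linarith
  have hne : x - z ≠ 0 := by
    rcases hxz with ⟨h2, h3⟩ | ⟨h2, h3⟩
    · exact ne_of_gt (by linarith)
    · exact ne_of_lt (by linarith)
  have hu : 0 < x / (x - z) ∧ x / (x - z) < 1 := by
    rcases hxz with ⟨h2, h3⟩ | ⟨h2, h3⟩
    · have h4 : 0 < x - z := by linarith
      exact ⟨div_pos h2 h4, (div_lt_one h4).2 (by linarith)⟩
    · have h4 : x - z < 0 := by linarith
      exact ⟨div_pos_of_neg_of_neg h2 h4, (div_lt_one_of_neg h4).2 (by linarith)⟩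
  set u := x / (x - z) with hudef
  have hux : u * (x - z) = x := by
    rw [hudef]
    field_simp
  have hd : 0 < t' - t := by linarith
  refine hno (t + u * (t' - t)) ?_ ?_ ?_
  · have := mul_pos hu.1 hd
    linarith
  · have h5 : u * (t' - t) < 1 * (t' - t) := mul_lt_mul_of_pos_right hu.2 hd
    linarith
  · have h6 : (1 - (t + u * (t' - t))) * A + (t + u * (t' - t)) * B = x - u * (x - z) := by
      rw [hx, hz]
      ring
    rw [h6, hux]
    ring

/-- the sign for triples containing `y` -/
private theorem key_sign {P : ι → ℝ × ℝ} {y : ι} {Z : ℝ × ℝ} {t t' : ℝ} (htt : t ≤ t')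
    {j k : ι} (hj : j ≠ y) (hk : k ≠ y) (h0 : det (pth P y Z t) y j k ≠ 0)
    (h1 : det (pth P y Z t') y j k ≠ 0)
    (hno : ∀ r, t < r → r < t' → det (pth P y Z r) y j k ≠ 0) :
    (0 < det (pth P y Z t) y j k ↔ 0 < det (pth P y Z t') y j k) := by
  rw [det_pth P y Z t hj hk] at h0 ⊢
  rw [det_pth P y Z t' hj hk] at h1 ⊢
  exact aff_sign htt h0 h1 (fun r h2 h3 => by
    have := hno r h2 h3
    rwa [det_pth P y Z r hj hk] at this)

/-- reduction of all triples to those with `y` in front -/
private theorem red_triple {P : ι → ℝ × ℝ} {y : ι} {Z : ℝ × ℝ} {t t' : ℝ}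
    (D : ι → ι → Prop)
    (key : ∀ j k, j ≠ y → k ≠ y → j ≠ k → D j k →
      (0 < det (pth P y Z t) y j k ↔ 0 < det (pth P y Z t') y j k)) (a b c : ι)
    (hab : a ≠ b) (hac : a ≠ c) (hbc : b ≠ c)
    (h1 : a = y → D b c) (h2 : b = y → D c a) (h3 : c = y → D a b) :
    (0 < det (pth P y Z t) a b c ↔ 0 < det (pth P y Z t') a b c) := by
  by_cases ha : a = y
  · subst ha
    exact key b c hab.symm hac.symm hbc (h1 rfl)
  by_cases hb : b = y
  · subst hb
    rw [det_cyc _ a b c, det_cyc _ a b c]
    exact key c a hbc.symm ha hac.symm (h2 rfl)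
  by_cases hc : c = y
  · subst hc
    rw [det_cyc _ a b c, det_cyc _ b c a, det_cyc (pth P c Z t') a b c, det_cyc _ b c a]
    exact key a b ha hb hab (h3 rfl)
  rw [det_pth_ne P y Z t ha hb hc, det_pth_ne P y Z t' ha hb hc]

theorem same_step {P : ι → ℝ × ℝ} (hP : Gen P) {y : ι} {Z : ℝ × ℝ} (hG : Good P y Z) {t t' : ℝ} (h0 : 0 ≤ t) (htt : t ≤ t')
    (h1 : t' ≤ 1) (hg : Gen (pth P y Z t)) (hg' : Gen (pth P y Z t'))
    (hno : ∀ r, t < r → r < t' → ∀ j k, j ≠ y → k ≠ y → j ≠ k → det (pth P y Z r) y j k ≠ 0) :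
    L (pth P y Z t) = L (pth P y Z t') := by
  funext a b c
  unfold L
  apply propext
  by_cases hab : a = b
  · subst hab
    rw [det_iik, det_iik]
  by_cases hac : a = c
  · subst hac
    rw [det_iki, det_iki]
  by_cases hbc : b = c
  · subst hbc
    rw [det_ikk, det_ikk]
  refine red_triple (fun _ _ => True) ?_ a b c hab hac hbc
    (fun _ => trivial) (fun _ => trivial) (fun _ => trivial)
  intro j k hj hk hjk _
  exact key_sign htt hj hk (hg.2 y j k hj.symm hk.symm hjk) (hg'.2 y j k hj.symm hk.symm hjk)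
    (fun r h2 h3 => hno r h2 h3 j k hj hk hjk)

theorem mut_step {P : ι → ℝ × ℝ} (hP : Gen P) {y : ι} {Z : ℝ × ℝ} (hG : Good P y Z) {t t' r : ℝ} (h0 : 0 ≤ t) (htr : t < r)
    (hrt : r < t') (h1 : t' ≤ 1) (hg : Gen (pth P y Z t)) (hg' : Gen (pth P y Z t')) {j k : ι} (hj : j ≠ y) (hk : k ≠ y)
    (hjk : j ≠ k) (hr : det (pth P y Z r) y j k = 0)
    (honly : ∀ r', t < r' → r' < t' → ∀ j' k', j' ≠ y → k' ≠ y → j' ≠ k' → det (pth P y Z r') y j' k' = 0 →
      s(j', k') = s(j, k)) :
    ∃ p m q, Mut (L (pth P y Z t)) (L (pth P y Z t')) p m q := by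
  have hr0 : 0 ≤ r := le_trans h0 htr.le
  have hr1 : r ≤ 1 := le_trans hrt.le h1
  -- the triples which do not change
  have keyD : ∀ j' k', j' ≠ y → k' ≠ y → j' ≠ k' → s(j', k') ≠ s(j, k) →
      (0 < det (pth P y Z t) y j' k' ↔ 0 < det (pth P y Z r) y j' k') ∧
        (0 < det (pth P y Z r) y j' k' ↔ 0 < det (pth P y Z t') y j' k') := by
    intro j' k' hj' hk' hjk' hne
    have hrn : det (pth P y Z r) y j' k' ≠ 0 := fun h => hne (honly r htr hrt j' k' hj' hk' hjk' h)
    refine ⟨key_sign htr.le hj' hk' (hg.2 y j' k' hj'.symm hk'.symm hjk') hrn ?_,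
      key_sign hrt.le hj' hk' hrn (hg'.2 y j' k' hj'.symm hk'.symm hjk') ?_⟩
    · intro u h2 h3 h4
      exact hne (honly u h2 (h3.trans hrt) j' k' hj' hk' hjk' h4)
    · intro u h2 h3 h4
      exact hne (honly u (htr.trans h2) h3 j' k' hj' hk' hjk' h4)
  have HS : ∀ a b c, a ≠ b → a ≠ c → b ≠ c →
      ¬ ((a = y ∨ a = j ∨ a = k) ∧ (b = y ∨ b = j ∨ b = k) ∧ (c = y ∨ c = j ∨ c = k)) →
      (L (pth P y Z t) a b c ↔ L (pth P y Z r) a b c) ∧
        (L (pth P y Z r) a b c ↔ L (pth P y Z t') a b c) := by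
    intro a b c hab hac hbc hnot
    have e1 : a = y → s(b, c) ≠ s(j, k) := by
      intro e h
      apply hnot
      rcases Sym2.eq_iff.1 h with ⟨h2, h3⟩ | ⟨h2, h3⟩
      · exact ⟨Or.inl e, Or.inr (Or.inl h2), Or.inr (Or.inr h3)⟩
      · exact ⟨Or.inl e, Or.inr (Or.inr h2), Or.inr (Or.inl h3)⟩
    have e2 : b = y → s(c, a) ≠ s(j, k) := by
      intro e h
      apply hnot
      rcases Sym2.eq_iff.1 h with ⟨h2, h3⟩ | ⟨h2, h3⟩
      · exact ⟨Or.inr (Or.inr h3), Or.inl e, Or.inr (Or.inl h2)⟩
      · exact ⟨Or.inr (Or.inl h3), Or.inl e, Or.inr (Or.inr h2)⟩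
    have e3 : c = y → s(a, b) ≠ s(j, k) := by
      intro e h
      apply hnot
      rcases Sym2.eq_iff.1 h with ⟨h2, h3⟩ | ⟨h2, h3⟩
      · exact ⟨Or.inr (Or.inl h2), Or.inr (Or.inr h3), Or.inl e⟩
      · exact ⟨Or.inr (Or.inr h2), Or.inr (Or.inl h3), Or.inl e⟩
    unfold L
    exact ⟨red_triple (fun j' k' => s(j', k') ≠ s(j, k))
        (fun j' k' h2 h3 h4 h5 => (keyD j' k' h2 h3 h4 h5).1) a b c hab hac hbc e1 e2 e3,
      red_triple (fun j' k' => s(j', k') ≠ s(j, k))
        (fun j' k' h2 h3 h4 h5 => (keyD j' k' h2 h3 h4 h5).2) a b c hab hac hbc e1 e2 e3⟩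
  -- the triple `y j k` changes its sign
  have hopp : (0 < det (pth P y Z t) y j k ∧ det (pth P y Z t') y j k < 0) ∨
      (det (pth P y Z t) y j k < 0 ∧ 0 < det (pth P y Z t') y j k) := by
    have ht0 := hg.2 y j k hj.symm hk.symm hjk
    rw [det_pth P y Z t hj hk] at ht0 ⊢
    rw [det_pth P y Z t' hj hk]
    rw [det_pth P y Z r hj hk] at hr
    set A := det P y j k
    set B := det (Function.update P y Z) y j k
    have e1 : (1 - t) * A + t * B = (A - B) * (r - t) := by linear_combination hr
    have e2 : (1 - t') * A + t' * B = -((A - B) * (t' - r)) := by linear_combination hr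
    rw [e1] at ht0
    rw [e1, e2]
    have hAB : A - B ≠ 0 := fun h => ht0 (by rw [h, zero_mul])
    rcases lt_or_gt_of_ne hAB with h | h
    · right
      refine ⟨mul_neg_of_neg_of_pos h (by linarith), ?_⟩
      have := mul_neg_of_neg_of_pos h (show 0 < t' - r by linarith)
      linarith
    · left
      refine ⟨mul_pos h (by linarith), ?_⟩
      have := mul_pos h (show 0 < t' - r by linarith)
      linarith
  -- the final step
  have fin : ∀ a m b : ι, a ≠ m → m ≠ b → a ≠ b → ∀ s : ℝ, 0 < s → s < 1 →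
      (pth P y Z r m).1 = (1 - s) * (pth P y Z r a).1 + s * (pth P y Z r b).1 →
      (pth P y Z r m).2 = (1 - s) * (pth P y Z r a).2 + s * (pth P y Z r b).2 →
      (∀ x, (x = a ∨ x = m ∨ x = b) ↔ (x = y ∨ x = j ∨ x = k)) →
      ((0 < det (pth P y Z t) a b m ∧ det (pth P y Z t') a b m < 0) ∨
        (det (pth P y Z t) a b m < 0 ∧ 0 < det (pth P y Z t') a b m)) →
      ∃ p m q, Mut (L (pth P y Z t)) (L (pth P y Z t')) p m q := by
    intro a m b ham hmb hab s hs0 hs1 hm1 hm2 hset hsg
    rcases hsg with ⟨h2, h3⟩ | ⟨h2, h3⟩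
    · refine ⟨a, m, b, mut_of ham hmb hab hs0 hs1 hm1 hm2 ?_ h2 h3⟩
      intro i1 j1 k1 h4 h5 h6 h7
      refine HS i1 j1 k1 h4 h5 h6 ?_
      rwa [← hset, ← hset, ← hset]
    · refine ⟨b, m, a, mut_of hmb.symm ham.symm hab.symm (r := 1 - s) (by linarith) (by linarith)
        (by rw [hm1]; ring) (by rw [hm2]; ring) ?_ ?_ ?_⟩
      · intro i1 j1 k1 h4 h5 h6 h7
        refine HS i1 j1 k1 h4 h5 h6 ?_
        rw [← hset, ← hset, ← hset]
        intro h8
        apply h7
        obtain ⟨h8, h9, h10⟩ := h8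
        refine ⟨?_, ?_, ?_⟩
        · rcases h8 with h | h | h
          · exact Or.inr (Or.inr h)
          · exact Or.inr (Or.inl h)
          · exact Or.inl h
        · rcases h9 with h | h | h
          · exact Or.inr (Or.inr h)
          · exact Or.inr (Or.inl h)
          · exact Or.inl h
        · rcases h10 with h | h | h
          · exact Or.inr (Or.inr h)
          · exact Or.inr (Or.inl h)
          · exact Or.inl h
      · rw [det_cyc, det_sw, det_cyc, det_cyc]
        rw [det_cyc, det_cyc] at h2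
        linarith
      · rw [det_cyc, det_sw, det_cyc, det_cyc]
        rw [det_cyc, det_cyc] at h3
        linarith
  -- the position of `y` at time `r`
  have hRj : pth P y Z r j = P j := pth_same P y Z r hj
  have hRk : pth P y Z r k = P k := pth_same P y Z r hk
  have hyj : pth P y Z r y ≠ P j := hG.ne r hr0 hr1 j hj
  have hyk : pth P y Z r y ≠ P k := hG.ne r hr0 hr1 k hk
  have hPjk : P j ≠ P k := fun h => hjk (hP.1 h)
  set Y := pth P y Z r y with hY
  have hdet : ((P j).1 - Y.1) * ((P k).2 - Y.2) - ((P j).2 - Y.2) * ((P k).1 - Y.1) = 0 := by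
    have := hr
    unfold det at this
    rw [hRj, hRk, ← hY] at this
    exact this
  set d1 := (P k).1 - (P j).1 with hd1
  set d2 := (P k).2 - (P j).2 with hd2
  have hdd : 0 < d1 ^ 2 + d2 ^ 2 := by
    have h2 : d1 ≠ 0 ∨ d2 ≠ 0 := by
      by_contra h
      push Not at h
      apply hPjk
      refine Prod.ext ?_ ?_
      · have := h.1
        rw [hd1] at this
        linarith
      · have := h.2
        rw [hd2] at this
        linarith
    rcases h2 with h2 | h2
    · have := sq_pos_of_ne_zero h2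
      positivity
    · have := sq_pos_of_ne_zero h2
      positivity
  obtain ⟨c, hc1, hc2⟩ : ∃ c : ℝ, Y.1 = (P j).1 + c * d1 ∧ Y.2 = (P j).2 + c * d2 := by
    refine ⟨((Y.1 - (P j).1) * d1 + (Y.2 - (P j).2) * d2) / (d1 ^ 2 + d2 ^ 2), ?_, ?_⟩
    · have hne := hdd.ne'
      field_simp
      rw [hd1, hd2]
      linear_combination (-((P k).2 - (P j).2)) * hdet
    · have hne := hdd.ne'
      field_simp
      rw [hd1, hd2]
      linear_combination ((P k).1 - (P j).1) * hdet
  have hc0 : c ≠ 0 := by
    rintro rfl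
    apply hyj
    refine Prod.ext ?_ ?_
    · linarith
    · linarith
  have hcne1 : c ≠ 1 := by
    rintro rfl
    apply hyk
    refine Prod.ext ?_ ?_
    · rw [hc1, hd1]
      ring
    · rw [hc2, hd2]
      ring
  rcases lt_or_gt_of_ne hc0 with hneg | hpos
  · -- `P j` is between `Y` and `P k`
    have h1c : 0 < 1 - c := by linarith
    refine fin y j k hj.symm hjk hk.symm (-c / (1 - c)) (div_pos (by linarith) h1c)
      ((div_lt_one h1c).2 (by linarith)) ?_ ?_ ?_ ?_
    · rw [hRj, hRk, ← hY, hc1, hd1]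
      have := h1c.ne'
      field_simp
      ring
    · rw [hRj, hRk, ← hY, hc2, hd2]
      have := h1c.ne'
      field_simp
      ring
    · intro x
      exact Iff.rfl
    · rw [det_sw _ y k j, det_sw _ y k j]
      rcases hopp with ⟨h2, h3⟩ | ⟨h2, h3⟩
      · right
        exact ⟨by linarith, by linarith⟩
      · left
        exact ⟨by linarith, by linarith⟩
  · rcases lt_or_gt_of_ne hcne1 with hlt | hgt
    · -- `Y` is between
      refine fin j y k hj hk.symm hjk c hpos hlt ?_ ?_ ?_ ?_
      · rw [hRj, hRk, ← hY, hc1, hd1]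
        ring
      · rw [hRj, hRk, ← hY, hc2, hd2]
        ring
      · intro x
        constructor
        · rintro (h | h | h)
          · exact Or.inr (Or.inl h)
          · exact Or.inl h
          · exact Or.inr (Or.inr h)
        · rintro (h | h | h)
          · exact Or.inr (Or.inl h)
          · exact Or.inl h
          · exact Or.inr (Or.inr h)
      · rw [← det_cyc _ y j k, ← det_cyc _ y j k]
        exact hopp
    · -- `P k` is between `Y` and `P j`
      have hcp : 0 < c := by linarith
      refine fin y k j hk.symm hjk.symm hj.symm (1 - 1 / c) ?_ ?_ ?_ ?_ ?_ ?_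
      · have : 1 / c < 1 := (div_lt_one hcp).2 hgt
        linarith
      · have : 0 < 1 / c := by positivity
        linarith
      · rw [hRj, hRk, ← hY, hc1, hd1]
        have := hcp.ne'
        field_simp
        ring
      · rw [hRj, hRk, ← hY, hc2, hd2]
        have := hcp.ne'
        field_simp
        ring
      · intro x
        constructor
        · rintro (h | h | h)
          · exact Or.inl h
          · exact Or.inr (Or.inr h)
          · exact Or.inr (Or.inl h)
        · rintro (h | h | h)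
          · exact Or.inl h
          · exact Or.inr (Or.inr h)
          · exact Or.inr (Or.inl h)
      · exact hopp

end Pool.Agent.Work.MP_02cc39_co.PT
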