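import Pool.Agent.Work.MP_02cc39_co.PT.PullTarget
import Pool.Agent.Work.MP_02cc39_co.PT.MotionInd
import Pool.Agent.Work.MP_02cc39_co.PT.Ext
import Pool.Agent.Work.MP_02cc39_co.PT.ExitB
import Pool.Agent.Work.MP_02cc39_co.PT.CCL

set_option autoImplicit false

/-!
# Pulling an inner point out of the convex hull, away from the point x (size M)

PROOF. Z from `pull_target`. `motion` with
R Q := (∃ Q', Gen Q' ∧ (∀ w, Inner (L Q') w ↔ Inner (L P) w ∧ w ≠ y) ∧ ∀ W, y ∈ W → (∀ w, Inner (L P) w → w ≠ x → w ∈ W) → bb (L P) W = bb (L Q') (W.erase y))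
   ∨ ((∀ w, Inner (L Q) w ↔ Inner (L P) w) ∧ ∀ W, y ∈ W → (∀ w, Inner (L P) w → w ≠ x → w ∈ W) → bb (L P) W = bb (L Q) W).
R P: second alternative. STEP from o := L (pth t) to o' := L (pth t') in the second alternative. If o = o': clear. Let Mut o o' p m q (CC o, CC o' by `ccL`).
 (i) y ∈ {p,m,q}: otherwise det (pth t) p q m = det P p q m = det (pth t') p q m (`det_pth_ne`), but L (pth t) p q m (up) and L (pth t') q p m (dn), so not L (pth t') p q m. (ii) x ∉ {p,m,q}: otherwise p, m, q are x, y, j in some order and the sign of the triple is the same at t and t' (`pull_target`),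
 contradiction to up/dn (use det antisymmetry/cyclic symmetry). (iii) y is inner for o (second alternative and hy).
 Case y ≠ m: y = p or y = q, `inner_mid_p`/`inner_mid_q`: Inner o m and Inner o' m. Then Inner o' w ↔ Inner o w for all w (`inner_agree` for w ≠ m). Let W be as required: m is inner for P, m ≠ x, so m ∈ W; `bb_mut` with hX, hX' from `ext`: bb o W = bb o' W. So the second alternative holds for pth t'.
 Case y = m and Inner o' m: the same (m = y ∈ W).
 Case y = m and not Inner o' m: by `inner_m'` all the other points s satisfy o p q s; `exit_bb` (hX from `ext`) with W0 := W.erase y: bb o W = bb o' (W.erase y) (insert y (W.erase y) = W). First alternative with Q' := pth t'.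
END: R (update P y Z). The second alternative would give Inner (L (update P y Z)) y (as y is inner for P), contradiction to `pull_target`. So the first alternative holds.
-/

namespace Pool.Agent.Work.MP_02cc39_co.PT

open Classical

variable {ι : Type*} [Fintype ι] {P : ι → ℝ × ℝ}

omit [Fintype ι] in
private theorem det_swap12 (Q : ι → ℝ × ℝ) (a b c : ι) : det Q b a c = - det Q a b c := by
  unfold det
  ring

omit [Fintype ι] in
/-- the sign of the triple `p, q, m` changes, hence it is not the triple `y, x, j` -/
private theorem no_x {Q1 Q2 : ι → ℝ × ℝ} {x y p m q : ι} (hxy : x ≠ y)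
    (hpm : p ≠ m) (hmq : m ≠ q) (hpq : p ≠ q)
    (hs : ∀ j, j ≠ x → j ≠ y → 0 < det Q1 y x j * det Q2 y x j)
    (hup : 0 < det Q1 p q m) (hdn : 0 < det Q2 q p m) (hy : y = p ∨ y = m ∨ y = q)
    (hx : x = p ∨ x = m ∨ x = q) : False := by
  have hdn' : det Q2 p q m < 0 := by
    rw [det_swap12 Q2 p q m] at hdn
    linarith
  have hneg : det Q1 p q m * det Q2 p q m < 0 := mul_neg_of_pos_of_neg hup hdn'
  rcases hy with rfl | rfl | rfl <;> rcases hx with rfl | rfl | rfl
  · exact hxy rfl
  · have h1 := hs q hmq.symm hpq.symm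
    have h2 : det Q1 y x q * det Q2 y x q = det Q1 y q x * det Q2 y q x := by
      unfold det
      ring
    linarith
  · have h1 := hs m hmq hpm.symm
    linarith
  · have h1 := hs q hpq.symm hmq.symm
    have h2 : det Q1 y x q * det Q2 y x q = det Q1 x q y * det Q2 x q y := by
      unfold det
      ring
    linarith
  · exact hxy rfl
  · have h1 := hs p hpq hpm
    have h2 : det Q1 y x p * det Q2 y x p = det Q1 p x y * det Q2 p x y := by
      unfold det
      ring
    linarith
  · have h1 := hs m hpm.symm hmq
    have h2 : det Q1 y x m * det Q2 y x m = det Q1 x y m * det Q2 x y m := by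
      unfold det
      ring
    linarith
  · have h1 := hs p hpm hpq
    have h2 : det Q1 y x p * det Q2 y x p = det Q1 p y x * det Q2 p y x := by
      unfold det
      ring
    linarith
  · exact hxy rfl

theorem pull (hP : Gen P) {x y : ι} (hxy : x ≠ y) (hy : Inner (L P) y) :
    ∃ Q : ι → ℝ × ℝ, Gen Q ∧ (∀ w, Inner (L Q) w ↔ Inner (L P) w ∧ w ≠ y) ∧
      ∀ W : Finset ι, y ∈ W → (∀ w, Inner (L P) w → w ≠ x → w ∈ W) → bb (L P) W = bb (L Q) (W.erase y) := by
  obtain ⟨Z, hG, hsgn, hout⟩ := pull_target hP hxy
  have hR := motion hP hG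
    (fun Q : ι → ℝ × ℝ => (∃ Q' : ι → ℝ × ℝ, Gen Q' ∧ (∀ w, Inner (L Q') w ↔ Inner (L P) w ∧ w ≠ y) ∧
      ∀ W : Finset ι, y ∈ W → (∀ w, Inner (L P) w → w ≠ x → w ∈ W) →
        bb (L P) W = bb (L Q') (W.erase y)) ∨
      ((∀ w, Inner (L Q) w ↔ Inner (L P) w) ∧
        ∀ W : Finset ι, y ∈ W → (∀ w, Inner (L P) w → w ≠ x → w ∈ W) → bb (L P) W = bb (L Q) W))
    (Or.inr ⟨fun w => Iff.rfl, fun W _ _ => rfl⟩) ?_
  · rcases hR with h | h
    · exact h
    · exact absurd ((h.1 y).2 hy) hout
  · intro t t' h0 htt h1 hgt hgt' hdis hRt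
    rcases hRt with hRt | ⟨hin, hbb⟩
    · exact Or.inl hRt
    rcases hdis with heq | ⟨p, m, q, h⟩
    · right
      rw [← heq]
      exact ⟨hin, hbb⟩
    have hC := ccL hgt
    have hC' := ccL hgt'
    have hy' : y = p ∨ y = m ∨ y = q := by
      by_contra hcon
      rw [not_or, not_or] at hcon
      have h2 : 0 < det (pth P y Z t) p q m := h.up
      have h3 : 0 < det (pth P y Z t') q p m := h.dn
      rw [det_pth_ne P y Z t (Ne.symm hcon.1) (Ne.symm hcon.2.2) (Ne.symm hcon.2.1)] at h2
      rw [det_pth_ne P y Z t' (Ne.symm hcon.2.2) (Ne.symm hcon.1) (Ne.symm hcon.2.1),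
        det_swap12 P p q m] at h3
      linarith
    have hs : ∀ j, j ≠ x → j ≠ y → 0 < det (pth P y Z t) y x j * det (pth P y Z t') y x j := by
      intro j hjx hjy
      have h2 := hsgn t h0 (htt.trans h1) j hjx hjy
      have h3 := hsgn t' (h0.trans htt) h1 j hjx hjy
      have h4 : 0 < (det P y x j * det (pth P y Z t) y x j) *
          (det P y x j * det (pth P y Z t') y x j) := mul_pos h2 h3
      have h5 : (det P y x j * det (pth P y Z t) y x j) *
          (det P y x j * det (pth P y Z t') y x j) =
          (det P y x j) ^ 2 * (det (pth P y Z t) y x j * det (pth P y Z t') y x j) := by ring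
      rw [h5] at h4
      exact (pos_iff_pos_of_mul_pos h4).1 (by
        have : det P y x j ≠ 0 := by
          intro h6
          rw [h6, zero_mul] at h2
          exact lt_irrefl _ h2
        positivity)
    have hx' : ¬ (x = p ∨ x = m ∨ x = q) := fun hx =>
      no_x hxy h.pm h.mq h.pq hs h.up h.dn hy' hx
    rw [not_or, not_or] at hx'
    have hyo : Inner (L (pth P y Z t)) y := (hin y).2 hy
    -- the case where m is inner before and after
    have hsame : Inner (L (pth P y Z t)) m → Inner (L (pth P y Z t')) m →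
        ((∀ w, Inner (L (pth P y Z t')) w ↔ Inner (L P) w) ∧
        ∀ W : Finset ι, y ∈ W → (∀ w, Inner (L P) w → w ≠ x → w ∈ W) →
          bb (L P) W = bb (L (pth P y Z t')) W) := by
      intro hm hm'
      constructor
      · intro w
        by_cases hw : w = m
        · rw [hw]
          exact ⟨fun _ => (hin m).1 hm, fun _ => hm'⟩
        · rw [← inner_agree hC hC' h hw]
          exact hin w
      · intro W hyW hW
        have hmW : m ∈ W := hW m ((hin m).1 hm) (Ne.symm hx'.2.1)
        rw [hbb W hyW hW]
        exact bb_mut hC hC' h hmW (fun V hV E hE => ext hgt hE hV hm)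
          (fun V hV E hE => ext hgt' hE hV hm')
    by_cases hym : y = m
    · by_cases hm' : Inner (L (pth P y Z t')) m
      · exact Or.inr (hsame (hym ▸ hyo) hm')
      · left
        have hh := (inner_m' hC hC' h).2 hm'
        refine ⟨pth P y Z t', hgt', ?_, ?_⟩
        · intro w
          by_cases hw : w = m
          · rw [hw]
            exact ⟨fun h2 => absurd h2 hm', fun h2 => absurd hym.symm h2.2⟩
          · rw [← inner_agree hC hC' h hw, hin w, hym]
            exact ⟨fun h2 => ⟨h2, hw⟩, fun h2 => h2.1⟩
        · intro W hyW hW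
          rw [hbb W hyW hW]
          have hmW : m ∉ W.erase y := by
            rw [hym]
            exact Finset.notMem_erase m W
          have h2 := exit_bb hC hC' h hh hmW
            (fun V hV E hE => ext hgt hE hV (hym ▸ hyo))
          rw [← h2, ← hym, Finset.insert_erase hyW]
    · right
      rcases hy' with hyp | hy2 | hyq
      · have h2 := inner_mid_p hC hC' h (hyp ▸ hyo)
        exact hsame h2.1 h2.2
      · exact absurd hy2 hym
      · have h2 := inner_mid_q hC hC' h (hyq ▸ hyo)
        exact hsame h2.1 h2.2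

end Pool.Agent.Work.MP_02cc39_co.PT
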