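import Pool.Agent.Work.MP_02cc39_co.PT.ApexEx
import Pool.Agent.Work.MP_02cc39_co.PT.Ext

set_option autoImplicit false

/-!
# The triangle above an inner point (size M)

All x-coordinates are different. `Up P T w u v`: w u v is a face, u is to the right of w, v is to the left of w (so the vertical ray upwards from w enters the triangle).

PROOFS.
`up_exists`: by `ext` (V = ∅) w is not pointed in T. If all neighbours b of w had (P b).1 < (P w).1 then `ptd_of_strict` with u = (1,0) would make w pointed. So there is a neighbour b with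
(P w).1 < (P b).1; let u be such a neighbour with the largest slope ((P b).2 - (P w).2) / ((P b).1 - (P w).1) (`Finset.exists_max_image`). Some point is to the left of w → u: otherwise all points b other than
w, u satisfy L P w b u, `ptd_of_half_last` (star w, s = u) and `inner_iff` contradict Inner w. `apex_exists` for s(w,u): v with Face w u v. If (P w).1 < (P v).1 then v is a neighbour of w on the right with a slope larger than that of u
(det w u v > 0 means slope(v) > slope(u) for two points to the right): contradiction. So (P v).1 < (P w).1.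
`x_id`: (ring) for w, a, b, c: with x_i := (P i).1 - (P w).1: x_a det(w,b,c) - x_b det(w,a,c) + x_c det(w,a,b) = 0.
`up_unique`: suppose u ≠ u', say L P w u u' (else exchange the two). x_id for a = u, b = u', c = v: x_u det(w,u',v) = x_u' det(w,u,v) - x_v det(w,u,u') > 0, so L P w u' v. So u' is a neighbour of w in the open cone of the face w u v:
`face_cone` gives a contradiction. So u = u', and `face_unique` gives v = v'.
-/

namespace Pool.Agent.Work.MP_02cc39_co.PT

open Classical

variable {ι : Type*} {P : ι → ℝ × ℝ}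

/-- the triangle above `w` -/
structure Up (P : ι → ℝ × ℝ) (T : Finset (Sym2 ι)) (w u v : ι) : Prop where
  xu : (P w).1 < (P u).1
  xv : (P v).1 < (P w).1
  face : Face (L P) T w u v

theorem x_id (P : ι → ℝ × ℝ) (w a b c : ι) : ((P a).1 - (P w).1) * det P w b c - ((P b).1 - (P w).1) * det P w a c +
    ((P c).1 - (P w).1) * det P w a b = 0 := by
  unfold det
  ring

theorem up_exists [Fintype ι] (hP : Gen P) (hx : ∀ i j, i ≠ j → (P i).1 ≠ (P j).1) {T : Finset (Sym2 ι)}
    (hT : Max (L P) ∅ T) {w : ι} (hw : Inner (L P) w) : ∃ u v, Up P T w u v := by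
  have hC := ccL hP
  have hnp : ¬ Ptd (L P) T w := ext hP hT (Finset.notMem_empty w) hw
  have hwne : ∀ b, s(w, b) ∈ T → w ≠ b := by
    intro b hb h
    exact hT.1.nd _ hb (by rw [h]; exact Sym2.mk_isDiag_iff.2 rfl)
  have hex : ∃ b, s(w, b) ∈ T ∧ (P w).1 < (P b).1 := by
    by_contra hcon
    push Not at hcon
    refine hnp (ptd_of_strict hP (1, 0) fun b hb => ?_)
    have h1 := lt_of_le_of_ne (hcon b hb) (hx b w (hwne b hb).symm)
    unfold ht
    simp only [one_mul, zero_mul, add_zero]
    linarith
  obtain ⟨b0, hb0⟩ := hex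
  obtain ⟨u, huS, hmax⟩ := Finset.exists_max_image
    (Finset.univ.filter fun b => s(w, b) ∈ T ∧ (P w).1 < (P b).1)
    (fun b => ((P b).2 - (P w).2) / ((P b).1 - (P w).1)) ⟨b0, by simpa using hb0⟩
  rw [Finset.mem_filter] at huS
  obtain ⟨-, huT, hux⟩ := huS
  have hc : ∃ c, L P w u c := by
    by_contra hcon
    push Not at hcon
    refine (inner_iff (o := L P) w).1 hw (ptd_of_half_last hC (s := u) fun b hb hbu => ?_)
    have hbw : b ≠ w := by
      unfold star at hb
      rw [Finset.mem_filter] at hb
      rintro rfl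
      exact hb.2.2 (Sym2.mk_isDiag_iff.2 rfl)
    exact hC.tot w u b (hwne u huT) hbw.symm hbu.symm (hcon b)
  obtain ⟨v, hface⟩ := apex_exists hP hT huT hc
  have hne := hC.ne _ _ _ hface.l
  refine ⟨u, v, hux, ?_, hface⟩
  by_contra hcon
  rw [not_lt] at hcon
  have hvx : (P w).1 < (P v).1 := lt_of_le_of_ne hcon (hx w v hne.2.1)
  have h1 := hmax v (by
    rw [Finset.mem_filter]
    refine ⟨Finset.mem_univ _, ?_, hvx⟩
    rw [Sym2.eq_swap]
    exact hface.ca)
  have h2 : 0 < ((P u).1 - (P w).1) * ((P v).2 - (P w).2) -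
      ((P u).2 - (P w).2) * ((P v).1 - (P w).1) := hface.l
  rw [div_le_div_iff₀ (by linarith) (by linarith)] at h1
  linarith

private theorem up_unique_aux (hP : Gen P) {T : Finset (Sym2 ι)} (hnc : NonCr (L P) T)
    {w u v u' v' : ι} (h : Up P T w u v) (h' : Up P T w u' v') (hL : L P w u u') : False := by
  have hC := ccL hP
  have hid := x_id P w u u' v
  have h1 : 0 < det P w u v := h.face.l
  have h2 : 0 < det P w u u' := hL
  have hxu := h.xu
  have hxu' := h'.xu
  have hxv := h.xv
  have h3 : 0 < ((P u').1 - (P w).1) * det P w u v := mul_pos (by linarith) h1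
  have h4 : 0 < -((P v).1 - (P w).1) * det P w u u' := mul_pos (by linarith) h2
  have h5 : 0 < ((P u).1 - (P w).1) * det P w u' v := by linarith
  have h6 : 0 < det P w u' v := (pos_iff_pos_of_mul_pos h5).1 (by linarith)
  exact face_cone hC hnc h.face h'.face.ab ⟨hL, h6⟩

theorem up_unique (hP : Gen P) {T : Finset (Sym2 ι)} (hnc : NonCr (L P) T) {w u v u' v' : ι} (h : Up P T w u v)
    (h' : Up P T w u' v') : u = u' ∧ v = v' := by
  have hC := ccL hP
  have huu : u = u' := by
    by_contra hne
    have h1 := hC.ne _ _ _ h.face.l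
    have h2 := hC.ne _ _ _ h'.face.l
    by_cases hL : L P w u u'
    · exact up_unique_aux hP hnc h h' hL
    · exact up_unique_aux hP hnc h' h (hC.tot w u u' h1.1 h2.1 hne hL)
  subst huu
  exact ⟨rfl, face_unique hC hnc h.face h'.face⟩

end Pool.Agent.Work.MP_02cc39_co.PT
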