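import Pool.Agent.Work.MP_02cc39_co.PT.WDefs

set_option autoImplicit false

/-!
# Weighted counting of the graphs of types T1 and T2 (size M)

The model is Count.lean (t1n_insert, t2n_insert): the same bijections, with sums instead of cardinalities. The three edges of K3 are different (p, m, q are different).
PROOFS.
`sum_t1`: a graph of type T1 in Max o V (m ∉ V) contains the three edges (`t1_edges`), so wt x E = x(pq) x(pm) x(mq) wt x (E minus K3) (`Finset.prod_sdiff`).
`sum_t1_insert`: the graphs in Max o (insert m V) of type T1 are the E.erase s(p,m) and the E.erase s(m,q) with E in Max o V of type T1 (`one_erase`, `one_back`; these two kinds are disjoint, both maps are injective): wt x (E.erase s(p,m)) = x(pq) x(mq) wt x (E minus K3) etc.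
`sum_t2_insert`: E ↦ insert s(p,q) E is a bijection onto the graphs F of type T1 in Max o' V (`two_fwd`, `two_back`); F contains the three edges (`t1_edges'`), wt x (F.erase s(p,q)) = x(pm) x(mq) wt x (F minus K3).
Primed versions: the unprimed ones for `mut_symm hC hC' h : Mut o' o q m p` with `t1_symm`, `t2_symm`, `Sym2.eq_swap`, K3 q m p = K3 p m q.
-/

namespace Pool.Agent.Work.MP_02cc39_co.PT

open Classical

variable {ι : Type*} [Fintype ι] {R : Type*} [CommRing R] {o o' : ι → ι → ι → Prop} {p m q : ι}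

private theorem pm_ne_mq (h : Mut o o' p m q) : s(p, m) ≠ s(m, q) := by
  intro he
  rw [Sym2.eq_iff] at he
  rcases he with ⟨h1, -⟩ | ⟨h1, -⟩
  · exact h.pm h1
  · exact h.pq h1

private theorem pq_ne_pm (h : Mut o o' p m q) : s(p, q) ≠ s(p, m) := by
  intro e
  rcases Sym2.eq_iff.1 e with ⟨_, e2⟩ | ⟨e1, _⟩
  · exact h.mq e2.symm
  · exact h.pm e1

private theorem pq_ne_mq (h : Mut o o' p m q) : s(p, q) ≠ s(m, q) := by
  intro e
  rcases Sym2.eq_iff.1 e with ⟨e1, _⟩ | ⟨e1, _⟩
  · exact h.pm e1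
  · exact h.pq e1

private theorem wt_erase (x : Sym2 ι → R) {E K : Finset (Sym2 ι)} (hK : K ⊆ E) {f : Sym2 ι} (hf : f ∈ K) :
    wt x (E.erase f) = wt x (K.erase f) * wt x (E \ K) := by
  unfold wt
  have h1 : (E.erase f) \ (K.erase f) = E \ K := by
    ext e
    simp only [Finset.mem_sdiff, Finset.mem_erase]
    constructor
    · rintro ⟨⟨h1, h2⟩, h3⟩
      exact ⟨h2, fun h4 => h3 ⟨h1, h4⟩⟩
    · rintro ⟨h1, h2⟩
      exact ⟨⟨fun h3 => h2 (h3 ▸ hf), h1⟩, fun h3 => h2 h3.2⟩
  rw [← h1, mul_comm, Finset.prod_sdiff (Finset.erase_subset_erase f hK)]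

private theorem wt_K3 (h : Mut o o' p m q) (x : Sym2 ι → R) :
    wt x (K3 p m q) = x s(p, q) * x s(p, m) * x s(m, q) := by
  unfold wt K3
  rw [Finset.prod_insert, Finset.prod_pair (pm_ne_mq h), mul_assoc]
  simp only [Finset.mem_insert, Finset.mem_singleton, not_or]
  exact ⟨pq_ne_pm h, pq_ne_mq h⟩

private theorem wt_K3_pm (h : Mut o o' p m q) (x : Sym2 ι → R) :
    wt x ((K3 p m q).erase s(p, m)) = x s(p, q) * x s(m, q) := by
  have h1 : (K3 p m q).erase s(p, m) = {s(p, q), s(m, q)} := by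
    ext e
    simp only [K3, Finset.mem_erase, Finset.mem_insert, Finset.mem_singleton]
    constructor
    · rintro ⟨h1, h2 | h2 | h2⟩
      · exact Or.inl h2
      · exact absurd h2 h1
      · exact Or.inr h2
    · rintro (h2 | h2)
      · exact ⟨h2 ▸ pq_ne_pm h, Or.inl h2⟩
      · exact ⟨h2 ▸ (pm_ne_mq h).symm, Or.inr (Or.inr h2)⟩
  rw [h1, wt, Finset.prod_pair (pq_ne_mq h)]

private theorem wt_K3_mq (h : Mut o o' p m q) (x : Sym2 ι → R) :
    wt x ((K3 p m q).erase s(m, q)) = x s(p, q) * x s(p, m) := by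
  have h1 : (K3 p m q).erase s(m, q) = {s(p, q), s(p, m)} := by
    ext e
    simp only [K3, Finset.mem_erase, Finset.mem_insert, Finset.mem_singleton]
    constructor
    · rintro ⟨h1, h2 | h2 | h2⟩
      · exact Or.inl h2
      · exact Or.inr h2
      · exact absurd h2 h1
    · rintro (h2 | h2)
      · exact ⟨h2 ▸ pq_ne_mq h, Or.inl h2⟩
      · exact ⟨h2 ▸ pm_ne_mq h, Or.inr (Or.inl h2)⟩
  rw [h1, wt, Finset.prod_pair (pq_ne_pm h)]

private theorem wt_K3_pq (h : Mut o o' p m q) (x : Sym2 ι → R) :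
    wt x ((K3 p m q).erase s(p, q)) = x s(p, m) * x s(m, q) := by
  have h1 : (K3 p m q).erase s(p, q) = {s(p, m), s(m, q)} := by
    ext e
    simp only [K3, Finset.mem_erase, Finset.mem_insert, Finset.mem_singleton]
    constructor
    · rintro ⟨h1, h2 | h2 | h2⟩
      · exact absurd h2 h1
      · exact Or.inl h2
      · exact Or.inr h2
    · rintro (h2 | h2)
      · exact ⟨h2 ▸ (pq_ne_pm h).symm, Or.inr (Or.inl h2)⟩
      · exact ⟨h2 ▸ (pq_ne_mq h).symm, Or.inr (Or.inr h2)⟩
  rw [h1, wt, Finset.prod_pair (pm_ne_mq h)]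

private theorem K3_sub {E : Finset (Sym2 ι)} (h1 : s(p, q) ∈ E) (h2 : s(p, m) ∈ E ∧ s(m, q) ∈ E) :
    K3 p m q ⊆ E := by
  intro e he
  simp only [K3, Finset.mem_insert, Finset.mem_singleton] at he
  rcases he with rfl | rfl | rfl
  · exact h1
  · exact h2.1
  · exact h2.2

private theorem wt_all (h : Mut o o' p m q) (x : Sym2 ι → R) {E : Finset (Sym2 ι)} (hK : K3 p m q ⊆ E) :
    wt x E = x s(p, q) * x s(p, m) * x s(m, q) * wt x (E \ K3 p m q) := by
  rw [← wt_K3 h x]
  unfold wt
  rw [mul_comm, Finset.prod_sdiff hK]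

private theorem K3_symm (p m q : ι) : K3 q m p = K3 p m q := by
  unfold K3
  rw [Sym2.eq_swap (a := q) (b := p), Sym2.eq_swap (a := q) (b := m), Sym2.eq_swap (a := m) (b := p),
    Finset.pair_comm]

private theorem t1w_symm (o : ι → ι → ι → Prop) (x : Sym2 ι → R) (p m q : ι) (V : Finset ι) :
    t1w o x q m p V = t1w o x p m q V := by
  unfold t1w
  rw [K3_symm]
  refine Finset.sum_congr ?_ fun _ _ => rfl
  ext E
  simp only [Finset.mem_filter, Finset.mem_univ, true_and, t1_symm (p := p) (m := m) (q := q)]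

theorem sum_t1 (hC : CC o) (hC' : CC o') (h : Mut o o' p m q) (x : Sym2 ι → R) {V : Finset ι} (hm : m ∉ V) :
    ∑ E ∈ Finset.univ.filter (fun E : Finset (Sym2 ι) => Max o V E ∧ T1 p m q E), wt x E =
      x s(p, q) * x s(p, m) * x s(m, q) * t1w o x p m q V := by
  rw [t1w, Finset.mul_sum]
  refine Finset.sum_congr rfl fun E hE => ?_
  simp only [Finset.mem_filter, Finset.mem_univ, true_and] at hE
  exact wt_all h x (K3_sub hE.2.1 (t1_edges hC hC' h hm hE.1 hE.2.1))

theorem sum_t1' (hC : CC o) (hC' : CC o') (h : Mut o o' p m q) (x : Sym2 ι → R) {V : Finset ι} (hm : m ∉ V) :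
    ∑ E ∈ Finset.univ.filter (fun E : Finset (Sym2 ι) => Max o' V E ∧ T1 p m q E), wt x E =
      x s(p, q) * x s(p, m) * x s(m, q) * t1w o' x p m q V := by
  rw [t1w, Finset.mul_sum]
  refine Finset.sum_congr rfl fun E hE => ?_
  simp only [Finset.mem_filter, Finset.mem_univ, true_and] at hE
  exact wt_all h x (K3_sub hE.2.1 (t1_edges' hC hC' h hm hE.1 hE.2.1))

theorem sum_t1_insert (hC : CC o) (hC' : CC o') (h : Mut o o' p m q) (x : Sym2 ι → R) {V : Finset ι} (hm : m ∉ V) :
    ∑ E ∈ Finset.univ.filter (fun E : Finset (Sym2 ι) => Max o (insert m V) E ∧ T1 p m q E), wt x E =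
      x s(p, q) * (x s(p, m) + x s(m, q)) * t1w o x p m q V := by
  rw [t1w]
  set S := (Finset.univ.filter fun E : Finset (Sym2 ι) => Max o V E ∧ T1 p m q E) with hS
  have hmem : ∀ E, E ∈ S ↔ Max o V E ∧ T1 p m q E := by
    intro E
    rw [hS]
    simp
  have hne := pm_ne_mq h
  have hedge : ∀ E ∈ S, s(p, m) ∈ E ∧ s(m, q) ∈ E := by
    intro E hE
    obtain ⟨h1, h2⟩ := (hmem E).1 hE
    exact t1_edges hC hC' h hm h1 h2.1
  have hsub : ∀ E ∈ S, K3 p m q ⊆ E := fun E hE => K3_sub ((hmem E).1 hE).2.1 (hedge E hE)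
  have himg : (Finset.univ.filter fun E : Finset (Sym2 ι) => Max o (insert m V) E ∧ T1 p m q E) =
      S.image (fun E => E.erase s(p, m)) ∪ S.image (fun E => E.erase s(m, q)) := by
    ext G
    simp only [Finset.mem_filter, Finset.mem_univ, true_and, Finset.mem_union, Finset.mem_image]
    constructor
    · rintro ⟨hG, hT⟩
      rcases one_back hC hC' h hm hG hT with ⟨h1, -, h3⟩ | ⟨h1, -, h3⟩
      · left
        refine ⟨insert s(p, m) G, (hmem _).2 ⟨h3, ?_⟩, Finset.erase_insert h1⟩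
        obtain ⟨h4, y, hx1, hx2, hx3⟩ := hT
        exact ⟨Finset.mem_insert_of_mem h4, y, hx1, hx2, Finset.mem_insert_of_mem hx3⟩
      · right
        refine ⟨insert s(m, q) G, (hmem _).2 ⟨h3, ?_⟩, Finset.erase_insert h1⟩
        obtain ⟨h4, y, hx1, hx2, hx3⟩ := hT
        exact ⟨Finset.mem_insert_of_mem h4, y, hx1, hx2, Finset.mem_insert_of_mem hx3⟩
    · rintro (⟨E, hE, rfl⟩ | ⟨E, hE, rfl⟩)
      · obtain ⟨h1, h2⟩ := (hmem E).1 hE
        exact one_erase hC hC' h hm h1 h2 (Or.inl rfl)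
      · obtain ⟨h1, h2⟩ := (hmem E).1 hE
        exact one_erase hC hC' h hm h1 h2 (Or.inr rfl)
  have hdis : Disjoint (S.image (fun E => E.erase s(p, m))) (S.image (fun E => E.erase s(m, q))) := by
    rw [Finset.disjoint_left]
    intro G hG hG'
    obtain ⟨E, hE, rfl⟩ := Finset.mem_image.1 hG
    obtain ⟨E', hE', he⟩ := Finset.mem_image.1 hG'
    have h1 : s(m, q) ∈ E.erase s(p, m) := Finset.mem_erase.2 ⟨hne.symm, (hedge E hE).2⟩
    rw [← he] at h1
    exact (Finset.mem_erase.1 h1).1 rfl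
  rw [himg, Finset.sum_union hdis, Finset.sum_image, Finset.sum_image, ← Finset.sum_add_distrib, Finset.mul_sum]
  · refine Finset.sum_congr rfl fun E hE => ?_
    have hK := hsub E hE
    rw [wt_erase x hK (f := s(p, m)) (by simp [K3]), wt_erase x hK (f := s(m, q)) (by simp [K3]),
      wt_K3_pm h x, wt_K3_mq h x]
    ring
  · intro E hE E' hE' he
    have h1 := (hedge E hE).2
    have h2 := (hedge E' hE').2
    have he' : E.erase s(m, q) = E'.erase s(m, q) := he
    rw [← Finset.insert_erase h1, ← Finset.insert_erase h2, he']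
  · intro E hE E' hE' he
    have h1 := (hedge E hE).1
    have h2 := (hedge E' hE').1
    have he' : E.erase s(p, m) = E'.erase s(p, m) := he
    rw [← Finset.insert_erase h1, ← Finset.insert_erase h2, he']

theorem sum_t1_insert' (hC : CC o) (hC' : CC o') (h : Mut o o' p m q) (x : Sym2 ι → R) {V : Finset ι} (hm : m ∉ V) :
    ∑ E ∈ Finset.univ.filter (fun E : Finset (Sym2 ι) => Max o' (insert m V) E ∧ T1 p m q E), wt x E =
      x s(p, q) * (x s(p, m) + x s(m, q)) * t1w o' x p m q V := by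
  have h1 := sum_t1_insert hC' hC (mut_symm hC hC' h) x hm
  simp only [t1_symm (p := p) (m := m) (q := q)] at h1
  rw [t1w_symm o' x p m q V, Sym2.eq_swap (a := q) (b := p), Sym2.eq_swap (a := q) (b := m),
    Sym2.eq_swap (a := m) (b := p)] at h1
  rw [h1, add_comm (x s(m, q))]

theorem sum_t2_insert (hC : CC o) (hC' : CC o') (h : Mut o o' p m q) (x : Sym2 ι → R) {V : Finset ι} (hm : m ∉ V) :
    ∑ E ∈ Finset.univ.filter (fun E : Finset (Sym2 ι) => Max o (insert m V) E ∧ T2 p m q E), wt x E =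
      x s(p, m) * x s(m, q) * t1w o' x p m q V := by
  have hedge : ∀ F, Max o' V F → T1 p m q F → K3 p m q ⊆ F := fun F hF hT =>
    K3_sub hT.1 (t1_edges' hC hC' h hm hF hT.1)
  rw [t1w, Finset.mul_sum]
  refine Finset.sum_bij' (fun E _ => insert s(p, q) E) (fun F _ => F.erase s(p, q)) ?_ ?_ ?_ ?_ ?_
  · intro E hE
    simp only [Finset.mem_filter, Finset.mem_univ, true_and] at hE ⊢
    exact two_fwd hC hC' h hm hE.1 hE.2
  · intro F hF
    simp only [Finset.mem_filter, Finset.mem_univ, true_and] at hF ⊢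
    exact two_back hC hC' h hm hF.1 hF.2
  · intro E hE
    simp only [Finset.mem_filter, Finset.mem_univ, true_and] at hE
    exact Finset.erase_insert hE.2.2.2.1
  · intro F hF
    simp only [Finset.mem_filter, Finset.mem_univ, true_and] at hF
    exact Finset.insert_erase hF.2.1
  · intro E hE
    simp only [Finset.mem_filter, Finset.mem_univ, true_and] at hE
    obtain ⟨h1, h2⟩ := two_fwd hC hC' h hm hE.1 hE.2
    have h3 := wt_erase x (hedge _ h1 h2) (f := s(p, q)) (by simp [K3])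
    rw [wt_K3_pq h x, Finset.erase_insert hE.2.2.2.1] at h3
    exact h3

theorem sum_t2_insert' (hC : CC o) (hC' : CC o') (h : Mut o o' p m q) (x : Sym2 ι → R) {V : Finset ι} (hm : m ∉ V) :
    ∑ E ∈ Finset.univ.filter (fun E : Finset (Sym2 ι) => Max o' (insert m V) E ∧ T2 p m q E), wt x E =
      x s(p, m) * x s(m, q) * t1w o x p m q V := by
  have h1 := sum_t2_insert hC' hC (mut_symm hC hC' h) x hm
  simp only [t2_symm (p := p) (m := m) (q := q)] at h1
  rw [t1w_symm o x p m q V, Sym2.eq_swap (a := q) (b := m),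
    Sym2.eq_swap (a := m) (b := p)] at h1
  rw [h1, mul_comm (x s(m, q))]

end Pool.Agent.Work.MP_02cc39_co.PT
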