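import Pool.Agent.Work.MP_02cc39_co.PT.ExitB
import Pool.Agent.Work.MP_02cc39_co.PT.InnerMut
import Pool.Agent.Work.MP_02cc39_co.PT.CCL

set_option autoImplicit false

/-!
# Weighted sums over all pseudotriangulations: definitions (fixed)
-/

namespace Pool.Agent.Work.MP_02cc39_co.PT

open Classical

variable {ι : Type*} [Fintype ι] {R : Type*} [CommRing R]

/-- the weight of a graph -/
noncomputable def wt (x : Sym2 ι → R) (E : Finset (Sym2 ι)) : R := ∏ e ∈ E, x e

/-- the weighted number `a_V` -/
noncomputable def wcnt (o : ι → ι → ι → Prop) (x : Sym2 ι → R) (V : Finset ι) : R := ∑ E ∈ MaxSet o V, wt x E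

/-- the inner points -/
noncomputable def innO (o : ι → ι → ι → Prop) : Finset ι := Finset.univ.filter fun w => Inner o w

/-- the weighted sum over all pseudotriangulations; the inner points `w` which are not pointed get the weight `y w` -/
noncomputable def HH (o : ι → ι → ι → Prop) (x : Sym2 ι → R) (y : ι → R) : R :=
  ∑ V ∈ (innO o).powerset, (∏ w ∈ innO o \ V, y w) * wcnt o x V

/-- the condition on the weights for a mutation with the middle point `m` -/
def Cond (x : Sym2 ι → R) (y : ι → R) (p m q : ι) : Prop :=
  y m * (x s(p, q) * x s(p, m) * x s(m, q)) + x s(p, q) * (x s(p, m) + x s(m, q)) = x s(p, m) * x s(m, q)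

/-- the three edges of the triple -/
noncomputable def K3 (p m q : ι) : Finset (Sym2 ι) := {s(p, q), s(p, m), s(m, q)}

/-- the weights of the graphs of type T1 without the three edges -/
noncomputable def t1w (o : ι → ι → ι → Prop) (x : Sym2 ι → R) (p m q : ι) (V : Finset ι) : R :=
  ∑ E ∈ Finset.univ.filter (fun E : Finset (Sym2 ι) => Max o V E ∧ T1 p m q E), wt x (E \ K3 p m q)

end Pool.Agent.Work.MP_02cc39_co.PT
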