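import Pool.Agent.Work.MP_02cc39_co.PT.WLaw
import Pool.Agent.Work.MP_02cc39_co.PT.Ext

set_option autoImplicit false

/-!
# The weighted sum does not change at a mutation (size M)

o := L P, o' := L Q (CC by `ccL`), hX, hX' from `ext`.
PROOF of `hh_mut`. By `inner_agree` innO o and innO o' agree except possibly at m. Four cases.
(1) Inner o m and Inner o' m: I := innO o = innO o', write I = insert m J, J = I.erase m, `Finset.sum_powerset_insert`: HH o x y = ∑ V ∈ J.powerset, (∏ w ∈ J minus V, y w) * (y m * wcnt o x V + wcnt o x (insert m V)), because (insert m J) minus V = insert m (J minus V) and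
 (insert m J) minus (insert m V) = J minus V. `wlaw`.
(2) Inner o m, not Inner o' m: innO o = insert m J, innO o' = J, all other points z satisfy o p q z (`inner_m'`): `wexit`.
(3) not Inner o m, Inner o' m: the same for `mut_symm` (Cond x y q m p is Cond x y p m q up to commutativity and `Sym2.eq_swap`).
(4) neither: by `inner_m` and `inner_m'` there is no point besides p, m, q. Then no four points are different, so nothing crosses: Fam o ∅ E ↔ Fam o' ∅ E ↔ all edges of E are not diagonal, so MaxSet o ∅ = MaxSet o' ∅. innO o = innO o' (`inner_agree`, both false at m) and p, q are not inner for o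
 (`inner_mid_p`, `inner_mid_q` would make m inner), so innO o = ∅ and HH o x y = wcnt o x ∅ = wcnt o' x ∅.
-/

namespace Pool.Agent.Work.MP_02cc39_co.PT

open Classical

variable {ι : Type*} [Fintype ι] {R : Type*} [CommRing R] {p m q : ι}

private theorem hh_insert {o : ι → ι → ι → Prop} {x : Sym2 ι → R} {y : ι → R} {J : Finset ι}
    (hmJ : m ∉ J) (hI : innO o = insert m J) :
    HH o x y = ∑ V ∈ J.powerset,
      (∏ w ∈ J \ V, y w) * (y m * wcnt o x V + wcnt o x (insert m V)) := by
  unfold HH
  rw [hI, Finset.sum_powerset_insert hmJ, ← Finset.sum_add_distrib]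
  refine Finset.sum_congr rfl fun V hV => ?_
  have hVJ : V ⊆ J := Finset.mem_powerset.1 hV
  have hmV : m ∉ V := fun h => hmJ (hVJ h)
  have e1 : insert m J \ V = insert m (J \ V) := by
    ext w
    simp only [Finset.mem_sdiff, Finset.mem_insert]
    constructor
    · rintro ⟨h1 | h1, h2⟩
      · exact Or.inl h1
      · exact Or.inr ⟨h1, h2⟩
    · rintro (h1 | ⟨h1, h2⟩)
      · exact ⟨Or.inl h1, by rw [h1]; exact hmV⟩
      · exact ⟨Or.inr h1, h2⟩
  have e2 : insert m J \ insert m V = J \ V := by
    ext w
    simp only [Finset.mem_sdiff, Finset.mem_insert]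
    constructor
    · rintro ⟨h1 | h1, h2⟩
      · exact absurd (Or.inl h1) h2
      · exact ⟨h1, fun h => h2 (Or.inr h)⟩
    · rintro ⟨h1, h2⟩
      refine ⟨Or.inr h1, ?_⟩
      rintro (h | h)
      · exact hmJ (h ▸ h1)
      · exact h2 h
  have e3 : m ∉ J \ V := fun h => hmJ (Finset.mem_sdiff.1 h).1
  rw [e1, e2, Finset.prod_insert e3]
  ring

private theorem inn_out {o o' : ι → ι → ι → Prop} (hC : CC o) (hC' : CC o') (h : Mut o o' p m q)
    (h1 : Inner o m) (h2 : ¬ Inner o' m) : innO o = insert m (innO o') ∧ m ∉ innO o' := by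
  constructor
  · ext w
    unfold innO
    simp only [Finset.mem_insert, Finset.mem_filter, Finset.mem_univ, true_and]
    by_cases hw : w = m
    · subst hw
      exact ⟨fun _ => Or.inl rfl, fun _ => h1⟩
    · rw [inner_agree hC hC' h hw]
      exact ⟨Or.inr, fun h => h.resolve_left hw⟩
  · intro hm
    exact h2 (Finset.mem_filter.1 hm).2

private theorem out_case {P Q : ι → ℝ × ℝ} (hP : Gen P) (hQ : Gen Q) (h : Mut (L P) (L Q) p m q)
    {x : Sym2 ι → R} {y : ι → R} (hc : Cond x y p m q) (h1 : Inner (L P) m)
    (h2 : ¬ Inner (L Q) m) : HH (L P) x y = HH (L Q) x y := by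
  have hC := ccL hP
  have hC' := ccL hQ
  obtain ⟨hI, hm⟩ := inn_out hC hC' h h1 h2
  rw [hh_insert hm hI]
  unfold HH
  refine Finset.sum_congr rfl fun V hV => ?_
  have hVJ := Finset.mem_powerset.1 hV
  have hmV : m ∉ V := fun hh => hm (hVJ hh)
  rw [wexit hC hC' h ((inner_m' hC hC' h).2 h2) hc hmV (fun E hE => ext hP hE hmV h1)]

omit [Fintype ι] in
private theorem fam_small {o : ι → ι → ι → Prop} (hall : ∀ z : ι, z = p ∨ z = m ∨ z = q)
    (E : Finset (Sym2 ι)) : Fam o ∅ E ↔ ∀ e ∈ E, ¬ e.IsDiag := by
  constructor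
  · exact fun h => h.nd
  · intro hnd
    refine ⟨hnd, ?_, fun v hv => absurd hv (Finset.notMem_empty v)⟩
    intro a b c d hab hcd h1 h2 h3 h4 _
    have hab' : a ≠ b := fun hh => hnd _ hab (Sym2.mk_isDiag_iff.2 hh)
    have hcd' : c ≠ d := fun hh => hnd _ hcd (Sym2.mk_isDiag_iff.2 hh)
    clear hab hcd
    rcases hall a with ha | ha | ha <;> rcases hall b with hb | hb | hb <;>
      rcases hall c with hc | hc | hc <;> rcases hall d with hd | hd | hd <;> subst ha <;>
      first
      | exact hab' hb.symm
      | exact h1 hc.symm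
      | exact h2 hd.symm
      | exact h3 (hb.trans hc.symm)
      | exact h4 (hb.trans hd.symm)
      | exact hcd' (hc.trans hd.symm)

private theorem max_small {o o' : ι → ι → ι → Prop} (hall : ∀ z : ι, z = p ∨ z = m ∨ z = q) :
    MaxSet o ∅ = MaxSet o' ∅ := by
  unfold MaxSet
  ext E
  simp only [Finset.mem_filter, Finset.mem_univ, true_and]
  unfold Max
  simp only [fam_small hall]

theorem hh_mut {P Q : ι → ℝ × ℝ} (hP : Gen P) (hQ : Gen Q) (h : Mut (L P) (L Q) p m q) {x : Sym2 ι → R} {y : ι → R}
    (hc : Cond x y p m q) : HH (L P) x y = HH (L Q) x y := by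
  have hC := ccL hP
  have hC' := ccL hQ
  by_cases h1 : Inner (L P) m <;> by_cases h2 : Inner (L Q) m
  · -- inner before and after
    have hI : innO (L P) = innO (L Q) := by
      ext w
      unfold innO
      simp only [Finset.mem_filter, Finset.mem_univ, true_and]
      by_cases hw : w = m
      · subst hw
        exact ⟨fun _ => h2, fun _ => h1⟩
      · exact inner_agree hC hC' h hw
    have hm : m ∈ innO (L Q) := Finset.mem_filter.2 ⟨Finset.mem_univ _, h2⟩
    have hmJ : m ∉ (innO (L Q)).erase m := Finset.notMem_erase m _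
    have hJ : innO (L Q) = insert m ((innO (L Q)).erase m) := (Finset.insert_erase hm).symm
    rw [hh_insert hmJ (hI.trans hJ), hh_insert hmJ hJ]
    refine Finset.sum_congr rfl fun V hV => ?_
    have hVJ := Finset.mem_powerset.1 hV
    have hmV : m ∉ V := fun hh => hmJ (hVJ hh)
    rw [wlaw hC hC' h hc hmV (fun E hE => ext hP hE hmV h1) (fun E hE => ext hQ hE hmV h2)]
  · exact out_case hP hQ h hc h1 h2
  · refine (out_case hQ hP (mut_symm hC hC' h) ?_ h2 h1).symm
    unfold Cond at hc ⊢
    rw [Sym2.eq_swap (a := q) (b := p), Sym2.eq_swap (a := q) (b := m),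
      Sym2.eq_swap (a := m) (b := p)]
    linear_combination hc
  · -- there are only three points
    have e1 := (inner_m hC h).2 h1
    have e2 := (inner_m' hC hC' h).2 h2
    have hall : ∀ z : ι, z = p ∨ z = m ∨ z = q := by
      intro z
      by_contra hz
      push Not at hz
      exact e1 z hz.1 hz.2.1 hz.2.2 (e2 z hz.1 hz.2.1 hz.2.2)
    have f1 : innO (L P) = ∅ := by
      rw [Finset.eq_empty_iff_forall_notMem]
      intro w hw
      have hw' : Inner (L P) w := (Finset.mem_filter.1 hw).2
      rcases hall w with rfl | rfl | rfl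
      · exact h1 (inner_mid_p hC hC' h hw').1
      · exact h1 hw'
      · exact h1 (inner_mid_q hC hC' h hw').1
    have f2 : innO (L Q) = ∅ := by
      rw [Finset.eq_empty_iff_forall_notMem]
      intro w hw
      have hw' : Inner (L Q) w := (Finset.mem_filter.1 hw).2
      have hs := mut_symm hC hC' h
      rcases hall w with rfl | rfl | rfl
      · exact h2 (inner_mid_q hC' hC hs hw').1
      · exact h2 hw'
      · exact h2 (inner_mid_p hC' hC hs hw').1
    unfold HH
    rw [f1, f2]
    simp only [Finset.powerset_empty, Finset.sum_singleton]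
    unfold wcnt
    rw [max_small (o := L P) (o' := L Q) hall]

end Pool.Agent.Work.MP_02cc39_co.PT
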