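import Pool.Agent.Work.MP_02cc39_co.PT.WCount

set_option autoImplicit false

/-!
# The weighted mutation law and the weighted exit law (size M)

The models are Law.lean (mutation_law) and ExitB.lean (exit_law).
PROOFS. Let X1 := x(pq) x(pm) x(mq), X2 := x(pq) (x(pm) + x(mq)), X3 := x(pm) x(mq), t := t1w o x p m q V, t' := t1w o' x p m q V. Cond says y m * X1 + X2 = X3.
`wlaw`: wcnt o x V = X1 t + r, wcnt o' x V = X1 t' + r with the same r (sum over the graphs not of type T1; `rest_notMem`), wcnt o x (insert m V) = X2 t + X3 t' + r2, wcnt o' x (insert m V) = X2 t' + X3 t + r2 with the same r2 (the proof of `rest_mem` in Count.lean shows that the two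
filtered sets are equal: use `lawB`). The difference of the two sides is (y m X1 + X2 - X3) (t - t') = 0.
`wexit`: all graphs in Max o V are of type T1 (`exit_t1`): wcnt o x V = X1 t. Max o (insert m V): no T2 (`hull_edge`), so wcnt o x (insert m V) = X2 t + r2. In o': Max o' (insert m V) = Max o' V (`exit_max'`), no T1 (see the proof of exit_law), so wcnt o' x V = X3 t + r2 (`sum_t2_insert'`).
Hence y m * wcnt o x V + wcnt o x (insert m V) = (y m X1 + X2) t + r2 = X3 t + r2.
-/

namespace Pool.Agent.Work.MP_02cc39_co.PT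

open Classical

variable {ι : Type*} [Fintype ι] {R : Type*} [CommRing R] {o o' : ι → ι → ι → Prop} {p m q : ι}

private theorem wcnt_T1 (o : ι → ι → ι → Prop) (x : Sym2 ι → R) (p m q : ι) (V : Finset ι) :
    wcnt o x V = ∑ E ∈ Finset.univ.filter (fun E : Finset (Sym2 ι) => Max o V E ∧ T1 p m q E), wt x E +
      ∑ E ∈ Finset.univ.filter (fun E : Finset (Sym2 ι) => Max o V E ∧ ¬ T1 p m q E), wt x E := by
  unfold wcnt MaxSet
  rw [← Finset.filter_filter, ← Finset.filter_filter, Finset.sum_filter_add_sum_filter_not]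

private theorem wcnt_T12 (o : ι → ι → ι → Prop) (x : Sym2 ι → R) (p m q : ι) (V : Finset ι) :
    wcnt o x V = ∑ E ∈ Finset.univ.filter (fun E : Finset (Sym2 ι) => Max o V E ∧ T1 p m q E), wt x E +
      ∑ E ∈ Finset.univ.filter (fun E : Finset (Sym2 ι) => Max o V E ∧ T2 p m q E), wt x E +
      ∑ E ∈ Finset.univ.filter (fun E : Finset (Sym2 ι) => Max o V E ∧ ¬ T1 p m q E ∧ ¬ T2 p m q E), wt x E := by
  have h1 : MaxSet o V =
      ((Finset.univ.filter fun E : Finset (Sym2 ι) => Max o V E ∧ T1 p m q E) ∪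
        (Finset.univ.filter fun E : Finset (Sym2 ι) => Max o V E ∧ T2 p m q E)) ∪
        (Finset.univ.filter fun E : Finset (Sym2 ι) => Max o V E ∧ ¬ T1 p m q E ∧ ¬ T2 p m q E) := by
    ext E
    simp only [MaxSet, Finset.mem_filter, Finset.mem_univ, true_and, Finset.mem_union]
    tauto
  rw [wcnt, h1, Finset.sum_union, Finset.sum_union]
  · rw [Finset.disjoint_left]
    intro E hE hE'
    simp only [Finset.mem_filter, Finset.mem_univ, true_and] at hE hE'
    exact hE'.2.2.2.1 hE.2.1
  · rw [Finset.disjoint_left]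
    intro E hE hE'
    simp only [Finset.mem_filter, Finset.mem_univ, true_and, Finset.mem_union] at hE hE'
    tauto

private theorem rest_eq (hC : CC o) (hC' : CC o') (h : Mut o o' p m q) {V : Finset ι} (hm : m ∈ V) :
    (Finset.univ.filter fun E : Finset (Sym2 ι) => Max o V E ∧ ¬ T1 p m q E ∧ ¬ T2 p m q E) =
      Finset.univ.filter fun E : Finset (Sym2 ι) => Max o' V E ∧ ¬ T1 p m q E ∧ ¬ T2 p m q E := by
  ext E
  simp only [Finset.mem_filter, Finset.mem_univ, true_and]
  constructor
  · rintro ⟨hE, hT1, hT2⟩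
    exact ⟨lawB hC hC' h hm hE hT1 hT2, hT1, hT2⟩
  · rintro ⟨hE, hT1, hT2⟩
    exact ⟨lawB hC' hC (mut_symm hC hC' h) hm hE (fun hc => hT1 (t1_symm.1 hc))
      (fun hc => hT2 (t2_symm.1 hc)), hT1, hT2⟩

theorem wlaw (hC : CC o) (hC' : CC o') (h : Mut o o' p m q) {x : Sym2 ι → R} {y : ι → R} (hc : Cond x y p m q)
    {V : Finset ι} (hm : m ∉ V) (hX : ∀ E, Max o V E → ¬ Ptd o E m) (hX' : ∀ E, Max o' V E → ¬ Ptd o' E m) :
    y m * wcnt o x V + wcnt o x (insert m V) = y m * wcnt o' x V + wcnt o' x (insert m V) := by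
  have h1 := wcnt_T1 o x p m q V
  have h2 := wcnt_T1 o' x p m q V
  rw [← rest_notMem hC hC' h hm hX hX', sum_t1' hC hC' h x hm] at h2
  rw [sum_t1 hC hC' h x hm] at h1
  have h3 := wcnt_T12 o x p m q (insert m V)
  have h4 := wcnt_T12 o' x p m q (insert m V)
  rw [sum_t1_insert hC hC' h x hm, sum_t2_insert hC hC' h x hm] at h3
  rw [sum_t1_insert' hC hC' h x hm, sum_t2_insert' hC hC' h x hm,
    ← rest_eq hC hC' h (Finset.mem_insert_self m V)] at h4
  rw [h1, h2, h3, h4]
  unfold Cond at hc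
  linear_combination (t1w o x p m q V - t1w o' x p m q V) * hc

theorem wexit (hC : CC o) (hC' : CC o') (h : Mut o o' p m q) (hh : ∀ x, x ≠ p → x ≠ m → x ≠ q → o p q x)
    {x : Sym2 ι → R} {y : ι → R} (hc : Cond x y p m q) {V : Finset ι} (hm : m ∉ V)
    (hX : ∀ E, Max o V E → ¬ Ptd o E m) : y m * wcnt o x V + wcnt o x (insert m V) = wcnt o' x V := by
  have hh0 : ∀ z, z ≠ p → z ≠ q → o p q z := by
    intro z hzp hzq
    by_cases hzm : z = m
    · rw [hzm]; exact h.up
    · exact hh z hzp hzm hzq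
  have hT1all : ∀ E, Max o V E → T1 p m q E := fun E hE => exit_t1 hC hC' h hh hE (hX E hE)
  -- the graphs in Max o V
  have h1 : wcnt o x V = x s(p, q) * x s(p, m) * x s(m, q) * t1w o x p m q V := by
    rw [← sum_t1 hC hC' h x hm, wcnt, MaxSet]
    refine Finset.sum_congr ?_ fun _ _ => rfl
    ext E
    simp only [Finset.mem_filter, Finset.mem_univ, true_and]
    exact ⟨fun hE => ⟨hE, hT1all E hE⟩, fun hE => hE.1⟩
  -- no graph of type T2 in o
  have h2 : ∑ E ∈ Finset.univ.filter (fun E : Finset (Sym2 ι) => Max o (insert m V) E ∧ T2 p m q E), wt x E = 0 := by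
    refine Finset.sum_eq_zero fun E hE => ?_
    simp only [Finset.mem_filter, Finset.mem_univ, true_and] at hE
    exact absurd (hull_edge hC h.pq hh0 hE.1) hE.2.2.2.1
  have h3 := wcnt_T12 o x p m q (insert m V)
  rw [sum_t1_insert hC hC' h x hm, h2, add_zero] at h3
  -- no graph of type T1 in o'
  have hT1no : ∀ E, Max o' (insert m V) E → ¬ T1 p m q E := by
    intro E hE hT
    obtain ⟨hpq, z, hzp, hzq, hmz⟩ := hT
    have hzm : z ≠ m := by
      intro e
      rw [e] at hmz
      exact hE.1.nd _ hmz rfl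
    exact hE.1.nc p q m z hpq hmz h.pm hzp.symm (Ne.symm h.mq) hzq.symm
      ((cross_pqmx' hC hC' h hzp hzm hzq).2 (hh z hzp hzm hzq))
  have h6 : ∑ E ∈ Finset.univ.filter (fun E : Finset (Sym2 ι) => Max o' (insert m V) E ∧ T1 p m q E), wt x E = 0 := by
    refine Finset.sum_eq_zero fun E hE => ?_
    simp only [Finset.mem_filter, Finset.mem_univ, true_and] at hE
    exact absurd hE.2 (hT1no E hE.1)
  have h7 := wcnt_T12 o' x p m q (insert m V)
  rw [h6, sum_t2_insert' hC hC' h x hm, zero_add, ← rest_eq hC hC' h (Finset.mem_insert_self m V)] at h7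
  have h8 : wcnt o' x (insert m V) = wcnt o' x V := by
    unfold wcnt MaxSet
    refine Finset.sum_congr ?_ fun _ _ => rfl
    ext E
    simp only [Finset.mem_filter, Finset.mem_univ, true_and]
    exact exit_max' hC hC' h hh
  rw [← h8, h7, h1, h3]
  unfold Cond at hc
  linear_combination (t1w o x p m q V) * hc

end Pool.Agent.Work.MP_02cc39_co.PT
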